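import Pool.Agent.Lib.MP_ff3fe0_an_SPH2.GeoA

set_option autoImplicit false

/-!
# The area of the intersection of two annuli
-/

namespace Pool.Agent.Lib.MP_ff3fe0_an_SPH2

open MeasureTheory Metric Set
open scoped ENNReal NNReal ContDiff FourierTransform
open Pool.Agent.Lib.MP_ff3fe0_an
open Pool.Agent.Lib.MP_ff3fe0_an_SPH

/-- The intersection of two annuli. -/
def ann (x x' : E 2) (t t' δ : ℝ) : Set (E 2) :=
  {y | |‖x - y‖ - t| ≤ 2 * δ ∧ |‖x' - y‖ - t'| ≤ 2 * δ}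

private theorem AreaA_nsq (v : E 2) : ‖v‖ ^ 2 = v 0 ^ 2 + v 1 ^ 2 := by
  rw [EuclideanSpace.norm_sq_eq]
  simp [Fin.sum_univ_two]

private theorem AreaA_inner (u v : E 2) : inner ℝ u v = u 0 * v 0 + u 1 * v 1 := by
  rw [PiLp.inner_apply, Fin.sum_univ_two]
  simp [mul_comm]

/-- the identity of Lagrange -/
private theorem AreaA_lag (u v : E 2) :
    inner ℝ u v ^ 2 + dt u v ^ 2 = ‖u‖ ^ 2 * ‖v‖ ^ 2 := by
  rw [AreaA_nsq, AreaA_nsq, AreaA_inner, dt]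
  ring

/-- the slices -/
private theorem AreaA_slice {a α c w : ℝ} (hα : 0 ≤ α) (hc : 0 < c) :
    volume {v : ℝ | v ^ 2 + w ^ 2 ∈ Icc a (a + α) ∧ c ≤ |v|} ≤ ENNReal.ofReal (α / c) := by
  have h1 : {v : ℝ | v ^ 2 + w ^ 2 ∈ Icc a (a + α) ∧ c ≤ |v|} ⊆
      {v : ℝ | v ^ 2 + w ^ 2 ∈ Icc a (a + α) ∧ c ≤ v} ∪
        {v : ℝ | v ^ 2 + w ^ 2 ∈ Icc a (a + α) ∧ c ≤ -v} := by
    rintro v ⟨h, h'⟩
    rcases le_abs.1 h' with h' | h'
    · exact Or.inl ⟨h, h'⟩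
    · exact Or.inr ⟨h, h'⟩
  have h2 : volume {v : ℝ | v ^ 2 + w ^ 2 ∈ Icc a (a + α) ∧ c ≤ v} ≤
      ENNReal.ofReal (α / (2 * c)) := by
    refine (Real.volume_le_diam _).trans ?_
    refine ediam_le fun v hv v' hv' => ?_
    rw [edist_dist, Real.dist_eq]
    refine ENNReal.ofReal_le_ofReal ?_
    rw [le_div_iff₀ (by positivity)]
    have h3 : |v ^ 2 - v' ^ 2| ≤ α := by
      rw [abs_le]
      constructor <;> linarith [hv.1.1, hv.1.2, hv'.1.1, hv'.1.2]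
    have h4 : v ^ 2 - v' ^ 2 = (v - v') * (v + v') := by ring
    rw [h4, abs_mul] at h3
    have h5 : 2 * c ≤ |v + v'| := by
      have := le_abs_self (v + v')
      linarith [hv.2, hv'.2]
    exact (mul_le_mul_of_nonneg_left h5 (abs_nonneg _)).trans h3
  have h3 : volume {v : ℝ | v ^ 2 + w ^ 2 ∈ Icc a (a + α) ∧ c ≤ -v} ≤
      ENNReal.ofReal (α / (2 * c)) := by
    refine (Real.volume_le_diam _).trans ?_
    refine ediam_le fun v hv v' hv' => ?_
    rw [edist_dist, Real.dist_eq]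
    refine ENNReal.ofReal_le_ofReal ?_
    rw [le_div_iff₀ (by positivity)]
    have h3 : |v ^ 2 - v' ^ 2| ≤ α := by
      rw [abs_le]
      constructor <;> linarith [hv.1.1, hv.1.2, hv'.1.1, hv'.1.2]
    have h4 : v ^ 2 - v' ^ 2 = (v - v') * (v + v') := by ring
    rw [h4, abs_mul] at h3
    have h5 : 2 * c ≤ |v + v'| := by
      have := neg_le_abs (v + v')
      linarith [hv.2, hv'.2]
    exact (mul_le_mul_of_nonneg_left h5 (abs_nonneg _)).trans h3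
  refine (measure_mono h1).trans ((measure_union_le _ _).trans ((add_le_add h2 h3).trans ?_))
  rw [← ENNReal.ofReal_add (by positivity) (by positivity)]
  refine ENNReal.ofReal_le_ofReal (le_of_eq ?_)
  field_simp
  ring

/-- the model set -/
private theorem AreaA_model {a α b β c : ℝ} (hα : 0 ≤ α) (hc : 0 < c) :
    volume {v : E 2 | v 0 ^ 2 + v 1 ^ 2 ∈ Icc a (a + α) ∧ v 1 ∈ Icc b (b + β) ∧ c ≤ |v 0|} ≤
      ENNReal.ofReal (α * β / c) := by
  set T : Set (ℝ × ℝ) := {p | p.1 ^ 2 + p.2 ^ 2 ∈ Icc a (a + α) ∧ p.2 ∈ Icc b (b + β) ∧ c ≤ |p.1|}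
    with hT
  have hTc : IsClosed T := by
    have e : T = (fun p : ℝ × ℝ => p.1 ^ 2 + p.2 ^ 2) ⁻¹' Icc a (a + α) ∩
        ((fun p : ℝ × ℝ => p.2) ⁻¹' Icc b (b + β) ∩ (fun p : ℝ × ℝ => |p.1|) ⁻¹' Ici c) := rfl
    rw [e]
    exact (isClosed_Icc.preimage (by fun_prop)).inter
      ((isClosed_Icc.preimage (by fun_prop)).inter (isClosed_Ici.preimage (by fun_prop)))
  have hTm : MeasurableSet T := hTc.measurableSet
  have hmp : MeasurePreserving (fun v : E 2 => (v 0, v 1)) :=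
    (volume_preserving_finTwoArrow ℝ).comp (PiLp.volume_preserving_ofLp (Fin 2))
  have e1 : {v : E 2 | v 0 ^ 2 + v 1 ^ 2 ∈ Icc a (a + α) ∧ v 1 ∈ Icc b (b + β) ∧ c ≤ |v 0|} =
      (fun v : E 2 => (v 0, v 1)) ⁻¹' T := rfl
  rw [e1, hmp.measure_preimage hTm.nullMeasurableSet, Measure.volume_eq_prod,
    Measure.prod_apply_symm hTm]
  have h1 : ∀ w : ℝ, volume ((fun v : ℝ => (v, w)) ⁻¹' T) ≤
      (Icc b (b + β)).indicator (fun _ => ENNReal.ofReal (α / c)) w := by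
    intro w
    by_cases hw : w ∈ Icc b (b + β)
    · rw [indicator_of_mem hw]
      refine (measure_mono ?_).trans (AreaA_slice (a := a) (w := w) hα hc)
      rintro v ⟨h, -, h'⟩
      exact ⟨h, h'⟩
    · rw [indicator_of_notMem hw]
      have : (fun v : ℝ => (v, w)) ⁻¹' T = ∅ := by
        ext v
        simp only [mem_preimage, mem_empty_iff_false, iff_false]
        rintro ⟨-, h, -⟩
        exact hw h
      rw [this, measure_empty]
  refine (lintegral_mono h1).trans ?_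
  rw [lintegral_indicator measurableSet_Icc, setLIntegral_const, Real.volume_Icc,
    ← ENNReal.ofReal_mul (by positivity)]
  refine ENNReal.ofReal_le_ofReal (le_of_eq ?_)
  ring

/-- the main lemma -/
private theorem AreaA_main {e : E 2} (he : ‖e‖ = 1) (x : E 2) {a α b β c : ℝ} (hα : 0 ≤ α)
    (hc : 0 < c) :
    volume {y : E 2 | ‖x - y‖ ^ 2 ∈ Icc a (a + α) ∧ inner ℝ (y - x) e ∈ Icc b (b + β) ∧
      c ≤ |dt (y - x) e|} ≤ ENNReal.ofReal (α * β / c) := by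
  set f : E 2 := EuclideanSpace.single 1 1 with hf
  have hf1 : ‖f‖ = 1 := by simp [hf]
  set A := (ℝ ∙ (f - e))ᗮ.reflection with hA
  have hAf : A f = e := Submodule.reflection_sub (by rw [hf1, he])
  set S : Set (E 2) := {u | ‖u‖ ^ 2 ∈ Icc a (a + α) ∧ inner ℝ u e ∈ Icc b (b + β) ∧
    c ≤ |dt u e|} with hS
  have hSc : IsClosed S := by
    have e1 : S = (fun u : E 2 => ‖u‖ ^ 2) ⁻¹' Icc a (a + α) ∩
        ((fun u : E 2 => inner ℝ u e) ⁻¹' Icc b (b + β) ∩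
          (fun u : E 2 => |dt u e|) ⁻¹' Ici c) := rfl
    rw [e1]
    refine (isClosed_Icc.preimage (by fun_prop)).inter
      ((isClosed_Icc.preimage (by fun_prop)).inter (isClosed_Ici.preimage ?_))
    unfold dt
    fun_prop
  have hSm : MeasurableSet S := hSc.measurableSet
  have e1 : {y : E 2 | ‖x - y‖ ^ 2 ∈ Icc a (a + α) ∧ inner ℝ (y - x) e ∈ Icc b (b + β) ∧
      c ≤ |dt (y - x) e|} = (fun y => y - x) ⁻¹' S := by
    ext y
    simp only [hS, mem_preimage, mem_ofPred_eq, norm_sub_rev x y]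
  rw [e1, (measurePreserving_sub_right volume x).measure_preimage hSm.nullMeasurableSet,
    ← A.measurePreserving.measure_preimage hSm.nullMeasurableSet]
  refine (measure_mono ?_).trans (AreaA_model (a := a) (b := b) hα hc)
  rintro v ⟨h1, h2, h3⟩
  have h4 : inner ℝ (A v) e = v 1 := by
    rw [← hAf, A.inner_map_map, hf, AreaA_inner]
    simp
  have h5 : ‖A v‖ ^ 2 = v 0 ^ 2 + v 1 ^ 2 := by rw [A.norm_map, AreaA_nsq]
  have h6 : dt (A v) e ^ 2 = v 0 ^ 2 := by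
    have := AreaA_lag (A v) e
    rw [h4, h5, he] at this
    linarith
  have h7 : |dt (A v) e| = |v 0| := by
    rw [← sq_eq_sq_iff_abs_eq_abs]
    exact h6
  rw [h5] at h1
  rw [h4] at h2
  rw [h7] at h3
  exact ⟨h1, h2, h3⟩

/-- the distance to `x` -/
private theorem AreaA_dist {x y : E 2} {t δ : ℝ} (ht : t ∈ Icc (1 / 2 : ℝ) (5 / 2))
    (hδ : δ ∈ Ioc (0 : ℝ) (1 / 64)) (h1 : |‖x - y‖ - t| ≤ 2 * δ) :
    ‖x - y‖ ^ 2 ∈ Icc ((t - 2 * δ) ^ 2) ((t - 2 * δ) ^ 2 + 20 * δ) ∧ 15 / 32 ≤ ‖x - y‖ ∧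
      ‖x - y‖ ≤ 3 := by
  have h1' := abs_le.1 h1
  have h2 : 0 ≤ t - 2 * δ := by linarith [ht.1, hδ.2]
  have h3 : t - 2 * δ ≤ ‖x - y‖ := by linarith [h1'.1]
  have h4 : ‖x - y‖ ≤ t + 2 * δ := by linarith [h1'.2]
  refine ⟨⟨pow_le_pow_left₀ h2 h3 2, ?_⟩, by linarith [ht.1, hδ.2], by linarith [ht.2, hδ.2]⟩
  have h5 := pow_le_pow_left₀ (norm_nonneg (x - y)) h4 2
  have h6 : t * δ ≤ 5 / 2 * δ := mul_le_mul_of_nonneg_right ht.2 hδ.1.le
  have h7 : (t + 2 * δ) ^ 2 = (t - 2 * δ) ^ 2 + 8 * (t * δ) := by ring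
  linarith

private theorem AreaA_one (x x' : E 2) {t : ℝ} (ht : t ∈ Icc (1 / 2 : ℝ) (5 / 2)) (t' : ℝ)
    {δ : ℝ} (hδ : δ ∈ Ioc (0 : ℝ) (1 / 64)) :
    volume (ann x x' t t' δ) ≤ ENNReal.ofReal (800 * δ) := by
  have hδ0 := hδ.1
  have h0 : ‖(EuclideanSpace.single 0 1 : E 2)‖ = 1 := by simp
  have h1 : ‖(EuclideanSpace.single 1 1 : E 2)‖ = 1 := by simp
  have hα : 0 ≤ 20 * δ := by positivity
  have m0 := AreaA_main h0 x (a := (t - 2 * δ) ^ 2) (α := 20 * δ) (b := -3) (β := 6)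
    (c := 3 / 10) hα (by norm_num)
  have m1 := AreaA_main h1 x (a := (t - 2 * δ) ^ 2) (α := 20 * δ) (b := -3) (β := 6)
    (c := 3 / 10) hα (by norm_num)
  refine (measure_mono ?_).trans ((measure_union_le _ _).trans ((add_le_add m0 m1).trans ?_))
  · rintro y ⟨hy, -⟩
    obtain ⟨h2, h3, h4⟩ := AreaA_dist ht hδ hy
    have h5 : ‖y - x‖ ^ 2 = (y - x) 0 ^ 2 + (y - x) 1 ^ 2 := AreaA_nsq _
    rw [norm_sub_rev] at h5
    have h6 : inner ℝ (y - x) (EuclideanSpace.single 0 1) = (y - x) 0 := by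
      rw [AreaA_inner]; simp
    have h7 : inner ℝ (y - x) (EuclideanSpace.single 1 1) = (y - x) 1 := by
      rw [AreaA_inner]; simp
    have h8 : |dt (y - x) (EuclideanSpace.single 0 1)| = |(y - x) 1| := by
      simp [dt, abs_sub_comm]
    have h9 : |dt (y - x) (EuclideanSpace.single 1 1)| = |(y - x) 0| := by
      simp [dt]
    have h10 : |(y - x) 0| ≤ 3 := by
      refine abs_le_of_sq_le_sq ?_ (by norm_num)
      nlinarith [sq_nonneg ((y - x) 1), norm_nonneg (x - y)]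
    have h11 : |(y - x) 1| ≤ 3 := by
      refine abs_le_of_sq_le_sq ?_ (by norm_num)
      nlinarith [sq_nonneg ((y - x) 0), norm_nonneg (x - y)]
    rw [abs_le] at h10 h11
    by_cases hc : 3 / 10 ≤ |(y - x) 1|
    · left
      refine ⟨h2, ?_, ?_⟩
      · rw [h6]
        exact ⟨h10.1, by linarith [h10.2]⟩
      · rw [h8]
        exact hc
    · right
      refine ⟨h2, ?_, ?_⟩
      · rw [h7]
        exact ⟨h11.1, by linarith [h11.2]⟩
      · rw [h9]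
        push Not at hc
        by_contra hcon
        push Not at hcon
        have h12 : (y - x) 0 ^ 2 ≤ 9 / 100 := by
          rw [← sq_abs]
          nlinarith [abs_nonneg ((y - x) 0)]
        have h13 : (y - x) 1 ^ 2 ≤ 9 / 100 := by
          rw [← sq_abs]
          nlinarith [abs_nonneg ((y - x) 1)]
        nlinarith
  · rw [← ENNReal.ofReal_add (by positivity) (by positivity)]
    refine ENNReal.ofReal_le_ofReal (le_of_eq ?_)
    ring

theorem area_one : ∃ C : ℝ≥0, ∀ (x x' : E 2), ∀ t ∈ Icc (1 / 2 : ℝ) (5 / 2), ∀ t' : ℝ,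
    ∀ δ ∈ Ioc (0 : ℝ) (1 / 64), volume (ann x x' t t' δ) ≤ C * ENNReal.ofReal δ := by
  refine ⟨800, fun x x' t ht t' δ hδ => (AreaA_one x x' ht t' hδ).trans (le_of_eq ?_)⟩
  rw [ENNReal.ofReal_mul (by norm_num)]
  simp

/-- the unit vector in the direction of `x - x'` -/
private theorem AreaA_e {x x' : E 2} (hρ : 0 < ‖x - x'‖) :
    ‖(‖x - x'‖⁻¹ • (x - x') : E 2)‖ = 1 := by
  rw [norm_smul, norm_inv, norm_norm, inv_mul_cancel₀ hρ.ne']

private theorem AreaA_dt {x x' y : E 2} (hρ : 0 < ‖x - x'‖) :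
    |dt (y - x) (‖x - x'‖⁻¹ • (x - x'))| = |dt (y - x) (y - x')| / ‖x - x'‖ := by
  have h : dt (y - x) (‖x - x'‖⁻¹ • (x - x')) = dt (y - x) (y - x') / ‖x - x'‖ := by
    simp only [dt, PiLp.smul_apply, PiLp.sub_apply, smul_eq_mul]
    field_simp
    ring
  rw [h, abs_div, abs_of_pos hρ]

private theorem AreaA_in {x x' y : E 2} (hρ : 0 < ‖x - x'‖) :
    inner ℝ (y - x) (‖x - x'‖⁻¹ • (x - x')) =
      (‖x' - y‖ ^ 2 - ‖x - y‖ ^ 2 - ‖x - x'‖ ^ 2) / (2 * ‖x - x'‖) := by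
  have h1 : ‖x' - y‖ ^ 2 - ‖x - y‖ ^ 2 - ‖x - x'‖ ^ 2 = 2 * inner ℝ (y - x) (x - x') := by
    rw [AreaA_nsq, AreaA_nsq, AreaA_nsq, AreaA_inner]
    simp only [PiLp.sub_apply]
    ring
  rw [h1, inner_smul_right]
  field_simp

theorem area_R2 : ∃ C : ℝ≥0, ∀ (x x' : E 2), ‖x - x'‖ ≤ 1 / 8 → ∀ t ∈ Icc (1 / 2 : ℝ) (5 / 2),
    ∀ t' ∈ Icc (1 / 2 : ℝ) (5 / 2), ∀ δ ∈ Ioc (0 : ℝ) (1 / 64),
      32 * (δ * ‖x - x'‖ + δ ^ 2) ≤ qq x' t' x t →
      volume (ann x x' t t' δ) ≤ C * ENNReal.ofReal (δ ^ 2 / √(qq x' t' x t)) := by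
  refine ⟨1600, fun x x' hx t ht t' ht' δ hδ hQ => ?_⟩
  have hδ0 := hδ.1
  have hQ0 : 0 < qq x' t' x t := lt_of_lt_of_le (by positivity) hQ
  have hρ : 0 < ‖x - x'‖ := by
    rcases eq_or_lt_of_le (norm_nonneg (x - x')) with h | h
    · exfalso
      have h5 : qq x' t' x t = ‖x - x'‖ ^ 2 - (t - t') ^ 2 := rfl
      rw [← h] at h5
      nlinarith [sq_nonneg (t - t')]
    · exact h
  have hs : 0 < √(qq x' t' x t) := Real.sqrt_pos.2 hQ0
  have hα : 0 ≤ 20 * δ := by positivity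
  have m := AreaA_main (AreaA_e hρ) x (a := (t - 2 * δ) ^ 2) (α := 20 * δ)
    (b := ((t' - 2 * δ) ^ 2 - (t - 2 * δ) ^ 2 - 20 * δ - ‖x - x'‖ ^ 2) / (2 * ‖x - x'‖))
    (β := 20 * δ / ‖x - x'‖) (c := √(qq x' t' x t) / 4 / ‖x - x'‖) hα (by positivity)
  refine (measure_mono ?_).trans (m.trans ?_)
  · rintro y ⟨hy, hy'⟩
    obtain ⟨h2, -, -⟩ := AreaA_dist ht hδ hy
    obtain ⟨h3, -, -⟩ := AreaA_dist ht' hδ hy'
    refine ⟨h2, ?_, ?_⟩
    · rw [AreaA_in hρ]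
      constructor
      · refine div_le_div_of_nonneg_right ?_ (by positivity)
        linarith [h2.2, h3.1]
      · have e : ((t' - 2 * δ) ^ 2 - (t - 2 * δ) ^ 2 - 20 * δ - ‖x - x'‖ ^ 2) /
            (2 * ‖x - x'‖) + 20 * δ / ‖x - x'‖ =
            ((t' - 2 * δ) ^ 2 - (t - 2 * δ) ^ 2 + 20 * δ - ‖x - x'‖ ^ 2) /
            (2 * ‖x - x'‖) := by
          field_simp
          ring
        rw [e]
        refine div_le_div_of_nonneg_right ?_ (by positivity)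
        linarith [h2.1, h3.2]
    · rw [AreaA_dt hρ]
      refine div_le_div_of_nonneg_right ?_ hρ.le
      have h4 := geo_R2 hδ0 hδ.2 hx ht ht' hy hy' hQ
      refine Real.le_sqrt_of_sq_le ?_ |>.trans (le_of_eq (Real.sqrt_sq_eq_abs _))
      rw [div_pow, Real.sq_sqrt hQ0.le]
      linarith
  · have e : 20 * δ * (20 * δ / ‖x - x'‖) / (√(qq x' t' x t) / 4 / ‖x - x'‖) =
        1600 * (δ ^ 2 / √(qq x' t' x t)) := by
      field_simp
      ring
    rw [e, ENNReal.ofReal_mul (by norm_num)]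
    simp

private theorem AreaA_rot {e : E 2} (he : ‖e‖ = 1) : ‖rot e‖ = 1 := by
  have h := AreaA_nsq (rot e)
  have h' := AreaA_nsq e
  rw [he] at h'
  have h2 : ‖rot e‖ ^ 2 = 1 := by
    rw [h]
    simp only [rot, Matrix.cons_val_zero, Matrix.cons_val_one]
    linarith
  nlinarith [norm_nonneg (rot e)]

theorem area_R1 : ∃ C : ℝ≥0, ∀ (x x' : E 2), ‖x - x'‖ ≤ 1 / 8 → ∀ t ∈ Icc (1 / 2 : ℝ) (5 / 2),
    ∀ t' ∈ Icc (1 / 2 : ℝ) (5 / 2), ∀ δ ∈ Ioc (0 : ℝ) (1 / 64), δ ≤ ‖x - x'‖ →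
      qq x' t' x t < 32 * (δ * ‖x - x'‖ + δ ^ 2) →
      volume (ann x x' t t' δ) ≤ C * ENNReal.ofReal (δ * √(δ / ‖x - x'‖)) := by
  refine ⟨96000, fun x x' hx t ht t' ht' δ hδ hδρ hQ => ?_⟩
  have hδ0 := hδ.1
  have hρ : 0 < ‖x - x'‖ := lt_of_lt_of_le hδ0 hδρ
  have hC : ((96000 : ℝ≥0) : ℝ≥0∞) * ENNReal.ofReal (δ * √(δ / ‖x - x'‖)) =
      ENNReal.ofReal (96000 * (δ * √(δ / ‖x - x'‖))) := by
    rw [ENNReal.ofReal_mul (p := 96000) (by norm_num)]
    congr 1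
    simp
  rw [hC]
  by_cases hh : 30 * √(δ / ‖x - x'‖) ≤ 1 / 4
  · have he := AreaA_e hρ
    set e : E 2 := ‖x - x'‖⁻¹ • (x - x') with hedef
    have hα : 0 ≤ 20 * δ := by positivity
    have m := AreaA_main (AreaA_rot he) x (a := (t - 2 * δ) ^ 2) (α := 20 * δ)
      (b := -(30 * √(δ / ‖x - x'‖))) (β := 60 * √(δ / ‖x - x'‖)) (c := 3 / 8) hα (by norm_num)
    refine (measure_mono ?_).trans (m.trans ?_)
    · rintro y ⟨hy, hy'⟩
      obtain ⟨h2, h3, -⟩ := AreaA_dist ht hδ hy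
      have h4 := geo_R1 hδ0 hδ.2 hx ht ht' hy hy'
      have h5 := geo_t hy hy'
      have h6 : δ * δ ≤ δ * ‖x - x'‖ := mul_le_mul_of_nonneg_left hδρ hδ0.le
      have h7 : |qq x' t' x t| ≤ 64 * (δ * ‖x - x'‖) := by
        have h8 : qq x' t' x t = ‖x - x'‖ ^ 2 - (t - t') ^ 2 := rfl
        have h9 : (t - t') ^ 2 ≤ (‖x - x'‖ + 4 * δ) ^ 2 := by
          rw [← sq_abs (t - t')]
          exact pow_le_pow_left₀ (abs_nonneg _) h5 2
        rw [abs_le]
        constructor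
        · nlinarith
        · nlinarith
      have h8 : dt (y - x) (y - x') ^ 2 ≤ 900 * (δ * ‖x - x'‖) := by nlinarith
      have h9 : dt (y - x) e ^ 2 ≤ (30 * √(δ / ‖x - x'‖)) ^ 2 := by
        rw [← sq_abs, hedef, AreaA_dt hρ, div_pow, sq_abs, mul_pow,
          Real.sq_sqrt (by positivity), div_le_iff₀ (by positivity)]
        have e1 : (30 : ℝ) ^ 2 * (δ / ‖x - x'‖) * ‖x - x'‖ ^ 2 = 900 * (δ * ‖x - x'‖) := by
          field_simp
          ring
        rw [e1]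
        exact h8
      have h10 : inner ℝ (y - x) (rot e) = -dt (y - x) e := by
        rw [AreaA_inner]
        simp only [rot, Matrix.cons_val_zero, Matrix.cons_val_one, dt]
        ring
      have h11 : dt (y - x) (rot e) = inner ℝ (y - x) e := by
        rw [AreaA_inner]
        simp only [rot, Matrix.cons_val_zero, Matrix.cons_val_one, dt]
        ring
      have h12 := abs_le_of_sq_le_sq h9 (by positivity)
      rw [abs_le] at h12
      refine ⟨h2, ?_, ?_⟩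
      · rw [h10]
        exact ⟨by linarith [h12.2], by linarith [h12.1]⟩
      · rw [h11]
        have h13 := AreaA_lag (y - x) e
        rw [he, norm_sub_rev y x] at h13
        have h14 : (30 * √(δ / ‖x - x'‖)) ^ 2 ≤ (1 / 4) ^ 2 :=
          pow_le_pow_left₀ (by positivity) hh 2
        refine le_of_sq_le_sq ?_ (abs_nonneg _)
        rw [sq_abs]
        nlinarith
    · refine ENNReal.ofReal_le_ofReal ?_
      have h1 : 0 ≤ δ * √(δ / ‖x - x'‖) := by positivity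
      have e1 : 20 * δ * (60 * √(δ / ‖x - x'‖)) / (3 / 8) = 3200 * (δ * √(δ / ‖x - x'‖)) := by
        ring
      rw [e1]
      linarith
  · push Not at hh
    refine (AreaA_one x x' ht t' hδ).trans (ENNReal.ofReal_le_ofReal ?_)
    have h1 : 1 / 120 ≤ √(δ / ‖x - x'‖) := by linarith
    have h2 : δ * (1 / 120) ≤ δ * √(δ / ‖x - x'‖) := mul_le_mul_of_nonneg_left h1 hδ0.le
    linarith

end Pool.Agent.Lib.MP_ff3fe0_an_SPH2
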