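import Pool.Agent.Lib.MP_ff3fe0_an_SPH2.Defs2
import Pool.Agent.Lib.MP_ff3fe0_an_SPH.BadL

set_option autoImplicit false

/-!
# The large cubes, exponent three
-/

namespace Pool.Agent.Lib.MP_ff3fe0_an_SPH2

open MeasureTheory Metric Set
open scoped ENNReal NNReal ContDiff FourierTransform
open Pool.Agent.Lib.MP_ff3fe0_an
open Pool.Agent.Lib.MP_ff3fe0_an_SPH

variable {d : ℕ}

private theorem jensen {α : Type*} [MeasurableSpace α] (μ : Measure α) {p : ℝ} (hp : 1 ≤ p)
    {f : α → ℝ≥0∞} (hf : AEMeasurable f μ) :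
    (∫⁻ a, f a ∂μ) ^ p ≤ μ univ ^ (p - 1) * ∫⁻ a, f a ^ p ∂μ := by
  rcases hp.eq_or_lt with h1 | h1
  · subst h1
    simp
  · have hpq := Real.HolderConjugate.conjExponent h1
    have h := ENNReal.lintegral_mul_le_Lp_mul_Lq μ hpq hf
      (aemeasurable_const (b := (1 : ℝ≥0∞)))
    have hp0 : 0 < p := by linarith
    simp only [Pi.mul_apply, mul_one] at h
    have h3 := ENNReal.rpow_le_rpow h hp0.le
    refine h3.trans (le_of_eq ?_)
    rw [ENNReal.mul_rpow_of_nonneg _ _ hp0.le, ← ENNReal.rpow_mul, ← ENNReal.rpow_mul]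
    have h4 : 1 / p * p = 1 := by field_simp
    have h5 : 1 / p.conjExponent * p = p - 1 := by
      have h6 := hpq.one_sub_inv
      rw [one_div, ← h6]
      field_simp
    rw [h4, h5, ENNReal.rpow_one]
    simp [mul_comm]

private theorem shift_le {F : E d → ℝ≥0∞} {x0 v : E d} {R b : ℝ}
    (hv : ‖v‖ ≤ b) :
    ∫⁻ y in closedBall x0 R, F (y - v) ≤ ∫⁻ y in closedBall x0 (R + b), F y := by
  rw [← lintegral_indicator measurableSet_closedBall,
    ← lintegral_indicator measurableSet_closedBall]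
  have h1 : ∫⁻ y, (closedBall x0 (R + b)).indicator F y =
      ∫⁻ y, (closedBall x0 (R + b)).indicator F (y - v) :=
    (lintegral_sub_right_eq_self (fun y => (closedBall x0 (R + b)).indicator F y) v).symm
  rw [h1]
  refine lintegral_mono fun y => ?_
  by_cases hy : y ∈ closedBall x0 R
  · have h2 : y - v ∈ closedBall x0 (R + b) := by
      rw [mem_closedBall, dist_eq_norm] at hy ⊢
      calc ‖y - v - x0‖ = ‖(y - x0) - v‖ := by congr 1; abel
        _ ≤ ‖y - x0‖ + ‖v‖ := norm_sub_le _ _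
        _ ≤ R + b := add_le_add hy hv
    rw [indicator_of_mem hy, indicator_of_mem h2]
  · rw [indicator_of_notMem hy]
    exact zero_le

private theorem cvv_rpow {K : E d → E d} (hK : IsKer K) {p : ℝ} (hp : 1 ≤ p) :
    ∃ C : ℝ≥0∞, C ≠ ⊤ ∧ ∀ (b : ℝ) (G : E d → E d) (x0 : E d) (R : ℝ), 0 ≤ b → Measurable G →
      ∫⁻ y in closedBall x0 R, ‖cvv K b G y‖ₑ ^ p ≤
        C * ∫⁻ y in closedBall x0 (R + b), ‖G y‖ₑ ^ p := by
  obtain ⟨C0, hC0⟩ := cvv_le hK
  have hp0 : 0 ≤ p := by linarith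
  set κ : ℝ≥0∞ := volume (closedBall (0 : E d) 1) with hκ
  have hκt : κ ≠ ⊤ := measure_closedBall_lt_top.ne
  refine ⟨(C0 : ℝ≥0∞) ^ p * (κ ^ (p - 1) * κ), ?_, ?_⟩
  · refine ENNReal.mul_ne_top (ENNReal.rpow_ne_top_of_nonneg hp0 ENNReal.coe_ne_top)
      (ENNReal.mul_ne_top (ENNReal.rpow_ne_top_of_nonneg (by linarith) hκt) hκt)
  · intro b G x0 R hb hG
    have hmeas : Measurable (Function.uncurry fun (y w : E d) => ‖G (y - b • w)‖ₑ ^ p) := by
      have h1 : Measurable fun z : E d × E d => G (z.1 - b • z.2) :=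
        hG.comp (measurable_fst.sub (measurable_snd.const_smul b))
      exact h1.enorm.pow_const p
    have hw : ∀ y : E d, Measurable fun w : E d => ‖G (y - b • w)‖ₑ := fun y =>
      (hG.comp (measurable_const.sub (measurable_id.const_smul b))).enorm
    calc ∫⁻ y in closedBall x0 R, ‖cvv K b G y‖ₑ ^ p
        ≤ ∫⁻ y in closedBall x0 R, (C0 : ℝ≥0∞) ^ p * (κ ^ (p - 1) *
            ∫⁻ w in closedBall (0 : E d) 1, ‖G (y - b • w)‖ₑ ^ p) := by
          refine lintegral_mono fun y => ?_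
          refine (ENNReal.rpow_le_rpow (hC0 b G y) hp0).trans ?_
          rw [ENNReal.mul_rpow_of_nonneg _ _ hp0]
          have h1 := jensen (volume.restrict (closedBall (0 : E d) 1)) hp
            (hw y).aemeasurable
          rw [Measure.restrict_apply_univ] at h1
          gcongr
      _ = (C0 : ℝ≥0∞) ^ p * (κ ^ (p - 1) * ∫⁻ y in closedBall x0 R,
            ∫⁻ w in closedBall (0 : E d) 1, ‖G (y - b • w)‖ₑ ^ p) := by
          rw [lintegral_const_mul, lintegral_const_mul]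
          · exact hmeas.lintegral_prod_right'
          · exact (hmeas.lintegral_prod_right').const_mul _
      _ = (C0 : ℝ≥0∞) ^ p * (κ ^ (p - 1) * ∫⁻ w in closedBall (0 : E d) 1,
            ∫⁻ y in closedBall x0 R, ‖G (y - b • w)‖ₑ ^ p) := by
          rw [lintegral_lintegral_swap hmeas.aemeasurable]
      _ ≤ (C0 : ℝ≥0∞) ^ p * (κ ^ (p - 1) * ∫⁻ _w in closedBall (0 : E d) 1,
            ∫⁻ y in closedBall x0 (R + b), ‖G y‖ₑ ^ p) := by
          gcongr (C0 : ℝ≥0∞) ^ p * (κ ^ (p - 1) * ?_)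
          refine setLIntegral_mono' measurableSet_closedBall fun w hw' => ?_
          refine shift_le (F := fun y => ‖G y‖ₑ ^ p) (v := b • w) ?_
          rw [norm_smul, Real.norm_eq_abs, abs_of_nonneg hb]
          rw [mem_closedBall, dist_zero_right] at hw'
          exact mul_le_of_le_one_right hb hw'
      _ = (C0 : ℝ≥0∞) ^ p * (κ ^ (p - 1) * κ) * ∫⁻ y in closedBall x0 (R + b), ‖G y‖ₑ ^ p := by
          rw [setLIntegral_const]
          ring

/-- the bad part of one level on a ball -/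
private theorem bd_ball (hd : 0 < d) {p : ℝ} (hp : 1 ≤ p) {H : E d → E d} {l : ℝ≥0∞}
    (hH : Measurable H) {i j : ℤ} (hij : i ≤ j) (x0 : E d) (R : ℝ) :
    ∫⁻ y in closedBall x0 R, ‖bd p H l i y‖ₑ ^ p ≤
      2 ^ (p + 1) * 2 ^ d * l ^ p *
        volume (Lp' p H l i ∩ closedBall x0 (R + 2 * (√d * (2 : ℝ) ^ j))) := by
  have h2 : (2 : ℝ) ^ i ≤ (2 : ℝ) ^ j := zpow_le_zpow_right₀ (by norm_num) hij
  have hs : √d * (2 : ℝ) ^ i ≤ √d * (2 : ℝ) ^ j :=
    mul_le_mul_of_nonneg_left h2 (Real.sqrt_nonneg _)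
  have hfpm : Measurable (fp p H) := hH.enorm.pow_const p
  have hLm : MeasurableSet (Lp' p H l i) := measurableSet_lev hfpm i
  -- the union of the cubes whose corner is near the ball
  set A : Set (E d) := cor i ⁻¹' closedBall x0 (R + √d * (2 : ℝ) ^ j) with hA
  have hAm : MeasurableSet A := measurable_cor i measurableSet_closedBall
  have hAs : ∀ x ∈ A, dc i x ⊆ A := by
    intro x hx y hy
    rw [hA, mem_preimage, cor_eq hy]
    exact hx
  have hcor : ∀ x : E d, ‖cor i x - x‖ ≤ √d * (2 : ℝ) ^ j := fun x =>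
    (dc_dist (cor_mem i x)).trans hs
  have hsub : closedBall x0 R ⊆ A := by
    intro x hx
    rw [hA, mem_preimage, mem_closedBall, dist_eq_norm]
    rw [mem_closedBall, dist_eq_norm] at hx
    calc ‖cor i x - x0‖ = ‖(x - x0) + (cor i x - x)‖ := by congr 1; abel
      _ ≤ ‖x - x0‖ + ‖cor i x - x‖ := norm_add_le _ _
      _ ≤ _ := add_le_add hx (hcor x)
  have hsub2 : A ⊆ closedBall x0 (R + 2 * (√d * (2 : ℝ) ^ j)) := by
    intro x hx
    rw [hA, mem_preimage, mem_closedBall, dist_eq_norm] at hx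
    rw [mem_closedBall, dist_eq_norm]
    calc ‖x - x0‖ = ‖(cor i x - x0) - (cor i x - x)‖ := by congr 1; abel
      _ ≤ ‖cor i x - x0‖ + ‖cor i x - x‖ := norm_sub_le _ _
      _ ≤ (R + √d * (2 : ℝ) ^ j) + √d * (2 : ℝ) ^ j := add_le_add hx (hcor x)
      _ = _ := by ring
  have hbm : Measurable fun y => ‖bd p H l i y‖ₑ ^ p := (measurable_bd hH i).enorm.pow_const p
  have h1m : Measurable ((Lp' p H l i).indicator (fun _ => (1 : ℝ≥0∞))) :=
    measurable_const.indicator hLm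
  calc ∫⁻ y in closedBall x0 R, ‖bd p H l i y‖ₑ ^ p
      ≤ ∫⁻ y in A, ‖bd p H l i y‖ₑ ^ p := lintegral_mono_set hsub
    _ = ∫⁻ x in A, dav i (fun y => ‖bd p H l i y‖ₑ ^ p) x := (lintegral_dav i hbm hAm hAs).symm
    _ ≤ ∫⁻ x in A, 2 ^ (p + 1) * 2 ^ d * l ^ p *
          dav i ((Lp' p H l i).indicator (fun _ => (1 : ℝ≥0∞))) x := by
        refine lintegral_mono fun x => ?_
        unfold dav
        refine (mul_le_mul_right (bd_le hd hp hH i x) _).trans (le_of_eq ?_)
        rw [lintegral_indicator hLm, setLIntegral_one, Measure.restrict_apply hLm,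
          inter_comm (Lp' p H l i)]
        ring
    _ = 2 ^ (p + 1) * 2 ^ d * l ^ p *
          ∫⁻ x in A, dav i ((Lp' p H l i).indicator (fun _ => (1 : ℝ≥0∞))) x := by
        rw [lintegral_const_mul]
        exact measurable_dav i h1m
    _ = 2 ^ (p + 1) * 2 ^ d * l ^ p * volume (Lp' p H l i ∩ A) := by
        rw [lintegral_dav i h1m hAm hAs, lintegral_indicator hLm, setLIntegral_one,
          Measure.restrict_apply hLm]
    _ ≤ _ := by
        gcongr

private theorem bL_ball (hd : 0 < d) {p : ℝ} (hp : 1 ≤ p) {H : E d → E d} {l : ℝ≥0∞}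
    (hH : Measurable H) (m : ℕ) (j : ℤ) (x0 : E d) (R : ℝ) :
    ∫⁻ y in closedBall x0 R, ‖bL p H l m j y‖ₑ ^ p ≤
      2 ^ (p + 1) * 2 ^ d * l ^ p *
        volume ((⋃ i ∈ Ioc (j - m) j, Lp' p H l i) ∩
          closedBall x0 (R + 2 * (√d * (2 : ℝ) ^ j))) := by
  have hp0 : 0 < p := by linarith
  have hfpm : Measurable (fp p H) := hH.enorm.pow_const p
  have hLm : ∀ i, MeasurableSet (Lp' p H l i) := fun i => measurableSet_lev hfpm i
  have hpt : ∀ y, ‖bL p H l m j y‖ₑ ^ p ≤ ∑ i ∈ Finset.Ioc (j - m) j, ‖bd p H l i y‖ₑ ^ p := by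
    intro y
    by_cases h : ∃ i ∈ Finset.Ioc (j - m : ℤ) j, y ∈ Lp' p H l i
    · obtain ⟨i, hi, hy⟩ := h
      have h1 : bL p H l m j y = bd p H l i y := by
        unfold bL
        refine Finset.sum_eq_single i (fun i' _ hne => ?_) (fun hn => absurd hi hn)
        exact bd_off fun hy' => (lev_disj hne).le_bot ⟨hy', hy⟩
      rw [h1]
      exact Finset.single_le_sum (f := fun i => ‖bd p H l i y‖ₑ ^ p)
        (fun _ _ => zero_le) hi
    · have h1 : bL p H l m j y = 0 := by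
        unfold bL
        refine Finset.sum_eq_zero fun i hi => ?_
        exact bd_off fun hy => h ⟨i, hi, hy⟩
      rw [h1, enorm_zero, ENNReal.zero_rpow_of_pos hp0]
      exact zero_le
  have hset : (⋃ i ∈ Ioc (j - m : ℤ) j, Lp' p H l i) ∩
      closedBall x0 (R + 2 * (√d * (2 : ℝ) ^ j)) = ⋃ i ∈ Finset.Ioc (j - m : ℤ) j,
        (Lp' p H l i ∩ closedBall x0 (R + 2 * (√d * (2 : ℝ) ^ j))) := by
    ext y
    simp only [mem_inter_iff, mem_iUnion, Finset.mem_Ioc, mem_Ioc, exists_prop]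
    constructor
    · rintro ⟨⟨i, hi, hy⟩, hb⟩
      exact ⟨i, hi, hy, hb⟩
    · rintro ⟨i, hi, hy, hb⟩
      exact ⟨⟨i, hi, hy⟩, hb⟩
  calc ∫⁻ y in closedBall x0 R, ‖bL p H l m j y‖ₑ ^ p
      ≤ ∫⁻ y in closedBall x0 R, ∑ i ∈ Finset.Ioc (j - m) j, ‖bd p H l i y‖ₑ ^ p :=
        lintegral_mono hpt
    _ = ∑ i ∈ Finset.Ioc (j - m) j, ∫⁻ y in closedBall x0 R, ‖bd p H l i y‖ₑ ^ p := by
        rw [lintegral_finsetSum]
        intro i _
        exact (measurable_bd hH i).enorm.pow_const p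
    _ ≤ ∑ i ∈ Finset.Ioc (j - m) j, 2 ^ (p + 1) * 2 ^ d * l ^ p *
          volume (Lp' p H l i ∩ closedBall x0 (R + 2 * (√d * (2 : ℝ) ^ j))) := by
        refine Finset.sum_le_sum fun i hi => ?_
        exact bd_ball hd hp hH (Finset.mem_Ioc.1 hi).2 x0 R
    _ = _ := by
        rw [← Finset.mul_sum, hset, measure_biUnion_finset]
        · intro i _ i' _ hne
          exact (lev_disj hne).mono inter_subset_left inter_subset_left
        · intro i _
          exact (hLm i).inter measurableSet_closedBall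

private theorem bad_large3 (hd : 0 < d) (K : Ker d) {p : ℝ} (hp : 1 ≤ p) (hp2 : p < 3) (r : ℝ) :
    ∃ C : ℝ≥0, ∀ (m : ℕ) (H : E d → E d) (l : ℝ≥0∞) (j : ℤ) (z : Fin d → ℤ), Continuous H →
      Integrable H → l ≠ 0 → l ≠ ⊤ → Aav3 K p r m (bL p H l m j) j z ≤
        C * l ^ 3 * volume ((⋃ i ∈ Ioc (j - m) j, Lp' p H l i) ∩
          closedBall (cen j z) ((r + 2 + 2 * √d) * (2 : ℝ) ^ j)) := by
  have hp0 : 0 < p := by linarith
  have h2p : 0 < 3 / p := by positivity
  by_cases hr : r < 0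
  · refine ⟨0, fun m H l j z _ _ _ _ => ?_⟩
    have h1 : closedBall (cen j z : E d) (r * (2 : ℝ) ^ j) = ∅ := by
      rw [closedBall_eq_empty]
      exact mul_neg_of_neg_of_pos hr (by positivity)
    unfold Aav3
    rw [h1, Measure.restrict_empty, lintegral_zero_measure, mul_zero,
      ENNReal.zero_rpow_of_pos h2p, mul_zero]
    exact zero_le
  push Not at hr
  obtain ⟨C1, hC1, hcv⟩ := cvv_rpow K.hka hp
  set C2 : ℝ≥0∞ := C1 * (2 ^ (p + 1) * 2 ^ d) with hC2
  have hC2t : C2 ≠ ⊤ := by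
    refine ENNReal.mul_ne_top hC1 (ENNReal.mul_ne_top ?_ ?_)
    · exact ENNReal.rpow_ne_top_of_nonneg (by linarith) (by norm_num)
    · exact ENNReal.pow_ne_top (by norm_num)
  set ρ : ℝ := r + 2 + 2 * √d with hρ
  have hρ0 : 0 ≤ ρ := by positivity
  set C3 : ℝ≥0∞ := ENNReal.ofReal (ρ ^ d) * volume (ball (0 : E d) 1) with hC3
  have hC3t : C3 ≠ ⊤ := ENNReal.mul_ne_top ENNReal.ofReal_ne_top measure_ball_lt_top.ne
  have he : 0 ≤ 3 / p - 1 := by
    rw [sub_nonneg, le_div_iff₀ hp0]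
    linarith
  set C4 : ℝ≥0∞ := C2 ^ (3 / p) * C3 ^ (3 / p - 1) with hC4
  have hC4t : C4 ≠ ⊤ := ENNReal.mul_ne_top (ENNReal.rpow_ne_top_of_nonneg h2p.le hC2t)
    (ENNReal.rpow_ne_top_of_nonneg he hC3t)
  refine ⟨C4.toNNReal, fun m H l j z hHc _ hl0 hlt => ?_⟩
  rw [ENNReal.coe_toNNReal hC4t]
  have hH : Measurable H := hHc.measurable
  set J : ℝ := (2 : ℝ) ^ j with hJ
  have hJ0 : 0 < J := by positivity
  have hsc : 0 < sc m := by unfold sc; positivity
  have hsc1 : sc m ≤ 1 := by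
    unfold sc
    exact pow_le_one₀ (by norm_num) (by norm_num)
  have hbm : Measurable (bL p H l m j) := by
    unfold bL
    exact Finset.measurable_fun_sum _ fun i _ => measurable_bd hH i
  set V : ℝ≥0∞ := volume ((⋃ i ∈ Ioc (j - m) j, Lp' p H l i) ∩
          closedBall (cen j z) (ρ * J)) with hV
  -- the integral
  have hI : ∫⁻ y in closedBall (cen j z) (r * J), ‖cvv K.ka (J * sc m) (bL p H l m j) y‖ₑ ^ p ≤
      C2 * l ^ p * V := by
    refine (hcv (J * sc m) (bL p H l m j) (cen j z) (r * J) (by positivity) hbm).trans ?_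
    have h1 := bL_ball hd hp (l := l) hH m j (cen j z) (r * J + J * sc m)
    have h2 : closedBall (cen j z : E d) (r * J + J * sc m + 2 * (√d * (2 : ℝ) ^ j)) ⊆
        closedBall (cen j z) (ρ * J) := by
      refine closedBall_subset_closedBall ?_
      have h3 : J * sc m ≤ J := mul_le_of_le_one_right hJ0.le hsc1
      rw [← hJ, hρ]
      nlinarith
    have h4 : volume ((⋃ i ∈ Ioc (j - m) j, Lp' p H l i) ∩
          closedBall (cen j z) (r * J + J * sc m + 2 * (√d * (2 : ℝ) ^ j))) ≤ V :=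
      measure_mono (inter_subset_inter_right _ h2)
    calc C1 * ∫⁻ y in closedBall (cen j z) (r * J + J * sc m), ‖bL p H l m j y‖ₑ ^ p
        ≤ C1 * (2 ^ (p + 1) * 2 ^ d * l ^ p * V) := by
          refine mul_le_mul_right (h1.trans ?_) _
          gcongr
      _ = C2 * l ^ p * V := by
          rw [hC2]
          ring
  have hVle : V ≤ C3 * ENNReal.ofReal (J ^ d) := by
    calc V ≤ volume (closedBall (cen j z : E d) (ρ * J)) := measure_mono inter_subset_right
      _ = ENNReal.ofReal ((ρ * J) ^ d) * volume (ball (0 : E d) 1) := by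
          rw [Measure.addHaar_closedBall _ _ (by positivity), finrank_euclideanSpace_fin]
      _ = C3 * ENNReal.ofReal (J ^ d) := by
          rw [mul_pow, ENNReal.ofReal_mul (by positivity), hC3]
          ring
  set D : ℝ≥0∞ := ENNReal.ofReal (J ^ d) with hD
  have hD0 : D ≠ 0 := by
    rw [hD, Ne, ENNReal.ofReal_eq_zero, not_le]
    positivity
  have hDt : D ≠ ⊤ := ENNReal.ofReal_ne_top
  have hDi : ENNReal.ofReal ((J ^ d)⁻¹) = D⁻¹ := by
    rw [hD, ENNReal.ofReal_inv_of_pos (by positivity)]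
  have hW : D⁻¹ * V ≤ C3 := by
    calc D⁻¹ * V ≤ D⁻¹ * (C3 * D) := mul_le_mul_right hVle _
      _ = C3 * (D⁻¹ * D) := by ring
      _ = C3 := by rw [ENNReal.inv_mul_cancel hD0 hDt, mul_one]
  unfold Aav3
  rw [hDi]
  calc D * (D⁻¹ * ∫⁻ y in closedBall (cen j z) (r * J),
        ‖cvv K.ka (J * sc m) (bL p H l m j) y‖ₑ ^ p) ^ (3 / p)
      ≤ D * (D⁻¹ * (C2 * l ^ p * V)) ^ (3 / p) := by
        refine mul_le_mul_right (ENNReal.rpow_le_rpow (mul_le_mul_right hI _) h2p.le) _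
    _ = D * (C2 ^ (3 / p) * l ^ 3 * (D⁻¹ * V) ^ (3 / p)) := by
        have h1 : D⁻¹ * (C2 * l ^ p * V) = C2 * l ^ p * (D⁻¹ * V) := by ring
        rw [h1, ENNReal.mul_rpow_of_nonneg _ _ h2p.le, ENNReal.mul_rpow_of_nonneg _ _ h2p.le,
          ← ENNReal.rpow_mul]
        have h3 : p * (3 / p) = ((3 : ℕ) : ℝ) := by
          push_cast
          field_simp
        rw [h3, ENNReal.rpow_natCast]
    _ ≤ D * (C2 ^ (3 / p) * l ^ 3 * (C3 ^ (3 / p - 1) * (D⁻¹ * V))) := by
        have h4 : (D⁻¹ * V) ^ (3 / p) ≤ C3 ^ (3 / p - 1) * (D⁻¹ * V) := by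
          have h5 : (D⁻¹ * V) ^ (3 / p) = (D⁻¹ * V) ^ (3 / p - 1) * (D⁻¹ * V) := by
            have h7 : 3 / p = (3 / p - 1) + 1 := by ring
            conv_lhs => rw [h7]
            rw [ENNReal.rpow_add_of_nonneg _ _ he zero_le_one, ENNReal.rpow_one]
          rw [h5]
          exact mul_le_mul_left (ENNReal.rpow_le_rpow hW he) _
        exact mul_le_mul_right (mul_le_mul_right h4 _) _
    _ = C4 * l ^ 3 * V := by
        have h6 : D * (C2 ^ (3 / p) * l ^ 3 * (C3 ^ (3 / p - 1) * (D⁻¹ * V))) =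
            C2 ^ (3 / p) * C3 ^ (3 / p - 1) * l ^ 3 * V * (D * D⁻¹) := by ring
        rw [h6, ENNReal.mul_inv_cancel hD0 hDt, mul_one, hC4]

theorem bad_large_sum3 (hd : 0 < d) (K : Ker d) {p : ℝ} (hp : 1 ≤ p) (hp2 : p < 3) (r : ℝ) :
    ∃ C : ℝ≥0, ∀ (m : ℕ) (H : E d → E d) (l : ℝ≥0∞), Continuous H → Integrable H → l ≠ 0 →
      l ≠ ⊤ → ∑' j : ℤ, ∑' z : Fin d → ℤ, Aav3 K p r m (bL p H l m j) j z ≤
        C * m * l ^ 3 * volume (Lv (fp p H) (l ^ p)) := by
  obtain ⟨C, hC⟩ := bad_large3 hd K hp hp2 r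
  obtain ⟨C', hC'⟩ := overlap (d := d) (r + 2 + 2 * √d)
  refine ⟨C * C', fun m H l hHc hHi hl0 hlt => ?_⟩
  have hH : Measurable H := hHc.measurable
  have hfpm : Measurable (fp p H) := hH.enorm.pow_const p
  have hLm : ∀ i, MeasurableSet (Lp' p H l i) := fun i => measurableSet_lev hfpm i
  have hUm : ∀ j : ℤ, MeasurableSet (⋃ i ∈ Ioc (j - m) j, Lp' p H l i) := fun j =>
    MeasurableSet.biUnion (Set.to_countable _) fun i _ => hLm i
  have h1 : ∀ j : ℤ, ∑' z : Fin d → ℤ, Aav3 K p r m (bL p H l m j) j z ≤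
      C * l ^ 3 * (C' * ∑ k ∈ Finset.range m, volume (Lp' p H l (j - k))) := by
    intro j
    calc ∑' z : Fin d → ℤ, Aav3 K p r m (bL p H l m j) j z
        ≤ ∑' z : Fin d → ℤ, C * l ^ 3 * volume ((⋃ i ∈ Ioc (j - m) j, Lp' p H l i) ∩
          closedBall (cen j z) ((r + 2 + 2 * √d) * (2 : ℝ) ^ j)) :=
          ENNReal.tsum_le_tsum fun z => hC m H l j z hHc hHi hl0 hlt
      _ = C * l ^ 3 * ∑' z : Fin d → ℤ, ∫⁻ y in closedBall (cen j z)
            ((r + 2 + 2 * √d) * (2 : ℝ) ^ j),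
            (⋃ i ∈ Ioc (j - m) j, Lp' p H l i).indicator (fun _ => (1 : ℝ≥0∞)) y := by
          rw [ENNReal.tsum_mul_left]
          congr 2
          funext z
          rw [lintegral_indicator (hUm j), setLIntegral_one, Measure.restrict_apply (hUm j)]
      _ ≤ C * l ^ 3 * (C' * ∫⁻ y,
            (⋃ i ∈ Ioc (j - m) j, Lp' p H l i).indicator (fun _ => (1 : ℝ≥0∞)) y) :=
          mul_le_mul_right (hC' j _ (measurable_const.indicator (hUm j))) _
      _ ≤ _ := by
          rw [lintegral_indicator (hUm j), setLIntegral_one]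
          gcongr
          have h2 : (⋃ i ∈ Ioc (j - m : ℤ) j, Lp' p H l i) ⊆
              ⋃ k ∈ Finset.range m, Lp' p H l (j - (k : ℤ)) := by
            intro y hy
            simp only [mem_iUnion, mem_Ioc, exists_prop, Finset.mem_range] at hy ⊢
            obtain ⟨i, hi, hy⟩ := hy
            refine ⟨(j - i).toNat, by omega, ?_⟩
            have h3 : j - ((j - i).toNat : ℤ) = i := by omega
            rw [h3]
            exact hy
          exact (measure_mono h2).trans (measure_biUnion_finset_le _ _)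
  calc ∑' j : ℤ, ∑' z : Fin d → ℤ, Aav3 K p r m (bL p H l m j) j z
      ≤ ∑' j : ℤ, C * l ^ 3 * (C' * ∑ k ∈ Finset.range m, volume (Lp' p H l (j - k))) :=
        ENNReal.tsum_le_tsum h1
    _ = C * l ^ 3 * (C' * ∑ k ∈ Finset.range m, ∑' j : ℤ, volume (Lp' p H l (j - (k : ℤ)))) := by
        rw [ENNReal.tsum_mul_left, ENNReal.tsum_mul_left,
          Summable.tsum_finsetSum fun _ _ => ENNReal.summable]
    _ = C * l ^ 3 * (C' * ∑ _k ∈ Finset.range m, volume (Lv (fp p H) (l ^ p))) := by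
        congr 2
        refine Finset.sum_congr rfl fun k _ => ?_
        have h2 := (Equiv.subRight (k : ℤ)).tsum_eq fun j => volume (Lp' p H l j)
        simp only [Equiv.subRight_apply] at h2
        rw [h2]
        unfold Lv
        rw [measure_iUnion]
        · rfl
        · intro i i' hne
          exact lev_disj hne
        · intro i
          exact measurableSet_lev hfpm i
    _ = ((C * C' : ℝ≥0) : ℝ≥0∞) * m * l ^ 3 * volume (Lv (fp p H) (l ^ p)) := by
        rw [Finset.sum_const, Finset.card_range, nsmul_eq_mul, ENNReal.coe_mul]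
        ring

end Pool.Agent.Lib.MP_ff3fe0_an_SPH2
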