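import Pool.Agent.Lib.MP_ff3fe0_an_SPH2.Defs2
import Pool.Agent.Lib.MP_ff3fe0_an_SPH.BadT

set_option autoImplicit false

/-!
# The small cubes, exponent three
-/

namespace Pool.Agent.Lib.MP_ff3fe0_an_SPH2

open MeasureTheory Metric Set
open scoped ENNReal NNReal ContDiff FourierTransform
open Pool.Agent.Lib.MP_ff3fe0_an
open Pool.Agent.Lib.MP_ff3fe0_an_SPH

variable {d : ℕ}

private lemma badU_wsum : ∑' n : ℕ, ENNReal.ofReal ((1 / 2 : ℝ) ^ n) = 2 := by
  have h1 : (fun n : ℕ => ENNReal.ofReal ((1 / 2 : ℝ) ^ n)) = fun n : ℕ => (2⁻¹ : ℝ≥0∞) ^ n := by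
    funext n
    rw [ENNReal.ofReal_pow (by norm_num), one_div, ENNReal.ofReal_inv_of_pos (by norm_num)]
    norm_num
  rw [h1, ENNReal.tsum_geometric, ENNReal.one_sub_inv_two, inv_inv]

private lemma badU_vol (x : E d) {r : ℝ} (hr : 0 ≤ r) :
    volume (closedBall x r) = ENNReal.ofReal (r ^ d) * volume (ball (0 : E d) 1) := by
  have h := Measure.addHaar_closedBall (volume : Measure (E d)) x hr
  rwa [finrank_euclideanSpace_fin] at h

private lemma badU_meas {P : Set (E d)} (hP : MeasurableSet P) (ρ : ℝ) :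
    Measurable fun y : E d => volume (P ∩ closedBall y ρ) := by
  have hS : MeasurableSet {q : E d × E d | q.2 ∈ P ∧ dist q.2 q.1 ≤ ρ} :=
    (measurable_snd hP).inter
      ((isClosed_le (continuous_snd.dist continuous_fst) continuous_const).measurableSet)
  exact measurable_measure_prodMk_left (ν := (volume : Measure (E d))) hS

/-- Tonelli -/
private lemma badU_ton {P : Set (E d)} (hP : MeasurableSet P) (ρ R : ℝ) (c : E d) :
    ∫⁻ y in closedBall c R, volume (P ∩ closedBall y ρ) ≤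
      volume (P ∩ closedBall c (R + ρ)) * volume (closedBall (0 : E d) ρ) := by
  set S : Set (E d × E d) := {q | q.1 ∈ closedBall c R ∧ q.2 ∈ P ∧ dist q.2 q.1 ≤ ρ} with hS
  have hSm : MeasurableSet S :=
    (measurable_fst measurableSet_closedBall).inter ((measurable_snd hP).inter
      ((isClosed_le (continuous_snd.dist continuous_fst) continuous_const).measurableSet))
  have h1 : ∫⁻ y in closedBall c R, volume (P ∩ closedBall y ρ) =
      ∫⁻ y, volume (Prod.mk y ⁻¹' S) := by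
    rw [← lintegral_indicator measurableSet_closedBall]
    refine lintegral_congr fun y => ?_
    by_cases hy : y ∈ closedBall c R
    · rw [indicator_of_mem hy]
      congr 1
      ext z
      exact ⟨fun hz => ⟨hy, hz.1, hz.2⟩, fun hz => ⟨hz.2.1, hz.2.2⟩⟩
    · rw [indicator_of_notMem hy]
      have h2 : Prod.mk y ⁻¹' S = ∅ := by
        ext z
        simp only [mem_preimage, mem_empty_iff_false, iff_false]
        exact fun hz => hy hz.1
      rw [h2, measure_empty]
  rw [h1, ← Measure.prod_apply hSm, Measure.prod_apply_symm hSm]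
  have h3 : ∀ z : E d, volume ((fun y => (y, z)) ⁻¹' S) ≤
      (P ∩ closedBall c (R + ρ)).indicator (fun _ => volume (closedBall (0 : E d) ρ)) z := by
    intro z
    by_cases hz : z ∈ P ∩ closedBall c (R + ρ)
    · rw [indicator_of_mem hz]
      have h4 : volume (closedBall (0 : E d) ρ) = volume (closedBall z ρ) := by
        have h5 := Measure.addHaar_closedBall_center (volume : Measure (E d)) z ρ
        exact h5.symm
      rw [h4]
      refine measure_mono fun y hy => ?_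
      have := hy.2.2
      rw [mem_closedBall, dist_comm]
      exact this
    · rw [indicator_of_notMem hz]
      have h2 : (fun y => (y, z)) ⁻¹' S = ∅ := by
        ext y
        simp only [mem_preimage, mem_empty_iff_false, iff_false]
        intro hy
        refine hz ⟨hy.2.1, ?_⟩
        rw [mem_closedBall]
        have h6 := dist_triangle z y c
        have h7 : dist y c ≤ R := hy.1
        have h8 : dist z y ≤ ρ := hy.2.2
        linarith
      rw [h2, measure_empty]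
  refine (lintegral_mono h3).trans ?_
  rw [lintegral_indicator (hP.inter measurableSet_closedBall), setLIntegral_const, mul_comm]

private lemma badU_measLp {p : ℝ} {H : E d → E d} (hH : Continuous H) (l : ℝ≥0∞) (i : ℤ) :
    MeasurableSet (Lp' p H l i) :=
  measurableSet_lev (hH.enorm.measurable.pow_const p) i

/-- powers of bounded quantities -/
private lemma badU_pow {x C : ℝ≥0∞} (hx : x ≤ C) {p : ℝ} (hp : 1 ≤ p) :
    x ^ p ≤ C ^ (p - 1) * x := by
  have h1 : x ^ p = x ^ (p - 1) * x := by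
    have h2 : p = (p - 1) + 1 := by ring
    nth_rw 1 [h2]
    rw [ENNReal.rpow_add_of_nonneg _ _ (by linarith) zero_le_one, ENNReal.rpow_one]
  rw [h1]
  exact mul_le_mul_left (ENNReal.rpow_le_rpow hx (by linarith)) x

private theorem badU_small (hd : 0 < d) (K : Ker d) {p : ℝ} (hp : 1 ≤ p) (hp2 : p < 3) (r : ℝ) :
    ∃ C : ℝ≥0, ∀ (m : ℕ) (H : E d → E d) (l : ℝ≥0∞) (j : ℤ) (z : Fin d → ℤ), Continuous H →
      Integrable H → l ≠ 0 → l ≠ ⊤ → Aav3 K p r m (bS p H l m j) j z ≤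
        C * l ^ 3 * ∑' n : ℕ, ENNReal.ofReal ((1 / 2) ^ n) * volume (Lp' p H l (j - m - n) ∩
          closedBall (cen j z) ((r + 1 + 2 * √d) * (2 : ℝ) ^ j)) := by
  obtain ⟨C1, hC1⟩ := bad_cancel hd K hp
  have hp0 : 0 < p := by linarith
  set vb : ℝ≥0∞ := volume (ball (0 : E d) 1) with hvb
  have hvbt : vb ≠ ⊤ := measure_ball_lt_top.ne
  have hσ0 : 0 ≤ 1 + 2 * √(d : ℝ) := by positivity
  set κ : ℝ≥0∞ := ENNReal.ofReal ((1 + 2 * √(d : ℝ)) ^ d) * vb with hκ
  have hκt : κ ≠ ⊤ := ENNReal.mul_ne_top ENNReal.ofReal_ne_top hvbt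
  set κ' : ℝ≥0∞ := 2 * (ENNReal.ofReal (|r + 1 + 2 * √(d : ℝ)| ^ d) * vb) with hκ'
  have hκ't : κ' ≠ ⊤ :=
    ENNReal.mul_ne_top (by norm_num) (ENNReal.mul_ne_top ENNReal.ofReal_ne_top hvbt)
  set C4 : ℝ≥0∞ := (C1 : ℝ≥0∞) ^ p * ((2 * κ) ^ (p - 1) * κ) with hC4
  have hC4t : C4 ≠ ⊤ := by
    refine ENNReal.mul_ne_top (ENNReal.rpow_ne_top_of_nonneg hp0.le ENNReal.coe_ne_top)
      (ENNReal.mul_ne_top (ENNReal.rpow_ne_top_of_nonneg (by linarith) ?_) hκt)
    exact ENNReal.mul_ne_top (by norm_num) hκt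
  set C5 : ℝ≥0∞ := C4 ^ (3 / p) * κ' ^ (3 / p - 1) with hC5
  have hpp : 1 ≤ 3 / p := by
    rw [le_div_iff₀ hp0]
    linarith
  have hC5t : C5 ≠ ⊤ :=
    ENNReal.mul_ne_top (ENNReal.rpow_ne_top_of_nonneg (by positivity) hC4t)
      (ENNReal.rpow_ne_top_of_nonneg (by linarith) hκ't)
  refine ⟨C5.toNNReal, fun m H l j z hH hi hl0 hlt => ?_⟩
  rw [ENNReal.coe_toNNReal hC5t]
  have h2j : 0 < (2 : ℝ) ^ j := by positivity
  have hscpos : 0 < sc m := by unfold sc; positivity
  have hsc1 : sc m ≤ 1 := by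
    unfold sc
    exact pow_le_one₀ (by norm_num) (by norm_num)
  set b : ℝ := (2 : ℝ) ^ j * sc m with hb
  have hb0 : 0 < b := mul_pos h2j hscpos
  have hb2 : b ≤ (2 : ℝ) ^ j := by
    rw [hb]
    nlinarith
  set ρ : ℝ := (1 + 2 * √(d : ℝ)) * b with hρ
  have hρ0 : 0 ≤ ρ := mul_nonneg hσ0 hb0.le
  have hρ2 : ρ ≤ (1 + 2 * √(d : ℝ)) * (2 : ℝ) ^ j := mul_le_mul_of_nonneg_left hb2 hσ0
  -- the scales
  have hscale : ∀ n : ℕ, (2 : ℝ) ^ (j - m - n) = (1 / 2) ^ n * b := by
    intro n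
    rw [hb, sc, zpow_sub₀ (by norm_num), zpow_sub₀ (by norm_num), zpow_natCast, zpow_natCast,
      one_div, inv_pow, inv_pow]
    field_simp
  have hratio : ∀ n : ℕ, (2 : ℝ) ^ (j - m - n) / b = (1 / 2) ^ n := by
    intro n
    rw [hscale, mul_div_cancel_right₀ _ hb0.ne']
  have hle : ∀ n : ℕ, (2 : ℝ) ^ (j - m - n) ≤ b := by
    intro n
    rw [hscale]
    have : (1 / 2 : ℝ) ^ n ≤ 1 := pow_le_one₀ (by norm_num) (by norm_num)
    nlinarith
  set W : ℕ → ℝ≥0∞ := fun n => ENNReal.ofReal ((1 / 2 : ℝ) ^ n) with hW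
  set P : ℕ → Set (E d) := fun n => Lp' p H l (j - m - n) with hP
  have hPm : ∀ n, MeasurableSet (P n) := fun n => badU_measLp hH l _
  set B : ℝ≥0∞ := ENNReal.ofReal ((b ^ d)⁻¹) with hB
  have hBρ : B * volume (closedBall (0 : E d) ρ) = κ := by
    have h0 : ρ ^ d = (1 + 2 * √(d : ℝ)) ^ d * b ^ d := by rw [hρ, mul_pow]
    rw [badU_vol _ hρ0, hB, h0, hκ, ENNReal.ofReal_mul (by positivity)]
    have h1 : ENNReal.ofReal ((b ^ d)⁻¹) * ENNReal.ofReal (b ^ d) = 1 := by
      rw [← ENNReal.ofReal_mul (by positivity), inv_mul_cancel₀ (by positivity),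
        ENNReal.ofReal_one]
    calc ENNReal.ofReal ((b ^ d)⁻¹) * (ENNReal.ofReal ((1 + 2 * √(d : ℝ)) ^ d) *
          ENNReal.ofReal (b ^ d) * volume (ball (0 : E d) 1))
        = (ENNReal.ofReal ((b ^ d)⁻¹) * ENNReal.ofReal (b ^ d)) *
          (ENNReal.ofReal ((1 + 2 * √(d : ℝ)) ^ d) * vb) := by rw [hvb]; ring
      _ = _ := by rw [h1, one_mul]
  set h : E d → ℝ≥0∞ := fun y => ∑' n : ℕ, W n * (B * volume (P n ∩ closedBall y ρ)) with hh
  -- the pointwise bound
  have hpt : ∀ y, ‖cvv K.ka b (bS p H l m j) y‖ₑ ≤ C1 * l * h y := by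
    intro y
    refine (bS_cvv hd K hH hi m j b hb0 y).trans ?_
    rw [hh, ← ENNReal.tsum_mul_left]
    refine ENNReal.tsum_le_tsum fun n => ?_
    refine (hC1 H l (j - m - n) b hH hi (hle n) y).trans (le_of_eq ?_)
    rw [hratio]
    change C1 * W n * (B * (l * volume (P n ∩ closedBall y ρ))) = _
    ring
  have hh2 : ∀ y, h y ≤ 2 * κ := by
    intro y
    have h1 : h y ≤ ∑' n : ℕ, W n * κ := by
      refine ENNReal.tsum_le_tsum fun n => mul_le_mul_right ?_ _
      rw [← hBρ]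
      refine mul_le_mul_right ?_ _
      have h5 := Measure.addHaar_closedBall_center (volume : Measure (E d)) y ρ
      rw [← h5]
      exact measure_mono inter_subset_right
    rw [ENNReal.tsum_mul_right, badU_wsum] at h1
    exact h1
  have hpow : ∀ y, ‖cvv K.ka b (bS p H l m j) y‖ₑ ^ p ≤
      (C1 : ℝ≥0∞) ^ p * l ^ p * ((2 * κ) ^ (p - 1) * h y) := by
    intro y
    refine (ENNReal.rpow_le_rpow (hpt y) hp0.le).trans ?_
    rw [ENNReal.mul_rpow_of_nonneg _ _ hp0.le, ENNReal.mul_rpow_of_nonneg _ _ hp0.le]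
    exact mul_le_mul_right (badU_pow (hh2 y) hp) _
  -- the integral of `h`
  set s : ℝ := r + 1 + 2 * √(d : ℝ) with hs
  set V : ℝ≥0∞ := ∑' n : ℕ, W n * volume (P n ∩ closedBall (cen j z) (s * (2 : ℝ) ^ j)) with hV
  have hint : ∫⁻ y in closedBall (cen j z) (r * (2 : ℝ) ^ j), h y ≤ κ * V := by
    rw [hh, lintegral_tsum fun n =>
      (((badU_meas (hPm n) ρ).const_mul B).const_mul (W n)).aemeasurable, hV,
      ← ENNReal.tsum_mul_left]
    refine ENNReal.tsum_le_tsum fun n => ?_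
    rw [lintegral_const_mul _ ((badU_meas (hPm n) ρ).const_mul B),
      lintegral_const_mul _ (badU_meas (hPm n) ρ)]
    have h1 := badU_ton (hPm n) ρ (r * (2 : ℝ) ^ j) (cen j z)
    have h2 : volume (P n ∩ closedBall (cen j z) (r * (2 : ℝ) ^ j + ρ)) ≤
        volume (P n ∩ closedBall (cen j z) (s * (2 : ℝ) ^ j)) := by
      refine measure_mono (inter_subset_inter_right _ (closedBall_subset_closedBall ?_))
      rw [hs]
      nlinarith
    calc W n * (B * ∫⁻ y in closedBall (cen j z) (r * (2 : ℝ) ^ j),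
            volume (P n ∩ closedBall y ρ))
        ≤ W n * (B * (volume (P n ∩ closedBall (cen j z) (s * (2 : ℝ) ^ j)) *
            volume (closedBall (0 : E d) ρ))) := by
          refine mul_le_mul_right (mul_le_mul_right (h1.trans ?_) _) _
          exact mul_le_mul_left h2 _
      _ = (B * volume (closedBall (0 : E d) ρ)) *
            (W n * volume (P n ∩ closedBall (cen j z) (s * (2 : ℝ) ^ j))) := by ring
      _ = _ := by rw [hBρ]
  -- the size of `V`
  set D : ℝ≥0∞ := ENNReal.ofReal (((2 : ℝ) ^ j) ^ d) with hD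
  set D' : ℝ≥0∞ := ENNReal.ofReal ((((2 : ℝ) ^ j) ^ d)⁻¹) with hD'
  have hDD : D' * D = 1 := by
    rw [hD, hD', ← ENNReal.ofReal_mul (by positivity), inv_mul_cancel₀ (by positivity),
      ENNReal.ofReal_one]
  have hVD : D' * V ≤ κ' := by
    have h1 : V ≤ ∑' n : ℕ, W n * (ENNReal.ofReal (|s| ^ d) * vb * D) := by
      refine ENNReal.tsum_le_tsum fun n => mul_le_mul_right ?_ _
      have h2 : volume (closedBall (cen j z : E d) (|s| * (2 : ℝ) ^ j)) =
          ENNReal.ofReal (|s| ^ d) * vb * D := by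
        rw [badU_vol _ (by positivity), mul_pow, ENNReal.ofReal_mul (by positivity)]
        ring
      rw [← h2]
      refine measure_mono (inter_subset_right.trans (closedBall_subset_closedBall ?_))
      exact mul_le_mul_of_nonneg_right (le_abs_self s) h2j.le
    rw [ENNReal.tsum_mul_right, badU_wsum] at h1
    calc D' * V ≤ D' * (2 * (ENNReal.ofReal (|s| ^ d) * vb * D)) := mul_le_mul_right h1 _
      _ = (D' * D) * κ' := by rw [hκ']; ring
      _ = κ' := by rw [hDD, one_mul]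
  -- conclusion
  have hfin : ∫⁻ y in closedBall (cen j z) (r * (2 : ℝ) ^ j),
      ‖cvv K.ka b (bS p H l m j) y‖ₑ ^ p ≤ C4 * l ^ p * V := by
    calc _ ≤ ∫⁻ y in closedBall (cen j z) (r * (2 : ℝ) ^ j),
          (C1 : ℝ≥0∞) ^ p * l ^ p * ((2 * κ) ^ (p - 1) * h y) :=
          lintegral_mono fun y => hpow y
      _ = (C1 : ℝ≥0∞) ^ p * l ^ p * ((2 * κ) ^ (p - 1) *
          ∫⁻ y in closedBall (cen j z) (r * (2 : ℝ) ^ j), h y) := by
        have hhm : Measurable h := by
          refine Measurable.tsum fun n => ?_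
          exact ((badU_meas (hPm n) ρ).const_mul B).const_mul (W n)
        rw [lintegral_const_mul _ (hhm.const_mul _), lintegral_const_mul _ hhm]
      _ ≤ (C1 : ℝ≥0∞) ^ p * l ^ p * ((2 * κ) ^ (p - 1) * (κ * V)) :=
        mul_le_mul_right (mul_le_mul_right hint _) _
      _ = _ := by rw [hC4]; ring
  have hA : Aav3 K p r m (bS p H l m j) j z ≤ D * (C4 * l ^ p * (D' * V)) ^ (3 / p) := by
    unfold Aav3
    refine mul_le_mul_right (ENNReal.rpow_le_rpow ?_ (by positivity)) _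
    refine (mul_le_mul_right hfin _).trans (le_of_eq ?_)
    ring
  refine hA.trans ?_
  rw [ENNReal.mul_rpow_of_nonneg _ _ (by positivity), ENNReal.mul_rpow_of_nonneg _ _
    (by positivity), ← ENNReal.rpow_mul, mul_div_cancel₀ _ hp0.ne']
  have h2 := badU_pow hVD hpp
  have hl2 : l ^ (3 : ℝ) = l ^ 3 := by exact_mod_cast ENNReal.rpow_natCast l 3
  rw [hl2]
  calc D * (C4 ^ (3 / p) * l ^ 3 * (D' * V) ^ (3 / p))
      ≤ D * (C4 ^ (3 / p) * l ^ 3 * (κ' ^ (3 / p - 1) * (D' * V))) :=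
        mul_le_mul_right (mul_le_mul_right h2 _) _
    _ = (D' * D) * (C5 * l ^ 3 * V) := by rw [hC5]; ring
    _ = C5 * l ^ 3 * V := by rw [hDD, one_mul]

theorem bad_small_sum3 (hd : 0 < d) (K : Ker d) {p : ℝ} (hp : 1 ≤ p) (hp2 : p < 3) (r : ℝ) :
    ∃ C : ℝ≥0, ∀ (m : ℕ) (H : E d → E d) (l : ℝ≥0∞), Continuous H → Integrable H → l ≠ 0 →
      l ≠ ⊤ → ∑' j : ℤ, ∑' z : Fin d → ℤ, Aav3 K p r m (bS p H l m j) j z ≤
        C * l ^ 3 * volume (Lv (fp p H) (l ^ p)) := by
  obtain ⟨C1, hC1⟩ := badU_small hd K hp hp2 r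
  obtain ⟨C2, hC2⟩ := overlap (d := d) (r + 1 + 2 * √(d : ℝ))
  refine ⟨C1 * C2 * 2, fun m H l hH hi hl0 hlt => ?_⟩
  set s : ℝ := r + 1 + 2 * √(d : ℝ) with hs
  set W : ℕ → ℝ≥0∞ := fun n => ENNReal.ofReal ((1 / 2 : ℝ) ^ n) with hW
  have hPm : ∀ i, MeasurableSet (Lp' p H l i) := fun i => badU_measLp hH l i
  have hz : ∀ j : ℤ, ∑' z : Fin d → ℤ, Aav3 K p r m (bS p H l m j) j z ≤
      C1 * l ^ 3 * (C2 * ∑' n : ℕ, W n * volume (Lp' p H l (j - m - n))) := by
    intro j
    calc ∑' z : Fin d → ℤ, Aav3 K p r m (bS p H l m j) j z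
        ≤ ∑' z : Fin d → ℤ, C1 * l ^ 3 * ∑' n : ℕ, W n * volume (Lp' p H l (j - m - n) ∩
          closedBall (cen j z) (s * (2 : ℝ) ^ j)) :=
          ENNReal.tsum_le_tsum fun z => hC1 m H l j z hH hi hl0 hlt
      _ = C1 * l ^ 3 * ∑' n : ℕ, W n * ∑' z : Fin d → ℤ, volume (Lp' p H l (j - m - n) ∩
          closedBall (cen j z) (s * (2 : ℝ) ^ j)) := by
          rw [ENNReal.tsum_mul_left, ENNReal.tsum_comm]
          simp only [ENNReal.tsum_mul_left]
      _ ≤ C1 * l ^ 3 * ∑' n : ℕ, W n * (C2 * volume (Lp' p H l (j - m - n))) := by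
          refine mul_le_mul_right (ENNReal.tsum_le_tsum fun n => mul_le_mul_right ?_ _) _
          have h1 := hC2 j ((Lp' p H l (j - m - n)).indicator 1)
            (measurable_one.indicator (hPm _))
          have h2 : ∀ z : Fin d → ℤ, ∫⁻ y in closedBall (cen j z) (s * (2 : ℝ) ^ j),
              (Lp' p H l (j - m - n)).indicator (1 : E d → ℝ≥0∞) y =
              volume (Lp' p H l (j - m - n) ∩ closedBall (cen j z) (s * (2 : ℝ) ^ j)) := by
            intro z
            rw [lintegral_indicator_one (hPm _), Measure.restrict_apply (hPm _)]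
          simp only [h2] at h1
          rw [lintegral_indicator_one (hPm _)] at h1
          exact h1
      _ = _ := by
          congr 1
          rw [← ENNReal.tsum_mul_left]
          refine tsum_congr fun n => ?_
          ring
  have hvol : ∑' i : ℤ, volume (Lp' p H l i) = volume (Lv (fp p H) (l ^ p)) := by
    unfold Lv
    rw [measure_iUnion (fun i i' h => lev_disj h) hPm]
    rfl
  have hsh : ∀ n : ℕ, ∑' j : ℤ, volume (Lp' p H l (j - m - n)) =
      volume (Lv (fp p H) (l ^ p)) := by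
    intro n
    rw [← hvol]
    have h1 := (Equiv.subRight ((m : ℤ) + n)).tsum_eq fun i : ℤ => volume (Lp' p H l i)
    rw [← h1]
    refine tsum_congr fun j => ?_
    change volume (Lp' p H l (j - m - n)) = volume (Lp' p H l (j - (m + n)))
    rw [sub_sub]
  calc ∑' j : ℤ, ∑' z : Fin d → ℤ, Aav3 K p r m (bS p H l m j) j z
      ≤ ∑' j : ℤ, C1 * l ^ 3 * (C2 * ∑' n : ℕ, W n * volume (Lp' p H l (j - m - n))) :=
        ENNReal.tsum_le_tsum hz
    _ = C1 * l ^ 3 * (C2 * ∑' n : ℕ, W n * ∑' j : ℤ, volume (Lp' p H l (j - m - n))) := by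
        rw [ENNReal.tsum_mul_left, ENNReal.tsum_mul_left, ENNReal.tsum_comm]
        simp only [ENNReal.tsum_mul_left]
    _ = C1 * l ^ 3 * (C2 * (2 * volume (Lv (fp p H) (l ^ p)))) := by
        simp only [hsh]
        rw [ENNReal.tsum_mul_right, badU_wsum]
    _ = _ := by
        push_cast
        ring

end Pool.Agent.Lib.MP_ff3fe0_an_SPH2
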