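import Pool.Agent.Lib.MP_ff3fe0_an_SPH2.Defs2
import Pool.Agent.Lib.MP_ff3fe0_an_SPH.SigA

set_option autoImplicit false

/-!
# The cutoff of the directions
-/

namespace Pool.Agent.Lib.MP_ff3fe0_an_SPH2

open MeasureTheory Metric Set
open scoped ENNReal NNReal ContDiff FourierTransform
open Pool.Agent.Lib.MP_ff3fe0_an
open Pool.Agent.Lib.MP_ff3fe0_an_SPH

theorem bb_zero {κ : ℝ} (hκ : 0 < κ) {c w : E 2} (h : bb κ c w ≠ 0) : 8 * κ ≤ ‖w - c‖ := by
  by_contra hcon
  rw [not_le] at hcon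
  refine h (Real.smoothTransition.zero_of_nonpos ?_)
  have h1 : ‖w - c‖ ^ 2 ≤ (8 * κ) ^ 2 := pow_le_pow_left₀ (norm_nonneg _) hcon.le 2
  have h2 : ‖w - c‖ ^ 2 / κ ^ 2 ≤ 64 := by
    rw [div_le_iff₀ (by positivity)]
    linarith
  linarith

theorem bb_mem (κ : ℝ) (c w : E 2) : bb κ c w ∈ Icc (0 : ℝ) 1 :=
  ⟨Real.smoothTransition.nonneg _, Real.smoothTransition.le_one _⟩

private theorem BbA_one {κ : ℝ} (hκ : 0 < κ) {c w : E 2} (h : 9 * κ ≤ ‖w - c‖) :
    bb κ c w = 1 := by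
  refine Real.smoothTransition.one_of_one_le ?_
  have h1 : (9 * κ) ^ 2 ≤ ‖w - c‖ ^ 2 := pow_le_pow_left₀ (by positivity) h 2
  have h2 : 81 ≤ ‖w - c‖ ^ 2 / κ ^ 2 := by
    rw [le_div_iff₀ (by positivity)]
    linarith
  linarith

/-! ### The amplitudes -/

private structure BbA_Q (L : ℝ) (P : E 2 → ℝ) : Prop where
  smooth : ContDiff ℝ 1 P
  le_one : ∀ w, ‖w‖ = 1 → |P w| ≤ 1
  deriv_le : ∀ w, ‖w‖ = 1 → ‖fderiv ℝ P w‖ ≤ L

private theorem BbA_Q_one : BbA_Q 0 (fun _ : E 2 => (1 : ℝ)) :=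
  ⟨contDiff_const, fun _ _ => by simp, fun w _ => by
    rw [fderiv_fun_const]
    simp⟩

private theorem BbA_Q_mul {L L' : ℝ} {P P' : E 2 → ℝ} (h : BbA_Q L P) (h' : BbA_Q L' P') :
    BbA_Q (L + L') (fun w => P w * P' w) := by
  refine ⟨h.smooth.mul h'.smooth, fun w hw => ?_, fun w hw => ?_⟩
  · rw [abs_mul]
    exact mul_le_one₀ (h.le_one w hw) (abs_nonneg _) (h'.le_one w hw)
  · have d1 := (h.smooth.differentiable one_ne_zero).differentiableAt (x := w)
    have d2 := (h'.smooth.differentiable one_ne_zero).differentiableAt (x := w)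
    rw [fderiv_fun_mul d1 d2]
    refine (norm_add_le _ _).trans ?_
    rw [norm_smul, norm_smul, Real.norm_eq_abs, Real.norm_eq_abs, add_comm]
    have a1 := h.le_one w hw
    have a2 := h'.le_one w hw
    have a3 := h.deriv_le w hw
    have a4 := h'.deriv_le w hw
    have a5 := norm_nonneg (fderiv ℝ P w)
    have a6 := norm_nonneg (fderiv ℝ P' w)
    exact add_le_add ((mul_le_of_le_one_left a5 a2).trans a3)
      ((mul_le_of_le_one_left a6 a1).trans a4)

private theorem BbA_Q_coord (i : Fin 2) : BbA_Q 1 (fun w : E 2 => w i) := by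
  have hl : ∀ w : E 2, |w i| ≤ ‖w‖ := fun w => by
    rw [← Real.norm_eq_abs]
    exact PiLp.norm_apply_le w i
  refine ⟨(EuclideanSpace.proj (𝕜 := ℝ) i : E 2 →L[ℝ] ℝ).contDiff, fun w hw => ?_,
    fun w hw => ?_⟩
  · exact (hl w).trans hw.le
  · have h1 : fderiv ℝ (fun w : E 2 => w i) w = (EuclideanSpace.proj (𝕜 := ℝ) i : E 2 →L[ℝ] ℝ) :=
      (EuclideanSpace.proj (𝕜 := ℝ) i : E 2 →L[ℝ] ℝ).fderiv
    rw [h1]
    refine ContinuousLinearMap.opNorm_le_bound _ zero_le_one fun v => ?_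
    rw [one_mul]
    exact PiLp.norm_apply_le v i

private theorem BbA_Q_mo {j : ℕ} (α : Fin j → Fin 2) : BbA_Q j (mo α) := by
  have h : ∀ s : Finset (Fin j), BbA_Q s.card (fun w : E 2 => ∏ i ∈ s, w (α i)) := by
    intro s
    induction s using Finset.induction_on with
    | empty => simpa using BbA_Q_one
    | insert a s ha ih =>
      have h1 := BbA_Q_mul (BbA_Q_coord (α a)) ih
      rw [Finset.card_insert_of_notMem ha]
      have h2 : (1 : ℝ) + (s.card : ℝ) = ((s.card + 1 : ℕ) : ℝ) := by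
        push_cast
        ring
      rw [h2] at h1
      refine ⟨?_, ?_, ?_⟩
      · simpa only [Finset.prod_insert ha] using h1.smooth
      · simpa only [Finset.prod_insert ha] using h1.le_one
      · simpa only [Finset.prod_insert ha] using h1.deriv_le
  have h1 := h Finset.univ
  rw [Finset.card_univ, Fintype.card_fin] at h1
  exact h1

private theorem BbA_D : ∃ D : ℝ, 0 ≤ D ∧ ∀ x, |deriv Real.smoothTransition x| ≤ D := by
  have hc : Continuous (deriv Real.smoothTransition) :=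
    (Real.smoothTransition.contDiff (n := 1)).continuous_deriv le_rfl
  obtain ⟨D, hD⟩ := (isCompact_Icc (a := (0 : ℝ)) (b := 1)).exists_bound_of_continuousOn
    hc.continuousOn
  have hD0 : 0 ≤ D := (norm_nonneg _).trans (hD 0 ⟨le_rfl, zero_le_one⟩)
  refine ⟨D, hD0, fun x => ?_⟩
  by_cases h0 : x < 0
  · have h1 : Real.smoothTransition =ᶠ[nhds x] fun _ => (0 : ℝ) := by
      filter_upwards [Iio_mem_nhds h0] with y hy
      exact Real.smoothTransition.zero_of_nonpos (le_of_lt hy)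
    rw [h1.deriv_eq, deriv_const, abs_zero]
    exact hD0
  by_cases h1 : 1 < x
  · have h2 : Real.smoothTransition =ᶠ[nhds x] fun _ => (1 : ℝ) := by
      filter_upwards [Ioi_mem_nhds h1] with y hy
      exact Real.smoothTransition.one_of_one_le (le_of_lt hy)
    rw [h2.deriv_eq, deriv_const, abs_zero]
    exact hD0
  · exact hD x ⟨not_lt.1 h0, not_lt.1 h1⟩

private theorem BbA_contDiff (κ : ℝ) (c : E 2) : ContDiff ℝ 1 (bb κ c) := by
  have h : ContDiff ℝ 1 fun w : E 2 => (‖w - c‖ ^ 2 / κ ^ 2 - 64) / 17 :=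
    ((((contDiff_id.sub contDiff_const).norm_sq ℝ).div_const _).sub contDiff_const).div_const _
  exact (Real.smoothTransition.contDiff (n := 1)).comp h

private theorem BbA_fderiv {D : ℝ} (hD0 : 0 ≤ D) (hD : ∀ x, |deriv Real.smoothTransition x| ≤ D)
    {κ : ℝ} (hκ : 0 < κ) (c w : E 2) : ‖fderiv ℝ (bb κ c) w‖ ≤ 2 * D / κ := by
  have hh : HasFDerivAt (fun w : E 2 => (‖w - c‖ ^ 2 / κ ^ 2 - 64) / 17)
      ((17 : ℝ)⁻¹ • ((κ ^ 2)⁻¹ • (2 • innerSL ℝ (w - c)))) w := by
    have h1 : HasFDerivAt (fun w : E 2 => ‖w - c‖ ^ 2) (2 • innerSL ℝ (w - c)) w := by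
      have h0 := ((hasFDerivAt_id w).sub_const c).norm_sq
      rw [ContinuousLinearMap.comp_id] at h0
      exact h0
    have h2 := ((h1.const_mul ((κ ^ 2)⁻¹)).sub_const 64).const_mul ((17 : ℝ)⁻¹)
    refine h2.congr_of_eventuallyEq (Filter.Eventually.of_forall fun y => ?_)
    simp only [div_eq_mul_inv]
    ring
  have hs : HasDerivAt Real.smoothTransition
      (deriv Real.smoothTransition ((‖w - c‖ ^ 2 / κ ^ 2 - 64) / 17))
      ((‖w - c‖ ^ 2 / κ ^ 2 - 64) / 17) :=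
    ((Real.smoothTransition.contDiff (n := 1)).differentiable one_ne_zero _).hasDerivAt
  have hb : fderiv ℝ (bb κ c) w = deriv Real.smoothTransition ((‖w - c‖ ^ 2 / κ ^ 2 - 64) / 17) •
      ((17 : ℝ)⁻¹ • ((κ ^ 2)⁻¹ • (2 • innerSL ℝ (w - c)))) :=
    (hs.comp_hasFDerivAt w hh).fderiv
  by_cases h9 : ‖w - c‖ ≤ 9 * κ
  · rw [hb, norm_smul, norm_smul, norm_smul, Real.norm_eq_abs, norm_inv, norm_inv,
      Real.norm_of_nonneg (by positivity : (0 : ℝ) ≤ κ ^ 2), Real.norm_ofNat]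
    have h1 : ‖(2 • innerSL ℝ (w - c) : E 2 →L[ℝ] ℝ)‖ ≤ 2 * ‖w - c‖ := by
      rw [two_smul]
      refine (norm_add_le _ _).trans ?_
      rw [innerSL_apply_norm]
      linarith
    calc |deriv Real.smoothTransition ((‖w - c‖ ^ 2 / κ ^ 2 - 64) / 17)| * (17⁻¹ * ((κ ^ 2)⁻¹ *
        ‖(2 • innerSL ℝ (w - c) : E 2 →L[ℝ] ℝ)‖)) ≤ D * (17⁻¹ * ((κ ^ 2)⁻¹ * (2 * (9 * κ)))) := by
          have h2 := hD ((‖w - c‖ ^ 2 / κ ^ 2 - 64) / 17)
          gcongr
          linarith
      _ = (18 / 17) * (D / κ) := by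
          field_simp
          ring
      _ ≤ 2 * (D / κ) := by
          have : 0 ≤ D / κ := by positivity
          linarith
      _ = 2 * D / κ := by ring
  · rw [not_le] at h9
    have h1 : 1 < (‖w - c‖ ^ 2 / κ ^ 2 - 64) / 17 := by
      have h2 : (9 * κ) ^ 2 < ‖w - c‖ ^ 2 := pow_lt_pow_left₀ h9 (by positivity) two_ne_zero
      have h3 : 81 < ‖w - c‖ ^ 2 / κ ^ 2 := by
        rw [lt_div_iff₀ (by positivity)]
        linarith
      linarith
    have h2 : deriv Real.smoothTransition ((‖w - c‖ ^ 2 / κ ^ 2 - 64) / 17) = 0 := by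
      have h3 : Real.smoothTransition =ᶠ[nhds ((‖w - c‖ ^ 2 / κ ^ 2 - 64) / 17)]
          fun _ => (1 : ℝ) := by
        filter_upwards [Ioi_mem_nhds h1] with y hy
        exact Real.smoothTransition.one_of_one_le (le_of_lt hy)
      rw [h3.deriv_eq, deriv_const]
    rw [hb, h2, zero_smul, norm_zero]
    positivity

private theorem BbA_amp {D : ℝ} (hD0 : 0 ≤ D) (hD : ∀ x, |deriv Real.smoothTransition x| ≤ D)
    {κ : ℝ} (hκ : κ ∈ Ioc (0 : ℝ) 1) (c : E 2) {L : ℝ} (hL : L ≤ 3) {P : E 2 → ℝ}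
    (hP : BbA_Q L P) : Amp ((2 * D + 3) / κ) (fun w => P w * bb κ c w) := by
  have hbb : BbA_Q (2 * D / κ) (bb κ c) := by
    refine ⟨BbA_contDiff κ c, fun w _ => ?_, fun w _ => BbA_fderiv hD0 hD hκ.1 c w⟩
    rw [abs_of_nonneg (bb_mem κ c w).1]
    exact (bb_mem κ c w).2
  have h := BbA_Q_mul hP hbb
  refine ⟨h.smooth, h.le_one, fun w hw => (h.deriv_le w hw).trans ?_⟩
  have h1 : (3 : ℝ) ≤ 3 / κ := by
    rw [le_div_iff₀ hκ.1]
    linarith [hκ.2]
  rw [add_div]
  linarith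

/-- The amplitudes of the modified kernels. -/
theorem bb_amp : ∃ C : ℝ, 1 ≤ C ∧ ∀ κ ∈ Ioc (0 : ℝ) 1, ∀ c : E 2, ∀ j ≤ 2, ∀ α : Fin j → Fin 2,
    Amp (C / κ) (fun w => mo α w * bb κ c w) ∧
      ∀ i : Fin 2, Amp (C / κ) (fun w => mo α w * w i * bb κ c w) := by
  obtain ⟨D, hD0, hD⟩ := BbA_D
  refine ⟨2 * D + 3, by linarith, fun κ hκ c j hj α => ⟨?_, fun i => ?_⟩⟩
  · have h1 : (j : ℝ) ≤ 2 := by exact_mod_cast hj
    exact BbA_amp hD0 hD hκ c (by linarith) (BbA_Q_mo α)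
  · have h1 : (j : ℝ) ≤ 2 := by exact_mod_cast hj
    exact BbA_amp hD0 hD hκ c (by linarith) (BbA_Q_mul (BbA_Q_mo α) (BbA_Q_coord i))

/-! ### The arcs -/

/-- the coordinates with respect to a unit vector -/
private noncomputable def BbA_co (w₀ : E 2) : E 2 →ₗ[ℝ] E 2 where
  toFun z := WithLp.toLp 2 ![dt z w₀, z 0 * w₀ 0 + z 1 * w₀ 1]
  map_add' z z' := by
    ext i
    fin_cases i <;> simp [dt] <;> ring
  map_smul' r z := by
    ext i
    fin_cases i <;> simp [dt] <;> ring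

private theorem BbA_strip {w₀ : E 2} (hw₀ : ‖w₀‖ = 1) {s : ℝ} (hs : 0 ≤ s) :
    volume ({z : E 2 | |dt z w₀| ≤ s} ∩ closedBall 0 3) ≤ ENNReal.ofReal (12 * s) := by
  have hw1 : w₀ 0 ^ 2 + w₀ 1 ^ 2 = 1 := by
    have h := EuclideanSpace.norm_sq_eq w₀
    rw [hw₀, Fin.sum_univ_two, Real.norm_eq_abs, Real.norm_eq_abs, sq_abs, sq_abs] at h
    linarith
  have hn : ∀ z, ‖BbA_co w₀ z‖ = ‖z‖ := by
    intro z
    have h : ‖BbA_co w₀ z‖ ^ 2 = ‖z‖ ^ 2 := by
      rw [EuclideanSpace.norm_sq_eq, EuclideanSpace.norm_sq_eq, Fin.sum_univ_two,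
        Fin.sum_univ_two, Real.norm_eq_abs, Real.norm_eq_abs, Real.norm_eq_abs,
        Real.norm_eq_abs, sq_abs, sq_abs, sq_abs, sq_abs]
      have e0 : (BbA_co w₀ z) 0 = z 0 * w₀ 1 - z 1 * w₀ 0 := rfl
      have e1 : (BbA_co w₀ z) 1 = z 0 * w₀ 0 + z 1 * w₀ 1 := rfl
      rw [e0, e1]
      linear_combination (z 0 ^ 2 + z 1 ^ 2) * hw1
    exact (pow_left_inj₀ (norm_nonneg _) (norm_nonneg _) two_ne_zero).1 h
  let A : E 2 ≃ₗᵢ[ℝ] E 2 := LinearIsometry.toLinearIsometryEquiv ⟨BbA_co w₀, hn⟩ rfl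
  have hA : ∀ z, A z = BbA_co w₀ z := fun z => rfl
  have hsub : ({z : E 2 | |dt z w₀| ≤ s} ∩ closedBall 0 3) ⊆
      A ⁻¹' ((WithLp.ofLp : E 2 → Fin 2 → ℝ) ⁻¹' Icc ![-s, -3] ![s, 3]) := by
    rintro z ⟨h1, h2⟩
    rw [mem_closedBall, dist_zero_right] at h2
    have h3 : -s ≤ dt z w₀ ∧ dt z w₀ ≤ s := abs_le.1 h1
    have h4 : |(BbA_co w₀ z) 1| ≤ 3 := by
      have h5 := PiLp.norm_apply_le (BbA_co w₀ z) 1
      rw [Real.norm_eq_abs, hn] at h5
      linarith
    have h5 := abs_le.1 h4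
    rw [mem_preimage, mem_preimage, mem_Icc, hA]
    constructor
    · intro i
      fin_cases i
      · exact h3.1
      · exact h5.1
    · intro i
      fin_cases i
      · exact h3.2
      · exact h5.2
  refine (measure_mono hsub).trans ?_
  have hm : MeasurableSet (Icc ![-s, -3] ![s, 3] : Set (Fin 2 → ℝ)) := measurableSet_Icc
  have hm2 : MeasurableSet ((WithLp.ofLp : E 2 → Fin 2 → ℝ) ⁻¹' Icc ![-s, -3] ![s, 3]) :=
    (PiLp.volume_preserving_ofLp (Fin 2)).measurable hm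
  rw [A.measurePreserving.measure_preimage hm2.nullMeasurableSet,
    (PiLp.volume_preserving_ofLp (Fin 2)).measure_preimage hm.nullMeasurableSet,
    Real.volume_Icc_pi, Fin.prod_univ_two]
  simp only [Matrix.cons_val_zero, Matrix.cons_val_one]
  rw [← ENNReal.ofReal_mul (by linarith)]
  exact ENNReal.ofReal_le_ofReal (by linarith)

private theorem BbA_dt (u v : E 2) : |dt u v| ≤ ‖u‖ * ‖v‖ := by
  refine abs_le_of_sq_le_sq ?_ (by positivity)
  have hu := EuclideanSpace.norm_sq_eq u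
  have hv := EuclideanSpace.norm_sq_eq v
  rw [Fin.sum_univ_two, Real.norm_eq_abs, Real.norm_eq_abs, sq_abs, sq_abs] at hu hv
  rw [mul_pow, hu, hv]
  unfold dt
  nlinarith [sq_nonneg (u 0 * v 0 + u 1 * v 1)]

private theorem BbA_arc : ∃ C : ℝ, 0 ≤ C ∧ ∀ (c : E 2) (ρ : ℝ), 0 ≤ ρ →
    sigma 2 {w : Sph 2 | ‖(w : E 2) - c‖ ≤ ρ} ≤ ENNReal.ofReal (C * ρ) := by
  obtain ⟨C, hC⟩ := polar_ann (d := 2) two_pos
  refine ⟨C * 72, by positivity, fun c ρ hρ => ?_⟩
  rcases Set.eq_empty_or_nonempty {w : Sph 2 | ‖(w : E 2) - c‖ ≤ ρ} with he | ⟨w₀, hw₀⟩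
  · rw [he, measure_empty]
    exact zero_le
  have hw0 : ‖(w₀ : E 2)‖ = 1 := by simp
  have hmeas : Measurable ({z : E 2 | |dt z w₀| ≤ 6 * ρ}.indicator (fun _ => (1 : ℝ≥0∞))) := by
    refine measurable_const.indicator ?_
    have h1 : Continuous fun z : E 2 => |dt z w₀| := by
      unfold dt
      fun_prop
    exact measurableSet_le h1.measurable measurable_const
  have h := hC _ hmeas 0
  have hRHS : ∫⁻ y in closedBall (0 : E 2) 3,
      {z : E 2 | |dt z w₀| ≤ 6 * ρ}.indicator (fun _ => (1 : ℝ≥0∞)) y ≤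
      ENNReal.ofReal (72 * ρ) := by
    have hms : MeasurableSet {z : E 2 | |dt z w₀| ≤ 6 * ρ} := by
      have h1 : Continuous fun z : E 2 => |dt z w₀| := by
        unfold dt
        fun_prop
      exact measurableSet_le h1.measurable measurable_const
    rw [lintegral_indicator hms, lintegral_const, one_mul, Measure.restrict_apply_univ,
      Measure.restrict_apply hms]
    refine (BbA_strip hw0 (by positivity)).trans (ENNReal.ofReal_le_ofReal (by linarith))
  have hLHS : sigma 2 {w : Sph 2 | ‖(w : E 2) - c‖ ≤ ρ} ≤ ∫⁻ r in Icc (1 / 4 : ℝ) 3,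
      ∫⁻ w : Sph 2, {z : E 2 | |dt z w₀| ≤ 6 * ρ}.indicator (fun _ => (1 : ℝ≥0∞))
        (0 - r • (w : E 2)) ∂(sigma 2) := by
    have h1 : ∀ r ∈ Icc (1 / 4 : ℝ) 3, sigma 2 {w : Sph 2 | ‖(w : E 2) - c‖ ≤ ρ} ≤
        ∫⁻ w : Sph 2, {z : E 2 | |dt z w₀| ≤ 6 * ρ}.indicator (fun _ => (1 : ℝ≥0∞))
          (0 - r • (w : E 2)) ∂(sigma 2) := by
      intro r hr
      have hms : MeasurableSet {w : Sph 2 | ‖(w : E 2) - c‖ ≤ ρ} := by
        have h1 : Continuous fun w : Sph 2 => ‖(w : E 2) - c‖ := by fun_prop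
        exact measurableSet_le h1.measurable measurable_const
      rw [← lintegral_indicator_one hms]
      refine lintegral_mono fun w => ?_
      by_cases hw : w ∈ {w : Sph 2 | ‖(w : E 2) - c‖ ≤ ρ}
      · rw [Set.indicator_of_mem hw, Set.indicator_of_mem]
        · rfl
        · have h2 : ‖(w : E 2) - w₀‖ ≤ 2 * ρ := by
            have h3 := norm_sub_le ((w : E 2) - c) ((w₀ : E 2) - c)
            rw [sub_sub_sub_cancel_right] at h3
            have h4 : ‖(w : E 2) - c‖ ≤ ρ := hw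
            have h5 : ‖(w₀ : E 2) - c‖ ≤ ρ := hw₀
            linarith
          have h3 : dt (0 - r • (w : E 2)) w₀ = -r * dt ((w : E 2) - w₀) w₀ := by
            simp only [dt, PiLp.sub_apply, PiLp.zero_apply, PiLp.smul_apply, smul_eq_mul]
            ring
          have h4 := BbA_dt ((w : E 2) - w₀) w₀
          rw [hw0, mul_one] at h4
          change |dt (0 - r • (w : E 2)) w₀| ≤ 6 * ρ
          rw [h3, abs_mul, abs_neg, abs_of_nonneg (by linarith [hr.1])]
          calc r * |dt ((w : E 2) - w₀) w₀| ≤ 3 * (2 * ρ) := by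
                have h5 := hr.2
                have h6 := h4.trans h2
                gcongr
            _ = 6 * ρ := by ring
      · rw [Set.indicator_of_notMem hw]
        exact zero_le
    calc sigma 2 {w : Sph 2 | ‖(w : E 2) - c‖ ≤ ρ}
        ≤ ∫⁻ _ in Icc (1 / 4 : ℝ) 3, sigma 2 {w : Sph 2 | ‖(w : E 2) - c‖ ≤ ρ} := by
          rw [lintegral_const, Measure.restrict_apply_univ, Real.volume_Icc]
          refine le_mul_of_one_le_right zero_le ?_
          rw [← ENNReal.ofReal_one]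
          exact ENNReal.ofReal_le_ofReal (by norm_num)
      _ ≤ _ := setLIntegral_mono' measurableSet_Icc h1
  refine hLHS.trans (h.trans ((mul_le_mul_right hRHS _).trans (le_of_eq ?_)))
  rw [mul_assoc, ENNReal.ofReal_mul (p := (C : ℝ)) (by positivity), ENNReal.ofReal_coe_nnreal]

/-! ### The difference -/

private theorem BbA_bd {Θ : E 2 → ℝ} (hΘ : K2 Θ) : ∃ M : ℝ, 0 ≤ M ∧ ∀ y, |Θ y| ≤ M := by
  have hc : HasCompactSupport Θ := by
    refine HasCompactSupport.intro (isCompact_closedBall (0 : E 2) 2) fun y hy => ?_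
    refine hΘ.supp y ?_
    rwa [mem_closedBall, dist_zero_right, not_le] at hy
  obtain ⟨M, hM⟩ := hΘ.smooth.continuous.bounded_above_of_compact_support hc
  exact ⟨M, (norm_nonneg _).trans (hM 0), hM⟩

private theorem BbA_cont {Θ : E 2 → ℝ} (hΘ : K2 Θ) {β : E 2 → ℝ} (hβ : Continuous β) (δ t : ℝ)
    (x : E 2) : Continuous (Function.uncurry fun (y : E 2) (w : Sph 2) =>
      Θ (δ⁻¹ • (x - t • (w : E 2) - y)) * β w) := by
  have h := hΘ.smooth.continuous
  unfold Function.uncurry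
  fun_prop

private theorem BbA_sph {f : Sph 2 → ℝ} (hf : Continuous f) : Integrable f (sigma 2) := by
  have := sigma_prob (d := 2) two_pos
  exact hf.integrable_of_hasCompactSupport (HasCompactSupport.of_compactSpace f)

private theorem BbA_int {Θ : E 2 → ℝ} (hΘ : K2 Θ) {β : E 2 → ℝ} (hβ : Continuous β)
    (hβ1 : ∀ w, ‖w‖ = 1 → |β w| ≤ 1) (δ t : ℝ) (x : E 2) {r : ℝ} {q : E 2 → ℝ}
    (hq : Bdd r q) (hq1 : ∀ y, |q y| ≤ 1) : Integrable (fun y => q y * kk Θ β δ t x y) := by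
  have hpr := sigma_prob (d := 2) two_pos
  obtain ⟨M, hM0, hM⟩ := BbA_bd hΘ
  have hm : Measurable fun y => kk Θ β δ t x y := by
    have h := (BbA_cont hΘ hβ δ t x).stronglyMeasurable.integral_prod_right (ν := sigma 2)
    exact (h.measurable.const_mul _)
  have hg : Integrable ((closedBall (0 : E 2) r).indicator
      (fun _ : E 2 => |(δ ^ 2)⁻¹| * M)) := by
    rw [integrable_indicator_iff measurableSet_closedBall]
    exact integrableOn_const measure_closedBall_lt_top.ne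
  refine hg.mono' (hq.meas.mul hm).aestronglyMeasurable (Filter.Eventually.of_forall fun y => ?_)
  by_cases hy : y ∈ closedBall (0 : E 2) r
  · rw [Set.indicator_of_mem hy, norm_mul, Real.norm_eq_abs]
    refine (mul_le_of_le_one_left (norm_nonneg _) (hq1 y)).trans ?_
    unfold kk
    rw [norm_mul, Real.norm_eq_abs]
    refine mul_le_mul_of_nonneg_left ?_ (abs_nonneg _)
    have h1 := norm_integral_le_of_norm_le_const (μ := sigma 2)
      (f := fun w : Sph 2 => Θ (δ⁻¹ • (x - t • (w : E 2) - y)) * β w) (C := M)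
      (Filter.Eventually.of_forall fun w => by
        rw [norm_mul, Real.norm_eq_abs, Real.norm_eq_abs]
        have h2 := hβ1 (w : E 2) (by simp)
        have h3 := hM (δ⁻¹ • (x - t • (w : E 2) - y))
        calc |Θ (δ⁻¹ • (x - t • (w : E 2) - y))| * |β w| ≤ M * 1 :=
              mul_le_mul h3 h2 (abs_nonneg _) hM0
          _ = M := mul_one M)
    simpa using h1
  · have h1 : q y = 0 := by
      refine hq.supp y ?_
      rwa [mem_closedBall, dist_zero_right, not_le] at hy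
    rw [Set.indicator_of_notMem hy, h1, zero_mul, norm_zero]

/-- The cutoff changes the averages of a bounded function by little. -/
theorem bb_small {Θ : E 2 → ℝ} (hΘ : K2 Θ) : ∃ C : ℝ, 0 < C ∧ ∀ (β : E 2 → ℝ), Continuous β →
    (∀ w, ‖w‖ = 1 → |β w| ≤ 1) → ∀ δ ∈ Ioc (0 : ℝ) (1 / 64), ∀ κ ∈ Ioc (0 : ℝ) 1, ∀ (c x : E 2)
    (t r : ℝ) (q : E 2 → ℝ), Bdd r q → (∀ y, |q y| ≤ 1) →
      |(∫ y, q y * kk Θ β δ t x y) - ∫ y, q y * kk Θ (fun w => β w * bb κ c w) δ t x y| ≤
        C * κ := by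
  obtain ⟨M, hM0, hM⟩ := BbA_bd hΘ
  obtain ⟨A, hA0, hA⟩ := BbA_arc
  obtain ⟨V, hV⟩ : ∃ V : ℝ, V = (volume (ball (0 : E 2) 1)).toReal := ⟨_, rfl⟩
  have hV0 : 0 ≤ V := by
    rw [hV]
    exact ENNReal.toReal_nonneg
  refine ⟨36 * M * V * A + 1, by positivity, fun β hβ hβ1 δ hδ κ hκ c x t r q hq hq1 => ?_⟩
  have hpr := sigma_prob (d := 2) two_pos
  have hbc : Continuous (bb κ c) := (BbA_contDiff κ c).continuous
  have hβ' : Continuous fun w => β w * bb κ c w := hβ.mul hbc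
  have hβ1' : ∀ w, ‖w‖ = 1 → |β w * bb κ c w| ≤ 1 := by
    intro w hw
    rw [abs_mul, abs_of_nonneg (bb_mem κ c w).1]
    exact mul_le_one₀ (hβ1 w hw) (bb_mem κ c w).1 (bb_mem κ c w).2
  rw [← integral_sub (BbA_int hΘ hβ hβ1 δ t x hq hq1) (BbA_int hΘ hβ' hβ1' δ t x hq hq1)]
  obtain ⟨S, hS⟩ : ∃ S : Set (E 2 × Sph 2), S = {z | ‖x - t • (z.2 : E 2) - z.1‖ ≤ 2 * δ ∧
      ‖(z.2 : E 2) - c‖ ≤ 9 * κ} := ⟨_, rfl⟩
  have hSm : MeasurableSet S := by
    rw [hS]
    refine MeasurableSet.inter ?_ ?_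
    · have h1 : Continuous fun z : E 2 × Sph 2 => ‖x - t • (z.2 : E 2) - z.1‖ := by fun_prop
      exact measurableSet_le h1.measurable measurable_const
    · have h1 : Continuous fun z : E 2 × Sph 2 => ‖(z.2 : E 2) - c‖ := by fun_prop
      exact measurableSet_le h1.measurable measurable_const
  have hpt : ∀ y, ‖q y * kk Θ β δ t x y - q y * kk Θ (fun w => β w * bb κ c w) δ t x y‖ₑ ≤
      ENNReal.ofReal ((δ ^ 2)⁻¹) * (ENNReal.ofReal M *
        ∫⁻ w : Sph 2, S.indicator (fun _ => (1 : ℝ≥0∞)) (y, w) ∂(sigma 2)) := by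
    intro y
    have i1 : Integrable (fun w : Sph 2 => Θ (δ⁻¹ • (x - t • (w : E 2) - y)) * β w) (sigma 2) := by
      refine BbA_sph ?_
      have h := hΘ.smooth.continuous
      fun_prop
    have i2 : Integrable (fun w : Sph 2 => Θ (δ⁻¹ • (x - t • (w : E 2) - y)) *
        (β w * bb κ c w)) (sigma 2) := by
      refine BbA_sph ?_
      have h := hΘ.smooth.continuous
      fun_prop
    have e1 : q y * kk Θ β δ t x y - q y * kk Θ (fun w => β w * bb κ c w) δ t x y =
        q y * ((δ ^ 2)⁻¹ * ∫ w : Sph 2, (Θ (δ⁻¹ • (x - t • (w : E 2) - y)) * β w -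
          Θ (δ⁻¹ • (x - t • (w : E 2) - y)) * (β w * bb κ c w)) ∂(sigma 2)) := by
      rw [integral_sub i1 i2]
      unfold kk
      ring
    rw [e1, enorm_mul, enorm_mul]
    have h1 : ‖q y‖ₑ ≤ 1 := by
      rw [Real.enorm_eq_ofReal_abs, ← ENNReal.ofReal_one]
      exact ENNReal.ofReal_le_ofReal (hq1 y)
    have h2 : ‖(δ ^ 2)⁻¹‖ₑ = ENNReal.ofReal ((δ ^ 2)⁻¹) :=
      Real.enorm_of_nonneg (by positivity)
    rw [h2]
    refine (mul_le_of_le_one_left zero_le h1).trans (mul_le_mul_right ?_ _)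
    refine (enorm_integral_le_lintegral_enorm _).trans ?_
    rw [← lintegral_const_mul' _ _ ENNReal.ofReal_ne_top]
    refine lintegral_mono fun w => ?_
    have e2 : Θ (δ⁻¹ • (x - t • (w : E 2) - y)) * β w -
        Θ (δ⁻¹ • (x - t • (w : E 2) - y)) * (β w * bb κ c w) =
        Θ (δ⁻¹ • (x - t • (w : E 2) - y)) * (β w * (1 - bb κ c w)) := by ring
    rw [e2]
    by_cases hz : (y, w) ∈ S
    · rw [Set.indicator_of_mem hz, mul_one, Real.enorm_eq_ofReal_abs]
      refine ENNReal.ofReal_le_ofReal ?_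
      rw [abs_mul, abs_mul]
      have h3 := hM (δ⁻¹ • (x - t • (w : E 2) - y))
      have h4 := hβ1 (w : E 2) (by simp)
      have h5 : |1 - bb κ c w| ≤ 1 := by
        have h6 := bb_mem κ c (w : E 2)
        rw [abs_of_nonneg (by linarith [h6.2])]
        linarith [h6.1]
      calc |Θ (δ⁻¹ • (x - t • (w : E 2) - y))| * (|β w| * |1 - bb κ c w|) ≤ M * (1 * 1) := by
            gcongr
        _ = M := by ring
    · rw [hS, Set.mem_ofPred_eq, not_and_or, not_le, not_le] at hz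
      rcases hz with hz | hz
      · have h3 : Θ (δ⁻¹ • (x - t • (w : E 2) - y)) = 0 := by
          refine hΘ.supp _ ?_
          rw [norm_smul, norm_inv, Real.norm_of_nonneg hδ.1.le, inv_mul_eq_div,
            lt_div_iff₀ hδ.1]
          exact hz
        rw [h3, zero_mul, enorm_zero]
        exact zero_le
      · have h3 : bb κ c w = 1 := BbA_one hκ.1 hz.le
        rw [h3, sub_self, mul_zero, mul_zero, enorm_zero]
        exact zero_le
  have hswap : ∫⁻ y, ∫⁻ w : Sph 2, S.indicator (fun _ => (1 : ℝ≥0∞)) (y, w) ∂(sigma 2) ≤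
      ENNReal.ofReal ((2 * δ) ^ 2 * V) * ENNReal.ofReal (A * (9 * κ)) := by
    have hmi : Measurable (Function.uncurry fun (y : E 2) (w : Sph 2) =>
        S.indicator (fun _ => (1 : ℝ≥0∞)) (y, w)) := measurable_const.indicator hSm
    rw [lintegral_lintegral_swap hmi.aemeasurable]
    have h1 : ∀ w : Sph 2, ∫⁻ y, S.indicator (fun _ => (1 : ℝ≥0∞)) (y, w) ≤
        ENNReal.ofReal ((2 * δ) ^ 2 * V) *
          {w : Sph 2 | ‖(w : E 2) - c‖ ≤ 9 * κ}.indicator 1 w := by
      intro w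
      by_cases hw : w ∈ {w : Sph 2 | ‖(w : E 2) - c‖ ≤ 9 * κ}
      · rw [Set.indicator_of_mem hw, Pi.one_apply, mul_one]
        calc ∫⁻ y, S.indicator (fun _ => (1 : ℝ≥0∞)) (y, w)
            ≤ ∫⁻ y, (closedBall (x - t • (w : E 2)) (2 * δ)).indicator
              (fun _ => (1 : ℝ≥0∞)) y := by
              refine lintegral_mono fun y => ?_
              by_cases hz : (y, w) ∈ S
              · rw [Set.indicator_of_mem hz, Set.indicator_of_mem]
                rw [hS] at hz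
                rw [mem_closedBall, dist_eq_norm, norm_sub_rev]
                exact hz.1
              · rw [Set.indicator_of_notMem hz]
                exact zero_le
          _ = volume (closedBall (x - t • (w : E 2)) (2 * δ)) := by
              rw [lintegral_indicator measurableSet_closedBall, lintegral_const, one_mul,
                Measure.restrict_apply_univ]
          _ = ENNReal.ofReal ((2 * δ) ^ 2 * V) := by
              rw [Measure.addHaar_closedBall volume _ (by linarith [hδ.1]),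
                finrank_euclideanSpace_fin, ENNReal.ofReal_mul (by positivity), hV,
                ENNReal.ofReal_toReal measure_ball_lt_top.ne]
      · have h2 : ∀ y, S.indicator (fun _ => (1 : ℝ≥0∞)) (y, w) = 0 := by
          intro y
          refine Set.indicator_of_notMem (fun hz => hw ?_) _
          rw [hS] at hz
          exact hz.2
        simp only [h2, lintegral_zero]
        exact zero_le
    refine (lintegral_mono h1).trans ?_
    rw [lintegral_const_mul' _ _ ENNReal.ofReal_ne_top]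
    have hms : MeasurableSet {w : Sph 2 | ‖(w : E 2) - c‖ ≤ 9 * κ} := by
      have h1 : Continuous fun w : Sph 2 => ‖(w : E 2) - c‖ := by fun_prop
      exact measurableSet_le h1.measurable measurable_const
    rw [lintegral_indicator_one hms]
    exact mul_le_mul_right (hA c (9 * κ) (by linarith [hκ.1])) _
  have hfin : ‖∫ y, (q y * kk Θ β δ t x y - q y * kk Θ (fun w => β w * bb κ c w) δ t x y)‖ₑ ≤
      ENNReal.ofReal ((36 * M * V * A + 1) * κ) := by
    refine (enorm_integral_le_lintegral_enorm _).trans ((lintegral_mono hpt).trans ?_)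
    rw [lintegral_const_mul' _ _ ENNReal.ofReal_ne_top,
      lintegral_const_mul' _ _ ENNReal.ofReal_ne_top]
    refine (mul_le_mul_right (mul_le_mul_right hswap _) _).trans ?_
    have hκ0 := hκ.1
    have hδ0 := hδ.1
    rw [← ENNReal.ofReal_mul (by positivity), ← ENNReal.ofReal_mul (by positivity),
      ← ENNReal.ofReal_mul (by positivity)]
    refine ENNReal.ofReal_le_ofReal ?_
    have e : (δ ^ 2)⁻¹ * (M * ((2 * δ) ^ 2 * V * (A * (9 * κ)))) = 36 * M * V * A * κ := by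
      field_simp
      ring
    rw [e]
    nlinarith
  rw [Real.enorm_eq_ofReal_abs] at hfin
  exact (ENNReal.ofReal_le_ofReal_iff (by have := hκ.1; positivity)).1 hfin

end Pool.Agent.Lib.MP_ff3fe0_an_SPH2
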