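import Pool.Agent.Lib.MP_ff3fe0_an_SPH2.FluxM

set_option autoImplicit false

/-!
# The energy flux through backward light cones
-/

namespace Pool.Agent.Lib.MP_ff3fe0_an_SPH2

open MeasureTheory Metric Set
open scoped ENNReal NNReal ContDiff FourierTransform
open Pool.Agent.Lib.MP_ff3fe0_an
open Pool.Agent.Lib.MP_ff3fe0_an_SPH

variable {d : ℕ}

/-- the scalar spherical mean as a function on space-time -/
private theorem cA_f (φ : E d → ℝ) (z : E d × ℝ) :
    SPH.TA (fun _ => (1 : ℝ)) φ z = sm φ z.2 z.1 := by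
  simp [SPH.TA, sm]

/-- the iterated time derivative -/
private theorem cA_tD (j : ℕ) {f : E d × ℝ → ℝ} (hf : ContDiff ℝ ∞ f) (x : E d) (t : ℝ) :
    SPH.tD j f (x, t) = iteratedDeriv j (fun s => f (x, s)) t := by
  induction j generalizing t with
  | zero => rfl
  | succ j ih =>
    rw [iteratedDeriv_succ]
    have h0 : (iteratedDeriv j fun s => f (x, s)) = fun s => SPH.tD j f (x, s) := by
      funext s
      exact (ih s).symm
    rw [h0]
    have h1 : HasFDerivAt (SPH.tD j f) (fderiv ℝ (SPH.tD j f) (x, t)) (x, t) :=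
      ((SPH.tD_contDiff j hf).differentiable (by simp) (x, t)).hasFDerivAt
    have h2 : HasDerivAt (fun s : ℝ => ((x, s) : E d × ℝ)) ((0 : E d), (1 : ℝ)) t :=
      (hasDerivAt_const t x).prodMk (hasDerivAt_id t)
    exact (h1.comp_hasDerivAt t h2).deriv.symm

/-- coordinates of iterated derivatives -/
private theorem cA_coord (j : ℕ) {F : ℝ → E d} (hF : ContDiff ℝ ∞ F) (i : Fin d) (t : ℝ) :
    iteratedDeriv j F t i = iteratedDeriv j (fun s => F s i) t := by
  induction j generalizing F t with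
  | zero => rfl
  | succ j ih =>
    rw [iteratedDeriv_succ', iteratedDeriv_succ']
    have h1 : deriv (fun s => F s i) = fun s => deriv F s i := by
      funext s
      have h2 : HasDerivAt F (deriv F s) s := (hF.differentiable (by simp) s).hasDerivAt
      have h3 := (EuclideanSpace.proj i : E d →L[ℝ] ℝ).hasFDerivAt.comp_hasDerivAt s h2
      exact h3.deriv
    rw [h1]
    exact ih (contDiff_infty_iff_deriv.1 hF).2 t

/-- the coordinates of the vector mean -/
private theorem cA_g (hd : 0 < d) {φ : E d → ℝ} (hφ : ContDiff ℝ ∞ φ) (i : Fin d)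
    (z : E d × ℝ) : SPH.TA (fun w => (w : E d) i) φ z =
      (∫ w : Sph d, φ (z.1 - z.2 • (w : E d)) • (w : E d) ∂(sigma d)) i := by
  have hp := sigma_prob hd
  have hc : Continuous fun w : Sph d => φ (z.1 - z.2 • (w : E d)) • (w : E d) :=
    (hφ.continuous.comp (by fun_prop)).smul continuous_subtype_val
  have hint : Integrable (fun w : Sph d => φ (z.1 - z.2 • (w : E d)) • (w : E d)) (sigma d) :=
    integrableOn_univ.mp (hc.continuousOn.integrableOn_compact isCompact_univ)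
  have h1 := ContinuousLinearMap.integral_comp_comm (EuclideanSpace.proj i : E d →L[ℝ] ℝ) hint
  have h2 : (EuclideanSpace.proj i : E d →L[ℝ] ℝ)
      (∫ w : Sph d, φ (z.1 - z.2 • (w : E d)) • (w : E d) ∂(sigma d)) =
      (∫ w : Sph d, φ (z.1 - z.2 • (w : E d)) • (w : E d) ∂(sigma d)) i := rfl
  rw [← h2, ← h1]
  unfold SPH.TA
  refine integral_congr_ae (Filter.Eventually.of_forall fun w => ?_)
  simp [mul_comm]

private theorem cA_nrm (v : E d) : ‖v‖ₑ ^ 2 = ENNReal.ofReal (∑ i, (v i) ^ 2) := by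
  rw [← ofReal_norm, ← ENNReal.ofReal_pow (norm_nonneg _), EuclideanSpace.norm_sq_eq]
  simp

/-- the support of the spherical means -/
private theorem cA_supp (a : SPH.Sp d → ℝ) {φ : E d → ℝ} {R : ℝ}
    (hR : ∀ y, φ y ≠ 0 → ‖y‖ ≤ R)
    (z : E d × ℝ) (hz : z ∈ tsupport (SPH.TA a φ)) : ‖z.1‖ ≤ R + |z.2| := by
  have hcl : IsClosed {z : E d × ℝ | ‖z.1‖ ≤ R + |z.2|} :=
    isClosed_le (by fun_prop) (by fun_prop)
  have hsub : Function.support (SPH.TA a φ) ⊆ {z : E d × ℝ | ‖z.1‖ ≤ R + |z.2|} := by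
    intro z hz
    by_contra hcon
    apply hz
    unfold SPH.TA
    have : ∀ w : SPH.Sp d, a w * φ (z.1 - z.2 • (w : E d)) = 0 := by
      intro w
      have h1 : φ (z.1 - z.2 • (w : E d)) = 0 := by
        by_contra h2
        apply hcon
        have h3 := hR _ h2
        have hw : ‖(w : E d)‖ = 1 := by
          have := w.2
          rwa [mem_sphere_zero_iff_norm] at this
        have h4 : ‖z.1‖ ≤ ‖z.1 - z.2 • (w : E d)‖ + ‖z.2 • (w : E d)‖ := by
          have := norm_add_le (z.1 - z.2 • (w : E d)) (z.2 • (w : E d))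
          simpa using this
        rw [norm_smul, hw, mul_one, Real.norm_eq_abs] at h4
        show ‖z.1‖ ≤ R + |z.2|
        linarith
      rw [h1, mul_zero]
    simp [this]
  exact (closure_minimal hsub hcl) hz

/-- The flux through the backward light cones of the sources `b`. -/
theorem cone_back (hd : 0 < d) : ∃ C : ℝ≥0, ∀ φ : E d → ℝ, ContDiff ℝ ∞ φ → HasCompactSupport φ →
    ∀ j ≤ 2, ∀ A : ℝ≥0∞, (∀ i ≤ j, ∀ t ∈ Icc (1 / 4 : ℝ) 3,
      (∫⁻ x, ‖iteratedDeriv i (fun s => sm φ s x) t‖ₑ ^ 2) + ∫⁻ x, ‖JJ i φ 0 x t‖ₑ ^ 2 ≤ A) →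
    ∀ (b : E d) (τ : ℝ), ∫⁻ y in {y : E d | -‖y - b‖ + τ ∈ Icc (1 / 2 : ℝ) (5 / 2)},
      ‖JJ j φ (-(‖y - b‖⁻¹ • (y - b))) y (-‖y - b‖ + τ)‖ₑ ^ 2 ≤ C * A := by
  obtain ⟨C, hC, H⟩ := SPH.cone_abstract_back d
  refine ⟨Real.toNNReal C, ?_⟩
  intro φ hφ cφ j hj A hA b τ
  have hCne : ((Real.toNNReal C : ℝ≥0) : ℝ≥0∞) ≠ 0 := by
    simpa using hC
  by_cases hAt : A = ⊤
  · rw [hAt, ENNReal.mul_top hCne]
    exact le_top
  have hp := sigma_prob hd
  -- the fields
  set f : E d × ℝ → ℝ := SPH.TA (fun _ => (1 : ℝ)) φ with hf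
  set g : Fin d → E d × ℝ → ℝ := fun i => SPH.TA (fun w => (w : E d) i) φ with hg
  have fc : ContDiff ℝ ∞ f := SPH.TA_contDiff continuous_const hφ cφ
  have gc : ∀ i, ContDiff ℝ ∞ (g i) := fun i => SPH.TA_contDiff (SPH.cont_coord i) hφ cφ
  obtain ⟨R, hR⟩ : ∃ R : ℝ, ∀ y, φ y ≠ 0 → ‖y‖ ≤ R := by
    obtain ⟨R, hR⟩ := (cφ.isCompact.isBounded).subset_closedBall (0 : E d)
    exact ⟨R, fun y hy => mem_closedBall_zero_iff.1 (hR (subset_tsupport φ hy))⟩
  have fs := cA_supp (fun _ => (1 : ℝ)) hR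
  have gs := fun i : Fin d => cA_supp (fun w => (w : E d) i) hR
  -- time derivatives
  have fD : ∀ (l : ℕ) (x : E d) (t : ℝ),
      SPH.tD l f (x, t) = iteratedDeriv l (fun s => sm φ s x) t := by
    intro l x t
    rw [cA_tD l fc]
    congr 1
    funext s
    exact cA_f φ (x, s)
  have vc : ∀ x : E d, ContDiff ℝ ∞ (fun s => ∫ w : Sph d, φ (x - s • (w : E d)) •
      ((w : E d) - 0) ∂(sigma d)) := fun x => by
    have := JJ_contDiff hd hφ 0 0 x
    exact this
  have gD : ∀ (l : ℕ) (i : Fin d) (x : E d) (t : ℝ),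
      SPH.tD l (g i) (x, t) = JJ l φ 0 x t i := by
    intro l i x t
    rw [cA_tD l (gc i)]
    unfold JJ
    rw [cA_coord l (vc x) i t]
    congr 1
    funext s
    have := cA_g hd hφ i (x, s)
    simp only [sub_zero]
    exact this
  -- the equations
  have e1 : ∀ z, ∑ i, SPH.dxi i (g i) z = - SPH.dti f z := by
    intro z
    rw [hf, SPH.dti_TA continuous_const hφ cφ, neg_neg]
    refine Finset.sum_congr rfl fun i _ => ?_
    rw [hg]
    simp only [one_mul]
    exact SPH.dxi_TA (SPH.cont_coord i) hφ cφ i z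
  have e2 : ∀ i z, z.2 ≠ 0 → SPH.dxi i f z + SPH.dti (g i) z =
      -(((d : ℝ) - 1) * (z.2⁻¹ * g i z)) := by
    rintro i ⟨x, t⟩ ht
    have ht' : t ≠ 0 := ht
    have h1 : SPH.dti (g i) (x, t) = deriv (fun s => g i (x, s)) t := by
      have := cA_tD 1 (gc i) x t
      rw [iteratedDeriv_one] at this
      exact this
    have h2 : (fun s : ℝ => g i (x, s)) = fun s : ℝ =>
        (∫ w : Sph d, φ (x - s • (w : E d)) • (w : E d) ∂(sigma d)) i := by
      funext s
      exact cA_g hd hφ i (x, s)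
    have h3 : deriv (fun s => g i (x, s)) t =
        (deriv (fun s : ℝ => ∫ w : Sph d, φ (x - s • (w : E d)) • (w : E d) ∂(sigma d)) t) i := by
      rw [h2]
      have hvd : ContDiff ℝ ∞
          (fun s : ℝ => ∫ w : Sph d, φ (x - s • (w : E d)) • (w : E d) ∂(sigma d)) := by
        have := vc x
        simpa only [sub_zero] using this
      have h4 := cA_coord 1 hvd i t
      rw [iteratedDeriv_one, iteratedDeriv_one] at h4
      exact h4.symm
    have h5 : SPH.dxi i f (x, t) = gradient (sm φ t) x i := by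
      rw [sm_gradient hd hφ, hf, SPH.dxi_TA continuous_const hφ cφ, cA_f]
      rfl
    rw [h1, h3, vec_deriv hd hφ ht' x, h5]
    have h6 : g i (x, t) =
        (∫ w : Sph d, φ (x - t • (w : E d)) • (w : E d) ∂(sigma d)) i := cA_g hd hφ i (x, t)
    rw [h6]
    simp only [PiLp.sub_apply, PiLp.neg_apply, PiLp.smul_apply, smul_eq_mul]
    ring
  -- the bound
  have hM : ∀ t ∈ Icc (1 / 4 : ℝ) 3, ∀ l ≤ j,
      ∫ x, ((SPH.tD l f (x, t)) ^ 2 + ∑ i, (SPH.tD l (g i) (x, t)) ^ 2) ≤ A.toReal := by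
    intro t ht l hl
    have hcont : Continuous fun x : E d => (SPH.tD l f (x, t)) ^ 2 := by
      exact ((SPH.tD_contDiff l fc).continuous.comp (Continuous.prodMk_left t)).pow 2
    have h1 : ∫ x, ((SPH.tD l f (x, t)) ^ 2 + ∑ i, (SPH.tD l (g i) (x, t)) ^ 2) =
        (∫⁻ x, ENNReal.ofReal ((SPH.tD l f (x, t)) ^ 2 +
          ∑ i, (SPH.tD l (g i) (x, t)) ^ 2)).toReal := by
      refine integral_eq_lintegral_of_nonneg_ae (Filter.Eventually.of_forall fun x =>
        add_nonneg (sq_nonneg _) (Finset.sum_nonneg fun i _ => sq_nonneg _)) ?_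
      refine (hcont.add (continuous_finsetSum _ fun i _ => ?_)).aestronglyMeasurable
      exact ((SPH.tD_contDiff l (gc i)).continuous.comp (Continuous.prodMk_left t)).pow 2
    rw [h1]
    refine ENNReal.toReal_mono hAt ?_
    refine le_trans (le_of_eq ?_) (hA l hl t ht)
    rw [← lintegral_add_left]
    · refine lintegral_congr fun x => ?_
      rw [ENNReal.ofReal_add (sq_nonneg _) (Finset.sum_nonneg fun i _ => sq_nonneg _), cA_nrm]
      congr 1
      · rw [fD, ← ofReal_norm, ← ENNReal.ofReal_pow (norm_nonneg _), Real.norm_eq_abs, sq_abs]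
      · simp only [gD]
    · have h2 : (fun x : E d => ‖iteratedDeriv l (fun s => sm φ s x) t‖ₑ ^ 2) =
          fun x => ENNReal.ofReal ((SPH.tD l f (x, t)) ^ 2) := by
        funext x
        rw [fD, ← ofReal_norm, ← ENNReal.ofReal_pow (norm_nonneg _), Real.norm_eq_abs, sq_abs]
      rw [h2]
      exact (ENNReal.continuous_ofReal.comp hcont).measurable
  have key := H f g R fc gc fs gs e1 e2 j hj A.toReal hM b τ
  have h1 : ENNReal.ofReal (C * A.toReal) = (Real.toNNReal C : ℝ≥0) * A := by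
    rw [ENNReal.ofReal_mul hC.le, ENNReal.ofReal_toReal hAt]
    rfl
  rw [h1] at key
  refine le_trans (le_of_eq ?_) key
  refine lintegral_congr fun y => ?_
  rw [cA_nrm]
  congr 1
  refine Finset.sum_congr rfl fun i _ => ?_
  have h2 : JJ j φ (-(‖y - b‖⁻¹ • (y - b))) y (-‖y - b‖ + τ) =
      JJ j φ 0 y (-‖y - b‖ + τ) + iteratedDeriv j (fun s => sm φ s y) (-‖y - b‖ + τ) •
        (0 - -(‖y - b‖⁻¹ • (y - b))) := by
    rw [← JJ_sub hd hφ j 0 (-(‖y - b‖⁻¹ • (y - b))) y (-‖y - b‖ + τ)]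
    abel
  rw [h2, gD, fD]
  simp only [PiLp.add_apply, PiLp.sub_apply, PiLp.smul_apply, PiLp.neg_apply, PiLp.zero_apply,
    smul_eq_mul]
  ring

/-- The flux through the backward light cones. -/
theorem cone_piece_back {d : ℕ} (hd : 2 ≤ d) {S : E d → ℝ} (hS : IsKer S) (hF : FB S) :
    ∃ C : ℝ≥0, ∀ (m : ℕ) (r : ℝ) (q : E d → ℝ), Bdd r q → ∀ j ≤ 2, ∀ (b : E d) (τ : ℝ),
      ∫⁻ y in {y : E d | τ - ‖y - b‖ ∈ Icc (1 / 2 : ℝ) (5 / 2)},
        XX S m j q (-(‖y - b‖⁻¹ • (y - b))) y (τ - ‖y - b‖) ^ 2 ≤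
          C * ENNReal.ofReal (sc m ^ (d - 1)) * ∫⁻ y, ‖q y‖ₑ ^ 2 := by
  have hd0 : 0 < d := by omega
  obtain ⟨C1, h1⟩ := cone_back (d := d) hd0
  obtain ⟨C2, h2⟩ := piece_two hd hS hF
  refine ⟨C1 * C2, ?_⟩
  intro m r q hq j hj b τ
  have hsc : 0 < sc m := by unfold sc; positivity
  have key := h1 (gm S m q) (gm_contDiff hS m hq) (gm_compact hS m hq) j hj _
    (fun i hi t ht => h2 m r q hq j hj i hi t ht) b τ
  have e0 : ∀ y : E d, τ - ‖y - b‖ = -‖y - b‖ + τ := fun y => by ring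
  simp only [e0]
  unfold XX
  have e1 : ∀ y : E d, (ENNReal.ofReal (2 ^ m * sc m ^ j) *
      ‖JJ j (gm S m q) (-(‖y - b‖⁻¹ • (y - b))) y (-‖y - b‖ + τ)‖ₑ) ^ 2 =
      (ENNReal.ofReal (2 ^ m * sc m ^ j)) ^ 2 *
      ‖JJ j (gm S m q) (-(‖y - b‖⁻¹ • (y - b))) y (-‖y - b‖ + τ)‖ₑ ^ 2 := fun y => mul_pow _ _ _
  simp only [e1]
  rw [lintegral_const_mul' _ _ (by finiteness)]
  refine (mul_le_mul_right key _).trans (le_of_eq ?_)
  have h4 : (ENNReal.ofReal (2 ^ m * sc m ^ j)) ^ 2 *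
      ENNReal.ofReal (4 ^ (m * j) * (sc m ^ 2 * sc m ^ (d - 1))) =
      ENNReal.ofReal (sc m ^ (d - 1)) := by
    rw [← ENNReal.ofReal_pow (by positivity), ← ENNReal.ofReal_mul (by positivity)]
    congr 1
    have e2 : (2 : ℝ) ^ m * sc m = 1 := by
      unfold sc
      rw [← mul_pow]
      norm_num
    have e3 : (4 : ℝ) ^ (m * j) = ((2 : ℝ) ^ m) ^ (2 * j) := by
      rw [← pow_mul, show (4 : ℝ) = 2 ^ 2 by norm_num, ← pow_mul]
      congr 1
      ring
    rw [e3]
    calc ((2 : ℝ) ^ m * sc m ^ j) ^ 2 * ((2 ^ m) ^ (2 * j) * (sc m ^ 2 * sc m ^ (d - 1)))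
        = ((2 : ℝ) ^ m * sc m) ^ 2 * (((2 : ℝ) ^ m) * sc m) ^ (2 * j) * sc m ^ (d - 1) := by
          rw [mul_pow _ (sc m ^ j), mul_pow _ (sc m) 2, mul_pow _ (sc m) (2 * j), ← pow_mul (sc m),
            mul_comm j 2]
          ring
      _ = sc m ^ (d - 1) := by rw [e2]; simp
  rw [ENNReal.coe_mul, ← h4]
  ring

end Pool.Agent.Lib.MP_ff3fe0_an_SPH2
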