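import Pool.Agent.Lib.MP_ff3fe0_an_SPH2.SphO

set_option autoImplicit false

/-!
# Circles and null sets
-/

namespace Pool.Agent.Lib.MP_ff3fe0_an_SPH2

open MeasureTheory Metric Set
open scoped ENNReal NNReal ContDiff FourierTransform
open Pool.Agent.Lib.MP_ff3fe0_an
open Pool.Agent.Lib.MP_ff3fe0_an_SPH

private theorem SphP_lsc {U : Set (E 2)} (hU : IsOpen U) (t : ℝ) :
    LowerSemicontinuous fun x : E 2 => sigma 2 {w : Sph 2 | x - t • (w : E 2) ∈ U} := by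
  have := sigma_prob (d := 2) (by norm_num)
  have hc : Continuous fun p : E 2 × Sph 2 => p.1 - t • (p.2 : E 2) := by fun_prop
  intro x0 a ha
  have hV : IsOpen {w : Sph 2 | x0 - t • (w : E 2) ∈ U} :=
    hU.preimage (by fun_prop : Continuous fun w : Sph 2 => x0 - t • (w : E 2))
  obtain ⟨C, hCU, hC, haC⟩ := hV.exists_lt_isCompact ha
  have hW : IsOpen ((fun p : E 2 × Sph 2 => p.1 - t • (p.2 : E 2)) ⁻¹' U) := hU.preimage hc
  have h1 : ({x0} : Set (E 2)) ×ˢ C ⊆ (fun p : E 2 × Sph 2 => p.1 - t • (p.2 : E 2)) ⁻¹' U := by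
    rintro ⟨x, w⟩ ⟨hx, hw⟩
    rw [mem_singleton_iff] at hx
    subst hx
    exact hCU hw
  obtain ⟨u, v, hu, -, hxu, hCv, huv⟩ :=
    generalized_tube_lemma isCompact_singleton hC hW h1
  filter_upwards [hu.mem_nhds (hxu rfl)] with x hx
  exact haC.trans_le (measure_mono fun w hw => huv (mk_mem_prod hx (hCv hw)))

private theorem SphP_loc (K : Ker 2) {N : Set (E 2)} (hN : volume N = 0) :
    ∀ᵐ x, x ∈ closedBall (0 : E 2) 1 → ∀ s ∈ Icc (1 : ℝ) 2,
      sigma 2 {w : Sph 2 | x - s • (w : E 2) ∈ N} = 0 := by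
  have h1 : ∀ k : ℕ, ∃ U : Set (E 2), N ∩ ball 0 10 ⊆ U ∧ IsOpen U ∧
      ∫⁻ x in closedBall (0 : E 2) 1, (⨆ t : ℝ, ⨆ _ : t ∈ Icc (1 : ℝ) 2,
        sigma 2 {w : Sph 2 | x - t • (w : E 2) ∈ U}) ^ 2 ≤ (1 / 2 : ℝ≥0∞) ^ k := by
    intro k
    have h2 : (1 / 2 : ℝ≥0∞) ^ k ≠ 0 := (ENNReal.pow_pos (by norm_num) k).ne'
    obtain ⟨s, hs, hs'⟩ := max_open2 K h2
    have h3 : volume (N ∩ ball 0 10) < s := by
      rw [measure_mono_null inter_subset_left hN]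
      exact pos_iff_ne_zero.2 hs
    obtain ⟨U, hNU, hU, hv⟩ := Set.exists_isOpen_lt_of_lt _ _ h3
    refine ⟨U ∩ ball 0 10, fun x hx => ⟨hNU hx, hx.2⟩, hU.inter isOpen_ball, ?_⟩
    exact hs' _ (hU.inter isOpen_ball) (fun x hx => ball_subset_closedBall hx.2)
      ((measure_mono inter_subset_left).trans hv.le)
  choose U hNU hU hvol using h1
  set f : ℕ → E 2 → ℝ≥0∞ := fun k x => ⨆ t : ℝ, ⨆ _ : t ∈ Icc (1 : ℝ) 2,
    sigma 2 {w : Sph 2 | x - t • (w : E 2) ∈ U k} with hf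
  have hfm : ∀ k, Measurable (f k) := fun k =>
    (lowerSemicontinuous_biSup fun t _ => SphP_lsc (hU k) t).measurable
  have hFm : Measurable fun x => (⨅ k, f k x) ^ 2 := (Measurable.iInf hfm).pow_const 2
  have hint : ∫⁻ x in closedBall (0 : E 2) 1, (⨅ k, f k x) ^ 2 = 0 := by
    have h2 : ∀ k, ∫⁻ x in closedBall (0 : E 2) 1, (⨅ k, f k x) ^ 2 ≤ (1 / 2 : ℝ≥0∞) ^ k :=
      fun k => (lintegral_mono fun x => pow_le_pow_left' (iInf_le _ k) 2).trans (hvol k)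
    have h3 : Filter.Tendsto (fun k : ℕ => (1 / 2 : ℝ≥0∞) ^ k) Filter.atTop (nhds 0) :=
      ENNReal.tendsto_pow_atTop_nhds_zero_of_lt_one (by
        rw [one_div]
        exact ENNReal.inv_lt_one.2 (by norm_num))
    exact le_antisymm (ge_of_tendsto' h3 h2) bot_le
  rw [lintegral_eq_zero_iff hFm] at hint
  have hint' := (ae_restrict_iff' (measurableSet_closedBall)).1 hint
  filter_upwards [hint'] with x hx hx1 s hs
  have h4 : (⨅ k, f k x) = 0 := by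
    have h5 : (⨅ k, f k x) ^ 2 = 0 := hx hx1
    exact pow_eq_zero_iff two_ne_zero |>.1 h5
  refine le_antisymm ?_ bot_le
  rw [← h4]
  refine le_iInf fun k => ?_
  refine le_trans (measure_mono fun w hw => hNU k ⟨hw, ?_⟩) ?_
  · rw [mem_ball_zero_iff]
    have h6 : ‖x‖ ≤ 1 := mem_closedBall_zero_iff.1 hx1
    have h7 : ‖(w : E 2)‖ = 1 := by
      have := w.2
      rwa [mem_sphere_zero_iff_norm] at this
    calc ‖x - s • (w : E 2)‖ ≤ ‖x‖ + ‖s • (w : E 2)‖ := norm_sub_le _ _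
      _ ≤ 1 + 2 := by
        refine add_le_add h6 ?_
        rw [norm_smul, h7, mul_one, Real.norm_eq_abs, abs_of_nonneg (by linarith [hs.1])]
        exact hs.2
      _ < 10 := by norm_num
  · exact le_iSup₂_of_le (f := fun (t : ℝ) (_ : t ∈ Icc (1 : ℝ) 2) =>
      sigma 2 {w : Sph 2 | x - t • (w : E 2) ∈ U k}) s hs le_rfl

private theorem SphP_one (K : Ker 2) {N : Set (E 2)} (hN : volume N = 0) :
    ∀ᵐ x, ∀ s ∈ Icc (1 : ℝ) 2, sigma 2 {w : Sph 2 | x - s • (w : E 2) ∈ N} = 0 := by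
  have h1 : ∀ n : ℕ, ∀ᵐ x : E 2, x - TopologicalSpace.denseSeq (E 2) n ∈ closedBall (0 : E 2) 1 →
      ∀ s ∈ Icc (1 : ℝ) 2, sigma 2 {w : Sph 2 |
        x - TopologicalSpace.denseSeq (E 2) n - s • (w : E 2) ∈
          (fun y => y + TopologicalSpace.denseSeq (E 2) n) ⁻¹' N} = 0 := by
    intro n
    have h2 : volume ((fun y => y + TopologicalSpace.denseSeq (E 2) n) ⁻¹' N) = 0 := by
      rw [measure_preimage_add_right, hN]
    have h3 := SphP_loc K h2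
    rw [ae_iff] at h3 ⊢
    have h4 := measure_preimage_add_right (volume : Measure (E 2))
      (-TopologicalSpace.denseSeq (E 2) n) {a : E 2 | ¬ (a ∈ closedBall (0 : E 2) 1 →
        ∀ s ∈ Icc (1 : ℝ) 2, sigma 2 {w : Sph 2 |
          a - s • (w : E 2) ∈ (fun y => y + TopologicalSpace.denseSeq (E 2) n) ⁻¹' N} = 0)}
    rw [h3] at h4
    simp_rw [← sub_eq_add_neg] at h4
    exact h4
  rw [← ae_all_iff] at h1
  filter_upwards [h1] with x hx s hs
  obtain ⟨n, hn⟩ := (TopologicalSpace.denseRange_denseSeq (E 2)).exists_dist_lt x one_pos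
  have h2 := hx n (by rw [mem_closedBall_zero_iff, ← dist_eq_norm]; exact hn.le) s hs
  refine measure_mono_null (fun w hw => ?_) h2
  rw [mem_ofPred_eq] at hw ⊢
  rw [mem_preimage]
  have h3 : x - TopologicalSpace.denseSeq (E 2) n - s • (w : E 2) +
      TopologicalSpace.denseSeq (E 2) n = x - s • (w : E 2) := by abel
  rw [h3]
  exact hw

/-- Almost every centre sees a null set as a null set of every circle. -/
theorem sph_null2 (K : Ker 2) {N : Set (E 2)} (hN : volume N = 0) :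
    ∀ᵐ x, ∀ t : ℝ, 0 < t → sigma 2 {w : Sph 2 | x - t • (w : E 2) ∈ N} = 0 := by
  -- the dyadic pieces
  have h1 : ∀ j : ℤ, ∀ᵐ x : E 2, ∀ s ∈ Icc (1 : ℝ) 2,
      sigma 2 {w : Sph 2 | ((2 : ℝ) ^ j)⁻¹ • x - s • (w : E 2) ∈
        (fun y : E 2 => (2 : ℝ) ^ j • y) ⁻¹' N} = 0 := by
    intro j
    have h2j : ((2 : ℝ) ^ j) ≠ 0 := (zpow_pos two_pos j).ne'
    have hNj : volume ((fun y : E 2 => (2 : ℝ) ^ j • y) ⁻¹' N) = 0 := by
      rw [Measure.addHaar_preimage_smul volume h2j, hN, mul_zero]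
    have h3 := SphP_one K hNj
    rw [ae_iff] at h3 ⊢
    have h4 := Measure.addHaar_preimage_smul (volume : Measure (E 2)) (inv_ne_zero h2j)
      {a : E 2 | ¬ ∀ s ∈ Icc (1 : ℝ) 2,
        sigma 2 {w : Sph 2 | a - s • (w : E 2) ∈ (fun y : E 2 => (2 : ℝ) ^ j • y) ⁻¹' N} = 0}
    rw [h3, mul_zero] at h4
    exact h4
  rw [← ae_all_iff] at h1
  filter_upwards [h1] with x hx t ht
  obtain ⟨j, hj⟩ := exists_mem_Ico_zpow ht (one_lt_two (α := ℝ))
  have h2j : (0 : ℝ) < (2 : ℝ) ^ j := zpow_pos two_pos j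
  have h2 := hx j (t / 2 ^ j) ⟨by rw [le_div_iff₀ h2j, one_mul]; exact hj.1, by
    rw [div_le_iff₀ h2j]
    have h3 := hj.2.le
    rw [zpow_add_one₀ two_ne_zero] at h3
    linarith⟩
  refine measure_mono_null (fun w hw => ?_) h2
  rw [mem_ofPred_eq] at hw ⊢
  rw [mem_preimage, smul_sub, smul_smul, smul_smul, mul_inv_cancel₀ h2j.ne', one_smul,
    mul_div_cancel₀ _ h2j.ne']
  exact hw

end Pool.Agent.Lib.MP_ff3fe0_an_SPH2
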