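import Pool.Agent.Lib.MP_ff3fe0_an_SPH.CZA
import Pool.Agent.Lib.MP_ff3fe0_an_SPH.OverA

set_option autoImplicit false

/-!
# Definitions for the case of the plane
-/

namespace Pool.Agent.Lib.MP_ff3fe0_an_SPH2

open MeasureTheory Metric Set
open scoped ENNReal NNReal ContDiff FourierTransform
open Pool.Agent.Lib.MP_ff3fe0_an
open Pool.Agent.Lib.MP_ff3fe0_an_SPH

/-- The rotation by a right angle. -/
noncomputable def rot (v : E 2) : E 2 := WithLp.toLp 2 ![-(v 1), v 0]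

/-- The determinant of two vectors. -/
def dt (u v : E 2) : ℝ := u 0 * v 1 - u 1 * v 0

/-- A smooth function which vanishes outside the ball of radius `2`. -/
structure K2 (U : E 2 → ℝ) : Prop where
  smooth : ContDiff ℝ ∞ U
  supp : ∀ y, 2 < ‖y‖ → U y = 0

/-- A divergence of smooth functions which vanish outside the ball of radius `2`. -/
def DV (Θ : E 2 → ℝ) : Prop :=
  K2 Θ ∧ ∃ U : Fin 2 → E 2 → ℝ, (∀ i, K2 (U i)) ∧ ∀ y, Θ y = ∑ i, pd i (U i) y

/-- An amplitude on the circle, of size `1` and with derivative of size `L`. -/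
structure Amp (L : ℝ) (β : E 2 → ℝ) : Prop where
  smooth : ContDiff ℝ 1 β
  le_one : ∀ w, ‖w‖ = 1 → |β w| ≤ 1
  deriv_le : ∀ w, ‖w‖ = 1 → ‖fderiv ℝ β w‖ ≤ L

/-- The kernel of the average over the circle of radius `t` around `x`, with the amplitude `β`,
of the convolution with the kernel `Θ` at the scale `δ`. -/
noncomputable def kk (Θ β : E 2 → ℝ) (δ t : ℝ) (x y : E 2) : ℝ :=
  (δ ^ 2)⁻¹ * ∫ w : Sph 2, Θ (δ⁻¹ • (x - t • (w : E 2) - y)) * β w ∂(sigma 2)

/-- The iterated partial derivatives. -/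
noncomputable def pdw {j : ℕ} (α : Fin j → Fin 2) (S : E 2 → ℝ) : E 2 → ℝ :=
  (List.ofFn α).foldr (fun i f => pd i f) S

/-- The monomials. -/
def mo {j : ℕ} (α : Fin j → Fin 2) (w : E 2) : ℝ := ∏ i, w (α i)

/-- The scalar part of the normalised average. -/
noncomputable def aF (S : E 2 → ℝ) (m j : ℕ) (q : E 2 → ℝ) (x : E 2) (t : ℝ) : ℝ :=
  sc m ^ j * iteratedDeriv j (fun s => sm (cv S (sc m) q) s x) t

/-- The vector part of the normalised average. -/
noncomputable def vF (S : E 2 → ℝ) (m j : ℕ) (q : E 2 → ℝ) (x : E 2) (t : ℝ) : E 2 :=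
  sc m ^ j • iteratedDeriv j
    (fun s => ∫ w : Sph 2, cv S (sc m) q (x - s • (w : E 2)) • (w : E 2) ∂(sigma 2)) t

/-- A smooth function which is `0` on the ball of radius `8 κ` around `c` and `1` outside the
ball of radius `9 κ`. -/
noncomputable def bb (κ : ℝ) (c w : E 2) : ℝ :=
  Real.smoothTransition ((‖w - c‖ ^ 2 / κ ^ 2 - 64) / 17)

/-- The product of the distance and the deviation from the light cone. -/
noncomputable def qq (b : E 2) (τ : ℝ) (x : E 2) (t : ℝ) : ℝ := ‖x - b‖ ^ 2 - (t - τ) ^ 2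

/-- The normalised `L^p` average of the frequency piece around a cube, to the power `3 / p`. -/
noncomputable def Aav3 {d : ℕ} (K : Ker d) (p r : ℝ) (m : ℕ) (G : E d → E d) (j : ℤ)
    (z : Fin d → ℤ) : ℝ≥0∞ :=
  ENNReal.ofReal (((2 : ℝ) ^ j) ^ d) * (ENNReal.ofReal ((((2 : ℝ) ^ j) ^ d)⁻¹) *
    ∫⁻ y in closedBall (cen j z) (r * (2 : ℝ) ^ j),
      ‖cvv K.ka ((2 : ℝ) ^ j * sc m) G y‖ₑ ^ p) ^ (3 / p)

end Pool.Agent.Lib.MP_ff3fe0_an_SPH2
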