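import Pool.Agent.Lib.MP_ff3fe0_an_SPH2.Defs2

set_option autoImplicit false

/-!
# Duality
-/

namespace Pool.Agent.Lib.MP_ff3fe0_an_SPH2

open MeasureTheory Metric Set
open scoped ENNReal NNReal ContDiff FourierTransform
open Pool.Agent.Lib.MP_ff3fe0_an
open Pool.Agent.Lib.MP_ff3fe0_an_SPH

private theorem dualA_int {α : Type*} [MeasurableSpace α] {μ : Measure α} {f : α → ℝ}
    (hf : Measurable f) {S : Set α} (hS : μ S ≠ ⊤) {C : ℝ}
    (hb : ∀ x, |f x| ≤ C) (h0 : ∀ x, x ∉ S → f x = 0) : Integrable f μ := by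
  have h1 : IntegrableOn f S μ :=
    Measure.integrableOn_of_bounded hS hf.aestronglyMeasurable
      (Filter.Eventually.of_forall (fun x => by rw [Real.norm_eq_abs]; exact hb x))
  rw [← integrableOn_iff_integrable_of_support_subset (s := S)]
  · exact h1
  · intro x hx
    by_contra hxS
    exact hx (h0 x hxS)

private theorem dualA_sq {κ : E 2 → E 2 → ℝ}
    (hκ : Measurable (fun z : E 2 × E 2 => κ z.1 z.2)) {C R : ℝ} {Ω : Set (E 2)}
    (hΩ : MeasurableSet Ω) (hf : volume Ω ≠ ⊤)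
    (hb : ∀ x y, |κ x y| ≤ C) (hs : ∀ x y, R < ‖y‖ → κ x y = 0)
    (ho : ∀ x y, x ∉ Ω → κ x y = 0) {M : ℝ≥0∞}
    (hM : ∀ x' ∈ Ω, ∫⁻ x in Ω, ‖∫ y, κ x y * κ x' y‖ₑ ≤ M) :
    ∫⁻ y, ‖∫ x, κ x y‖ₑ ^ 2 ≤ M * volume Ω := by
  have hC : 0 ≤ C := le_trans (abs_nonneg _) (hb 0 0)
  have hball : volume (closedBall (0 : E 2) R) ≠ ⊤ := measure_closedBall_lt_top.ne
  -- the triple product
  have hm3 : Measurable (fun z : E 2 × (E 2 × E 2) => κ z.2.1 z.1 * κ z.2.2 z.1) := by
    refine Measurable.mul ?_ ?_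
    · exact hκ.comp ((measurable_fst.comp measurable_snd).prodMk measurable_fst)
    · exact hκ.comp ((measurable_snd.comp measurable_snd).prodMk measurable_fst)
  have hi3 : Integrable (fun z : E 2 × (E 2 × E 2) => κ z.2.1 z.1 * κ z.2.2 z.1)
      (volume.prod (volume.prod volume)) := by
    refine dualA_int (S := closedBall (0 : E 2) R ×ˢ (Ω ×ˢ Ω)) hm3 ?_ (C := C * C) ?_ ?_
    · rw [Measure.prod_prod, Measure.prod_prod]
      exact ENNReal.mul_ne_top hball (ENNReal.mul_ne_top hf hf)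
    · intro z
      rw [abs_mul]
      exact mul_le_mul (hb _ _) (hb _ _) (abs_nonneg _) hC
    · rintro ⟨y, x, x'⟩ hz
      simp only [mem_prod, mem_closedBall, dist_zero_right, not_and_or, not_le] at hz
      rcases hz with h | h | h
      · simp only [hs x y h, zero_mul]
      · simp only [ho x y h, zero_mul]
      · simp only [ho x' y h, mul_zero]
  -- the square
  have hK : ∀ y, (∫ x, κ x y) ^ 2 = ∫ z : E 2 × E 2, κ z.1 y * κ z.2 y := by
    intro y
    rw [sq]
    exact (integral_prod_mul (fun x => κ x y) (fun x => κ x y)).symm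
  have hKm : Measurable (fun y => ∫ x, κ x y) := by
    have h1 : StronglyMeasurable (fun z : E 2 × E 2 => κ z.2 z.1) :=
      (hκ.comp measurable_swap).stronglyMeasurable
    exact (h1.integral_prod_right' (ν := (volume : Measure (E 2)))).measurable
  have hsw : ∫ y, (∫ x, κ x y) ^ 2 = ∫ z : E 2 × E 2, ∫ y, κ z.1 y * κ z.2 y := by
    calc ∫ y, (∫ x, κ x y) ^ 2 = ∫ y, ∫ z : E 2 × E 2, κ z.1 y * κ z.2 y :=
          integral_congr_ae (Filter.Eventually.of_forall (fun y => hK y))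
      _ = ∫ z : E 2 × E 2, ∫ y, κ z.1 y * κ z.2 y :=
          integral_integral_swap hi3
  have hKi : Integrable (fun y => (∫ x, κ x y) ^ 2) := by
    have h1 := hi3.integral_prod_left
    refine h1.congr (Filter.Eventually.of_forall (fun y => ?_))
    exact (hK y).symm
  have hF : Measurable (fun z : E 2 × E 2 => ∫ y, κ z.1 y * κ z.2 y) := by
    have h1 : StronglyMeasurable (fun z : (E 2 × E 2) × E 2 => κ z.1.1 z.2 * κ z.1.2 z.2) := by
      refine Measurable.stronglyMeasurable ?_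
      exact hm3.comp measurable_swap
    exact (h1.integral_prod_right' (ν := (volume : Measure (E 2)))).measurable
  have h1 : ∫⁻ y, ‖∫ x, κ x y‖ₑ ^ 2 = ENNReal.ofReal (∫ y, (∫ x, κ x y) ^ 2) := by
    rw [ofReal_integral_eq_lintegral_ofReal hKi
      (Filter.Eventually.of_forall (fun y => sq_nonneg _))]
    refine lintegral_congr (fun y => ?_)
    rw [← Real.enorm_eq_ofReal (sq_nonneg _), enorm_pow]
  rw [h1, hsw]
  calc ENNReal.ofReal (∫ z : E 2 × E 2, ∫ y, κ z.1 y * κ z.2 y)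
      ≤ ‖∫ z : E 2 × E 2, ∫ y, κ z.1 y * κ z.2 y‖ₑ := by
        rw [← ofReal_norm]
        exact ENNReal.ofReal_le_ofReal (le_trans (le_abs_self _) (Real.norm_eq_abs _).ge)
    _ ≤ ∫⁻ z : E 2 × E 2, ‖∫ y, κ z.1 y * κ z.2 y‖ₑ := enorm_integral_le_lintegral_enorm _
    _ = ∫⁻ x', ∫⁻ x, ‖∫ y, κ x y * κ x' y‖ₑ := by
        rw [Measure.volume_eq_prod]
        exact lintegral_prod_symm' _ hF.enorm
    _ ≤ ∫⁻ x', Ω.indicator (fun _ => M) x' := by
        refine lintegral_mono (fun x' => ?_)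
        by_cases hx' : x' ∈ Ω
        · rw [indicator_of_mem hx']
          refine le_trans ?_ (hM x' hx')
          rw [← lintegral_indicator hΩ]
          refine lintegral_mono (fun x => ?_)
          by_cases hx : x ∈ Ω
          · rw [indicator_of_mem hx]
          · rw [indicator_of_notMem hx]
            have : ∀ y, κ x y * κ x' y = 0 := fun y => by rw [ho x y hx, zero_mul]
            simp only [this, integral_zero, enorm_zero, le_refl]
        · rw [indicator_of_notMem hx']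
          have : ∀ x y, κ x y * κ x' y = 0 := fun x y => by rw [ho x' y hx', mul_zero]
          simp only [this, integral_zero, enorm_zero, lintegral_zero, le_refl]
    _ = M * volume Ω := by
        rw [lintegral_indicator hΩ, setLIntegral_const]

/-- A bound for the measure of a set by the kernel of the composition. -/
theorem dual {Ω : Set (E 2)} (hΩ : MeasurableSet Ω) (hf : volume Ω ≠ ⊤) {k : E 2 → E 2 → ℝ}
    (hk : Measurable (fun z : E 2 × E 2 => k z.1 z.2)) {C0 R : ℝ} (hb : ∀ x ∈ Ω, ∀ y, |k x y| ≤ C0)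
    (hs : ∀ x ∈ Ω, ∀ y, R < ‖y‖ → k x y = 0) {r : ℝ} {q : E 2 → ℝ} (hq : Bdd r q) {l : ℝ}
    (hl : 0 < l) (h : ∀ x ∈ Ω, l ≤ |∫ y, q y * k x y|) {M : ℝ≥0∞}
    (hM : ∀ x' ∈ Ω, ∫⁻ x in Ω, ‖∫ y, k x y * k x' y‖ₑ ≤ M) :
    ENNReal.ofReal (l ^ 2) * volume Ω ≤ (∫⁻ y, ‖q y‖ₑ ^ 2) * M := by
  obtain ⟨C1, hC1⟩ := hq.bdd
  have hC1' : 0 ≤ C1 := le_trans (abs_nonneg _) (hC1 0)
  have hball : volume (closedBall (0 : E 2) R) ≠ ⊤ := measure_closedBall_lt_top.ne
  -- the sign
  set T : E 2 → ℝ := fun x => ∫ y, q y * k x y with hT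
  have hTm : Measurable T := by
    have h1 : StronglyMeasurable (fun z : E 2 × E 2 => q z.2 * k z.1 z.2) :=
      ((hq.meas.comp measurable_snd).mul hk).stronglyMeasurable
    exact (h1.integral_prod_right' (ν := (volume : Measure (E 2)))).measurable
  set σ : E 2 → ℝ := fun x => if 0 ≤ T x then 1 else -1 with hσ
  have hσm : Measurable σ :=
    Measurable.ite (measurableSet_le measurable_const hTm) measurable_const measurable_const
  have hσ1 : ∀ x, |σ x| = 1 := by
    intro x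
    simp only [hσ]
    split_ifs <;> simp
  have hσT : ∀ x, σ x * T x = |T x| := by
    intro x
    simp only [hσ]
    split_ifs with h0
    · rw [one_mul, abs_of_nonneg h0]
    · rw [abs_of_neg (not_le.mp h0), neg_one_mul]
  set κ : E 2 → E 2 → ℝ := fun x y => Ω.indicator (fun x => σ x * k x y) x with hκdef
  have hκin : ∀ x ∈ Ω, ∀ y, κ x y = σ x * k x y := by
    intro x hx y
    simp only [hκdef]
    rw [indicator_of_mem hx]
  have hκout : ∀ x y, x ∉ Ω → κ x y = 0 := by
    intro x y hx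
    simp only [hκdef]
    rw [indicator_of_notMem hx]
  have hκm : Measurable (fun z : E 2 × E 2 => κ z.1 z.2) := by
    have h1 : (fun z : E 2 × E 2 => κ z.1 z.2) =
        (Prod.fst ⁻¹' Ω).indicator (fun z : E 2 × E 2 => σ z.1 * k z.1 z.2) := by
      funext z
      by_cases hz : z.1 ∈ Ω
      · rw [hκin _ hz, indicator_of_mem (by exact hz)]
      · rw [hκout _ _ hz, indicator_of_notMem (by exact hz)]
    rw [h1]
    exact ((hσm.comp measurable_fst).mul hk).indicator (measurable_fst hΩ)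
  have hκb : ∀ x y, |κ x y| ≤ |C0| := by
    intro x y
    by_cases hx : x ∈ Ω
    · rw [hκin x hx, abs_mul, hσ1, one_mul]
      exact le_trans (hb x hx y) (le_abs_self _)
    · rw [hκout x y hx, abs_zero]
      exact abs_nonneg _
  have hκs : ∀ x y, R < ‖y‖ → κ x y = 0 := by
    intro x y hy
    by_cases hx : x ∈ Ω
    · rw [hκin x hx, hs x hx y hy, mul_zero]
    · exact hκout x y hx
  have hsq : ∫⁻ y, ‖∫ x, κ x y‖ₑ ^ 2 ≤ M * volume Ω := by
    refine dualA_sq hκm hΩ hf hκb hκs hκout ?_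
    intro x' hx'
    refine le_trans ?_ (hM x' hx')
    refine setLIntegral_mono' hΩ (fun x hx => ?_)
    have h1 : ∀ y, κ x y * κ x' y = (σ x * σ x') * (k x y * k x' y) := by
      intro y
      rw [hκin x hx, hκin x' hx']
      ring
    simp only [h1]
    rw [integral_const_mul, enorm_mul]
    have h2 : ‖σ x * σ x'‖ₑ = 1 := by
      rw [← ofReal_norm, Real.norm_eq_abs, abs_mul, hσ1, hσ1, one_mul,
        ENNReal.ofReal_one]
    rw [h2, one_mul]
  -- Fubini
  have hi : Integrable (fun z : E 2 × E 2 => q z.2 * κ z.1 z.2) (volume.prod volume) := by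
    refine dualA_int (S := Ω ×ˢ closedBall (0 : E 2) R)
      ((hq.meas.comp measurable_snd).mul hκm) ?_ (C := C1 * |C0|) ?_ ?_
    · rw [Measure.prod_prod]
      exact ENNReal.mul_ne_top hf hball
    · intro z
      rw [abs_mul]
      exact mul_le_mul (hC1 _) (hκb _ _) (abs_nonneg _) hC1'
    · rintro ⟨x, y⟩ hz
      simp only [mem_prod, mem_closedBall, dist_zero_right, not_and_or, not_le] at hz
      rcases hz with h | h
      · simp only [hκout x y h, mul_zero]
      · simp only [hκs x y h, mul_zero]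
  have hsw : ∫ x, ∫ y, q y * κ x y = ∫ y, ∫ x, q y * κ x y := integral_integral_swap hi
  have hinner : ∀ x, ∫ y, q y * κ x y = Ω.indicator (fun x => |T x|) x := by
    intro x
    by_cases hx : x ∈ Ω
    · rw [indicator_of_mem hx, ← hσT x]
      simp only [hT]
      rw [← integral_const_mul]
      refine integral_congr_ae (Filter.Eventually.of_forall (fun y => ?_))
      simp only
      rw [hκin x hx]
      ring
    · rw [indicator_of_notMem hx]
      have : ∀ y, q y * κ x y = 0 := fun y => by rw [hκout x y hx, mul_zero]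
      simp only [this, integral_zero]
  have hlow : ENNReal.ofReal l * volume Ω ≤ ‖∫ y, ∫ x, q y * κ x y‖ₑ := by
    rw [← hsw]
    simp only [hinner]
    have hnn : 0 ≤ ∫ x, Ω.indicator (fun x => |T x|) x :=
      integral_nonneg (fun x => indicator_nonneg (fun _ _ => abs_nonneg _) x)
    have hTi : Integrable (fun x => Ω.indicator (fun x => |T x|) x) := by
      have := hi.integral_prod_left
      simp only [hinner] at this
      exact this
    rw [Real.enorm_eq_ofReal hnn, ofReal_integral_eq_lintegral_ofReal hTi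
      (Filter.Eventually.of_forall (fun x => indicator_nonneg (fun _ _ => abs_nonneg _) x))]
    calc ENNReal.ofReal l * volume Ω = ∫⁻ x, Ω.indicator (fun _ => ENNReal.ofReal l) x := by
          rw [lintegral_indicator hΩ, setLIntegral_const]
      _ ≤ ∫⁻ x, ENNReal.ofReal (Ω.indicator (fun x => |T x|) x) := by
          refine lintegral_mono (fun x => ?_)
          by_cases hx : x ∈ Ω
          · rw [indicator_of_mem hx, indicator_of_mem hx]
            exact ENNReal.ofReal_le_ofReal (h x hx)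
          · rw [indicator_of_notMem hx]
            exact zero_le
  have hKm : Measurable (fun y => ∫ x, κ x y) := by
    have h1 : StronglyMeasurable (fun z : E 2 × E 2 => κ z.2 z.1) :=
      (hκm.comp measurable_swap).stronglyMeasurable
    exact (h1.integral_prod_right' (ν := (volume : Measure (E 2)))).measurable
  have hup : ‖∫ y, ∫ x, q y * κ x y‖ₑ ≤
      (∫⁻ y, ‖q y‖ₑ ^ 2) ^ (1 / 2 : ℝ) * (∫⁻ y, ‖∫ x, κ x y‖ₑ ^ 2) ^ (1 / 2 : ℝ) := by
    calc ‖∫ y, ∫ x, q y * κ x y‖ₑ ≤ ∫⁻ y, ‖∫ x, q y * κ x y‖ₑ :=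
          enorm_integral_le_lintegral_enorm _
      _ = ∫⁻ y, ((fun y => ‖q y‖ₑ) * (fun y => ‖∫ x, κ x y‖ₑ)) y := by
          refine lintegral_congr (fun y => ?_)
          rw [integral_const_mul, enorm_mul]
          rfl
      _ ≤ (∫⁻ y, ‖q y‖ₑ ^ (2 : ℝ)) ^ (1 / 2 : ℝ) *
            (∫⁻ y, ‖∫ x, κ x y‖ₑ ^ (2 : ℝ)) ^ (1 / 2 : ℝ) :=
          ENNReal.lintegral_mul_le_Lp_mul_Lq volume (by
            rw [Real.holderConjugate_iff]; norm_num) hq.meas.enorm.aemeasurable
            hKm.enorm.aemeasurable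
      _ = _ := by
          simp only [ENNReal.rpow_ofNat]
  have hmain : (ENNReal.ofReal l * volume Ω) ^ 2 ≤ (∫⁻ y, ‖q y‖ₑ ^ 2) * (M * volume Ω) := by
    calc (ENNReal.ofReal l * volume Ω) ^ 2
        ≤ ((∫⁻ y, ‖q y‖ₑ ^ 2) ^ (1 / 2 : ℝ) *
            (∫⁻ y, ‖∫ x, κ x y‖ₑ ^ 2) ^ (1 / 2 : ℝ)) ^ 2 :=
          pow_le_pow_left' (le_trans hlow hup) 2
      _ = (∫⁻ y, ‖q y‖ₑ ^ 2) * (∫⁻ y, ‖∫ x, κ x y‖ₑ ^ 2) := by
          rw [mul_pow, ← ENNReal.rpow_natCast, ← ENNReal.rpow_natCast, ← ENNReal.rpow_mul,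
            ← ENNReal.rpow_mul]
          norm_num
      _ ≤ (∫⁻ y, ‖q y‖ₑ ^ 2) * (M * volume Ω) := mul_le_mul_right hsq _
  by_cases hv : volume Ω = 0
  · rw [hv, mul_zero]
    exact zero_le
  · have h2 : (ENNReal.ofReal (l ^ 2) * volume Ω) * volume Ω ≤
        ((∫⁻ y, ‖q y‖ₑ ^ 2) * M) * volume Ω := by
      calc (ENNReal.ofReal (l ^ 2) * volume Ω) * volume Ω
          = (ENNReal.ofReal l * volume Ω) ^ 2 := by
            rw [ENNReal.ofReal_pow hl.le]
            ring
        _ ≤ (∫⁻ y, ‖q y‖ₑ ^ 2) * (M * volume Ω) := hmain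
        _ = _ := by ring
    exact (ENNReal.mul_le_mul_iff_left hv hf).mp h2

end Pool.Agent.Lib.MP_ff3fe0_an_SPH2
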