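import Pool.Agent.Lib.MP_ff3fe0_an_SPH2.Final2
import Pool.Agent.Lib.MP_ff3fe0_an_SPH.Final

set_option autoImplicit false

/-!
# The gradient bound in all dimensions
-/

namespace Pool.Agent.Lib.MP_ff3fe0_an_SPH2

open MeasureTheory Metric Set
open scoped ENNReal NNReal ContDiff FourierTransform
open Pool.Agent.Lib.MP_ff3fe0_an
open Pool.Agent.Lib.MP_ff3fe0_an_SPH

/-- Let `d ≥ 2` and `(2 d - 1) / (2 d - 2) < p ≤ d / (d - 1)`. The spherical maximal operator is
gradient-bounded on `W^{1,p}(ℝ^d)`. -/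
theorem gradient_bounded_all {d : ℕ} (hd : 2 ≤ d) {p : ℝ}
    (hp : (2 * (d : ℝ) - 1) / (2 * d - 2) < p) (hp2 : p ≤ d / (d - 1)) :
    ∃ C : ℝ≥0, ∀ (f : E d → ℝ) (F : E d → E d),
      MemLp f (ENNReal.ofReal p) → MemLp F (ENNReal.ofReal p) → IsWeakGradient f F →
        (∀ᵐ x, sphMax f x ≠ ⊤) ∧ ∃ G : E d → E d,
          IsWeakGradient (fun x => (sphMax f x).toReal) G ∧
          eLpNorm G (ENNReal.ofReal p) ≤ C * eLpNorm F (ENNReal.ofReal p) := by
  have hd1 : (2 : ℝ) ≤ d := by exact_mod_cast hd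
  rcases Nat.lt_or_ge 2 d with h | h
  · have hd3 : (3 : ℝ) ≤ d := by exact_mod_cast h
    refine gradient_bounded h hp (hp2.trans_lt ?_)
    rw [div_lt_iff₀ (by linarith)]
    linarith
  · obtain rfl : d = 2 := le_antisymm h hd
    refine gradient_bounded2 ?_ ?_
    · have := hp
      norm_num at this
      linarith
    · have := hp2
      norm_num at this
      exact this

end Pool.Agent.Lib.MP_ff3fe0_an_SPH2
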