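import Pool.Agent.Lib.MP_ff3fe0_an_SPH2.Defs2
import Pool.Agent.Lib.MP_ff3fe0_an_SPH.GmA
import Pool.Agent.Lib.MP_ff3fe0_an_SPH.SmB
import Pool.Agent.Lib.MP_ff3fe0_an_SPH.CvB

set_option autoImplicit false

/-!
# The scalar part and the vector part
-/

namespace Pool.Agent.Lib.MP_ff3fe0_an_SPH2

open MeasureTheory Metric Set
open scoped ENNReal NNReal ContDiff FourierTransform
open Pool.Agent.Lib.MP_ff3fe0_an
open Pool.Agent.Lib.MP_ff3fe0_an_SPH

private theorem XvA_sc_pos (m : ℕ) : 0 < sc m := by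
  unfold sc
  positivity

private theorem XvA_sc_mul (m : ℕ) : (2 : ℝ) ^ m * sc m = 1 := by
  unfold sc
  rw [← mul_pow]
  norm_num

private theorem XvA_sc_inv (m : ℕ) : (sc m)⁻¹ = (2 : ℝ) ^ m :=
  (eq_inv_of_mul_eq_one_left (XvA_sc_mul m)).symm

private theorem XvA_cd {S : E 2 → ℝ} (hS : IsKer S) (m : ℕ) {r : ℝ} {q : E 2 → ℝ}
    (hq : Bdd r q) : ContDiff ℝ ∞ (cv S (sc m) q) :=
  cv_contDiff hS (XvA_sc_pos m) hq.locallyIntegrable

private theorem XvA_gm (S : E 2 → ℝ) (m j : ℕ) (q : E 2 → ℝ) (c x : E 2) (t : ℝ) :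
    JJ j (gm S m q) c x t = sc m • JJ j (cv S (sc m) q) c x t := by
  have h1 : (fun s : ℝ => ∫ w : Sph 2, gm S m q (x - s • (w : E 2)) •
      ((w : E 2) - c) ∂(sigma 2)) = fun s => sc m •
        ∫ w : Sph 2, cv S (sc m) q (x - s • (w : E 2)) • ((w : E 2) - c) ∂(sigma 2) := by
    funext s
    rw [← integral_smul]
    refine integral_congr_ae (Filter.Eventually.of_forall fun w => ?_)
    show (sc m * cv S (sc m) q (x - s • (w : E 2))) • ((w : E 2) - c) = _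
    rw [mul_smul]
  unfold JJ
  rw [h1]
  exact iteratedDeriv_fun_const_smul_field _ _

private theorem XvA_vF (S : E 2 → ℝ) (m j : ℕ) (q : E 2 → ℝ) (x : E 2) (t : ℝ) :
    vF S m j q x t = sc m ^ j • JJ j (cv S (sc m) q) 0 x t := by
  unfold vF JJ
  simp only [sub_zero]

theorem XX_eq {S : E 2 → ℝ} (hS : IsKer S) (m j : ℕ) {r : ℝ} {q : E 2 → ℝ} (hq : Bdd r q)
    (c x : E 2) (t : ℝ) : XX S m j q c x t = ‖vF S m j q x t - aF S m j q x t • c‖ₑ := by
  have h1 := JJ_sub (by norm_num) (XvA_cd hS m hq) j 0 c x t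
  have h2 : vF S m j q x t - aF S m j q x t • c = sc m ^ j • JJ j (cv S (sc m) q) c x t := by
    rw [sub_eq_iff_eq_add] at h1
    rw [h1, XvA_vF, aF, smul_add, mul_smul, zero_sub, smul_neg, smul_neg]
    abel
  unfold XX
  rw [h2, XvA_gm S m j q, enorm_smul, enorm_smul, ← mul_assoc]
  congr 1
  rw [Real.enorm_eq_ofReal (XvA_sc_pos m).le, Real.enorm_eq_ofReal (pow_pos (XvA_sc_pos m) j).le,
    ← ENNReal.ofReal_mul (by have := XvA_sc_pos m; positivity)]
  congr 1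
  rw [mul_right_comm, XvA_sc_mul, one_mul]

private theorem XvA_bd {S : E 2 → ℝ} (hS : IsKer S) : ∃ C : ℝ, 0 ≤ C ∧
    ∀ (m : ℕ) (r b : ℝ) (q : E 2 → ℝ), Bdd r q → (∀ y, |q y| ≤ b) → ∀ k ≤ 3, ∀ x : E 2,
      ‖iteratedFDeriv ℝ k (cv S (sc m) q) x‖ₑ ≤ ENNReal.ofReal (C * b * (2 ^ m) ^ k) := by
  choose D hD using fun k : ℕ => cv_iter_le hS k
  set V : ℝ≥0∞ := volume (closedBall (0 : E 2) 1) with hV
  have hVt : V ≠ ⊤ := measure_closedBall_lt_top.ne
  refine ⟨(∑ k ∈ Finset.range 4, (D k : ℝ)) * V.toReal, by positivity, ?_⟩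
  intro m r b q hq hb k hk x
  have hb0 : 0 ≤ b := (abs_nonneg _).trans (hb 0)
  refine (hD k (sc m) (XvA_sc_pos m) q hq.locallyIntegrable x).trans ?_
  have h1 : ∫⁻ y in closedBall (0 : E 2) 1, ‖q (x - sc m • y)‖ₑ ≤ ENNReal.ofReal b * V := by
    rw [hV, ← setLIntegral_const]
    refine lintegral_mono fun y => ?_
    rw [← ofReal_norm]
    exact ENNReal.ofReal_le_ofReal (by simpa using hb _)
  have h2 : (D k : ℝ) ≤ ∑ k ∈ Finset.range 4, (D k : ℝ) :=
    Finset.single_le_sum (f := fun k => (D k : ℝ)) (fun i _ => (D i).2)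
      (Finset.mem_range.2 (by omega))
  have h3 : (D k : ℝ≥0∞) = ENNReal.ofReal (D k : ℝ) := by simp
  have h4 : V = ENNReal.ofReal V.toReal := (ENNReal.ofReal_toReal hVt).symm
  calc (D k : ℝ≥0∞) * ENNReal.ofReal (((sc m)⁻¹) ^ k) *
        ∫⁻ y in closedBall (0 : E 2) 1, ‖q (x - sc m • y)‖ₑ
      ≤ (D k : ℝ≥0∞) * ENNReal.ofReal (((sc m)⁻¹) ^ k) * (ENNReal.ofReal b * V) := by gcongr
    _ = ENNReal.ofReal ((D k : ℝ) * V.toReal * b * (2 ^ m) ^ k) := by
        nth_rw 1 [h4]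
        rw [h3, XvA_sc_inv, ← ENNReal.ofReal_mul (NNReal.coe_nonneg _), ← ENNReal.ofReal_mul hb0,
          ← ENNReal.ofReal_mul (by positivity)]
        congr 1
        ring
    _ ≤ _ := by
        apply ENNReal.ofReal_le_ofReal
        have h5 : 0 ≤ V.toReal := ENNReal.toReal_nonneg
        gcongr

private theorem XvA_norm_le {F : Type*} [NormedAddCommGroup F] {v : F} {a : ℝ} (ha : 0 ≤ a)
    (h : ‖v‖ₑ ≤ ENNReal.ofReal a) : ‖v‖ ≤ a := by
  rw [← ofReal_norm] at h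
  exact (ENNReal.ofReal_le_ofReal_iff ha).1 h

theorem aF_bound {S : E 2 → ℝ} (hS : IsKer S) : ∃ C : ℝ, ∀ (m : ℕ) (r b : ℝ) (q : E 2 → ℝ),
    Bdd r q → (∀ y, |q y| ≤ b) → ∀ j ≤ 2, ∀ (x : E 2) (t : ℝ),
      |aF S m j q x t| ≤ C * b ∧ ‖vF S m j q x t‖ ≤ C * b ∧
      |deriv (aF S m j q x) t| ≤ C * b * 2 ^ m ∧ ‖deriv (vF S m j q x) t‖ ≤ C * b * 2 ^ m := by
  obtain ⟨C, hC0, hC⟩ := XvA_bd hS
  refine ⟨C, fun m r b q hq hb j hj x t => ?_⟩
  have hb0 : 0 ≤ b := (abs_nonneg _).trans (hb 0)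
  have := sigma_prob (d := 2) (by norm_num)
  have hcd := XvA_cd hS m hq
  have hA : ∀ k ≤ 3, |iteratedDeriv k (fun s => sm (cv S (sc m) q) s x) t| ≤
      C * b * (2 ^ m) ^ k := by
    intro k hk
    rw [← Real.norm_eq_abs]
    refine XvA_norm_le (by positivity) ((sm_iter_le (by norm_num) hcd k t x).trans ?_)
    refine (lintegral_mono fun w => hC m r b q hq hb k hk _).trans ?_
    rw [lintegral_const, measure_univ, mul_one]
  have hB : ∀ k ≤ 3, ‖JJ k (cv S (sc m) q) 0 x t‖ ≤ C * b * (2 ^ m) ^ k := by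
    intro k hk
    refine XvA_norm_le (by positivity) ((JJ_le (by norm_num) hcd k 0 x t).trans ?_)
    have h1 : ∀ w : Sph 2, ‖(w : E 2) - 0‖ₑ *
        ‖iteratedFDeriv ℝ k (cv S (sc m) q) (x - t • (w : E 2))‖ₑ ≤
          ENNReal.ofReal (C * b * (2 ^ m) ^ k) := by
      intro w
      have hw : ‖(w : E 2)‖ = 1 := by simp
      have hw' : ‖(w : E 2) - 0‖ₑ = 1 := by
        rw [sub_zero, ← ofReal_norm, hw, ENNReal.ofReal_one]
      rw [hw', one_mul]
      exact hC m r b q hq hb k hk _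
    refine (lintegral_mono h1).trans ?_
    rw [lintegral_const, measure_univ, mul_one]
  have hs := XvA_sc_pos m
  have hp : sc m ^ j * (2 ^ m) ^ j = 1 := by
    rw [← mul_pow, mul_comm, XvA_sc_mul, one_pow]
  have e1 : deriv (aF S m j q x) t =
      sc m ^ j * iteratedDeriv (j + 1) (fun s => sm (cv S (sc m) q) s x) t := by
    rw [iteratedDeriv_succ]
    unfold aF
    rw [deriv_const_mul_field]
  have e2 : deriv (vF S m j q x) t = sc m ^ j • JJ (j + 1) (cv S (sc m) q) 0 x t := by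
    have h1 : vF S m j q x = fun s => sc m ^ j • JJ j (cv S (sc m) q) 0 x s :=
      funext fun s => XvA_vF S m j q x s
    rw [h1, deriv_fun_const_smul _
      (((JJ_contDiff (by norm_num) hcd j 0 x).differentiable (by simp)) t),
      JJ_succ (by norm_num) hcd]
  have hpow : sc m ^ j * (C * b * (2 ^ m) ^ (j + 1)) = C * b * 2 ^ m := by
    rw [pow_succ]
    linear_combination (C * b * 2 ^ m) * hp
  have hpow0 : sc m ^ j * (C * b * (2 ^ m) ^ j) = C * b := by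
    linear_combination (C * b) * hp
  have hsj : 0 ≤ sc m ^ j := (pow_pos hs j).le
  refine ⟨?_, ?_, ?_, ?_⟩
  · rw [aF, abs_mul, abs_of_nonneg hsj, ← hpow0]
    exact mul_le_mul_of_nonneg_left (hA j (by omega)) hsj
  · rw [XvA_vF, norm_smul, Real.norm_of_nonneg hsj, ← hpow0]
    exact mul_le_mul_of_nonneg_left (hB j (by omega)) hsj
  · rw [e1, abs_mul, abs_of_nonneg hsj, ← hpow]
    exact mul_le_mul_of_nonneg_left (hA (j + 1) (by omega)) hsj
  · rw [e2, norm_smul, Real.norm_of_nonneg hsj, ← hpow]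
    exact mul_le_mul_of_nonneg_left (hB (j + 1) (by omega)) hsj

theorem aF_cont {S : E 2 → ℝ} (hS : IsKer S) (m j : ℕ) {r : ℝ} {q : E 2 → ℝ} (hq : Bdd r q) :
    Continuous (fun z : E 2 × ℝ => aF S m j q z.1 z.2) ∧
      Continuous (fun z : E 2 × ℝ => vF S m j q z.1 z.2) ∧
      (∀ x, ContDiff ℝ 1 (aF S m j q x)) ∧ ∀ x, ContDiff ℝ 1 (vF S m j q x) := by
  have hcd := XvA_cd hS m hq
  refine ⟨?_, ?_, fun x => ?_, fun x => ?_⟩
  · have h1 : Continuous (fun z : E 2 × ℝ => (z.2, z.1)) := by fun_prop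
    exact ((sm_cont (by norm_num) hcd j).comp h1).const_mul (sc m ^ j)
  · have h1 : Continuous (fun z : E 2 × ℝ => ((0 : E 2), z.1, z.2)) := by fun_prop
    have h2 := ((JJ_cont (by norm_num) hcd j).comp h1).const_smul (sc m ^ j)
    exact h2.congr fun z => (XvA_vF S m j q z.1 z.2).symm
  · have h1 : ContDiff ℝ ∞ (iteratedDeriv j (fun s => sm (cv S (sc m) q) s x)) := by
      rw [iteratedDeriv_eq_iterate]
      exact (sm_contDiff_t (by norm_num) hcd x).iterate_deriv j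
    exact contDiff_const.mul (h1.of_le (by exact_mod_cast le_top))
  · have h1 : ContDiff ℝ ∞ (JJ j (cv S (sc m) q) 0 x) := JJ_contDiff (by norm_num) hcd j 0 x
    have h2 : vF S m j q x = fun s => sc m ^ j • JJ j (cv S (sc m) q) 0 x s :=
      funext fun s => XvA_vF S m j q x s
    rw [h2]
    exact (h1.of_le (by exact_mod_cast le_top)).const_smul (sc m ^ j)

end Pool.Agent.Lib.MP_ff3fe0_an_SPH2
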