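import Pool.Agent.Lib.MP_ff3fe0_an_SPH2.Defs2
import Pool.Agent.Lib.MP_ff3fe0_an_SPH.ConeB
import Pool.Agent.Lib.MP_ff3fe0_an_SPH2.ConeM
import Pool.Agent.Lib.MP_ff3fe0_an_SPH2.XvA

set_option autoImplicit false

/-!
# The energy flux and level sets
-/

namespace Pool.Agent.Lib.MP_ff3fe0_an_SPH2

open MeasureTheory Metric Set
open scoped ENNReal NNReal ContDiff FourierTransform
open Pool.Agent.Lib.MP_ff3fe0_an
open Pool.Agent.Lib.MP_ff3fe0_an_SPH

private theorem FluxE_sc_pos (m : ℕ) : 0 < sc m := by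
  unfold sc
  positivity

private theorem FluxE_sc_le (m : ℕ) : sc m ≤ 1 := by
  unfold sc
  exact pow_le_one₀ (by norm_num) (by norm_num)

private theorem FluxE_sc_mul (m : ℕ) : (2 : ℝ) ^ m * sc m = 1 := by
  unfold sc
  rw [← mul_pow]
  norm_num

/-- The Lipschitz bound. -/
private theorem FluxE_lip {S : E 2 → ℝ} (hS : IsKer S) : ∃ C : ℝ, 0 ≤ C ∧
    ∀ (m : ℕ) (r : ℝ) (q : E 2 → ℝ), Bdd r q → (∀ y, |q y| ≤ 1) → ∀ j ≤ 2, ∀ (c x : E 2)
      (s t : ℝ), ‖c‖ ≤ 1 →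
      ‖vF S m j q x t - aF S m j q x t • c‖ ≤
        ‖vF S m j q x s - aF S m j q x s • c‖ + 2 * C * 2 ^ m * |t - s| := by
  obtain ⟨C, hC⟩ := aF_bound hS
  have hC0 : 0 ≤ C := by
    have h0 : Bdd (d := 2) 0 (fun _ => (0 : ℝ)) :=
      ⟨measurable_const, ⟨0, fun y => by simp⟩, fun y _ => rfl⟩
    have h1 := (hC 0 0 1 (fun _ => (0 : ℝ)) h0 (fun y => by simp) 0 (by norm_num) 0 0).1
    have h2 := abs_nonneg (aF S 0 0 (fun _ => (0 : ℝ)) 0 0)
    linarith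
  refine ⟨C, hC0, fun m r q hq hb j hj c x s t hc => ?_⟩
  obtain ⟨-, -, ha, hv⟩ := aF_cont hS m j hq
  have ha1 : ‖aF S m j q x t - aF S m j q x s‖ ≤ C * 2 ^ m * ‖t - s‖ := by
    refine Convex.norm_image_sub_le_of_norm_deriv_le (s := Set.univ)
      (fun y _ => (ha x).differentiable (by norm_num) y) (fun y _ => ?_) convex_univ
      (mem_univ _) (mem_univ _)
    have h := (hC m r 1 q hq hb j hj x y).2.2.1
    rw [Real.norm_eq_abs]
    rwa [mul_one] at h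
  have hv1 : ‖vF S m j q x t - vF S m j q x s‖ ≤ C * 2 ^ m * ‖t - s‖ := by
    refine Convex.norm_image_sub_le_of_norm_deriv_le (s := Set.univ)
      (fun y _ => (hv x).differentiable (by norm_num) y) (fun y _ => ?_) convex_univ
      (mem_univ _) (mem_univ _)
    have h := (hC m r 1 q hq hb j hj x y).2.2.2
    rwa [mul_one] at h
  have h3 : vF S m j q x t - aF S m j q x t • c =
      (vF S m j q x s - aF S m j q x s • c) + ((vF S m j q x t - vF S m j q x s) -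
        (aF S m j q x t - aF S m j q x s) • c) := by
    rw [sub_smul]
    abel
  have h4 : ‖(aF S m j q x t - aF S m j q x s) • c‖ ≤ C * 2 ^ m * ‖t - s‖ := by
    rw [norm_smul]
    calc ‖aF S m j q x t - aF S m j q x s‖ * ‖c‖ ≤ (C * 2 ^ m * ‖t - s‖) * 1 := by
          gcongr
      _ = _ := mul_one _
  rw [h3, ← Real.norm_eq_abs]
  refine (norm_add_le _ _).trans ?_
  have h5 := norm_sub_le (vF S m j q x t - vF S m j q x s)
    ((aF S m j q x t - aF S m j q x s) • c)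
  linarith

/-- The general form of the estimate. -/
private theorem FluxE_core {S : E 2 → ℝ} (hS : IsKer S) : ∃ L : ℝ, 1 ≤ L ∧
    ∀ (m : ℕ) (r : ℝ) (q : E 2 → ℝ), Bdd r q → (∀ y, |q y| ≤ 1) → ∀ j ≤ 2, ∀ tt : E 2 → ℝ,
    (∀ x, tt x ∈ Icc (1 / 2 : ℝ) (5 / 2)) → ∀ (c : E 2 → E 2) (ρ : E 2 → ℝ) (K : ℝ≥0∞),
    Measurable c → Measurable ρ → (∀ x, ‖c x‖ ≤ 1) →
    (∀ τ' : ℝ, ∫⁻ y in {y : E 2 | ρ y + τ' ∈ Icc (1 / 2 : ℝ) (5 / 2)},
      XX S m j q (c y) y (ρ y + τ') ^ 2 ≤ K) →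
    ∀ (τ l h : ℝ), sc m ≤ h → 0 < l → l ≤ 1 →
      ENNReal.ofReal (l ^ 3 * sc m / (8 * L)) * volume {x | |τ - (tt x - ρ x)| ≤ h ∧
        ENNReal.ofReal l ≤ XX S m j q (c x) x (tt x)} ≤ ENNReal.ofReal (4 * h) * K := by
  obtain ⟨C, hC0, hC⟩ := FluxE_lip hS
  refine ⟨2 * C + 1, by linarith, ?_⟩
  intro m r q hq hb j hj tt htt c ρ K hc hρ hc1 hK τ l h hm hl0 hl1
  set L : ℝ := 2 * C + 1 with hL
  have hL1 : 1 ≤ L := by linarith
  have hsc := FluxE_sc_pos m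
  have hsc1 := FluxE_sc_le m
  set w : ℝ := l * sc m / (2 * L) with hw
  have hw0 : 0 < w := by positivity
  have hLw : L * 2 ^ m * w = l / 2 := by
    have h1 := FluxE_sc_mul m
    have h2 : L ≠ 0 := by linarith
    calc L * 2 ^ m * w = ((2 : ℝ) ^ m * sc m) * (l / 2) * (L / L) := by rw [hw]; ring_nf
      _ = l / 2 := by rw [h1, div_self h2]; ring
  have hwsc : w ≤ sc m / 2 := by
    rw [hw, div_le_div_iff₀ (by positivity) (by norm_num)]
    nlinarith [mul_nonneg hsc.le (by linarith : (0:ℝ) ≤ L - 1),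
      mul_nonneg hsc.le (by linarith : (0:ℝ) ≤ 1 - l)]
  -- the integrand
  set Z : E 2 → ℝ → ℝ≥0∞ := fun y τ' => XX S m j q (c y) y (ρ y + τ') ^ 2 with hZ
  set A : Set (E 2 × ℝ) := {z | ρ z.1 + z.2 ∈ Icc (1 / 2 : ℝ) (5 / 2)} with hA
  have hAm : MeasurableSet A := by
    have h1 : Measurable (fun z : E 2 × ℝ => ρ z.1 + z.2) :=
      (hρ.comp measurable_fst).add measurable_snd
    exact h1 measurableSet_Icc
  have hZm : Measurable (fun z : E 2 × ℝ => Z z.1 z.2) := by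
    have h1 : Measurable (fun z : E 2 × ℝ => (c z.1, z.1, ρ z.1 + z.2)) :=
      (hc.comp measurable_fst).prodMk (measurable_fst.prodMk
        ((hρ.comp measurable_fst).add measurable_snd))
    exact ((measurable_XX (by norm_num) hS m j hq).comp h1).pow_const 2
  set G : E 2 × ℝ → ℝ≥0∞ := A.indicator (fun z => Z z.1 z.2) with hG
  have hGm : Measurable G := hZm.indicator hAm
  set I : Set ℝ := Icc (τ - 2 * h) (τ + 2 * h) with hI
  set F : E 2 → ℝ≥0∞ := fun y => ∫⁻ τ' in I, G (y, τ') with hF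
  have hFm : Measurable F := hGm.lintegral_prod_right'
  have hFle : ∫⁻ y, F y ≤ ENNReal.ofReal (4 * h) * K := by
    have h1 : ∫⁻ y, F y = ∫⁻ τ' in I, ∫⁻ y, G (y, τ') := by
      rw [hF]
      exact lintegral_lintegral_swap hGm.aemeasurable
    rw [h1]
    have h2 : ∀ τ', ∫⁻ y, G (y, τ') ≤ K := by
      intro τ'
      refine le_trans (le_of_eq ?_) (hK τ')
      have hm2 : MeasurableSet {y : E 2 | ρ y + τ' ∈ Icc (1 / 2 : ℝ) (5 / 2)} :=
        (hρ.add_const τ') measurableSet_Icc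
      rw [← lintegral_indicator hm2]
      rfl
    calc ∫⁻ τ' in I, ∫⁻ y, G (y, τ') ≤ ∫⁻ _ in I, K := lintegral_mono fun τ' => h2 τ'
      _ = K * volume I := by rw [setLIntegral_const]
      _ = ENNReal.ofReal (4 * h) * K := by
        rw [hI, Real.volume_Icc, mul_comm]
        congr 2
        ring
  refine le_trans ?_ hFle
  refine le_trans ?_ (mul_meas_ge_le_lintegral₀ hFm.aemeasurable
    (ENNReal.ofReal (l ^ 3 * sc m / (8 * L))))
  refine mul_le_mul_right (measure_mono ?_) _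
  rintro x ⟨hx1, hx2⟩
  show ENNReal.ofReal (l ^ 3 * sc m / (8 * L)) ≤ F x
  have htx := htt x
  obtain ⟨s0, hs0, hs1, hs2⟩ : ∃ s0 : ℝ, (s0 = tt x ∨ s0 = tt x - w) ∧ 1 / 2 ≤ s0 ∧
      s0 + w ≤ 5 / 2 := by
    by_cases hc' : tt x + w ≤ 5 / 2
    · exact ⟨tt x, Or.inl rfl, htx.1, hc'⟩
    · refine ⟨tt x - w, Or.inr rfl, ?_, ?_⟩
      · linarith
      · linarith [htx.2]
  have hs3 : ∀ s ∈ Icc s0 (s0 + w), |tt x - s| ≤ w := by
    rintro s ⟨h1, h2⟩
    rw [abs_le]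
    rcases hs0 with h3 | h3 <;> constructor <;> linarith
  have hlow : ∀ s ∈ Icc s0 (s0 + w), ENNReal.ofReal ((l / 2) ^ 2) ≤
      XX S m j q (c x) x s ^ 2 := by
    intro s hs
    have h1 := hC m r q hq hb j hj (c x) x s (tt x) (hc1 x)
    have h2 : l ≤ ‖vF S m j q x (tt x) - aF S m j q x (tt x) • c x‖ := by
      rw [XX_eq hS m j hq, ← ofReal_norm] at hx2
      exact (ENNReal.ofReal_le_ofReal_iff (norm_nonneg _)).1 hx2
    have h3 : 2 * C * 2 ^ m * |tt x - s| ≤ l / 2 := by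
      calc 2 * C * 2 ^ m * |tt x - s| ≤ L * 2 ^ m * w := by
            have := hs3 s hs
            have h4 : 2 * C ≤ L := by linarith
            gcongr
        _ = l / 2 := hLw
    have h4 : l / 2 ≤ ‖vF S m j q x s - aF S m j q x s • c x‖ := by linarith
    rw [XX_eq hS m j hq, ← ofReal_norm, ENNReal.ofReal_pow (by positivity)]
    exact pow_le_pow_left' (ENNReal.ofReal_le_ofReal h4) 2
  set J : Set ℝ := Icc (s0 - ρ x) (s0 - ρ x + w) with hJ
  have hJI : J ⊆ I := by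
    rintro τ' ⟨h1, h2⟩
    have h3 := abs_le.1 hx1
    have h4 := hs3 (ρ x + τ') ⟨by linarith, by linarith⟩
    have h5 := abs_le.1 h4
    constructor <;> linarith [h3.1, h3.2, h5.1, h5.2]
  calc ENNReal.ofReal (l ^ 3 * sc m / (8 * L)) = ENNReal.ofReal ((l / 2) ^ 2) *
        ENNReal.ofReal w := by
        rw [← ENNReal.ofReal_mul (by positivity)]
        congr 1
        rw [hw]
        field_simp
        ring
    _ = ∫⁻ _ in J, ENNReal.ofReal ((l / 2) ^ 2) := by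
        rw [setLIntegral_const, hJ, Real.volume_Icc]
        congr 2
        ring
    _ ≤ ∫⁻ τ' in J, G (x, τ') := by
        refine setLIntegral_mono' measurableSet_Icc fun τ' hτ' => ?_
        have h6 : ρ x + τ' ∈ Icc s0 (s0 + w) := ⟨by linarith [hτ'.1], by linarith [hτ'.2]⟩
        have h7 : (x, τ') ∈ A := ⟨by linarith [h6.1], by linarith [h6.2]⟩
        rw [hG, indicator_of_mem h7]
        exact hlow _ h6
    _ ≤ F x := lintegral_mono_set hJI

private theorem FluxE_const {V K : ℝ≥0} {L l h s : ℝ} (hL : 1 ≤ L) (hl : 0 < l) (hs : 0 < s)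
    (hh : 0 < h) {Q : ℝ≥0∞} (hQ : Q ≤ V) {X : ℝ≥0∞}
    (hX : ENNReal.ofReal (l ^ 3 * s / (8 * L)) * X ≤
      ENNReal.ofReal (4 * h) * (K * ENNReal.ofReal (s ^ 1) * Q)) :
    X ≤ (K * V * (32 * L).toNNReal : ℝ≥0) * ENNReal.ofReal (h / l ^ 3) := by
  have h0 : 0 < l ^ 3 * s / (8 * L) := by positivity
  have h1 : X ≤ (ENNReal.ofReal (l ^ 3 * s / (8 * L)))⁻¹ *
      (ENNReal.ofReal (4 * h) * (K * ENNReal.ofReal (s ^ 1) * Q)) := by
    rw [← ENNReal.div_eq_inv_mul, ENNReal.le_div_iff_mul_le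
      (Or.inl (by simpa using h0)) (Or.inl ENNReal.ofReal_ne_top), mul_comm]
    exact hX
  refine h1.trans ?_
  have h2 : ((K * V * (32 * L).toNNReal : ℝ≥0) : ℝ≥0∞) =
      (K : ℝ≥0∞) * V * ENNReal.ofReal (32 * L) := by
    push_cast
    rfl
  rw [h2, ← ENNReal.ofReal_inv_of_pos h0]
  calc ENNReal.ofReal (l ^ 3 * s / (8 * L))⁻¹ *
        (ENNReal.ofReal (4 * h) * (K * ENNReal.ofReal (s ^ 1) * Q))
      ≤ ENNReal.ofReal (l ^ 3 * s / (8 * L))⁻¹ *
        (ENNReal.ofReal (4 * h) * (K * ENNReal.ofReal (s ^ 1) * V)) := by gcongr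
    _ = K * V * (ENNReal.ofReal (l ^ 3 * s / (8 * L))⁻¹ *
        (ENNReal.ofReal (4 * h) * ENNReal.ofReal (s ^ 1))) := by ring
    _ = K * V * (ENNReal.ofReal (32 * L) * ENNReal.ofReal (h / l ^ 3)) := by
        rw [← ENNReal.ofReal_mul (by positivity), ← ENNReal.ofReal_mul (by positivity),
          ← ENNReal.ofReal_mul (by positivity)]
        congr 2
        field_simp
        ring
    _ = _ := by ring

/-- The measure of the set of points near a light cone at which `XX` is large. -/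
theorem flux_meas {S : E 2 → ℝ} (hS : IsKer S) (hF : FB S) (r : ℝ) : ∃ C : ℝ≥0, ∀ (m : ℕ)
    (q : E 2 → ℝ), Bdd r q → (∀ y, |q y| ≤ 1) → ∀ j ≤ 2, ∀ tt : E 2 → ℝ, Measurable tt →
    (∀ x, tt x ∈ Icc (1 / 2 : ℝ) (5 / 2)) → ∀ (b : E 2) (τ l h : ℝ), sc m ≤ h → 0 < l → l ≤ 1 →
      volume {x | |(tt x - τ) - ‖x - b‖| ≤ h ∧
        ENNReal.ofReal l ≤ XX S m j q (‖x - b‖⁻¹ • (x - b)) x (tt x)} ≤
          C * ENNReal.ofReal (h / l ^ 3) ∧
      volume {x | |(τ - tt x) - ‖x - b‖| ≤ h ∧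
        ENNReal.ofReal l ≤ XX S m j q (-(‖x - b‖⁻¹ • (x - b))) x (tt x)} ≤
          C * ENNReal.ofReal (h / l ^ 3) := by
  obtain ⟨L, hL1, hL⟩ := FluxE_core hS
  obtain ⟨K1, hK1⟩ := cone_piece (d := 2) le_rfl hS hF
  obtain ⟨K2, hK2⟩ := cone_piece_back (d := 2) le_rfl hS hF
  set V : ℝ≥0 := (volume (closedBall (0 : E 2) r)).toNNReal with hV
  have hVe : (V : ℝ≥0∞) = volume (closedBall (0 : E 2) r) :=
    ENNReal.coe_toNNReal measure_closedBall_lt_top.ne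
  refine ⟨max (K1 * V * (32 * L).toNNReal) (K2 * V * (32 * L).toNNReal), ?_⟩
  intro m q hq hb j hj tt htm htt b τ l h hm hl0 hl1
  have hsc := FluxE_sc_pos m
  have hh : 0 < h := hsc.trans_le hm
  have hQ : ∫⁻ y, ‖q y‖ₑ ^ 2 ≤ V := by
    rw [hVe, ← lintegral_indicator_one measurableSet_closedBall]
    refine lintegral_mono fun y => ?_
    by_cases hy : y ∈ closedBall (0 : E 2) r
    · rw [indicator_of_mem hy]
      show ‖q y‖ₑ ^ 2 ≤ 1
      have h1 : ‖q y‖ₑ ≤ 1 := by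
        rw [← ofReal_norm, ← ENNReal.ofReal_one]
        exact ENNReal.ofReal_le_ofReal (by simpa using hb y)
      exact pow_le_one₀ zero_le h1
    · have h2 : q y = 0 := hq.supp y (by simpa using hy)
      rw [h2]
      simp
  have hcm : Measurable (fun x : E 2 => ‖x - b‖⁻¹ • (x - b)) := by fun_prop
  have hcn : ∀ x : E 2, ‖‖x - b‖⁻¹ • (x - b)‖ ≤ 1 := by
    intro x
    rw [norm_smul, norm_inv, norm_norm]
    by_cases h0 : ‖x - b‖ = 0
    · rw [h0]; simp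
    · rw [inv_mul_cancel₀ h0]
  constructor
  · have h1 := hL m r q hq hb j hj tt htt (fun x => ‖x - b‖⁻¹ • (x - b)) (fun x => ‖x - b‖)
      (K1 * ENNReal.ofReal (sc m ^ 1) * ∫⁻ y, ‖q y‖ₑ ^ 2) hcm (by fun_prop) hcn
      (fun τ' => hK1 m r q hq j hj b τ') τ l h hm hl0 hl1
    have h2 := FluxE_const (V := V) (K := K1) hL1 hl0 hsc hh hQ h1
    have h3 : {x : E 2 | |(tt x - τ) - ‖x - b‖| ≤ h ∧
        ENNReal.ofReal l ≤ XX S m j q (‖x - b‖⁻¹ • (x - b)) x (tt x)} =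
        {x : E 2 | |τ - (tt x - ‖x - b‖)| ≤ h ∧
        ENNReal.ofReal l ≤ XX S m j q (‖x - b‖⁻¹ • (x - b)) x (tt x)} := by
      ext x
      simp only [mem_ofPred_eq]
      rw [abs_sub_comm τ, sub_right_comm]
    rw [h3]
    refine h2.trans ?_
    gcongr
    exact le_max_left _ _
  · have h1 := hL m r q hq hb j hj tt htt (fun x => -(‖x - b‖⁻¹ • (x - b)))
      (fun x => -‖x - b‖) (K2 * ENNReal.ofReal (sc m ^ 1) * ∫⁻ y, ‖q y‖ₑ ^ 2) hcm.neg
      (by fun_prop) (fun x => by rw [norm_neg]; exact hcn x)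
      (fun τ' => by
        have h5 := hK2 m r q hq j hj b τ'
        have h6 : ∀ y : E 2, -‖y - b‖ + τ' = τ' - ‖y - b‖ := fun y => by ring
        simp only [h6]
        exact h5) τ l h hm hl0 hl1
    have h2 := FluxE_const (V := V) (K := K2) hL1 hl0 hsc hh hQ h1
    have h3 : {x : E 2 | |(τ - tt x) - ‖x - b‖| ≤ h ∧
        ENNReal.ofReal l ≤ XX S m j q (-(‖x - b‖⁻¹ • (x - b))) x (tt x)} =
        {x : E 2 | |τ - (tt x - -‖x - b‖)| ≤ h ∧
        ENNReal.ofReal l ≤ XX S m j q (-(‖x - b‖⁻¹ • (x - b))) x (tt x)} := by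
      ext x
      simp only [mem_ofPred_eq]
      rw [sub_neg_eq_add, ← sub_sub]
    rw [h3]
    refine h2.trans ?_
    gcongr
    exact le_max_right _ _

end Pool.Agent.Lib.MP_ff3fe0_an_SPH2
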