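import Pool.Agent.Lib.MP_ff3fe0_an_SPH2.Defs2

set_option autoImplicit false

/-!
# The geometry of two circles
-/

namespace Pool.Agent.Lib.MP_ff3fe0_an_SPH2

open MeasureTheory Metric Set
open scoped ENNReal NNReal ContDiff FourierTransform
open Pool.Agent.Lib.MP_ff3fe0_an
open Pool.Agent.Lib.MP_ff3fe0_an_SPH

private theorem GeoA_nsq (v : E 2) : ‖v‖ ^ 2 = v 0 ^ 2 + v 1 ^ 2 := by
  rw [EuclideanSpace.norm_sq_eq]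
  simp [Fin.sum_univ_two]

private theorem GeoA_inner (u v : E 2) : inner ℝ u v = u 0 * v 0 + u 1 * v 1 := by
  rw [PiLp.inner_apply, Fin.sum_univ_two]
  simp [mul_comm]

theorem heron (x x' y : E 2) : dt (y - x) (y - x') ^ 2 =
    (1 / 4) * (‖x - x'‖ ^ 2 - (‖x - y‖ - ‖x' - y‖) ^ 2) *
      ((‖x - y‖ + ‖x' - y‖) ^ 2 - ‖x - x'‖ ^ 2) := by
  have e : (1 / 4) * (‖x - x'‖ ^ 2 - (‖x - y‖ - ‖x' - y‖) ^ 2) *
      ((‖x - y‖ + ‖x' - y‖) ^ 2 - ‖x - x'‖ ^ 2) =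
      (1 / 4) * (2 * ‖x - x'‖ ^ 2 * (‖x - y‖ ^ 2 + ‖x' - y‖ ^ 2) - (‖x - x'‖ ^ 2) ^ 2 -
        (‖x - y‖ ^ 2 - ‖x' - y‖ ^ 2) ^ 2) := by ring
  rw [e, GeoA_nsq, GeoA_nsq, GeoA_nsq]
  simp only [dt, PiLp.sub_apply]
  ring

variable {x x' y : E 2} {t t' δ : ℝ}

private theorem GeoA_tri1 (x x' y : E 2) : |‖x - y‖ - ‖x' - y‖| ≤ ‖x - x'‖ := by
  have h := abs_norm_sub_norm_le (x - y) (x' - y)
  rwa [sub_sub_sub_cancel_right] at h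

private theorem GeoA_tri2 (x x' y : E 2) : ‖x - x'‖ ≤ ‖x - y‖ + ‖x' - y‖ := by
  have h := norm_sub_le (x - y) (x' - y)
  rwa [sub_sub_sub_cancel_right] at h

theorem geo_t (h1 : |‖x - y‖ - t| ≤ 2 * δ) (h2 : |‖x' - y‖ - t'| ≤ 2 * δ) :
    |t - t'| ≤ ‖x - x'‖ + 4 * δ := by
  have h3 := abs_le.1 (GeoA_tri1 x x' y)
  have h1' := abs_le.1 h1
  have h2' := abs_le.1 h2
  rw [abs_le]
  constructor <;> linarith [h3.1, h3.2, h1'.1, h1'.2, h2'.1, h2'.2]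

private theorem GeoA_sq (hδ : 0 < δ) (h1 : |‖x - y‖ - t| ≤ 2 * δ)
    (h2 : |‖x' - y‖ - t'| ≤ 2 * δ) :
    |(‖x - y‖ - ‖x' - y‖) ^ 2 - (t - t') ^ 2| ≤ 16 * (δ * ‖x - x'‖ + δ ^ 2) := by
  have h3 := GeoA_tri1 x x' y
  have h4 := geo_t h1 h2
  have h5 : |(‖x - y‖ - ‖x' - y‖) - (t - t')| ≤ 4 * δ := by
    have h1' := abs_le.1 h1
    have h2' := abs_le.1 h2
    rw [abs_le]
    constructor <;> linarith [h1'.1, h1'.2, h2'.1, h2'.2]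
  have h6 : |(‖x - y‖ - ‖x' - y‖) + (t - t')| ≤ 2 * ‖x - x'‖ + 4 * δ :=
    (abs_add_le _ _).trans (by linarith)
  have h7 : (‖x - y‖ - ‖x' - y‖) ^ 2 - (t - t') ^ 2 =
      ((‖x - y‖ - ‖x' - y‖) - (t - t')) * ((‖x - y‖ - ‖x' - y‖) + (t - t')) := by ring
  rw [h7, abs_mul]
  have h8 := mul_le_mul h5 h6 (abs_nonneg _) (by positivity)
  refine h8.trans ?_
  nlinarith [norm_nonneg (x - x'), hδ.le, mul_nonneg hδ.le (norm_nonneg (x - x'))]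

theorem geo_R2 (hδ : 0 < δ) (hδ1 : δ ≤ 1 / 64) (hx : ‖x - x'‖ ≤ 1 / 8)
    (ht : t ∈ Icc (1 / 2 : ℝ) (5 / 2)) (ht' : t' ∈ Icc (1 / 2 : ℝ) (5 / 2))
    (h1 : |‖x - y‖ - t| ≤ 2 * δ) (h2 : |‖x' - y‖ - t'| ≤ 2 * δ)
    (hQ : 32 * (δ * ‖x - x'‖ + δ ^ 2) ≤ qq x' t' x t) :
    qq x' t' x t / 16 ≤ dt (y - x) (y - x') ^ 2 := by
  have h3 := abs_le.1 (GeoA_sq hδ h1 h2)
  have h1' := abs_le.1 h1
  have h2' := abs_le.1 h2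
  have hρ := norm_nonneg (x - x')
  have hQ0 : 0 ≤ qq x' t' x t := le_trans (by positivity) hQ
  rw [heron]
  have h4 : qq x' t' x t / 2 ≤ ‖x - x'‖ ^ 2 - (‖x - y‖ - ‖x' - y‖) ^ 2 := by
    have h5 : qq x' t' x t = ‖x - x'‖ ^ 2 - (t - t') ^ 2 := rfl
    linarith [h3.2, h3.1]
  have h5 : (1 / 2 : ℝ) ≤ (‖x - y‖ + ‖x' - y‖) ^ 2 - ‖x - x'‖ ^ 2 := by
    have h6 : (15 / 16 : ℝ) ≤ ‖x - y‖ + ‖x' - y‖ := by
      linarith [h1'.1, h2'.1, ht.1, ht'.1]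
    nlinarith
  have h6 := mul_le_mul h4 h5 (by norm_num) (le_trans (by positivity) h4)
  nlinarith

theorem geo_R1 (hδ : 0 < δ) (hδ1 : δ ≤ 1 / 64) (hx : ‖x - x'‖ ≤ 1 / 8)
    (ht : t ∈ Icc (1 / 2 : ℝ) (5 / 2)) (ht' : t' ∈ Icc (1 / 2 : ℝ) (5 / 2))
    (h1 : |‖x - y‖ - t| ≤ 2 * δ) (h2 : |‖x' - y‖ - t'| ≤ 2 * δ) :
    dt (y - x) (y - x') ^ 2 ≤ 9 * (|qq x' t' x t| + 16 * (δ * ‖x - x'‖ + δ ^ 2)) := by
  have h3 := abs_le.1 (GeoA_sq hδ h1 h2)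
  have h1' := abs_le.1 h1
  have h2' := abs_le.1 h2
  have hρ := norm_nonneg (x - x')
  rw [heron]
  have h4 : ‖x - x'‖ ^ 2 - (‖x - y‖ - ‖x' - y‖) ^ 2 ≤
      |qq x' t' x t| + 16 * (δ * ‖x - x'‖ + δ ^ 2) := by
    have h5 : qq x' t' x t = ‖x - x'‖ ^ 2 - (t - t') ^ 2 := rfl
    have h6 := le_abs_self (qq x' t' x t)
    linarith [h3.2, h3.1]
  have h7 : 0 ≤ ‖x - x'‖ ^ 2 - (‖x - y‖ - ‖x' - y‖) ^ 2 := by
    have h8 := abs_le.1 (GeoA_tri1 x x' y)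
    nlinarith [h8.1, h8.2]
  have h5 : (‖x - y‖ + ‖x' - y‖) ^ 2 - ‖x - x'‖ ^ 2 ≤ 36 := by
    have h6 : ‖x - y‖ + ‖x' - y‖ ≤ 6 := by
      linarith [h1'.2, h2'.2, ht.2, ht'.2]
    nlinarith [norm_nonneg (x - y), norm_nonneg (x' - y)]
  have h8 : (‖x - x'‖ ^ 2 - (‖x - y‖ - ‖x' - y‖) ^ 2) *
      ((‖x - y‖ + ‖x' - y‖) ^ 2 - ‖x - x'‖ ^ 2) ≤
      (‖x - x'‖ ^ 2 - (‖x - y‖ - ‖x' - y‖) ^ 2) * 36 := mul_le_mul_of_nonneg_left h5 h7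
  nlinarith

private theorem GeoA_r1 {c κ : ℝ} (h1 : 1 - c ^ 2 ≤ κ ^ 2 / 4) (h2 : κ ^ 2 ≤ 1 / 4)
    (h3 : -(9 / 10) < c) : 0 ≤ c := by
  by_contra hcon
  push Not at hcon
  have h4 : c ^ 2 < 81 / 100 := by nlinarith
  linarith

private theorem GeoA_r2 {c κ : ℝ} (h1 : 1 - c ^ 2 ≤ κ ^ 2 / 4) (h0 : 0 ≤ c) (h7 : c ≤ 1) :
    2 - 2 * c ≤ κ ^ 2 := by
  have h2 : 0 ≤ c * (1 - c) := mul_nonneg h0 (by linarith)
  have h3 := sq_nonneg κ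
  linarith

private theorem GeoA_r3 {s s' ρ δ P : ℝ} (hP : 2 * P = (s - s') * (s + s') + ρ ^ 2)
    (h5 : -(4 * δ) * (s + s') ≤ (s - s') * (s + s'))
    (hδs : δ * (s + s') ≤ ρ / 64 * (2 * s + ρ)) (hsρ : 0 < s * ρ) :
    -(9 / 10) * (s * ρ) < P := by
  have h6 := sq_nonneg ρ
  linarith

private theorem GeoA_r4 {s s' ρ δ P : ℝ} (hP : 2 * P = (s - s') * (s + s') + ρ ^ 2)
    (h5 : (s - s') * (s + s') ≤ 4 * δ * (s + s'))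
    (hδs : δ * (s + s') ≤ ρ / 64 * (2 * s + ρ)) (hsρ : 0 < s * ρ) (hρ : 0 < ρ)
    (hρ1 : ρ ≤ 1 / 8) (hs : (15 / 32 : ℝ) ≤ s) :
    P < 9 / 10 * (s * ρ) := by
  have h6 : ρ * ρ ≤ ρ * s := mul_le_mul_of_nonneg_left (by linarith) hρ.le
  linarith

private theorem GeoA_r5 {s ρ c κ D P : ℝ} (hPD : P ^ 2 + D ^ 2 = s ^ 2 * ρ ^ 2)
    (hcP : P = c * (s * ρ)) (hD2 : 36 * D ^ 2 ≤ κ ^ 2 * ρ ^ 2) (hs : (15 / 32 : ℝ) ≤ s)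
    (hρ : 0 < ρ) : 1 - c ^ 2 ≤ κ ^ 2 / 4 := by
  have hs0 : 0 < s := by linarith
  have h5 : (1 - c ^ 2) * (s ^ 2 * ρ ^ 2) = D ^ 2 := by
    have h : P ^ 2 = c ^ 2 * (s ^ 2 * ρ ^ 2) := by rw [hcP]; ring
    linarith
  have h7 : (1 / 9 : ℝ) ≤ s ^ 2 := by nlinarith
  have h8 : κ ^ 2 * ρ ^ 2 * (1 / 9) ≤ κ ^ 2 * ρ ^ 2 * s ^ 2 :=
    mul_le_mul_of_nonneg_left h7 (by positivity)
  have h6 : (1 - c ^ 2) * (s ^ 2 * ρ ^ 2) ≤ κ ^ 2 / 4 * (s ^ 2 * ρ ^ 2) := by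
    rw [h5]
    linarith
  exact le_of_mul_le_mul_right h6 (by positivity)

private theorem GeoA_r6 {D ρ κ : ℝ} (h4 : 6 * |D| ≤ κ * ρ) (hκ0 : 0 ≤ κ * ρ) :
    36 * D ^ 2 ≤ κ ^ 2 * ρ ^ 2 := by
  have h5 : (6 * |D|) ^ 2 ≤ (κ * ρ) ^ 2 :=
    pow_le_pow_left₀ (by positivity) h4 2
  have h6 : (6 * |D|) ^ 2 = 36 * D ^ 2 := by rw [mul_pow, sq_abs]; norm_num
  rw [← h6, ← mul_pow]
  exact h5

private theorem GeoA_r7 {a : ℝ} (h0 : 0 ≤ a) (h : a ^ 2 = 1) : a = 1 := by nlinarith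

/-- The direction of a point near both circles, if they are nearly tangent. -/
theorem geo_dir (hδ : 0 < δ) (hδ1 : δ ≤ 1 / 64) (hx : ‖x - x'‖ ≤ 1 / 8) (hx0 : x ≠ x')
    (ht : t ∈ Icc (1 / 2 : ℝ) (5 / 2)) (ht' : t' ∈ Icc (1 / 2 : ℝ) (5 / 2))
    (h1 : |‖x - y‖ - t| ≤ 2 * δ) (h2 : |‖x' - y‖ - t'| ≤ 2 * δ) (h3 : 64 * δ ≤ ‖x - x'‖)
    {κ : ℝ} (hκ : κ ≤ 1 / 2) (h4 : 6 * |dt (y - x) (y - x')| ≤ κ * ‖x - x'‖) :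
    (t' ≤ t → ‖‖x - y‖⁻¹ • (x - y) - ‖x - x'‖⁻¹ • (x - x')‖ ≤ κ) ∧
      (t < t' → ‖‖x - y‖⁻¹ • (x - y) + ‖x - x'‖⁻¹ • (x - x')‖ ≤ κ) := by
  have h1' := abs_le.1 h1
  have h2' := abs_le.1 h2
  have htri := abs_le.1 (GeoA_tri1 x x' y)
  have hρ : 0 < ‖x - x'‖ := norm_pos_iff.2 (sub_ne_zero.2 hx0)
  have hs : (15 / 32 : ℝ) ≤ ‖x - y‖ := by linarith [h1'.1, ht.1]
  have hs0 : 0 < ‖x - y‖ := by linarith
  have hκ0 : 0 ≤ κ := by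
    have h5 := abs_nonneg (dt (y - x) (y - x'))
    have h6 : 0 ≤ κ * ‖x - x'‖ := by linarith
    exact nonneg_of_mul_nonneg_left h6 hρ
  have hD : dt (y - x) (y - x') ^ 2 = dt (x - y) (x - x') ^ 2 := by
    simp only [dt, PiLp.sub_apply]
    ring
  have hPD : inner ℝ (x - y) (x - x') ^ 2 + dt (x - y) (x - x') ^ 2 =
      ‖x - y‖ ^ 2 * ‖x - x'‖ ^ 2 := by
    rw [GeoA_nsq, GeoA_nsq, GeoA_inner]
    simp only [dt, PiLp.sub_apply]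
    ring
  have hP : 2 * inner ℝ (x - y) (x - x') =
      (‖x - y‖ - ‖x' - y‖) * (‖x - y‖ + ‖x' - y‖) + ‖x - x'‖ ^ 2 := by
    have e : (‖x - y‖ - ‖x' - y‖) * (‖x - y‖ + ‖x' - y‖) + ‖x - x'‖ ^ 2 =
        ‖x - y‖ ^ 2 - ‖x' - y‖ ^ 2 + ‖x - x'‖ ^ 2 := by ring
    rw [e, GeoA_nsq, GeoA_nsq, GeoA_nsq, GeoA_inner]
    simp only [PiLp.sub_apply]
    ring
  set s := ‖x - y‖ with hsdef
  set s' := ‖x' - y‖ with hs'def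
  set ρ := ‖x - x'‖ with hρdef
  set P := inner ℝ (x - y) (x - x') with hPdef
  set c := s⁻¹ * (ρ⁻¹ * P) with hcdef
  have hcP : P = c * (s * ρ) := by
    rw [hcdef]
    field_simp
  have hD2 : 36 * dt (x - y) (x - x') ^ 2 ≤ κ ^ 2 * ρ ^ 2 := by
    rw [← hD]
    exact GeoA_r6 h4 (mul_nonneg hκ0 hρ.le)
  have hc2 : 1 - c ^ 2 ≤ κ ^ 2 / 4 := GeoA_r5 hPD hcP hD2 hs hρ
  have hκ2 : κ ^ 2 ≤ 1 / 4 := by
    have h5 := pow_le_pow_left₀ hκ0 hκ 2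
    norm_num at h5 ⊢
    exact h5
  have hw1 : ‖s⁻¹ • (x - y)‖ ^ 2 = 1 := by
    rw [norm_smul, norm_inv, Real.norm_eq_abs, abs_of_pos hs0, ← hsdef,
      inv_mul_cancel₀ hs0.ne', one_pow]
  have hw2 : ‖ρ⁻¹ • (x - x')‖ ^ 2 = 1 := by
    rw [norm_smul, norm_inv, Real.norm_eq_abs, abs_of_pos hρ, ← hρdef,
      inv_mul_cancel₀ hρ.ne', one_pow]
  have hin : inner ℝ (s⁻¹ • (x - y)) (ρ⁻¹ • (x - x')) = c := by
    rw [inner_smul_left, inner_smul_right]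
    rfl
  have hsρ : 0 < s * ρ := mul_pos hs0 hρ
  have hss : s' ≤ s + ρ := by linarith [htri.1]
  have hs'0 : 0 ≤ s' := norm_nonneg _
  have hδs : δ * (s + s') ≤ ρ / 64 * (2 * s + ρ) := by
    have h5 : δ ≤ ρ / 64 := by linarith
    have h6 : s + s' ≤ 2 * s + ρ := by linarith
    exact mul_le_mul h5 h6 (by linarith) (by positivity)
  constructor
  · intro htt
    have hss' : -(4 * δ) ≤ s - s' := by linarith [h1'.1, h2'.2]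
    have h5 : -(4 * δ) * (s + s') ≤ (s - s') * (s + s') :=
      mul_le_mul_of_nonneg_right hss' (by linarith)
    have hPl : -(9 / 10) * (s * ρ) < P := GeoA_r3 hP h5 hδs hsρ
    have hcl : -(9 / 10) < c := by
      rw [hcP] at hPl
      exact lt_of_mul_lt_mul_right hPl hsρ.le
    have hc0 : 0 ≤ c := GeoA_r1 hc2 hκ2 hcl
    have h6 : ‖s⁻¹ • (x - y) - ρ⁻¹ • (x - x')‖ ^ 2 = 2 - 2 * c := by
      rw [norm_sub_sq_real, hw1, hw2, hin]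
      ring
    refine abs_le_of_sq_le_sq' ?_ hκ0 |>.2
    rw [h6]
    have h7 : c ≤ 1 := by
      have := abs_real_inner_le_norm (s⁻¹ • (x - y)) (ρ⁻¹ • (x - x'))
      rw [hin] at this
      have h8 : ‖s⁻¹ • (x - y)‖ = 1 := GeoA_r7 (norm_nonneg _) hw1
      have h9 : ‖ρ⁻¹ • (x - x')‖ = 1 := GeoA_r7 (norm_nonneg _) hw2
      rw [h8, h9] at this
      linarith [le_abs_self c]
    exact GeoA_r2 hc2 hc0 h7
  · intro htt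
    have hss' : s - s' ≤ 4 * δ := by linarith [h1'.2, h2'.1]
    have h5 : (s - s') * (s + s') ≤ 4 * δ * (s + s') :=
      mul_le_mul_of_nonneg_right hss' (by linarith)
    have hPl : P < 9 / 10 * (s * ρ) := GeoA_r4 hP h5 hδs hsρ hρ hx hs
    have hcl : c < 9 / 10 := by
      rw [hcP] at hPl
      exact lt_of_mul_lt_mul_right hPl hsρ.le
    have hc2' : 1 - (-c) ^ 2 ≤ κ ^ 2 / 4 := by rw [neg_sq]; exact hc2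
    have hc0 : 0 ≤ -c := GeoA_r1 hc2' hκ2 (by linarith)
    have h6 : ‖s⁻¹ • (x - y) + ρ⁻¹ • (x - x')‖ ^ 2 = 2 + 2 * c := by
      rw [norm_add_sq_real, hw1, hw2, hin]
      ring
    refine abs_le_of_sq_le_sq' ?_ hκ0 |>.2
    rw [h6]
    have h7 : -1 ≤ c := by
      have := abs_real_inner_le_norm (s⁻¹ • (x - y)) (ρ⁻¹ • (x - x'))
      rw [hin] at this
      have h8 : ‖s⁻¹ • (x - y)‖ = 1 := GeoA_r7 (norm_nonneg _) hw1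
      have h9 : ‖ρ⁻¹ • (x - x')‖ = 1 := GeoA_r7 (norm_nonneg _) hw2
      rw [h8, h9] at this
      linarith [neg_abs_le c]
    have h8 := GeoA_r2 hc2' hc0 (by linarith)
    linarith

end Pool.Agent.Lib.MP_ff3fe0_an_SPH2
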