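import Pool.Agent.Lib.MP_ff3fe0_an_SPH2.Defs2
import Pool.Agent.Lib.MP_ff3fe0_an_SPH.GoodB
import Pool.Agent.Lib.MP_ff3fe0_an_SPH.CZB

set_option autoImplicit false

/-!
# The good part, exponent three
-/

namespace Pool.Agent.Lib.MP_ff3fe0_an_SPH2

open MeasureTheory Metric Set
open scoped ENNReal NNReal ContDiff FourierTransform
open Pool.Agent.Lib.MP_ff3fe0_an
open Pool.Agent.Lib.MP_ff3fe0_an_SPH

variable {d : ℕ}

/-- The part of `G` above the height `s`. -/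
private noncomputable def gcT (G : E d → E d) (s : ℝ) : E d → E d :=
  indicator {x | s < ‖G x‖} G

private theorem gcT_meas2 {G : E d → E d} (hG : Measurable G) :
    Measurable (fun q : ℝ × E d => gcT G q.1 q.2) := by
  have h1 : MeasurableSet {q : ℝ × E d | q.1 < ‖G q.2‖} :=
    measurableSet_lt measurable_fst (hG.comp measurable_snd).norm
  have h2 : (fun q : ℝ × E d => gcT G q.1 q.2) =
      indicator {q : ℝ × E d | q.1 < ‖G q.2‖} (fun q => G q.2) := by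
    funext q
    simp only [gcT, indicator]
    rfl
  rw [h2]
  exact (hG.comp measurable_snd).indicator h1

private theorem gcT_meas {G : E d → E d} (hG : Measurable G) (s : ℝ) : Measurable (gcT G s) :=
  hG.indicator (measurableSet_lt measurable_const hG.norm)

private theorem gcT_le (G : E d → E d) (s : ℝ) (x : E d) : ‖gcT G s x‖ₑ ≤ ‖G x‖ₑ :=
  enorm_indicator_le_enorm_self _ _

private theorem gcT_integrable {G : E d → E d} (hG : Measurable G) (h1 : Integrable G) (s : ℝ) :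
    Integrable (gcT G s) :=
  h1.indicator (measurableSet_lt measurable_const hG.norm)

private theorem gcT_sub (G : E d → E d) {s : ℝ} (hs : 0 ≤ s) (x : E d) :
    ‖G x - gcT G s x‖ ≤ s := by
  unfold gcT
  by_cases h : s < ‖G x‖
  · rw [indicator_of_mem (show x ∈ {x | s < ‖G x‖} from h), sub_self, norm_zero]
    exact hs
  · rw [indicator_of_notMem (show x ∉ {x | s < ‖G x‖} from h), sub_zero]
    exact not_lt.1 h

private theorem gc_intg {K : E d → E d} (hK : IsKer K) {b : ℝ} (hb : 0 < b) {G : E d → E d}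
    (hG : Measurable G) (h1 : Integrable G) (x : E d) :
    Integrable (fun y => (inner ℝ (K y) (G (x - b • y)) : ℝ)) := by
  obtain ⟨C, hC⟩ := CvA_bd hK
  have h2 : Integrable (fun y => G (x - b • y)) := by
    have h3 : Integrable (fun y => G (x - y)) := h1.comp_sub_left x
    exact h3.comp_smul hb.ne'
  refine (h2.norm.const_mul (C : ℝ)).mono' ?_ ?_
  · exact ((hK.smooth.continuous.measurable).inner
      (hG.comp (by fun_prop : Measurable fun y : E d => x - b • y))).aestronglyMeasurable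
  · refine Filter.Eventually.of_forall fun y => ?_
    exact (norm_inner_le_norm _ _).trans (mul_le_mul_of_nonneg_right (hC y) (norm_nonneg _))

private theorem gc_meas2 {K : E d → E d} (hK : IsKer K) (b c : ℝ) {G : E d → E d}
    (hG : Measurable G) : Measurable (fun q : ℝ × E d => cvv K b (gcT G (c * q.1)) q.2) := by
  unfold cvv
  have h : StronglyMeasurable (Function.uncurry fun (q : ℝ × E d) (y : E d) =>
      (inner ℝ (K y) (gcT G (c * q.1) (q.2 - b • y)) : ℝ)) := by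
    apply Measurable.stronglyMeasurable
    have h1 : Measurable fun p : (ℝ × E d) × E d => K p.2 :=
      (hK.smooth.continuous.measurable).comp measurable_snd
    have h2 : Measurable fun p : (ℝ × E d) × E d => gcT G (c * p.1.1) (p.1.2 - b • p.2) := by
      have h3 : Measurable fun p : (ℝ × E d) × E d => ((c * p.1.1, p.1.2 - b • p.2) : ℝ × E d) := by
        fun_prop
      exact (gcT_meas2 hG).comp h3
    exact h1.inner h2
  exact h.integral_prod_right.measurable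

/-- The pointwise bound. -/
private theorem gc_point {K : E d → E d} (hK : IsKer K) : ∃ c : ℝ, 0 < c ∧
    ∀ (b : ℝ), 0 < b → ∀ (G : E d → E d), Measurable G → Integrable G → ∀ (x : E d) (s : ℝ),
      0 < s → s < ‖cvv K b G x‖ → s ≤ 2 * ‖cvv K b (gcT G (c * s)) x‖ := by
  obtain ⟨C, hC⟩ := CvA_bd hK
  set V : ℝ := (volume (closedBall (0 : E d) 1)).toReal with hV
  have hV0 : 0 ≤ V := ENNReal.toReal_nonneg
  refine ⟨1 / (2 * (C * V + 1)), by positivity, fun b hb G hG h1 x s hs hlt => ?_⟩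
  set c : ℝ := 1 / (2 * (C * V + 1)) with hc
  have hc0 : 0 < c := by positivity
  have hint := gc_intg hK hb hG h1 x
  have hint2 := gc_intg hK hb (gcT_meas hG (c * s)) (gcT_integrable hG h1 (c * s)) x
  have e : cvv K b G x - cvv K b (gcT G (c * s)) x =
      ∫ y in closedBall (0 : E d) 1, inner ℝ (K y) (G (x - b • y) - gcT G (c * s) (x - b • y)) := by
    rw [cvv, cvv, ← integral_sub hint hint2, setIntegral_eq_integral_of_forall_compl_eq_zero]
    · exact integral_congr_ae (Filter.Eventually.of_forall fun y => (inner_sub_right _ _ _).symm)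
    · intro y hy
      rw [hK.supp y (by simpa using hy), inner_zero_left]
  have h3 : ‖cvv K b G x - cvv K b (gcT G (c * s)) x‖ ≤ C * (c * s) * V := by
    rw [e]
    have h4 := norm_setIntegral_le_of_norm_le_const (μ := (volume : Measure (E d)))
      (s := closedBall (0 : E d) 1)
      (f := fun y => (inner ℝ (K y) (G (x - b • y) - gcT G (c * s) (x - b • y)) : ℝ))
      (C := C * (c * s)) measure_closedBall_lt_top (fun y _ => by
        refine (norm_inner_le_norm _ _).trans ?_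
        exact mul_le_mul (hC y) (gcT_sub G (by positivity) _) (norm_nonneg _) C.2)
    exact h4
  have h5 : C * (c * s) * V ≤ s / 2 := by
    rw [hc]
    rw [show (C : ℝ) * (1 / (2 * (C * V + 1)) * s) * V = (C * V / (C * V + 1)) * (s / 2) by
      field_simp]
    have h6 : (C : ℝ) * V / (C * V + 1) ≤ 1 := by
      rw [div_le_one (by positivity)]
      linarith
    calc (C : ℝ) * V / (C * V + 1) * (s / 2) ≤ 1 * (s / 2) := by gcongr
      _ = s / 2 := one_mul _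
  have h7 := norm_sub_norm_le (cvv K b G x) (cvv K b (gcT G (c * s)) x)
  linarith

private theorem gc_cube (r : ℝ) (hr : 0 ≤ r) :
    ENNReal.ofReal r ^ 3 = ∫⁻ s in Ioc 0 r, ENNReal.ofReal (3 * s ^ 2) := by
  have h1 : ∫ s in (0 : ℝ)..r, 3 * s ^ 2 = r ^ 3 := by
    rw [intervalIntegral.integral_const_mul, integral_pow]
    ring
  rw [← ENNReal.ofReal_pow hr, ← h1, intervalIntegral.integral_of_le hr]
  refine ofReal_integral_eq_lintegral_ofReal ?_ ?_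
  · exact (by fun_prop : Continuous fun s : ℝ => 3 * s ^ 2).integrableOn_Ioc
  · exact Filter.Eventually.of_forall fun s => by positivity

theorem good_sum3 (K : Ker d) : ∃ C : ℝ≥0, ∀ G : E d → E d, Measurable G → Integrable G →
    ∫⁻ y, ‖G y‖ₑ ^ 2 ≠ ⊤ → ∑' j : ℤ, ∫⁻ y, ‖cvv K.ka ((2 : ℝ) ^ j) G y‖ₑ ^ 3 ≤
      C * ∫⁻ y, ‖G y‖ₑ ^ 3 := by
  obtain ⟨c, hc, hpt⟩ := gc_point K.hka
  obtain ⟨C2, hC2⟩ := good_sum K
  refine ⟨12 * C2 * Real.toNNReal c⁻¹, fun G hG h1 h2 => ?_⟩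
  have hm2 : ∀ b : ℝ, Measurable
      (fun q : ℝ × E d => ‖cvv K.ka b (gcT G (c * q.1)) q.2‖ₑ ^ 2) := fun b =>
    (gc_meas2 K.hka b c hG).enorm.pow_const 2
  -- the pointwise bound
  have key : ∀ (j : ℤ) (x : E d), ‖cvv K.ka ((2 : ℝ) ^ j) G x‖ₑ ^ 3 ≤
      12 * ∫⁻ s in Ioi (0 : ℝ), ‖cvv K.ka ((2 : ℝ) ^ j) (gcT G (c * s)) x‖ₑ ^ 2 := by
    intro j x
    set r : ℝ := ‖cvv K.ka ((2 : ℝ) ^ j) G x‖ with hr
    rw [← ofReal_norm, ← hr, gc_cube r (norm_nonneg _), ← lintegral_const_mul' _ _ (by simp),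
      setLIntegral_congr Ioo_ae_eq_Ioc.symm]
    calc ∫⁻ s in Ioo 0 r, ENNReal.ofReal (3 * s ^ 2)
        ≤ ∫⁻ s in Ioo 0 r, 12 * ‖cvv K.ka ((2 : ℝ) ^ j) (gcT G (c * s)) x‖ₑ ^ 2 := by
          refine setLIntegral_mono' measurableSet_Ioo fun s hs => ?_
          have h3 := hpt ((2 : ℝ) ^ j) (by positivity) G hG h1 x s hs.1 hs.2
          rw [← ofReal_norm, ← ENNReal.ofReal_pow (norm_nonneg _),
            show (12 : ℝ≥0∞) = ENNReal.ofReal 12 by simp, ← ENNReal.ofReal_mul (by norm_num)]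
          refine ENNReal.ofReal_le_ofReal ?_
          have h4 : s ^ 2 ≤ (2 * ‖cvv K.ka ((2 : ℝ) ^ j) (gcT G (c * s)) x‖) ^ 2 :=
            pow_le_pow_left₀ hs.1.le h3 2
          nlinarith
      _ ≤ _ := lintegral_mono_set Ioo_subset_Ioi_self
  have hswap : ∀ j : ℤ, ∫⁻ x, ∫⁻ s in Ioi (0 : ℝ),
      ‖cvv K.ka ((2 : ℝ) ^ j) (gcT G (c * s)) x‖ₑ ^ 2 =
      ∫⁻ s in Ioi (0 : ℝ), ∫⁻ x, ‖cvv K.ka ((2 : ℝ) ^ j) (gcT G (c * s)) x‖ₑ ^ 2 := by
    intro j
    exact lintegral_lintegral_swap (μ := (volume : Measure (E d)))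
      (ν := (volume : Measure ℝ).restrict (Ioi 0))
      (f := fun x s => ‖cvv K.ka ((2 : ℝ) ^ j) (gcT G (c * s)) x‖ₑ ^ 2)
      (((hm2 _).comp measurable_swap).aemeasurable)
  have hmj : ∀ j : ℤ, Measurable (fun s : ℝ =>
      ∫⁻ x, ‖cvv K.ka ((2 : ℝ) ^ j) (gcT G (c * s)) x‖ₑ ^ 2) := fun j =>
    (hm2 _).lintegral_prod_right'
  have hfin : ∀ s : ℝ, ∫⁻ y, ‖gcT G s y‖ₑ ^ 2 ≠ ⊤ := fun s =>
    ne_top_of_le_ne_top h2 (lintegral_mono fun y => by
      have := gcT_le G s y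
      gcongr)
  have hlast : ∀ x : E d, ∫⁻ s in Ioi (0 : ℝ), ‖gcT G (c * s) x‖ₑ ^ 2 ≤
      ENNReal.ofReal c⁻¹ * ‖G x‖ₑ ^ 3 := by
    intro x
    calc ∫⁻ s in Ioi (0 : ℝ), ‖gcT G (c * s) x‖ₑ ^ 2
        ≤ ∫⁻ s in Ioi (0 : ℝ), (Ioo (0 : ℝ) (c⁻¹ * ‖G x‖)).indicator
            (fun _ => ‖G x‖ₑ ^ 2) s := by
          refine setLIntegral_mono' measurableSet_Ioi fun s hs => ?_
          by_cases h : c * s < ‖G x‖
          · have h3 : s ∈ Ioo (0 : ℝ) (c⁻¹ * ‖G x‖) := ⟨hs, by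
              rw [inv_mul_eq_div, lt_div_iff₀ hc, mul_comm]
              exact h⟩
            rw [indicator_of_mem h3]
            have := gcT_le G (c * s) x
            gcongr
          · have h3 : gcT G (c * s) x = 0 :=
              indicator_of_notMem (show x ∉ {x | c * s < ‖G x‖} from h) _
            rw [h3, enorm_zero]
            simp
      _ ≤ ∫⁻ s, (Ioo (0 : ℝ) (c⁻¹ * ‖G x‖)).indicator (fun _ => ‖G x‖ₑ ^ 2) s :=
          setLIntegral_le_lintegral _ _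
      _ = ‖G x‖ₑ ^ 2 * ENNReal.ofReal (c⁻¹ * ‖G x‖) := by
          rw [lintegral_indicator measurableSet_Ioo, setLIntegral_const, Real.volume_Ioo, sub_zero]
      _ = ENNReal.ofReal c⁻¹ * ‖G x‖ₑ ^ 3 := by
          rw [ENNReal.ofReal_mul (by positivity), ofReal_norm]
          ring
  calc ∑' j : ℤ, ∫⁻ y, ‖cvv K.ka ((2 : ℝ) ^ j) G y‖ₑ ^ 3
      ≤ ∑' j : ℤ, ∫⁻ x, 12 * ∫⁻ s in Ioi (0 : ℝ),
          ‖cvv K.ka ((2 : ℝ) ^ j) (gcT G (c * s)) x‖ₑ ^ 2 :=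
        ENNReal.tsum_le_tsum fun j => lintegral_mono fun x => key j x
    _ = ∑' j : ℤ, 12 * ∫⁻ s in Ioi (0 : ℝ), ∫⁻ x,
          ‖cvv K.ka ((2 : ℝ) ^ j) (gcT G (c * s)) x‖ₑ ^ 2 := by
        refine tsum_congr fun j => ?_
        rw [lintegral_const_mul' _ _ (by simp), hswap]
    _ = 12 * ∫⁻ s in Ioi (0 : ℝ), ∑' j : ℤ, ∫⁻ x,
          ‖cvv K.ka ((2 : ℝ) ^ j) (gcT G (c * s)) x‖ₑ ^ 2 := by
        rw [ENNReal.tsum_mul_left, lintegral_tsum fun j => (hmj j).aemeasurable]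
    _ ≤ 12 * ∫⁻ s in Ioi (0 : ℝ), C2 * ∫⁻ y, ‖gcT G (c * s) y‖ₑ ^ 2 := by
        gcongr with s
        exact hC2 _ (gcT_meas hG _) (gcT_integrable hG h1 _) (hfin _)
    _ = 12 * (C2 * ∫⁻ y, ∫⁻ s in Ioi (0 : ℝ), ‖gcT G (c * s) y‖ₑ ^ 2) := by
        rw [lintegral_const_mul' _ _ ENNReal.coe_ne_top]
        congr 2
        refine lintegral_lintegral_swap (μ := (volume : Measure ℝ).restrict (Ioi 0))
          (ν := (volume : Measure (E d))) (f := fun s y => ‖gcT G (c * s) y‖ₑ ^ 2) ?_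
        have h3 : Measurable (fun q : ℝ × E d => ((c * q.1, q.2) : ℝ × E d)) := by fun_prop
        exact (((gcT_meas2 hG).comp h3).enorm.pow_const 2).aemeasurable
    _ ≤ 12 * (C2 * ∫⁻ y, ENNReal.ofReal c⁻¹ * ‖G y‖ₑ ^ 3) := by
        gcongr with y
        exact hlast y
    _ = ((12 * C2 * Real.toNNReal c⁻¹ : ℝ≥0) : ℝ≥0∞) * ∫⁻ y, ‖G y‖ₑ ^ 3 := by
        rw [lintegral_const_mul' _ _ ENNReal.ofReal_ne_top]
        push_cast
        simp only [ENNReal.ofReal]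
        ring

private theorem goodC_meas {F : E d → E d} (hF : Continuous F) (b : ℝ) {G : E d → E d}
    (hG : Measurable G) : Measurable (cvv F b G) := by
  unfold cvv
  have h : StronglyMeasurable (fun q : E d × E d => inner ℝ (F q.2) (G (q.1 - b • q.2))) := by
    refine Measurable.stronglyMeasurable ?_
    exact (hF.measurable.comp measurable_snd).inner
      (hG.comp (measurable_fst.sub (measurable_snd.const_smul b)))
  exact h.integral_prod_right.measurable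

private theorem goodC_holder {p : ℝ} (hp : 1 ≤ p) (hp2 : p < 3) {h : E d → ℝ}
    (hh : Measurable h) (B : Set (E d)) :
    (∫⁻ y in B, ‖h y‖ₑ ^ p) ^ (3 / p) ≤
      (∫⁻ y in B, ‖h y‖ₑ ^ 3) * volume B ^ (3 / p - 1) := by
  have hp0 : 0 < p := by linarith
  have h1 := eLpNorm'_le_eLpNorm'_mul_rpow_measure_univ (μ := volume.restrict B) (f := h) hp0
    hp2.le hh.aestronglyMeasurable
  unfold eLpNorm' at h1
  rw [Measure.restrict_apply_univ] at h1
  have h2 := ENNReal.rpow_le_rpow h1 (by norm_num : (0 : ℝ) ≤ 3)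
  rw [ENNReal.mul_rpow_of_nonneg _ _ (by norm_num : (0 : ℝ) ≤ 3), ← ENNReal.rpow_mul,
    ← ENNReal.rpow_mul, ← ENNReal.rpow_mul] at h2
  have e1 : 1 / p * 3 = 3 / p := by ring
  have e2 : (1 : ℝ) / 3 * 3 = 1 := by norm_num
  have e3 : (1 / p - 1 / 3) * 3 = 3 / p - 1 := by ring
  rw [e1, e2, e3, ENNReal.rpow_one] at h2
  refine h2.trans (le_of_eq ?_)
  congr 1
  refine lintegral_congr fun y => ?_
  exact_mod_cast (ENNReal.rpow_natCast ‖h y‖ₑ 3)

private theorem goodC_Aav (K : Ker d) {p : ℝ} (hp : 1 ≤ p) (hp2 : p < 3) (r : ℝ) : ∃ C : ℝ≥0,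
    ∀ (m : ℕ) (G : E d → E d), Measurable G → ∀ (j : ℤ) (z : Fin d → ℤ),
      Aav3 K p r m G j z ≤ C * ∫⁻ y in closedBall (cen j z) (|r| * (2 : ℝ) ^ j),
        ‖cvv K.ka ((2 : ℝ) ^ j * sc m) G y‖ₑ ^ 3 := by
  have hp0 : 0 < p := by linarith
  have hexp : 0 ≤ 3 / p - 1 := by
    rw [sub_nonneg, le_div_iff₀ hp0]
    linarith
  set C0 : ℝ≥0∞ := (ENNReal.ofReal (|r| ^ d) * volume (ball (0 : E d) 1)) ^ (3 / p - 1) with hC0
  have hC0t : C0 ≠ ⊤ := by
    refine ENNReal.rpow_ne_top_of_nonneg hexp ?_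
    exact ENNReal.mul_ne_top ENNReal.ofReal_ne_top measure_ball_lt_top.ne
  refine ⟨C0.toNNReal, fun m G hG j z => ?_⟩
  rw [ENNReal.coe_toNNReal hC0t]
  set R : ℝ := (2 : ℝ) ^ j with hR
  have hR0 : 0 < R := zpow_pos two_pos j
  have hRd : 0 < R ^ d := pow_pos hR0 d
  set h : E d → ℝ := cvv K.ka (R * sc m) G with hh
  have hhm : Measurable h := goodC_meas K.hka.smooth.continuous _ hG
  have hv : volume (closedBall (cen j z : E d) (|r| * R)) =
      ENNReal.ofReal (|r| ^ d) * volume (ball (0 : E d) 1) * ENNReal.ofReal (R ^ d) := by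
    rw [Measure.addHaar_closedBall _ _ (by positivity), finrank_euclideanSpace_fin, mul_pow,
      ENNReal.ofReal_mul (by positivity)]
    ring
  have hmono : ∫⁻ y in closedBall (cen j z) (r * R), ‖h y‖ₑ ^ p ≤
      ∫⁻ y in closedBall (cen j z) (|r| * R), ‖h y‖ₑ ^ p := by
    refine lintegral_mono_set (closedBall_subset_closedBall ?_)
    exact mul_le_mul_of_nonneg_right (le_abs_self r) hR0.le
  have hmain := goodC_holder hp hp2 hhm (closedBall (cen j z : E d) (|r| * R))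
  have hone : ENNReal.ofReal (R ^ d) * (ENNReal.ofReal ((R ^ d)⁻¹) ^ (3 / p) *
      ENNReal.ofReal (R ^ d) ^ (3 / p - 1)) = 1 := by
    rw [ENNReal.ofReal_rpow_of_pos (inv_pos.2 hRd), ENNReal.ofReal_rpow_of_pos hRd,
      ← ENNReal.ofReal_mul (by positivity), ← ENNReal.ofReal_mul (by positivity),
      Real.inv_rpow hRd.le, Real.rpow_sub_one hRd.ne']
    have hne : (R ^ d) ^ (3 / p) ≠ 0 := (Real.rpow_pos_of_pos hRd _).ne'
    have : R ^ d * (((R ^ d) ^ (3 / p))⁻¹ * ((R ^ d) ^ (3 / p) / R ^ d)) = 1 := by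
      field_simp
    rw [this, ENNReal.ofReal_one]
  calc Aav3 K p r m G j z
      = ENNReal.ofReal (R ^ d) * (ENNReal.ofReal ((R ^ d)⁻¹) *
        ∫⁻ y in closedBall (cen j z) (r * R), ‖h y‖ₑ ^ p) ^ (3 / p) := rfl
    _ ≤ ENNReal.ofReal (R ^ d) * (ENNReal.ofReal ((R ^ d)⁻¹) *
        ∫⁻ y in closedBall (cen j z) (|r| * R), ‖h y‖ₑ ^ p) ^ (3 / p) := by
        gcongr
    _ = ENNReal.ofReal (R ^ d) * (ENNReal.ofReal ((R ^ d)⁻¹) ^ (3 / p) *
        (∫⁻ y in closedBall (cen j z) (|r| * R), ‖h y‖ₑ ^ p) ^ (3 / p)) := by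
        rw [ENNReal.mul_rpow_of_nonneg _ _ (by positivity)]
    _ ≤ ENNReal.ofReal (R ^ d) * (ENNReal.ofReal ((R ^ d)⁻¹) ^ (3 / p) *
        ((∫⁻ y in closedBall (cen j z) (|r| * R), ‖h y‖ₑ ^ 3) *
          volume (closedBall (cen j z : E d) (|r| * R)) ^ (3 / p - 1))) := by
        gcongr
    _ = (ENNReal.ofReal (R ^ d) * (ENNReal.ofReal ((R ^ d)⁻¹) ^ (3 / p) *
        ENNReal.ofReal (R ^ d) ^ (3 / p - 1))) * (C0 *
        ∫⁻ y in closedBall (cen j z) (|r| * R), ‖h y‖ₑ ^ 3) := by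
        rw [hv, ENNReal.mul_rpow_of_nonneg _ _ hexp, ← hC0]
        ring
    _ = C0 * ∫⁻ y in closedBall (cen j z) (|r| * R), ‖h y‖ₑ ^ 3 := by
        rw [hone, one_mul]

theorem good_Aav3 (K : Ker d) {p : ℝ} (hp : 1 ≤ p) (hp2 : p < 3) (r : ℝ) : ∃ C : ℝ≥0,
    ∀ (m : ℕ) (G : E d → E d), Measurable G → Integrable G → ∫⁻ y, ‖G y‖ₑ ^ 2 ≠ ⊤ →
      ∑' j : ℤ, ∑' z : Fin d → ℤ, Aav3 K p r m G j z ≤ C * ∫⁻ y, ‖G y‖ₑ ^ 3 := by
  obtain ⟨C1, h1⟩ := goodC_Aav K hp hp2 r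
  obtain ⟨C2, h2⟩ := overlap (d := d) |r|
  obtain ⟨C3, h3⟩ := good_sum3 K
  refine ⟨C1 * (C2 * C3), fun m G hG hGi hG2 => ?_⟩
  have hb : ∀ j : ℤ, (2 : ℝ) ^ j * sc m = (2 : ℝ) ^ (j - (m : ℤ)) := by
    intro j
    unfold sc
    rw [zpow_sub₀ (two_ne_zero), zpow_natCast, one_div, inv_pow]
    rfl
  calc ∑' j : ℤ, ∑' z : Fin d → ℤ, Aav3 K p r m G j z
      ≤ ∑' j : ℤ, ∑' z : Fin d → ℤ, C1 * ∫⁻ y in closedBall (cen j z) (|r| * (2 : ℝ) ^ j),
        ‖cvv K.ka ((2 : ℝ) ^ j * sc m) G y‖ₑ ^ 3 :=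
        ENNReal.tsum_le_tsum fun j => ENNReal.tsum_le_tsum fun z => h1 m G hG j z
    _ = C1 * ∑' j : ℤ, ∑' z : Fin d → ℤ, ∫⁻ y in closedBall (cen j z) (|r| * (2 : ℝ) ^ j),
        ‖cvv K.ka ((2 : ℝ) ^ j * sc m) G y‖ₑ ^ 3 := by
        rw [← ENNReal.tsum_mul_left]
        exact tsum_congr fun j => ENNReal.tsum_mul_left
    _ ≤ C1 * ∑' j : ℤ, C2 * ∫⁻ y, ‖cvv K.ka ((2 : ℝ) ^ j * sc m) G y‖ₑ ^ 3 := by
        gcongr with j
        refine h2 j (fun y => ‖cvv K.ka ((2 : ℝ) ^ j * sc m) G y‖ₑ ^ 3) ?_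
        exact (goodC_meas K.hka.smooth.continuous _ hG).enorm.pow_const 3
    _ = C1 * (C2 * ∑' j : ℤ, ∫⁻ y, ‖cvv K.ka ((2 : ℝ) ^ (j - (m : ℤ))) G y‖ₑ ^ 3) := by
        rw [ENNReal.tsum_mul_left]
        simp only [hb]
    _ = C1 * (C2 * ∑' j : ℤ, ∫⁻ y, ‖cvv K.ka ((2 : ℝ) ^ j) G y‖ₑ ^ 3) := by
        congr 2
        exact (Equiv.subRight (m : ℤ)).tsum_eq
          (fun j : ℤ => ∫⁻ y, ‖cvv K.ka ((2 : ℝ) ^ j) G y‖ₑ ^ 3)
    _ ≤ C1 * (C2 * (C3 * ∫⁻ y, ‖G y‖ₑ ^ 3)) := by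
        gcongr
        exact h3 G hG hGi hG2
    _ = ((C1 * (C2 * C3) : ℝ≥0) : ℝ≥0∞) * ∫⁻ y, ‖G y‖ₑ ^ 3 := by
        push_cast
        ring

/-- The L3 norm of the good part. -/
theorem gd_three (hd : 0 < d) {p : ℝ} {H : E d → E d} {l : ℝ≥0∞} (hp : 1 ≤ p) (hl : l ≠ 0)
    (hl' : l ≠ ⊤) (hH : Continuous H) (hfin : ∫⁻ x, ‖H x‖ₑ ^ p ≠ ⊤) :
    ∫⁻ x, ‖gd p H l x‖ₑ ^ 3 ≤ (∫⁻ x in {x | ‖H x‖ₑ ≤ l}, ‖H x‖ₑ ^ 3) +
      8 ^ d * l ^ 3 * volume (Lv (fp p H) (l ^ p)) := by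
  have hp0 : 0 < p := by linarith
  have hLm : MeasurableSet (Lv (fp p H) (l ^ p)) :=
    MeasurableSet.iUnion fun i => measurableSet_lev (hH.measurable.enorm.pow_const p) i
  have hlp : l ^ p ≠ 0 := by
    rw [Ne, ENNReal.rpow_eq_zero_iff]
    rintro (⟨h, -⟩ | ⟨h, -⟩)
    · exact hl h
    · exact hl' h
  have hc : Continuous (fp p H) := ENNReal.continuous_rpow_const.comp hH.enorm
  have hsub : (Lv (fp p H) (l ^ p))ᶜ ⊆ {x | ‖H x‖ₑ ≤ l} := by
    intro x hx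
    have h := not_Lv_cont hd hlp hfin hc hx
    exact (ENNReal.rpow_le_rpow_iff hp0).1 h
  rw [← lintegral_add_compl _ hLm, add_comm]
  refine add_le_add ?_ ?_
  · calc ∫⁻ x in (Lv (fp p H) (l ^ p))ᶜ, ‖gd p H l x‖ₑ ^ 3
        = ∫⁻ x in (Lv (fp p H) (l ^ p))ᶜ, ‖H x‖ₑ ^ 3 := by
          refine setLIntegral_congr_fun hLm.compl fun x hx => ?_
          rw [gd_off hx]
      _ ≤ _ := lintegral_mono_set hsub
  · calc ∫⁻ x in Lv (fp p H) (l ^ p), ‖gd p H l x‖ₑ ^ 3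
        ≤ ∫⁻ _ in Lv (fp p H) (l ^ p), 8 ^ d * l ^ 3 := by
          refine setLIntegral_mono' hLm fun x hx => ?_
          have h := gd_le hd hp hH.measurable hx
          calc ‖gd p H l x‖ₑ ^ 3 ≤ (2 ^ d * l) ^ 3 := by gcongr
            _ = 8 ^ d * l ^ 3 := by
              rw [mul_pow, ← pow_mul, mul_comm d 3, pow_mul]
              norm_num
      _ = _ := by rw [setLIntegral_const]

end Pool.Agent.Lib.MP_ff3fe0_an_SPH2
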