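import Pool.Agent.Lib.MP_ff3fe0_an_SPH2.Defs2

set_option autoImplicit false

/-!
# Integration by parts along two rotations
-/

namespace Pool.Agent.Lib.MP_ff3fe0_an_SPH2

open MeasureTheory Metric Set
open scoped ENNReal NNReal ContDiff FourierTransform
open Pool.Agent.Lib.MP_ff3fe0_an
open Pool.Agent.Lib.MP_ff3fe0_an_SPH

private theorem rot_eq (v : E 2) : rot v =
    (-(v 1)) • EuclideanSpace.single (0 : Fin 2) (1 : ℝ) +
      (v 0) • EuclideanSpace.single (1 : Fin 2) (1 : ℝ) := by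
  ext i
  fin_cases i <;> simp [rot]

private theorem rot_zero' (v : E 2) : rot v 0 = -(v 1) := by simp [rot]

private theorem rot_one' (v : E 2) : rot v 1 = v 0 := by simp [rot]

private theorem fderiv_rot (f : E 2 → ℝ) (y v : E 2) : fderiv ℝ f y (rot v) =
    (-(v 1)) * pd 0 f y + (v 0) * pd 1 f y := by
  rw [rot_eq, map_add, map_smul, map_smul, smul_eq_mul, smul_eq_mul]
  rfl

private theorem coord_contDiff (i : Fin 2) (c : ℝ) {n : WithTop ℕ∞} :
    ContDiff ℝ n (fun y : E 2 => y i - c) := by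
  have h : ContDiff ℝ n (fun y : E 2 => (EuclideanSpace.proj i : E 2 →L[ℝ] ℝ) y) :=
    (EuclideanSpace.proj i : E 2 →L[ℝ] ℝ).contDiff
  exact h.sub contDiff_const

private theorem fderiv_coord (i : Fin 2) (c : ℝ) (y v : E 2) :
    fderiv ℝ (fun y : E 2 => y i - c) y v = v i := by
  have h : HasFDerivAt (fun y : E 2 => y i - c) (EuclideanSpace.proj i : E 2 →L[ℝ] ℝ) y :=
    ((EuclideanSpace.proj i : E 2 →L[ℝ] ℝ).hasFDerivAt).sub_const c
  rw [h.fderiv]
  rfl

private theorem pd_continuous {f : E 2 → ℝ} (hf : ContDiff ℝ 1 f) (i : Fin 2) :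
    Continuous (pd i f) := by
  unfold pd
  exact (hf.continuous_fderiv (by norm_num)).clm_apply continuous_const

private theorem pd_compact {f : E 2 → ℝ} (hf : HasCompactSupport f) (i : Fin 2) :
    HasCompactSupport (pd i f) := by
  unfold pd
  exact (hf.fderiv (𝕜 := ℝ)).comp_left (g := fun L : E 2 →L[ℝ] ℝ => L (EuclideanSpace.single i 1))
    (by simp)

private theorem int_coord {Φ : E 2 → ℝ} (hΦ : ContDiff ℝ 1 Φ) (hc : HasCompactSupport Φ)
    (i j : Fin 2) (hij : i ≠ j) (c : ℝ) : ∫ y : E 2, (y i - c) * pd j Φ y = 0 := by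
  have h := integral_mul_fderiv_eq_neg_fderiv_mul_of_integrable (μ := (volume : Measure (E 2)))
    (f := fun y : E 2 => y i - c) (g := Φ) (v := EuclideanSpace.single j 1) ?_ ?_ ?_ ?_ ?_
  · have h2 : ∀ y : E 2, fderiv ℝ (fun y : E 2 => y i - c) y (EuclideanSpace.single j 1) *
        Φ y = 0 := by
      intro y
      rw [fderiv_coord]
      simp [hij]
    unfold pd
    rw [h]
    simp [h2]
  · have h2 : ∀ y : E 2, fderiv ℝ (fun y : E 2 => y i - c) y (EuclideanSpace.single j 1) *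
        Φ y = 0 := by
      intro y
      rw [fderiv_coord]
      simp [hij]
    simp only [h2]
    exact integrable_zero _ _ _
  · have h1 : Continuous (fun y : E 2 => (y i - c) * pd j Φ y) :=
      (coord_contDiff i c (n := 0)).continuous.mul (pd_continuous hΦ j)
    exact h1.integrable_of_hasCompactSupport ((pd_compact hc j).mul_left)
  · have h1 : Continuous (fun y : E 2 => (y i - c) * Φ y) :=
      (coord_contDiff i c (n := 0)).continuous.mul hΦ.continuous
    exact h1.integrable_of_hasCompactSupport (hc.mul_left)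
  · intro y _
    exact (coord_contDiff i c (n := 1)).differentiable (by norm_num) y
  · intro y _
    exact hΦ.differentiable (by norm_num) y

private theorem int_mul_pd {Φ : E 2 → ℝ} (hΦ : ContDiff ℝ 1 Φ) (hc : HasCompactSupport Φ)
    (i j : Fin 2) (c : ℝ) : Integrable (fun y : E 2 => (y i - c) * pd j Φ y) := by
  have h1 : Continuous (fun y : E 2 => (y i - c) * pd j Φ y) :=
    (coord_contDiff i c (n := 0)).continuous.mul (pd_continuous hΦ j)
  exact h1.integrable_of_hasCompactSupport ((pd_compact hc j).mul_left)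

private theorem rot_expand {Φ : E 2 → ℝ} (x' : E 2) (y : E 2) :
    fderiv ℝ Φ y (rot (y - x')) =
      (-1) * ((y 1 - x' 1) * pd 0 Φ y) + (y 0 - x' 0) * pd 1 Φ y := by
  rw [fderiv_rot]
  simp only [PiLp.sub_apply]
  ring

private theorem int_rot {Φ : E 2 → ℝ} (hΦ : ContDiff ℝ 1 Φ) (hc : HasCompactSupport Φ)
    (x' : E 2) : Integrable (fun y : E 2 => fderiv ℝ Φ y (rot (y - x'))) ∧
      ∫ y : E 2, fderiv ℝ Φ y (rot (y - x')) = 0 := by
  simp only [rot_expand]
  have h1 := int_mul_pd hΦ hc 1 0 (x' 1)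
  have h2 := int_mul_pd hΦ hc 0 1 (x' 0)
  refine ⟨(h1.const_mul _).add h2, ?_⟩
  rw [integral_add (h1.const_mul _) h2, integral_const_mul, int_coord hΦ hc 1 0 (by decide),
    int_coord hΦ hc 0 1 (by decide)]
  simp

private theorem coord_le (v : E 2) (i : Fin 2) : |v i| ≤ ‖v‖ := by
  have := PiLp.norm_apply_le v i
  simpa [Real.norm_eq_abs] using this

private theorem nsq (v : E 2) : ‖v‖ ^ 2 = v 0 ^ 2 + v 1 ^ 2 := by
  rw [EuclideanSpace.real_norm_sq_eq]
  simp [Fin.sum_univ_two]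

private theorem rot_norm (v : E 2) : ‖rot v‖ = ‖v‖ := by
  have h : ‖rot v‖ ^ 2 = ‖v‖ ^ 2 := by
    rw [nsq, nsq, rot_zero', rot_one']
    ring
  exact (pow_left_inj₀ (norm_nonneg _) (norm_nonneg _) (by norm_num)).1 h

private theorem dt_le (u v : E 2) : |dt u v| ≤ ‖u‖ * ‖v‖ := by
  apply abs_le_of_sq_le_sq
  · rw [mul_pow, nsq, nsq]
    unfold dt
    nlinarith [sq_nonneg (u 0 * v 0 + u 1 * v 1)]
  · positivity

/-- The derivative of the quotient of a coordinate and the determinant. -/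
private theorem quot_deriv (x x' y v : E 2) (i : Fin 2) (hD : dt (y - x) (y - x') ≠ 0) :
    ContDiffAt ℝ 1 (fun y : E 2 => (y - x) i / dt (y - x) (y - x')) y ∧
    fderiv ℝ (fun y : E 2 => (y - x) i / dt (y - x) (y - x')) y v =
      (v i * dt (y - x) (y - x') - (y - x) i * (dt v (y - x') + dt (y - x) v)) /
        dt (y - x) (y - x') ^ 2 := by
  have hcd : ContDiffAt ℝ 1 (fun y : E 2 => (y - x) i / dt (y - x) (y - x')) y := by
    have h1 : ContDiff ℝ 1 (fun y : E 2 => (y - x) i) := by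
      simpa only [PiLp.sub_apply] using coord_contDiff i (x i)
    have h2 : ContDiff ℝ 1 (fun y : E 2 => dt (y - x) (y - x')) := by
      unfold dt
      simp only [PiLp.sub_apply]
      exact ((coord_contDiff 0 (x 0)).mul (coord_contDiff 1 (x' 1))).sub
        ((coord_contDiff 1 (x 1)).mul (coord_contDiff 0 (x' 0)))
    exact h1.contDiffAt.div h2.contDiffAt hD
  refine ⟨hcd, ?_⟩
  have hline : HasDerivAt (fun t : ℝ => y + t • v) v 0 := by
    have h := ((hasDerivAt_id (0 : ℝ)).smul_const v).const_add y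
    simpa using h
  have h1 : HasDerivAt (fun t : ℝ => ((y + t • v) - x) i / dt ((y + t • v) - x)
      ((y + t • v) - x'))
      (fderiv ℝ (fun y : E 2 => (y - x) i / dt (y - x) (y - x')) y v) 0 := by
    have h2 : HasFDerivAt (fun y : E 2 => (y - x) i / dt (y - x) (y - x'))
        (fderiv ℝ (fun y : E 2 => (y - x) i / dt (y - x) (y - x')) y) (y + (0 : ℝ) • v) := by
      simpa using (hcd.differentiableAt (by norm_num)).hasFDerivAt
    exact h2.comp_hasDerivAt (0 : ℝ) hline
  have hc : ∀ (j : Fin 2) (c : ℝ), HasDerivAt (fun t : ℝ => y j + t * v j - c) (v j) 0 := by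
    intro j c
    have h := (((hasDerivAt_id (0 : ℝ)).mul_const (v j)).const_add (y j)).sub_const c
    simpa using h
  have h2 : HasDerivAt (fun t : ℝ => (y i + t * v i - x i) /
      ((y 0 + t * v 0 - x 0) * (y 1 + t * v 1 - x' 1) -
        (y 1 + t * v 1 - x 1) * (y 0 + t * v 0 - x' 0)))
      ((v i * dt (y - x) (y - x') - (y - x) i * (dt v (y - x') + dt (y - x) v)) /
        dt (y - x) (y - x') ^ 2) 0 := by
    have hD' : ((y 0 + (0 : ℝ) * v 0 - x 0) * (y 1 + (0 : ℝ) * v 1 - x' 1) -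
        (y 1 + (0 : ℝ) * v 1 - x 1) * (y 0 + (0 : ℝ) * v 0 - x' 0)) ≠ 0 := by
      unfold dt at hD
      simpa using hD
    have h3 := (hc i (x i)).fun_div (((hc 0 (x 0)).fun_mul (hc 1 (x' 1))).fun_sub
      ((hc 1 (x 1)).fun_mul (hc 0 (x' 0)))) hD'
    refine h3.congr_deriv ?_
    simp only [dt, PiLp.sub_apply, zero_mul, add_zero]
    congr 1
    ring
  have h3 : (fun t : ℝ => ((y + t • v) - x) i / dt ((y + t • v) - x) ((y + t • v) - x')) =
      (fun t : ℝ => (y i + t * v i - x i) /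
      ((y 0 + t * v 0 - x 0) * (y 1 + t * v 1 - x' 1) -
        (y 1 + t * v 1 - x 1) * (y 0 + t * v 0 - x' 0))) := by
    funext t
    simp [dt]
  rw [h3] at h1
  exact h1.unique h2

private theorem decomp (f : E 2 → ℝ) (y z w : E 2) (i : Fin 2) (hD : dt z w ≠ 0) :
    pd i f y = (w i * fderiv ℝ f y (rot z) - z i * fderiv ℝ f y (rot w)) / dt z w := by
  rw [eq_div_iff hD, fderiv_rot, fderiv_rot]
  unfold dt
  fin_cases i
  · simp only [Fin.zero_eta, Fin.isValue]
    ring
  · simp only [Fin.mk_one, Fin.isValue]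
    ring

private theorem one_term (x x' : E 2) (u k : E 2 → ℝ) (i : Fin 2) (M N D : ℝ)
    (A : Set (E 2)) (hD0 : 0 < D) (hM : 0 ≤ M) (hN : 0 ≤ N)
    (hu : ContDiff ℝ 1 u) (hk : ContDiff ℝ 1 k) (hcu : HasCompactSupport u)
    (hA : IsCompact A) (hoff : ∀ y, y ∉ A → k =ᶠ[nhds y] 0 ∨ u =ᶠ[nhds y] 0)
    (hon : ∀ y ∈ A, D ≤ |dt (y - x) (y - x')| ∧ ‖y - x‖ ≤ 3 ∧ ‖y - x'‖ ≤ 3)
    (huM : ∀ y, |u y| ≤ M) (hkM : ∀ y, |k y| ≤ M)
    (huN : ∀ y, |fderiv ℝ u y (rot (y - x))| ≤ N)
    (hkN : ∀ y, |fderiv ℝ k y (rot (y - x'))| ≤ N) :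
    |∫ y, pd i u y * k y| ≤
      81 * (volume A).toReal * (M * N / D + M ^ 2 / D ^ 2) := by
  set q : E 2 → ℝ := fun y => (y - x) i / dt (y - x) (y - x') with hq
  set Φ : E 2 → ℝ := fun y => (u y * k y) * q y with hΦdef
  have hDy : ∀ y ∈ A, dt (y - x) (y - x') ≠ 0 := by
    intro y hy h0
    have := (hon y hy).1
    rw [h0, abs_zero] at this
    linarith
  have hoff2 : ∀ y, y ∉ A → Φ =ᶠ[nhds y] 0 := by
    intro y hy
    rcases hoff y hy with h | h
    · filter_upwards [h] with z hz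
      simp [hΦdef, hz]
    · filter_upwards [h] with z hz
      simp [hΦdef, hz]
  have hΦ : ContDiff ℝ 1 Φ := by
    rw [contDiff_iff_contDiffAt]
    intro y
    by_cases hy : y ∈ A
    · exact (hu.contDiffAt.mul hk.contDiffAt).mul (quot_deriv x x' y 0 i (hDy y hy)).1
    · exact (contDiffAt_const (c := (0 : ℝ))).congr_of_eventuallyEq (hoff2 y hy)
  have hcΦ : HasCompactSupport Φ := (hcu.mul_right (f' := k)).mul_right
  obtain ⟨hI, hI0⟩ := int_rot hΦ hcΦ x'
  have hF : Integrable (fun y => pd i u y * k y) :=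
    ((pd_continuous hu i).mul hk.continuous).integrable_of_hasCompactSupport
      ((pd_compact hcu i).mul_right)
  have hsum : ∫ y, pd i u y * k y =
      ∫ y, (pd i u y * k y + fderiv ℝ Φ y (rot (y - x'))) := by
    rw [integral_add hF hI, hI0, add_zero]
  have hzero : ∀ y, y ∉ A → pd i u y * k y + fderiv ℝ Φ y (rot (y - x')) = 0 := by
    intro y hy
    have h1 : fderiv ℝ Φ y = 0 := by
      rw [(hoff2 y hy).fderiv_eq]
      simp
    have h2 : pd i u y * k y = 0 := by
      rcases hoff y hy with h | h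
      · rw [h.self_of_nhds]
        simp
      · have : fderiv ℝ u y = 0 := by
          rw [h.fderiv_eq]
          simp
        simp [pd, this]
    rw [h1, h2]
    simp
  have hbound : ∀ y ∈ A, ‖pd i u y * k y + fderiv ℝ Φ y (rot (y - x'))‖ ≤
      81 * (M * N / D + M ^ 2 / D ^ 2) := by
    intro y hy
    obtain ⟨hDy1, hz3, hw3⟩ := hon y hy
    have hne := hDy y hy
    obtain ⟨hqc, hqd⟩ := quot_deriv x x' y (rot (y - x')) i hne
    have hud := (hu.differentiable (by norm_num)) y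
    have hkd := (hk.differentiable (by norm_num)) y
    have hqd' : DifferentiableAt ℝ q y := hqc.differentiableAt (by norm_num)
    have hder : fderiv ℝ Φ y (rot (y - x')) =
        (u y * k y) * fderiv ℝ q y (rot (y - x')) +
          q y * (u y * fderiv ℝ k y (rot (y - x')) + k y * fderiv ℝ u y (rot (y - x'))) := by
      have h1 : fderiv ℝ Φ y = (u y * k y) • fderiv ℝ q y +
          q y • (u y • fderiv ℝ k y + k y • fderiv ℝ u y) := by
        rw [hΦdef]
        have h2 := fderiv_fun_mul (hud.fun_mul hkd) hqd'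
        rw [h2, fderiv_fun_mul hud hkd]
      rw [h1]
      simp only [add_apply, smul_apply, smul_eq_mul]
    set z := y - x with hz
    set w := y - x' with hw
    set Dy := dt z w with hDydef
    have hid : pd i u y * k y + fderiv ℝ Φ y (rot w) =
        (w i / Dy) * fderiv ℝ u y (rot z) * k y + u y * fderiv ℝ k y (rot w) * (z i / Dy) +
        (u y * k y) * fderiv ℝ q y (rot w) := by
      rw [hder, decomp u y z w i hne]
      have hqy : q y = z i / Dy := by
        rw [hq]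
      rw [hqy]
      rw [← hDydef]
      field_simp
      ring
    rw [hid, Real.norm_eq_abs]
    have hwi : |w i| ≤ 3 := (coord_le w i).trans hw3
    have hzi : |z i| ≤ 3 := (coord_le z i).trans hz3
    have hDpos : 0 < |Dy| := lt_of_lt_of_le hD0 hDy1
    have hinv : |Dy|⁻¹ ≤ D⁻¹ := inv_anti₀ hD0 hDy1
    have hwD : |w i / Dy| ≤ 3 * D⁻¹ := by
      rw [abs_div, div_eq_mul_inv]
      exact mul_le_mul hwi hinv (by positivity) (by norm_num)
    have hzD : |z i / Dy| ≤ 3 * D⁻¹ := by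
      rw [abs_div, div_eq_mul_inv]
      exact mul_le_mul hzi hinv (by positivity) (by norm_num)
    have hDy9 : |Dy| ≤ 9 := by
      refine (dt_le z w).trans ?_
      nlinarith [norm_nonneg z, norm_nonneg w]
    have h1 : |dt (rot w) w| ≤ 9 := by
      refine (dt_le _ _).trans ?_
      rw [rot_norm]
      nlinarith [norm_nonneg w]
    have h2 : |dt z (rot w)| ≤ 9 := by
      refine (dt_le _ _).trans ?_
      rw [rot_norm]
      nlinarith [norm_nonneg w, norm_nonneg z]
    have hrwi : |rot w i| ≤ 3 := by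
      refine (coord_le _ i).trans ?_
      rw [rot_norm]
      exact hw3
    have hq' : |fderiv ℝ q y (rot w)| ≤ 81 * (D ^ 2)⁻¹ := by
      rw [hqd, abs_div, div_eq_mul_inv]
      have h3 : |rot w i * Dy - z i * (dt (rot w) w + dt z (rot w))| ≤ 81 := by
        have h4 : |rot w i * Dy| ≤ 27 := by
          rw [abs_mul]
          nlinarith [abs_nonneg (rot w i), abs_nonneg Dy]
        have h5 : |z i * (dt (rot w) w + dt z (rot w))| ≤ 54 := by
          rw [abs_mul]
          have h6 := abs_add_le (dt (rot w) w) (dt z (rot w))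
          nlinarith [abs_nonneg (z i), abs_nonneg (dt (rot w) w + dt z (rot w))]
        have h7 := abs_sub (rot w i * Dy) (z i * (dt (rot w) w + dt z (rot w)))
        linarith
      have h8 : |Dy ^ 2|⁻¹ ≤ (D ^ 2)⁻¹ := by
        rw [abs_pow]
        exact inv_anti₀ (by positivity) (pow_le_pow_left₀ hD0.le hDy1 2)
      exact mul_le_mul h3 h8 (by positivity) (by norm_num)
    have hD1 : 0 ≤ D⁻¹ := by positivity
    have e1 : |w i / Dy * fderiv ℝ u y (rot z) * k y| ≤ 3 * D⁻¹ * N * M := by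
      rw [abs_mul, abs_mul]
      exact mul_le_mul (mul_le_mul hwD (huN y) (abs_nonneg _) (by positivity)) (hkM y)
        (abs_nonneg _) (by positivity)
    have e2 : |u y * fderiv ℝ k y (rot w) * (z i / Dy)| ≤ M * N * (3 * D⁻¹) := by
      rw [abs_mul, abs_mul]
      exact mul_le_mul (mul_le_mul (huM y) (hkN y) (abs_nonneg _) hM) hzD
        (abs_nonneg _) (by positivity)
    have e3 : |(u y * k y) * fderiv ℝ q y (rot w)| ≤ M * M * (81 * (D ^ 2)⁻¹) := by
      rw [abs_mul, abs_mul]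
      exact mul_le_mul (mul_le_mul (huM y) (hkM y) (abs_nonneg _) hM) hq'
        (abs_nonneg _) (by positivity)
    have e4 := abs_add_le (w i / Dy * fderiv ℝ u y (rot z) * k y +
      u y * fderiv ℝ k y (rot w) * (z i / Dy)) ((u y * k y) * fderiv ℝ q y (rot w))
    have e5 := abs_add_le (w i / Dy * fderiv ℝ u y (rot z) * k y)
      (u y * fderiv ℝ k y (rot w) * (z i / Dy))
    have e6 : 0 ≤ M * N * D⁻¹ := by positivity
    have e7 : 81 * (M * N / D + M ^ 2 / D ^ 2) =
        6 * (M * N * D⁻¹) + 75 * (M * N * D⁻¹) + M * M * (81 * (D ^ 2)⁻¹) := by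
      rw [div_eq_mul_inv, div_eq_mul_inv]
      ring
    rw [e7]
    have e8 : 3 * D⁻¹ * N * M + M * N * (3 * D⁻¹) = 6 * (M * N * D⁻¹) := by ring
    linarith
  rw [hsum]
  have hres : ∫ y, (pd i u y * k y + fderiv ℝ Φ y (rot (y - x'))) =
      ∫ y in A, (pd i u y * k y + fderiv ℝ Φ y (rot (y - x'))) :=
    (setIntegral_eq_integral_of_forall_compl_eq_zero (fun y hy => hzero y hy)).symm
  rw [hres, ← Real.norm_eq_abs]
  have hfin : volume A < ⊤ := hA.measure_lt_top
  refine (norm_setIntegral_le_of_norm_le_const hfin hbound).trans ?_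
  rw [Measure.real]
  apply le_of_eq
  ring

theorem ibp : ∃ C : ℝ, ∀ (x x' : E 2) (u : Fin 2 → E 2 → ℝ) (k : E 2 → ℝ) (M N D : ℝ)
    (A : Set (E 2)), 0 < D → D ≤ 9 → 0 ≤ M → 0 ≤ N → (∀ i, ContDiff ℝ 1 (u i)) → ContDiff ℝ 1 k →
    (∀ i, HasCompactSupport (u i)) → HasCompactSupport k → IsCompact A →
    (∀ i y, y ∉ A → k =ᶠ[nhds y] 0 ∨ u i =ᶠ[nhds y] 0) →
    (∀ y ∈ A, D ≤ |dt (y - x) (y - x')| ∧ ‖y - x‖ ≤ 3 ∧ ‖y - x'‖ ≤ 3) →
    (∀ i y, |u i y| ≤ M) → (∀ y, |k y| ≤ M) →
    (∀ i y, |fderiv ℝ (u i) y (rot (y - x))| ≤ N) → (∀ y, |fderiv ℝ k y (rot (y - x'))| ≤ N) →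
    |∫ y, (∑ i, pd i (u i) y) * k y| ≤
      C * (volume A).toReal * (M * N / D + M ^ 2 / D ^ 2) := by
  refine ⟨162, ?_⟩
  intro x x' u k M N D A hD0 _ hM hN hu hk hcu _ hA hoff hon huM hkM huN hkN
  have hF : ∀ i, Integrable (fun y => pd i (u i) y * k y) := fun i =>
    ((pd_continuous (hu i) i).mul hk.continuous).integrable_of_hasCompactSupport
      ((pd_compact (hcu i) i).mul_right)
  have h1 : ∫ y, (∑ i, pd i (u i) y) * k y = (∫ y, pd 0 (u 0) y * k y) +
      ∫ y, pd 1 (u 1) y * k y := by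
    rw [← integral_add (hF 0) (hF 1)]
    congr 1
    funext y
    rw [Fin.sum_univ_two]
    ring
  have h2 := one_term x x' (u 0) k 0 M N D A hD0 hM hN (hu 0) hk (hcu 0) hA (hoff 0) hon
    (huM 0) hkM (huN 0) hkN
  have h3 := one_term x x' (u 1) k 1 M N D A hD0 hM hN (hu 1) hk (hcu 1) hA (hoff 1) hon
    (huM 1) hkM (huN 1) hkN
  rw [h1]
  have h4 := abs_add_le (∫ y, pd 0 (u 0) y * k y) (∫ y, pd 1 (u 1) y * k y)
  have h5 : 162 * (volume A).toReal * (M * N / D + M ^ 2 / D ^ 2) =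
      81 * (volume A).toReal * (M * N / D + M ^ 2 / D ^ 2) +
        81 * (volume A).toReal * (M * N / D + M ^ 2 / D ^ 2) := by ring
  rw [h5]
  linarith

end Pool.Agent.Lib.MP_ff3fe0_an_SPH2
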