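import Pool.Agent.Lib.MP_ff3fe0_an_SPH2.Defs2
import Pool.Agent.Lib.MP_ff3fe0_an_SPH.SmA

set_option autoImplicit false

/-!
# Bounds for the kernels
-/

namespace Pool.Agent.Lib.MP_ff3fe0_an_SPH2

open MeasureTheory Metric Set
open scoped ENNReal NNReal ContDiff FourierTransform
open Pool.Agent.Lib.MP_ff3fe0_an
open Pool.Agent.Lib.MP_ff3fe0_an_SPH

/-- the volume of a narrow sector -/
private theorem KbA_cone (τ : ℝ) (hτ : 0 ≤ τ) :
    volume (cone (e0 (d := 2) (by norm_num)) τ) ≤ ENNReal.ofReal (4 * τ) := by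
  have hsub : cone (e0 (d := 2) (by norm_num)) τ ⊆
      (MeasurableEquiv.toLp 2 (Fin 2 → ℝ)).symm ⁻¹'
        (Set.pi Set.univ ![Icc (-1 : ℝ) 1, Icc (-τ) τ]) := by
    rintro z ⟨h1, h2, h3⟩
    rw [inner_e0] at h2 h3
    have hn : ‖z‖ ^ 2 = z 0 ^ 2 + z 1 ^ 2 := by
      rw [EuclideanSpace.norm_sq_eq, Fin.sum_univ_two]
      simp
    have h4 : z 0 ^ 2 + z 1 ^ 2 < 1 := by
      rw [← hn]
      have h0 := norm_nonneg z
      nlinarith
    have h5 : z 0 ^ 2 + z 1 ^ 2 ≤ (1 + τ ^ 2) * z 0 ^ 2 := by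
      rw [← hn]
      exact h3
    have h6 : z 1 ^ 2 ≤ τ ^ 2 := by nlinarith [sq_nonneg (z 0), sq_nonneg (z 1), sq_nonneg τ]
    have h7 := abs_le_of_sq_le_sq' h6 hτ
    have h8 : z 0 ^ 2 ≤ 1 ^ 2 := by nlinarith [sq_nonneg (z 1)]
    have h9 := abs_le_of_sq_le_sq' h8 zero_le_one
    simp only [Set.mem_preimage, Set.mem_pi, Set.mem_univ, forall_true_left]
    intro i
    fin_cases i
    · exact ⟨h9.1, h9.2⟩
    · exact ⟨h7.1, h7.2⟩
  refine (measure_mono hsub).trans ?_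
  have hv := (EuclideanSpace.volume_preserving_symm_measurableEquiv_toLp (Fin 2)).measure_preimage
    (MeasurableSet.univ_pi (t := ![Icc (-1 : ℝ) 1, Icc (-τ) τ]) (by
      intro i
      fin_cases i
      · exact measurableSet_Icc
      · exact measurableSet_Icc)).nullMeasurableSet
  rw [hv, volume_pi_pi, Fin.prod_univ_two]
  simp only [Matrix.cons_val_zero, Matrix.cons_val_one, Real.volume_Icc]
  rw [← ENNReal.ofReal_mul (by norm_num)]
  apply ENNReal.ofReal_le_ofReal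
  linarith

/-- the measure of a small arc -/
private theorem KbA_arc : ∃ C : ℝ, 0 ≤ C ∧ ∀ (w0 : Sph 2) (s : ℝ), 0 ≤ s → s ≤ 1 / 2 →
    (sigma 2).real {w : Sph 2 | ‖(w : E 2) - w0‖ ≤ s} ≤ C * s := by
  have hpr : IsProbabilityMeasure (sigma 2) := sigma_prob (by norm_num)
  have hb0 : volume (ball (0 : E 2) 1) ≠ 0 := (measure_ball_pos _ _ one_pos).ne'
  have hbt : volume (ball (0 : E 2) 1) ≠ ⊤ := measure_ball_lt_top.ne
  refine ⟨8 / (volume (ball (0 : E 2) 1)).toReal, by positivity, fun w0 s hs0 hs1 => ?_⟩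
  have hw0 : ‖(w0 : E 2)‖ = 1 := norm_eq_of_mem_sphere w0
  have hsub : {w : Sph 2 | ‖(w : E 2) - w0‖ ≤ s} ⊆ cap (w0 : E 2) (2 * s) := by
    intro w hw
    have hw1 : ‖(w : E 2)‖ = 1 := norm_eq_of_mem_sphere w
    have h1 : ‖(w : E 2) - w0‖ ^ 2 = 2 - 2 * inner ℝ (w0 : E 2) (w : E 2) := by
      rw [norm_sub_sq_real, hw1, hw0, real_inner_comm]
      ring
    have h2 : ‖(w : E 2) - w0‖ ^ 2 ≤ s ^ 2 := by
      have := norm_nonneg ((w : E 2) - w0)
      have h3 : ‖(w : E 2) - w0‖ ≤ s := hw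
      nlinarith
    set c : ℝ := inner ℝ (w0 : E 2) (w : E 2) with hc
    have h4 : 1 - s ^ 2 / 2 ≤ c := by linarith
    have hs2 : s ^ 2 ≤ 1 / 4 := by nlinarith
    refine ⟨by linarith [h4, hs2], ?_⟩
    have h5 : (1 - s ^ 2 / 2) ^ 2 ≤ c ^ 2 := by nlinarith
    have h6 : 1 - s ^ 2 ≤ (1 - s ^ 2 / 2) ^ 2 := by nlinarith [sq_nonneg (s ^ 2)]
    have h7 : (1 : ℝ) ≤ (1 + (2 * s) ^ 2) * (1 - s ^ 2) := by
      nlinarith [sq_nonneg s, mul_nonneg (sq_nonneg s) (sub_nonneg.mpr hs2)]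
    refine h7.trans ?_
    have h8 : (0 : ℝ) ≤ 1 + (2 * s) ^ 2 := by positivity
    exact mul_le_mul_of_nonneg_left (h6.trans h5) h8
  have h1 : (sigma 2) {w : Sph 2 | ‖(w : E 2) - w0‖ ≤ s} ≤
      ENNReal.ofReal (8 / (volume (ball (0 : E 2) 1)).toReal * s) := by
    refine (measure_mono hsub).trans ?_
    rw [sigma_cap (by norm_num), volume_cone_rot (w0 : E 2) (e0 (d := 2) (by norm_num))
      (by rw [hw0, norm_e0])]
    have h2 := KbA_cone (2 * s) (by positivity)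
    refine (ENNReal.div_le_div_right h2 _).trans ?_
    rw [ENNReal.div_le_iff hb0 hbt]
    have h3 : volume (ball (0 : E 2) 1) =
        ENNReal.ofReal (volume (ball (0 : E 2) 1)).toReal := (ENNReal.ofReal_toReal hbt).symm
    have hpos : 0 < (volume (ball (0 : E 2) 1)).toReal := ENNReal.toReal_pos hb0 hbt
    rw [h3, ← ENNReal.ofReal_mul (by positivity)]
    apply ENNReal.ofReal_le_ofReal
    rw [ENNReal.toReal_ofReal hpos.le]
    field_simp
    linarith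
  exact ENNReal.toReal_le_of_le_ofReal (by positivity) h1

private theorem KbA_bdd {Θ : E 2 → ℝ} (hΘ : K2 Θ) : ∃ M : ℝ, 0 ≤ M ∧ ∀ y, |Θ y| ≤ M := by
  obtain ⟨M, hM⟩ := (isCompact_closedBall (0 : E 2) 2).exists_bound_of_continuousOn
    hΘ.smooth.continuous.continuousOn
  refine ⟨max M 0, le_max_right _ _, fun y => ?_⟩
  by_cases hy : ‖y‖ ≤ 2
  · exact (hM y (by simpa using hy)).trans (le_max_left _ _)
  · rw [hΘ.supp y (not_le.mp hy), abs_zero]
    exact le_max_right _ _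

theorem kk_bound {Θ : E 2 → ℝ} (hΘ : K2 Θ) : ∃ C : ℝ, ∀ (L : ℝ) (β : E 2 → ℝ), Amp L β →
    ∀ δ ∈ Ioc (0 : ℝ) (1 / 64), ∀ t ∈ Icc (1 / 2 : ℝ) (5 / 2), ∀ x y, |kk Θ β δ t x y| ≤ C / δ := by
  have hpr : IsProbabilityMeasure (sigma 2) := sigma_prob (by norm_num)
  obtain ⟨M, hM0, hM⟩ := KbA_bdd hΘ
  obtain ⟨C, hC0, hC⟩ := KbA_arc
  refine ⟨M * (C * 8), fun L β hβ δ hδ t ht x y => ?_⟩
  have hδ0 : 0 < δ := hδ.1
  have ht0 : 1 / 2 ≤ t := ht.1
  by_cases hne : ∃ w0 : Sph 2, ‖δ⁻¹ • (x - t • (w0 : E 2) - y)‖ ≤ 2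
  swap
  · have h0 : kk Θ β δ t x y = 0 := by
      unfold kk
      have h1 : ∀ w : Sph 2, Θ (δ⁻¹ • (x - t • (w : E 2) - y)) * β w = 0 := by
        intro w
        rw [hΘ.supp _ (not_le.mp (fun h => hne ⟨w, h⟩)), zero_mul]
      simp only [h1, integral_zero, mul_zero]
    rw [h0, abs_zero]
    positivity
  obtain ⟨w0, hw0⟩ := hne
  have hnorm : ∀ w : Sph 2, ‖δ⁻¹ • (x - t • (w : E 2) - y)‖ ≤ 2 →
      ‖x - t • (w : E 2) - y‖ ≤ 2 * δ := by
    intro w hw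
    rw [norm_smul, norm_inv, Real.norm_of_nonneg hδ0.le, inv_mul_le_iff₀ hδ0] at hw
    linarith
  have hmem : ∀ w : Sph 2, ‖δ⁻¹ • (x - t • (w : E 2) - y)‖ ≤ 2 → ‖(w : E 2) - w0‖ ≤ 8 * δ := by
    intro w hw
    have h1 := hnorm w hw
    have h2 := hnorm w0 hw0
    have h3 : t • ((w : E 2) - w0) = (x - t • (w0 : E 2) - y) - (x - t • (w : E 2) - y) := by
      rw [smul_sub]
      abel
    have h4 : ‖t • ((w : E 2) - w0)‖ ≤ 2 * δ + 2 * δ := by
      rw [h3]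
      exact (norm_sub_le _ _).trans (add_le_add h2 h1)
    rw [norm_smul, Real.norm_of_nonneg (by linarith)] at h4
    have h5 := norm_nonneg ((w : E 2) - w0)
    nlinarith
  set S : Set (Sph 2) := {w : Sph 2 | ‖(w : E 2) - w0‖ ≤ 8 * δ} with hS
  have hSm : MeasurableSet S := by
    apply measurableSet_le
    · fun_prop
    · exact measurable_const
  have hSσ : (sigma 2).real S ≤ C * (8 * δ) := hC w0 (8 * δ) (by positivity) (by
    have := hδ.2
    linarith)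
  have hint : ‖∫ w : Sph 2, Θ (δ⁻¹ • (x - t • (w : E 2) - y)) * β w ∂(sigma 2)‖ ≤
      ∫ w : Sph 2, S.indicator (fun _ => M) w ∂(sigma 2) := by
    refine norm_integral_le_of_norm_le ((integrable_const M).indicator hSm)
      (Filter.Eventually.of_forall fun w => ?_)
    by_cases hw : ‖δ⁻¹ • (x - t • (w : E 2) - y)‖ ≤ 2
    · have hwS : w ∈ S := hmem w hw
      rw [Set.indicator_of_mem hwS, norm_mul]
      have hb := hβ.le_one w (norm_eq_of_mem_sphere w)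
      calc ‖Θ (δ⁻¹ • (x - t • (w : E 2) - y))‖ * ‖β w‖ ≤ M * 1 :=
            mul_le_mul (hM _) hb (norm_nonneg _) hM0
        _ = M := mul_one M
    · rw [hΘ.supp _ (not_le.mp hw), zero_mul, norm_zero]
      exact Set.indicator_nonneg (fun _ _ => hM0) w
  rw [integral_indicator_const M hSm, smul_eq_mul] at hint
  unfold kk
  rw [abs_mul, abs_of_pos (by positivity : (0 : ℝ) < (δ ^ 2)⁻¹)]
  rw [Real.norm_eq_abs] at hint
  calc (δ ^ 2)⁻¹ * |∫ w : Sph 2, Θ (δ⁻¹ • (x - t • (w : E 2) - y)) * β w ∂(sigma 2)|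
      ≤ (δ ^ 2)⁻¹ * (C * (8 * δ) * M) := by
        refine mul_le_mul_of_nonneg_left (hint.trans ?_) (by positivity)
        exact mul_le_mul_of_nonneg_right hSσ hM0
    _ = M * (C * 8) / δ := by
        field_simp

theorem kk_supp {Θ : E 2 → ℝ} (hΘ : K2 Θ) {L : ℝ} {β : E 2 → ℝ} (hβ : Amp L β) {δ : ℝ}
    (hδ : 0 < δ) {t : ℝ} (ht : 0 ≤ t) {x y : E 2} (h : kk Θ β δ t x y ≠ 0) :
    |‖x - y‖ - t| ≤ 2 * δ ∧ ∃ w : E 2, ‖w‖ = 1 ∧ β w ≠ 0 ∧ ‖x - t • w - y‖ ≤ 2 * δ := by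
  have _hβ := hβ
  have h1 : ∃ w : Sph 2, Θ (δ⁻¹ • (x - t • (w : E 2) - y)) * β w ≠ 0 := by
    by_contra hcon
    push Not at hcon
    apply h
    unfold kk
    simp only [hcon, integral_zero, mul_zero]
  obtain ⟨w, hw⟩ := h1
  have hw1 : ‖(w : E 2)‖ = 1 := norm_eq_of_mem_sphere w
  have h2 : ‖δ⁻¹ • (x - t • (w : E 2) - y)‖ ≤ 2 := by
    by_contra hcon
    exact hw (by rw [hΘ.supp _ (not_le.mp hcon), zero_mul])
  have h3 : ‖x - t • (w : E 2) - y‖ ≤ 2 * δ := by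
    rw [norm_smul, norm_inv, Real.norm_of_nonneg hδ.le, inv_mul_le_iff₀ hδ] at h2
    linarith
  refine ⟨?_, w, hw1, right_ne_zero_of_mul hw, h3⟩
  have h4 : ‖t • (w : E 2)‖ = t := by
    rw [norm_smul, hw1, mul_one, Real.norm_of_nonneg ht]
  calc |‖x - y‖ - t| = |‖x - y‖ - ‖t • (w : E 2)‖| := by rw [h4]
    _ ≤ ‖x - y - t • (w : E 2)‖ := abs_norm_sub_norm_le _ _
    _ = ‖x - t • (w : E 2) - y‖ := by
        congr 1
        abel
    _ ≤ 2 * δ := h3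

private theorem KbA_meas {Θ : E 2 → ℝ} (hΘ : K2 Θ) {L : ℝ} {β : E 2 → ℝ} (hβ : Amp L β)
    (δ t : ℝ) : Measurable (fun z : E 2 × E 2 => kk Θ β δ t z.1 z.2) := by
  have hpr : IsProbabilityMeasure (sigma 2) := sigma_prob (by norm_num)
  have hΘc : Continuous Θ := hΘ.smooth.continuous
  have hβc : Continuous β := hβ.smooth.continuous
  have h1 : Continuous (Function.uncurry fun (z : E 2 × E 2) (w : Sph 2) =>
      Θ (δ⁻¹ • (z.1 - t • (w : E 2) - z.2)) * β w) := by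
    unfold Function.uncurry
    fun_prop
  have h2 := (h1.stronglyMeasurable.integral_prod_right (ν := sigma 2)).measurable
  exact h2.const_mul _

theorem kk_measurable {Θ : E 2 → ℝ} (hΘ : K2 Θ) {L : ℝ} {β : E 2 → E 2 → ℝ} {tt : E 2 → ℝ}
    (hβ : ∀ c, Amp L (β c)) (ht : Measurable tt) (hf : (Set.range tt).Finite) {cs : E 2 → E 2}
    (hc : Measurable cs) (hfc : (Set.range cs).Finite) (δ : ℝ) :
    Measurable (fun z : E 2 × E 2 => kk Θ (β (cs z.1)) δ (tt z.1) z.1 z.2) := by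
  classical
  have h1 : (fun z : E 2 × E 2 => kk Θ (β (cs z.1)) δ (tt z.1) z.1 z.2) =
      fun z => ∑ p ∈ hf.toFinset ×ˢ hfc.toFinset,
        ({z : E 2 × E 2 | tt z.1 = p.1} ∩ {z : E 2 × E 2 | cs z.1 = p.2}).indicator
          (fun z => kk Θ (β p.2) δ p.1 z.1 z.2) z := by
    funext z
    rw [Finset.sum_eq_single (tt z.1, cs z.1)]
    · rw [Set.indicator_of_mem]
      exact ⟨rfl, rfl⟩
    · rintro ⟨a, b⟩ - hab
      apply Set.indicator_of_notMem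
      rintro ⟨h2, h3⟩
      apply hab
      simp only [Set.mem_ofPred_eq] at h2 h3
      rw [h2, h3]
    · intro hn
      exfalso
      apply hn
      rw [Finset.mem_product]
      exact ⟨hf.mem_toFinset.mpr ⟨z.1, rfl⟩, hfc.mem_toFinset.mpr ⟨z.1, rfl⟩⟩
  rw [h1]
  refine Finset.measurable_fun_sum _ (fun p _ => ?_)
  refine (KbA_meas hΘ (hβ p.2) δ p.1).indicator ?_
  exact (measurableSet_eq_fun (ht.comp measurable_fst) measurable_const).inter
    (measurableSet_eq_fun (hc.comp measurable_fst) measurable_const)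

end Pool.Agent.Lib.MP_ff3fe0_an_SPH2
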