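import Pool.Agent.Lib.MP_ff3fe0_an_SPH2.Defs2
import Pool.Agent.Lib.MP_ff3fe0_an_SPH.LowA
import Pool.Agent.Lib.MP_ff3fe0_an_SPH.PPA

set_option autoImplicit false

/-!
# The levels above the bounded part
-/

namespace Pool.Agent.Lib.MP_ff3fe0_an_SPH2

open MeasureTheory Metric Set
open scoped ENNReal NNReal ContDiff FourierTransform
open Pool.Agent.Lib.MP_ff3fe0_an
open Pool.Agent.Lib.MP_ff3fe0_an_SPH

/-- The numerical inequality for the powers of two. -/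
private theorem LowB_real {m l : ℕ} {p η e ε A β : ℝ} (hp : 3 / 2 < p) (hA : 0 < A)
    (hβ : β = 2 ^ (l + 1) * ((2 : ℝ) ^ (e * m) * A)) (h1 : 3 * ε ≤ (2 * p - 3) * e - 2 * η)
    (h2 : 3 * ε ≤ 2 * p - 3) :
    ((2 : ℝ) ^ (-(η * m)) * β ^ (p - 1))⁻¹ * A ^ p * (sc m ^ (2 - 1) * (β ^ (2 - p) *
      ((2 : ℝ) ^ (η * m) * A ^ p))) * 2 ^ m ≤ ((2 : ℝ) ^ (-(ε * (m + l))) * A) ^ 3 := by
  have h20 : (0 : ℝ) < 2 := by norm_num
  have hβ0 : 0 < β := by rw [hβ]; positivity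
  have hsc : sc m ^ (2 - 1) = (2 : ℝ) ^ (-(m : ℝ)) := by
    unfold sc
    rw [one_div, inv_pow, Real.rpow_neg h20.le, Real.rpow_natCast]
    norm_num
  have e1 : ((2 : ℝ) ^ (-(η * m)) * β ^ (p - 1))⁻¹ = (2 : ℝ) ^ (η * m) * β ^ (-(p - 1)) := by
    rw [mul_inv, ← Real.rpow_neg h20.le, ← Real.rpow_neg hβ0.le, neg_neg]
  have e2 : (2 : ℝ) ^ m = (2 : ℝ) ^ (m : ℝ) := (Real.rpow_natCast _ _).symm
  have e3 : ((2 : ℝ) ^ (-(η * m)) * β ^ (p - 1))⁻¹ * A ^ p * (sc m ^ (2 - 1) * (β ^ (2 - p) *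
      ((2 : ℝ) ^ (η * m) * A ^ p))) * 2 ^ m =
      (2 : ℝ) ^ (η * m + -(m : ℝ) + η * m + m) * β ^ (-(p - 1) + (2 - p)) * A ^ (p + p) := by
    rw [e1, hsc, e2, Real.rpow_add h20, Real.rpow_add h20, Real.rpow_add h20,
      Real.rpow_add hβ0, Real.rpow_add hA]
    ring
  have e4 : β ^ (-(p - 1) + (2 - p)) = (2 : ℝ) ^ (((l : ℝ) + 1) * (3 - 2 * p)) *
      ((2 : ℝ) ^ (e * m * (3 - 2 * p)) * A ^ (3 - 2 * p)) := by
    have h5 : -(p - 1) + (2 - p) = 3 - 2 * p := by ring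
    rw [h5, hβ, Real.mul_rpow (by positivity) (by positivity), Real.mul_rpow (by positivity) hA.le,
      ← Real.rpow_mul h20.le, ← Real.rpow_natCast, ← Real.rpow_mul h20.le]
    push_cast
    rfl
  rw [e3, e4]
  have e5 : (2 : ℝ) ^ (η * m + -(m : ℝ) + η * m + m) * ((2 : ℝ) ^ (((l : ℝ) + 1) * (3 - 2 * p)) *
      ((2 : ℝ) ^ (e * m * (3 - 2 * p)) * A ^ (3 - 2 * p))) * A ^ (p + p) =
      (2 : ℝ) ^ (((η * m + -(m : ℝ) + η * m + m) + ((l : ℝ) + 1) * (3 - 2 * p)) +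
        e * m * (3 - 2 * p)) * A ^ ((3 - 2 * p) + (p + p)) := by
    rw [Real.rpow_add h20 ((η * m + -(m : ℝ) + η * m + m) + ((l : ℝ) + 1) * (3 - 2 * p)),
      Real.rpow_add h20 (η * m + -(m : ℝ) + η * m + m), Real.rpow_add hA (3 - 2 * p) (p + p)]
    ring
  rw [e5, mul_pow, ← Real.rpow_natCast ((2 : ℝ) ^ _) 3, ← Real.rpow_mul h20.le]
  have e6 : A ^ ((3 - 2 * p) + (p + p)) = A ^ 3 := by
    rw [← Real.rpow_natCast A 3]
    congr 1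
    push_cast
    ring
  rw [e6]
  refine mul_le_mul_of_nonneg_right ?_ (by positivity)
  refine Real.rpow_le_rpow_of_exponent_le (by norm_num) ?_
  have hm : (0 : ℝ) ≤ m := Nat.cast_nonneg m
  have hl : (0 : ℝ) ≤ l := Nat.cast_nonneg l
  have h3 : 3 * ε * m ≤ ((2 * p - 3) * e - 2 * η) * m := mul_le_mul_of_nonneg_right h1 hm
  have h4 : 3 * ε * l ≤ (2 * p - 3) * l := mul_le_mul_of_nonneg_right h2 hl
  push_cast
  nlinarith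

/-- The numerical factors. -/
private theorem LowB_KK (k m : ℕ) :
    KK k m * 2 ^ max k m ≤ ((5 / 3) ^ ((k - m) + (m - k))) ^ 3 * (2 : ℝ≥0∞) ^ m := by
  have h1 : (4 / 3 : ℝ≥0∞) * 2 ≤ (5 / 3) ^ 3 := by
    have h : ((4 / 3 * 2 : ℝ≥0) : ℝ≥0∞) ≤ (((5 / 3) ^ 3 : ℝ≥0) : ℝ≥0∞) := by
      rw [ENNReal.coe_le_coe, ← NNReal.coe_le_coe]
      push_cast
      norm_num
    rw [ENNReal.coe_mul, ENNReal.coe_pow, ENNReal.coe_div (by norm_num),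
      ENNReal.coe_div (by norm_num)] at h
    simpa only [ENNReal.coe_ofNat] using h
  have h2 : (2 : ℝ≥0∞) ≤ (5 / 3) ^ 3 := by
    have h : ((2 : ℝ≥0) : ℝ≥0∞) ≤ (((5 / 3) ^ 3 : ℝ≥0) : ℝ≥0∞) := by
      rw [ENNReal.coe_le_coe, ← NNReal.coe_le_coe]
      push_cast
      norm_num
    rw [ENNReal.coe_pow, ENNReal.coe_div (by norm_num)] at h
    simpa only [ENNReal.coe_ofNat] using h
  have h3 : max k m = m + (k - m) := by omega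
  unfold KK
  rw [h3, pow_add (2 : ℝ≥0∞) m (k - m)]
  calc (4 / 3 : ℝ≥0∞) ^ (k - m) * 2 ^ (m - k) * (2 ^ m * 2 ^ (k - m))
      = (4 / 3 * 2) ^ (k - m) * 2 ^ (m - k) * 2 ^ m := by
        rw [mul_pow]
        ring
    _ ≤ ((5 / 3) ^ 3) ^ (k - m) * ((5 / 3) ^ 3) ^ (m - k) * 2 ^ m := by
        gcongr
    _ = ((5 / 3) ^ ((k - m) + (m - k))) ^ 3 * (2 : ℝ≥0∞) ^ m := by
        rw [← pow_add, ← pow_mul, ← pow_mul, mul_comm 3]

private theorem LowB_cube (a b c : ℝ≥0∞) :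
    (a * (b ^ 3 * c ^ 3)) ^ (1 / 3 : ℝ) = a ^ (1 / 3 : ℝ) * (b * c) := by
  rw [ENNReal.mul_rpow_of_nonneg _ _ (by norm_num), ← mul_pow, ← ENNReal.rpow_natCast,
    ← ENNReal.rpow_mul]
  norm_num

theorem km2_low {S : E 2 → ℝ} (hS : IsKer S) (hF : FB S) {p : ℝ} (hp : 3 / 2 < p)
    (hp2 : p < 2) {η e : ℝ} (h0 : 0 < η) (he : 0 < e) (h1 : 2 * η < (2 * p - 3) * e) (r : ℝ) :
    ∃ (C : ℝ≥0) (ε : ℝ), 0 < ε ∧ ∀ (A : ℝ) (q : ℕ → E 2 → ℝ), 0 < A → (∀ m, Bdd r (q m)) →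
      ∑' m : ℕ, ENNReal.ofReal ((2 : ℝ) ^ (-(η * m))) * ∫⁻ y, ‖q m y‖ₑ ^ p ≤
        ENNReal.ofReal (A ^ p) →
      ∀ k m n j : ℕ, 1 ≤ m → n ∈ RR k m → j ≤ 2 → ∀ (l : ℕ) (β : ℝ) (u : E 2 → ℝ),
        β = 2 ^ (l + 1) * ((2 : ℝ) ^ (e * m) * A) → Bdd r u →
        (∀ y, β ^ (p - 1) * |u y| ≤ 2 * |q m y| ^ p) →
        ∫⁻ y, ‖u y‖ₑ ^ 2 ≤ ENNReal.ofReal (β ^ (2 - p)) * ∫⁻ y, ‖q m y‖ₑ ^ p →
        ∃ Z : E 2 → ℝ≥0∞, Measurable Z ∧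
          (∀ x, ∀ t ∈ Icc (1 : ℝ) 2, (piK (PP p η A r q) k x t univ)⁻¹ * ∫⁻ c : Sph 2,
            Avr n (fun s => XX S m j u c x s) t ∂(piK (PP p η A r q) k x t) ≤ Z x) ∧
          (∫⁻ x, Z x ^ 3) ^ (1 / 3 : ℝ) ≤ C * (5 / 3) ^ ((k - m) + (m - k)) *
            ENNReal.ofReal ((2 : ℝ) ^ (-(ε * (m + l))) * A) := by
  have hp0 : 0 < p := by linarith
  obtain ⟨C1, hlow⟩ := low (d := 2) le_rfl hS hF
  obtain ⟨C2, hsum⟩ := PP_sum (d := 2) h0 p r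
  obtain ⟨ε, hε⟩ : ∃ ε : ℝ, ε = min (((2 * p - 3) * e - 2 * η) / 3) ((2 * p - 3) / 3) := ⟨_, rfl⟩
  have hε1 : 3 * ε ≤ (2 * p - 3) * e - 2 * η := by
    have : ε ≤ ((2 * p - 3) * e - 2 * η) / 3 := by rw [hε]; exact min_le_left _ _
    linarith
  have hε2 : 3 * ε ≤ 2 * p - 3 := by
    have : ε ≤ (2 * p - 3) / 3 := by rw [hε]; exact min_le_right _ _
    linarith
  have hε0 : 0 < ε := by
    rw [hε]
    exact lt_min (by linarith) (by linarith)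
  refine ⟨(C1 * C2) ^ (1 / 3 : ℝ), ε, hε0, ?_⟩
  intro A q hA hq hs k m n j hm hn hj l β u hβ hu hu2 hu3
  have hβ0 : 0 < β := by rw [hβ]; positivity
  have hθ : 0 < (2 : ℝ) ^ (-(η * m)) * β ^ (p - 1) := by positivity
  have hu2' : ∀ y, β ^ (p - 1) * |u y| ≤ 2 * |q m y| ^ p +
      (closedBall (0 : E 2) r).indicator (fun _ => A ^ p) y := fun y => by
    have h3 : 0 ≤ (closedBall (0 : E 2) r).indicator (fun _ => A ^ p) y :=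
      indicator_nonneg (fun _ _ => by positivity) y
    linarith [hu2 y]
  obtain ⟨W, hWm, hW1, hW2⟩ := hlow k m n j hm hn hj (PP p η A r q)
    (measurable_PP fun m => (hq m).meas) r u hu
    (ENNReal.ofReal ((2 : ℝ) ^ (-(η * m)) * β ^ (p - 1)))
    (by rw [Ne, ENNReal.ofReal_eq_zero, not_le]; exact hθ) ENNReal.ofReal_ne_top
    (PP_fat hp0 hβ0 hu2' hA)
  -- the integral of `W`
  have hqm : ∫⁻ y, ‖q m y‖ₑ ^ p ≤ ENNReal.ofReal ((2 : ℝ) ^ (η * m) * A ^ p) := by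
    have h3 : ENNReal.ofReal ((2 : ℝ) ^ (-(η * m))) * ∫⁻ y, ‖q m y‖ₑ ^ p ≤
        ENNReal.ofReal (A ^ p) := (ENNReal.le_tsum m).trans hs
    calc ∫⁻ y, ‖q m y‖ₑ ^ p = ENNReal.ofReal ((2 : ℝ) ^ (η * m)) *
          (ENNReal.ofReal ((2 : ℝ) ^ (-(η * m))) * ∫⁻ y, ‖q m y‖ₑ ^ p) := by
          rw [← mul_assoc, ← ENNReal.ofReal_mul (by positivity), ← Real.rpow_add (by norm_num),
            add_neg_cancel, Real.rpow_zero, ENNReal.ofReal_one, one_mul]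
      _ ≤ ENNReal.ofReal ((2 : ℝ) ^ (η * m)) * ENNReal.ofReal (A ^ p) := by gcongr
      _ = _ := (ENNReal.ofReal_mul (by positivity)).symm
  have hu4 : ∫⁻ y, ‖u y‖ₑ ^ 2 ≤ ENNReal.ofReal (β ^ (2 - p) * ((2 : ℝ) ^ (η * m) * A ^ p)) := by
    refine hu3.trans ?_
    rw [ENNReal.ofReal_mul (by positivity : (0 : ℝ) ≤ β ^ (2 - p))]
    gcongr
  have hPs := hsum A q hA (fun m => (hq m).meas) hs
  have hWi : ∫⁻ x, W x ≤ (C1 * C2 : ℝ≥0∞) * (((5 / 3) ^ ((k - m) + (m - k))) ^ 3 *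
      ENNReal.ofReal (((2 : ℝ) ^ (-(ε * (m + l))) * A) ^ 3)) := by
    have hsc : (0 : ℝ) ≤ sc m ^ (2 - 1) := by unfold sc; positivity
    calc ∫⁻ x, W x ≤ C1 * (KK k m * (ENNReal.ofReal ((2 : ℝ) ^ (-(η * m)) * β ^ (p - 1)))⁻¹ *
          2 ^ max k m * (∑' m', ∫⁻ y, PP p η A r q m' y) *
            (ENNReal.ofReal (sc m ^ (2 - 1)) * ∫⁻ y, ‖u y‖ₑ ^ 2)) := hW2
      _ ≤ C1 * (KK k m * (ENNReal.ofReal ((2 : ℝ) ^ (-(η * m)) * β ^ (p - 1)))⁻¹ *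
          2 ^ max k m * (C2 * ENNReal.ofReal (A ^ p)) *
            (ENNReal.ofReal (sc m ^ (2 - 1)) *
              ENNReal.ofReal (β ^ (2 - p) * ((2 : ℝ) ^ (η * m) * A ^ p)))) := by gcongr
      _ = (C1 * C2) * ((KK k m * 2 ^ max k m) * (ENNReal.ofReal (((2 : ℝ) ^ (-(η * m)) *
          β ^ (p - 1))⁻¹) * ENNReal.ofReal (A ^ p) * (ENNReal.ofReal (sc m ^ (2 - 1)) *
              ENNReal.ofReal (β ^ (2 - p) * ((2 : ℝ) ^ (η * m) * A ^ p))))) := by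
          rw [ENNReal.ofReal_inv_of_pos hθ]
          ring
      _ ≤ (C1 * C2) * ((((5 / 3) ^ ((k - m) + (m - k))) ^ 3 * (2 : ℝ≥0∞) ^ m) *
          (ENNReal.ofReal (((2 : ℝ) ^ (-(η * m)) *
          β ^ (p - 1))⁻¹) * ENNReal.ofReal (A ^ p) * (ENNReal.ofReal (sc m ^ (2 - 1)) *
              ENNReal.ofReal (β ^ (2 - p) * ((2 : ℝ) ^ (η * m) * A ^ p))))) := by
          exact mul_le_mul' le_rfl (mul_le_mul' (LowB_KK k m) le_rfl)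
      _ = (C1 * C2) * (((5 / 3) ^ ((k - m) + (m - k))) ^ 3 *
          ENNReal.ofReal (((2 : ℝ) ^ (-(η * m)) * β ^ (p - 1))⁻¹ * A ^ p * (sc m ^ (2 - 1) *
            (β ^ (2 - p) * ((2 : ℝ) ^ (η * m) * A ^ p))) * 2 ^ m)) := by
          have h5 : (2 : ℝ≥0∞) ^ m = ENNReal.ofReal ((2 : ℝ) ^ m) := by
            rw [ENNReal.ofReal_pow (by norm_num), ENNReal.ofReal_ofNat]
          rw [h5, ENNReal.ofReal_mul (q := (2 : ℝ) ^ m) (by positivity),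
            ENNReal.ofReal_mul (p := ((2 : ℝ) ^ (-(η * m)) * β ^ (p - 1))⁻¹ * A ^ p)
              (by positivity),
            ENNReal.ofReal_mul (p := ((2 : ℝ) ^ (-(η * m)) * β ^ (p - 1))⁻¹) (by positivity),
            ENNReal.ofReal_mul (p := sc m ^ (2 - 1)) hsc]
          ring
      _ ≤ _ := by
          gcongr
          exact LowB_real hp hA hβ hε1 hε2
  refine ⟨fun x => W x ^ (1 / 3 : ℝ), hWm.pow_const _, ?_, ?_⟩
  · intro x t ht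
    have h3 := hW1 x t ht
    calc (piK (PP p η A r q) k x t univ)⁻¹ * ∫⁻ c : Sph 2,
            Avr n (fun s => XX S m j u c x s) t ∂(piK (PP p η A r q) k x t)
        = (((piK (PP p η A r q) k x t univ)⁻¹ * ∫⁻ c : Sph 2,
            Avr n (fun s => XX S m j u c x s) t ∂(piK (PP p η A r q) k x t)) ^ 3) ^
              (1 / 3 : ℝ) := by
          rw [← ENNReal.rpow_natCast, ← ENNReal.rpow_mul]
          norm_num
      _ ≤ W x ^ (1 / 3 : ℝ) := by gcongr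
  · have h3 : ∀ x, (W x ^ (1 / 3 : ℝ)) ^ 3 = W x := by
      intro x
      rw [← ENNReal.rpow_natCast, ← ENNReal.rpow_mul]
      norm_num
    simp only [h3]
    calc (∫⁻ x, W x) ^ (1 / 3 : ℝ)
        ≤ ((C1 * C2 : ℝ≥0∞) * (((5 / 3) ^ ((k - m) + (m - k))) ^ 3 *
          ENNReal.ofReal (((2 : ℝ) ^ (-(ε * (m + l))) * A) ^ 3))) ^ (1 / 3 : ℝ) := by
          gcongr
      _ = (((C1 * C2) ^ (1 / 3 : ℝ) : ℝ≥0) : ℝ≥0∞) *
          (5 / 3) ^ ((k - m) + (m - k)) * ENNReal.ofReal ((2 : ℝ) ^ (-(ε * (m + l))) * A) := by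
          rw [ENNReal.ofReal_pow (by positivity), LowB_cube,
            ENNReal.coe_rpow_of_nonneg _ (by norm_num), ENNReal.coe_mul]
          ring

end Pool.Agent.Lib.MP_ff3fe0_an_SPH2
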