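import Pool.Agent.Lib.MP_ff3fe0_an_SPH2.Defs2

set_option autoImplicit false

/-!
# The splitting into levels
-/

namespace Pool.Agent.Lib.MP_ff3fe0_an_SPH2

open MeasureTheory Metric Set
open scoped ENNReal NNReal ContDiff FourierTransform
open Pool.Agent.Lib.MP_ff3fe0_an
open Pool.Agent.Lib.MP_ff3fe0_an_SPH

/-- The restriction of `q` to a measurable set of values. -/
private lemma bdd_pieceB_ite {d : ℕ} {r : ℝ} {q : E d → ℝ} (hq : Bdd r q) {P : ℝ → Prop}
    [DecidablePred P] (hP : MeasurableSet {x | P x}) :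
    Bdd r (fun y => if P |q y| then q y else 0) := by
  refine ⟨?_, ?_, ?_⟩
  · refine Measurable.ite ?_ hq.meas measurable_const
    have h1 : Measurable fun y => |q y| := hq.meas.norm
    exact h1 hP
  · obtain ⟨C, hC⟩ := hq.bdd
    refine ⟨C, fun y => ?_⟩
    have h0 := hC y
    have h1 : 0 ≤ |q y| := abs_nonneg _
    split_ifs
    · exact h0
    · rw [abs_zero]
      linarith
  · intro y hy
    rw [hq.supp y hy]
    split_ifs <;> rfl

/-- The splitting of a bounded function into levels above the height `b`. -/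
theorem pieces2 {d : ℕ} {p : ℝ} (hp : 1 < p) (hp2 : p ≤ 2) {r : ℝ} {q : E d → ℝ} (hq : Bdd r q)
    {b : ℝ} (hb : 0 < b) : ∃ (N : ℕ) (q0 : E d → ℝ) (ql : ℕ → E d → ℝ), Bdd r q0 ∧
      (∀ l, Bdd r (ql l)) ∧ (∀ y, |q0 y| ≤ b) ∧
      (∀ y, q y = ∑ l ∈ Finset.range N, ql l y + q0 y) ∧
      (∀ l y, (2 ^ (l + 1) * b) ^ (p - 1) * |ql l y| ≤ 2 * |q y| ^ p) ∧
      ∀ l, ∫⁻ y, ‖ql l y‖ₑ ^ 2 ≤
        ENNReal.ofReal ((2 ^ (l + 1) * b) ^ (2 - p)) * ∫⁻ y, ‖q y‖ₑ ^ p := by
  classical
  obtain ⟨C, hC⟩ := hq.bdd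
  obtain ⟨N, hN⟩ := pow_unbounded_of_one_lt (C / b) (one_lt_two : (1 : ℝ) < 2)
  have hCN : C ≤ 2 ^ N * b := by
    rw [div_lt_iff₀ hb] at hN
    exact hN.le
  have hβ0 : ∀ l : ℕ, 0 < 2 ^ (l + 1) * b := fun l => by positivity
  let P : ℕ → ℝ → Prop := fun l x => 2 ^ l * b < x ∧ x ≤ 2 ^ (l + 1) * b
  have hPm : ∀ l, MeasurableSet {x | P l x} := fun l => measurableSet_Ioc
  set ql : ℕ → E d → ℝ := fun l y => if P l |q y| then q y else 0 with hql
  set q0 : E d → ℝ := fun y => if |q y| ≤ b then q y else 0 with hq0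
  have hqlB : ∀ l, Bdd r (ql l) := fun l => bdd_pieceB_ite hq (hPm l)
  have hq0B : Bdd r q0 := bdd_pieceB_ite (P := fun x => x ≤ b) hq measurableSet_Iic
  have hql1 : ∀ l y, |ql l y| ≤ 2 ^ (l + 1) * b ∧ |ql l y| ≤ |q y| := by
    intro l y
    simp only [hql]
    split_ifs with h
    · exact ⟨h.2, le_rfl⟩
    · rw [abs_zero]
      exact ⟨(hβ0 l).le, abs_nonneg _⟩
  refine ⟨N, q0, ql, hq0B, hqlB, ?_, ?_, ?_, ?_⟩
  · intro y
    simp only [hq0]
    split_ifs with h
    · exact h
    · rw [abs_zero]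
      exact hb.le
  · intro y
    have key : ∀ M, ∑ l ∈ Finset.range M, ql l y + q0 y =
        if |q y| ≤ 2 ^ M * b then q y else 0 := by
      intro M
      induction M with
      | zero => simp [hq0]
      | succ M ih =>
        rw [Finset.sum_range_succ, add_right_comm, ih]
        have h2 : ql M y = if 2 ^ M * b < |q y| ∧ |q y| ≤ 2 ^ (M + 1) * b then q y else 0 := rfl
        rw [h2]
        have h3 : (2 : ℝ) ^ M * b ≤ 2 ^ (M + 1) * b := by
          rw [pow_succ]
          have : 0 < (2 : ℝ) ^ M * b := by positivity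
          linarith
        by_cases h4 : |q y| ≤ 2 ^ M * b
        · rw [if_pos h4, if_neg (fun h => absurd h.1 (not_lt.2 h4)), if_pos (h4.trans h3),
            add_zero]
        · by_cases h5 : |q y| ≤ 2 ^ (M + 1) * b
          · rw [if_neg h4, if_pos ⟨not_le.1 h4, h5⟩, if_pos h5, zero_add]
          · rw [if_neg h4, if_neg (fun h => h5 h.2), if_neg h5, zero_add]
    rw [key N, if_pos ((hC y).trans hCN)]
  · intro l y
    have hq0' : 0 ≤ |q y| ^ p := by positivity
    simp only [hql]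
    split_ifs with h
    · have h0 : 0 < |q y| := lt_trans (by positivity) h.1
      have h3 : 2 ^ (l + 1) * b ≤ 2 * |q y| := by
        rw [pow_succ]
        linarith [h.1]
      have h4 : (2 ^ (l + 1) * b) ^ (p - 1) ≤ 2 * |q y| ^ (p - 1) := by
        calc (2 ^ (l + 1) * b) ^ (p - 1) ≤ (2 * |q y|) ^ (p - 1) :=
              Real.rpow_le_rpow (hβ0 l).le h3 (by linarith)
          _ = 2 ^ (p - 1) * |q y| ^ (p - 1) := Real.mul_rpow (by norm_num) h0.le
          _ ≤ 2 * |q y| ^ (p - 1) := by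
              refine mul_le_mul_of_nonneg_right ?_ (by positivity)
              calc (2 : ℝ) ^ (p - 1) ≤ 2 ^ (1 : ℝ) :=
                    Real.rpow_le_rpow_of_exponent_le (by norm_num) (by linarith)
                _ = 2 := Real.rpow_one 2
      have h5 : |q y| ^ p = |q y| ^ (p - 1) * |q y| := by
        rw [← Real.rpow_add_one h0.ne']
        congr 1
        ring
      have h6 : (2 ^ (l + 1) * b) ^ (p - 1) * |q y| ≤ 2 * |q y| ^ (p - 1) * |q y| :=
        mul_le_mul_of_nonneg_right h4 h0.le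
      rw [h5]
      linarith
    · rw [abs_zero, mul_zero]
      linarith
  · intro l
    rw [← lintegral_const_mul' _ _ ENNReal.ofReal_ne_top]
    refine lintegral_mono fun y => ?_
    rw [Real.enorm_eq_ofReal_abs, Real.enorm_eq_ofReal_abs,
      ENNReal.ofReal_rpow_of_nonneg (abs_nonneg _) (by linarith),
      ← ENNReal.ofReal_pow (abs_nonneg _), ← ENNReal.ofReal_mul (by have := hβ0 l; positivity)]
    refine ENNReal.ofReal_le_ofReal ?_
    obtain ⟨h1, h2⟩ := hql1 l y
    rcases (abs_nonneg (ql l y)).eq_or_lt with h0 | h0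
    · rw [← h0]
      have h3 : 0 ≤ (2 ^ (l + 1) * b) ^ (2 - p) * |q y| ^ p := by
        have := hβ0 l
        positivity
      simpa using h3
    · calc |ql l y| ^ 2 = |ql l y| ^ (2 - p) * |ql l y| ^ p := by
            rw [← Real.rpow_add h0, sub_add_cancel]
            exact (Real.rpow_two _).symm
        _ ≤ (2 ^ (l + 1) * b) ^ (2 - p) * |q y| ^ p := by
            refine mul_le_mul (Real.rpow_le_rpow h0.le h1 (by linarith))
              (Real.rpow_le_rpow h0.le h2 (by linarith)) (by positivity) ?_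
            have := hβ0 l
            positivity

end Pool.Agent.Lib.MP_ff3fe0_an_SPH2
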