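import Pool.Agent.Lib.MP_ff3fe0_an_SPH2.SmoQ
import Pool.Agent.Lib.MP_ff3fe0_an_SPH2.PieceB
import Pool.Agent.Lib.MP_ff3fe0_an_SPH2.LowB
import Pool.Agent.Lib.MP_ff3fe0_an_SPH2.MinkB
import Pool.Agent.Lib.MP_ff3fe0_an_SPH.GmA

set_option autoImplicit false

/-!
# The bound for the pieces
-/

namespace Pool.Agent.Lib.MP_ff3fe0_an_SPH2

open MeasureTheory Metric Set
open scoped ENNReal NNReal ContDiff FourierTransform
open Pool.Agent.Lib.MP_ff3fe0_an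
open Pool.Agent.Lib.MP_ff3fe0_an_SPH

private theorem KmC_sc_one (n : ℕ) : sc n ≤ 1 := pow_le_one₀ (by norm_num) (by norm_num)

private theorem KmC_two_sc (n : ℕ) : (2 : ℝ≥0∞) ^ n * ENNReal.ofReal (sc n) = 1 := by
  have h1 : (2 : ℝ≥0∞) = ENNReal.ofReal 2 := by simp
  rw [h1, ← ENNReal.ofReal_pow (by norm_num), ← ENNReal.ofReal_mul (by positivity)]
  unfold sc
  rw [← mul_pow]
  norm_num

/-- the averages of a bounded function -/
private theorem KmC_avr_le (n : ℕ) {F : ℝ → ℝ≥0∞} {t : ℝ} {B : ℝ≥0∞}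
    (h : ∀ u, |u| ≤ sc n / 2 → F (t + u) ≤ B) : Avr n F t ≤ B := by
  unfold Avr
  calc 2 ^ n * ∫⁻ r in Icc (-(sc n / 2)) (sc n / 2), F (t + r)
      ≤ 2 ^ n * ∫⁻ _r in Icc (-(sc n / 2)) (sc n / 2), B := by
        refine mul_le_mul' le_rfl (setLIntegral_mono' measurableSet_Icc fun u hu => ?_)
        exact h u (abs_le.mpr ⟨hu.1, hu.2⟩)
    _ = 2 ^ n * (B * ENNReal.ofReal (sc n)) := by
        rw [setLIntegral_const, Real.volume_Icc]
        congr 3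
        ring
    _ = B := by rw [mul_left_comm, KmC_two_sc, mul_one]

/-- measurability of the averages in the vector -/
private theorem KmC_meas {S : E 2 → ℝ} (hS : IsKer S) (m j n : ℕ) {r : ℝ}
    {u : E 2 → ℝ} (hu : Bdd r u) (x : E 2) (t : ℝ) :
    Measurable (fun c : Sph 2 => Avr n (fun s => XX S m j u (c : E 2) x s) t) := by
  unfold Avr
  refine Measurable.const_mul ?_ _
  have h1 := measurable_XX (by norm_num) hS m j hu
  have h2 : Measurable fun z : Sph 2 × ℝ => XX S m j u (z.1 : E 2) x (t + z.2) := by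
    have h3 : Measurable fun z : Sph 2 × ℝ => ((z.1 : E 2), x, t + z.2) := by fun_prop
    have h4 := h1.comp h3
    exact h4
  exact h2.lintegral_prod_right'

private theorem KmC_measr {S : E 2 → ℝ} (hS : IsKer S) (m j : ℕ) {r : ℝ}
    {u : E 2 → ℝ} (hu : Bdd r u) (c x : E 2) (t : ℝ) :
    Measurable (fun s : ℝ => XX S m j u c x (t + s)) := by
  have h1 := measurable_XX (by norm_num) hS m j hu
  have h3 : Measurable fun s : ℝ => (c, x, t + s) := by fun_prop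
  have h4 := h1.comp h3
  exact h4

/-- subadditivity -/
private theorem KmC_XX {S : E 2 → ℝ} (hS : IsKer S) (m j : ℕ) {r : ℝ} {N : ℕ}
    {q : E 2 → ℝ} {ql : ℕ → E 2 → ℝ} {q0 : E 2 → ℝ} (hq : ∀ l, Bdd r (ql l)) (h0 : Bdd r q0)
    (hs : ∀ y, q y = ∑ l ∈ Finset.range N, ql l y + q0 y) (c x : E 2) (t : ℝ) :
    XX S m j q c x t ≤ ∑ l ∈ Finset.range N, XX S m j (ql l) c x t + XX S m j q0 c x t := by
  rcases Nat.eq_zero_or_pos N with h | h
  · subst h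
    have h1 : q = q0 := by
      funext y
      rw [hs y, Finset.range_zero, Finset.sum_empty, zero_add]
    rw [h1, Finset.range_zero, Finset.sum_empty, zero_add]
  · obtain ⟨L, rfl⟩ : ∃ L, N = L + 1 := ⟨N - 1, by omega⟩
    exact XX_sum (by norm_num) hS m j hq h0 hs c x t

/-- subadditivity of the averages -/
private theorem KmC_avr {S : E 2 → ℝ} (hS : IsKer S) (m j n : ℕ) {r : ℝ} {N : ℕ}
    {q : E 2 → ℝ} {ql : ℕ → E 2 → ℝ} {q0 : E 2 → ℝ} (hq : ∀ l, Bdd r (ql l)) (h0 : Bdd r q0)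
    (hs : ∀ y, q y = ∑ l ∈ Finset.range N, ql l y + q0 y) (c x : E 2) (t : ℝ) :
    Avr n (fun s => XX S m j q c x s) t ≤
      ∑ l ∈ Finset.range N, Avr n (fun s => XX S m j (ql l) c x s) t +
        Avr n (fun s => XX S m j q0 c x s) t := by
  unfold Avr
  rw [← Finset.mul_sum, ← mul_add]
  gcongr
  rw [← lintegral_finsetSum _ fun l _ => KmC_measr hS m j (hq l) c x t,
    ← lintegral_add_right _ (KmC_measr hS m j h0 c x t)]
  exact lintegral_mono fun s => KmC_XX hS m j hq h0 hs c x (t + s)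

/-- the cubic norm of a bounded function from its square norm -/
private theorem KmC_cube {μ : Measure (E 2)} {W : E 2 → ℝ≥0∞} (hW : Measurable W) {Cs : ℝ≥0}
    {b δ A : ℝ} (hb : 0 ≤ b) (hA : 0 ≤ A) (h1 : ∀ x, W x ≤ Cs * ENNReal.ofReal b)
    (h2 : ∫⁻ x, W x ^ 2 ∂μ ≤ Cs * ENNReal.ofReal (δ * b ^ 2)) (h3 : b ^ 3 * δ = A ^ 3) :
    (∫⁻ x, W x ^ 3 ∂μ) ^ (1 / 3 : ℝ) ≤ ((Cs + 1 : ℝ≥0) : ℝ≥0∞) * ENNReal.ofReal A := by
  have h4 : ∫⁻ x, W x ^ 3 ∂μ ≤ Cs * ENNReal.ofReal b * ∫⁻ x, W x ^ 2 ∂μ := by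
    rw [← lintegral_const_mul _ (hW.pow_const 2)]
    refine lintegral_mono fun x => ?_
    calc W x ^ 3 = W x * W x ^ 2 := by ring
      _ ≤ Cs * ENNReal.ofReal b * W x ^ 2 := mul_le_mul' (h1 x) le_rfl
  have h5 : (Cs : ℝ≥0∞) ^ 2 ≤ ((Cs + 1 : ℝ≥0) : ℝ≥0∞) ^ 3 := by
    rw [← ENNReal.coe_pow, ← ENNReal.coe_pow]
    refine ENNReal.coe_le_coe.2 ?_
    rw [← NNReal.coe_le_coe]
    push_cast
    have h6 : (0 : ℝ) ≤ Cs := Cs.coe_nonneg
    nlinarith [pow_nonneg h6 2, pow_nonneg h6 3]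
  have h6 : ENNReal.ofReal b * ENNReal.ofReal (δ * b ^ 2) = ENNReal.ofReal A ^ 3 := by
    rw [← ENNReal.ofReal_mul hb, ← ENNReal.ofReal_pow hA, ← h3]
    congr 1
    ring
  have h7 : ∫⁻ x, W x ^ 3 ∂μ ≤ (((Cs + 1 : ℝ≥0) : ℝ≥0∞) * ENNReal.ofReal A) ^ 3 := by
    calc ∫⁻ x, W x ^ 3 ∂μ ≤ Cs * ENNReal.ofReal b * ∫⁻ x, W x ^ 2 ∂μ := h4
      _ ≤ Cs * ENNReal.ofReal b * (Cs * ENNReal.ofReal (δ * b ^ 2)) := mul_le_mul' le_rfl h2
      _ = (Cs : ℝ≥0∞) ^ 2 * (ENNReal.ofReal b * ENNReal.ofReal (δ * b ^ 2)) := by ring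
      _ = (Cs : ℝ≥0∞) ^ 2 * ENNReal.ofReal A ^ 3 := by rw [h6]
      _ ≤ ((Cs + 1 : ℝ≥0) : ℝ≥0∞) ^ 3 * ENNReal.ofReal A ^ 3 := mul_le_mul' h5 le_rfl
      _ = _ := by ring
  calc (∫⁻ x, W x ^ 3 ∂μ) ^ (1 / 3 : ℝ)
      ≤ ((((Cs + 1 : ℝ≥0) : ℝ≥0∞) * ENNReal.ofReal A) ^ 3) ^ (1 / 3 : ℝ) :=
        ENNReal.rpow_le_rpow h7 (by norm_num)
    _ = _ := by
        rw [← ENNReal.rpow_natCast, ← ENNReal.rpow_mul]
        norm_num

theorem km2_bound {S : E 2 → ℝ} (hS : IsKer S) (hF : FB S) {p : ℝ} (hp : 3 / 2 < p)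
    (hp2 : p < 2) (r : ℝ) : ∃ (η : ℝ) (C : ℝ≥0) (ε : ℝ), 0 < η ∧ 0 < ε ∧
    ∀ (A : ℝ) (q : ℕ → E 2 → ℝ), 0 < A → (∀ m, Bdd r (q m)) →
      ∑' m : ℕ, ENNReal.ofReal ((2 : ℝ) ^ (-(η * m))) * ∫⁻ y, ‖q m y‖ₑ ^ p ≤
        ENNReal.ofReal (A ^ p) →
      ∀ k m n j : ℕ, 1 ≤ m → n ∈ RR k m → j ≤ 2 → ∃ Z : E 2 → ℝ≥0∞, Measurable Z ∧
        (∀ x, ∀ t ∈ Icc (1 : ℝ) 2, (piK (PP p η A r q) k x t univ)⁻¹ * ∫⁻ c : Sph 2,
          Avr n (fun s => XX S m j (q m) c x s) t ∂(piK (PP p η A r q) k x t) ≤ Z x) ∧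
        (∫⁻ x in closedBall (0 : E 2) (√2), Z x ^ 3) ^ (1 / 3 : ℝ) ≤
          C * (5 / 3) ^ ((k - m) + (m - k)) * ENNReal.ofReal ((2 : ℝ) ^ (-(ε * m)) * A) := by
  obtain ⟨Cs, es, hes, hsmo⟩ := smoothing hS hF r
  obtain ⟨e, he⟩ : ∃ e, e = es / 6 := ⟨_, rfl⟩
  have he0 : 0 < e := by rw [he]; positivity
  obtain ⟨η, hη⟩ : ∃ η, η = (2 * p - 3) * e / 4 := ⟨_, rfl⟩
  have hpe : 0 < (2 * p - 3) * e := mul_pos (by linarith) he0
  have hη0 : 0 < η := by rw [hη]; positivity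
  have hη1 : 2 * η < (2 * p - 3) * e := by rw [hη]; linarith
  obtain ⟨Cl, εl, hεl, hlow⟩ := km2_low hS hF hp hp2 hη0 he0 hη1 r
  obtain ⟨ε, hε⟩ : ∃ ε, ε = min εl e := ⟨_, rfl⟩
  have hε0 : 0 < ε := by rw [hε]; exact lt_min hεl he0
  have hεl' : ε ≤ εl := by rw [hε]; exact min_le_left _ _
  have hεe : ε ≤ e := by rw [hε]; exact min_le_right _ _
  obtain ⟨ρ, hρ⟩ : ∃ ρ : ℝ≥0∞, ρ = ENNReal.ofReal ((2 : ℝ) ^ (-ε)) := ⟨_, rfl⟩
  have hρ1 : ρ < 1 := by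
    rw [hρ]
    refine ENNReal.ofReal_lt_one.2 ?_
    exact Real.rpow_lt_one_of_one_lt_of_neg (by norm_num) (by linarith)
  have hG : (1 - ρ)⁻¹ ≠ ⊤ := by
    rw [ENNReal.inv_ne_top]
    exact (tsub_pos_of_lt hρ1).ne'
  refine ⟨η, Cl * ((1 - ρ)⁻¹).toNNReal + (Cs + 1), ε, hη0, hε0, ?_⟩
  intro A q hA hq hsum k m n j hm hn hj
  obtain ⟨b, hb⟩ : ∃ b : ℝ, b = (2 : ℝ) ^ (e * m) * A := ⟨_, rfl⟩
  have hb0 : 0 < b := by rw [hb]; positivity
  obtain ⟨N, q0, ql, hq0, hql, hq0b, hdec, hlev, hl2⟩ := pieces2 (by linarith) hp2.le (hq m) hb0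
  have hlow' : ∀ l : ℕ, ∃ Z : E 2 → ℝ≥0∞, Measurable Z ∧
      (∀ x, ∀ t ∈ Icc (1 : ℝ) 2, (piK (PP p η A r q) k x t univ)⁻¹ * ∫⁻ c : Sph 2,
        Avr n (fun s => XX S m j (ql l) c x s) t ∂(piK (PP p η A r q) k x t) ≤ Z x) ∧
      (∫⁻ x, Z x ^ 3) ^ (1 / 3 : ℝ) ≤ Cl * (5 / 3) ^ ((k - m) + (m - k)) *
        ENNReal.ofReal ((2 : ℝ) ^ (-(εl * (m + l))) * A) := by
    intro l
    exact hlow A q hA hq hsum k m n j hm hn hj l (2 ^ (l + 1) * b) (ql l) (by rw [hb])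
      (hql l) (hlev l) (hl2 l)
  choose Zl hZlm hZl hZl3 using hlow'
  obtain ⟨W, hWm, hWb, hW, hW2⟩ := hsmo m q0 b hq0 hq0b j hj
  -- the bounded part
  have hWx : ∀ x, ∀ t ∈ Icc (1 : ℝ) 2, (piK (PP p η A r q) k x t univ)⁻¹ * ∫⁻ c : Sph 2,
      Avr n (fun s => XX S m j q0 c x s) t ∂(piK (PP p η A r q) k x t) ≤ W x := by
    intro x t ht
    have h1 : ∫⁻ c : Sph 2, Avr n (fun s => XX S m j q0 c x s) t
        ∂(piK (PP p η A r q) k x t) ≤ W x * piK (PP p η A r q) k x t univ := by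
      rw [← lintegral_const]
      refine lintegral_mono fun c => ?_
      refine KmC_avr_le n fun u hu => ?_
      have h2 := KmC_sc_one n
      have h3 := abs_le.1 hu
      refine hW x (t + u) ⟨by linarith [ht.1], by linarith [ht.2]⟩ c ?_
      rw [norm_eq_of_mem_sphere c]
    calc (piK (PP p η A r q) k x t univ)⁻¹ * ∫⁻ c : Sph 2,
          Avr n (fun s => XX S m j q0 c x s) t ∂(piK (PP p η A r q) k x t)
        ≤ (piK (PP p η A r q) k x t univ)⁻¹ * (W x * piK (PP p η A r q) k x t univ) :=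
          mul_le_mul' le_rfl h1
      _ = W x * ((piK (PP p η A r q) k x t univ)⁻¹ * piK (PP p η A r q) k x t univ) := by ring
      _ ≤ W x * 1 := mul_le_mul' le_rfl (ENNReal.inv_mul_le_one _)
      _ = W x := mul_one _
  -- the family
  obtain ⟨F, hF'⟩ : ∃ F : ℕ → E 2 → ℝ≥0∞, F = fun i => if i = 0 then W else Zl (i - 1) :=
    ⟨_, rfl⟩
  have hF0 : F 0 = W := by rw [hF']; simp
  have hFs : ∀ i, F (i + 1) = Zl i := by intro i; rw [hF']; simp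
  have hFm : ∀ i, Measurable (F i) := by
    intro i
    rcases Nat.eq_zero_or_pos i with h | h
    · rw [h, hF0]
      exact hWm
    · obtain ⟨l, rfl⟩ : ∃ l, i = l + 1 := ⟨i - 1, by omega⟩
      rw [hFs]
      exact hZlm l
  refine ⟨fun x => ∑' i, F i x, ?_, ?_, ?_⟩
  · exact Measurable.tsum hFm
  · intro x t ht
    have h2 : ∫⁻ c : Sph 2, Avr n (fun s => XX S m j (q m) c x s) t
        ∂(piK (PP p η A r q) k x t) ≤
        ∑ l ∈ Finset.range N, ∫⁻ c : Sph 2, Avr n (fun s => XX S m j (ql l) c x s) t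
          ∂(piK (PP p η A r q) k x t) +
        ∫⁻ c : Sph 2, Avr n (fun s => XX S m j q0 c x s) t ∂(piK (PP p η A r q) k x t) := by
      rw [← lintegral_finsetSum _ fun l _ => KmC_meas hS m j n (hql l) x t,
        ← lintegral_add_right _ (KmC_meas hS m j n hq0 x t)]
      exact lintegral_mono fun c => KmC_avr hS m j n hql hq0 hdec (c : E 2) x t
    calc (piK (PP p η A r q) k x t univ)⁻¹ * ∫⁻ c : Sph 2,
          Avr n (fun s => XX S m j (q m) c x s) t ∂(piK (PP p η A r q) k x t)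
        ≤ (piK (PP p η A r q) k x t univ)⁻¹ * (∑ l ∈ Finset.range N,
          ∫⁻ c : Sph 2, Avr n (fun s => XX S m j (ql l) c x s) t
          ∂(piK (PP p η A r q) k x t) +
          ∫⁻ c : Sph 2, Avr n (fun s => XX S m j q0 c x s) t ∂(piK (PP p η A r q) k x t)) :=
          mul_le_mul' le_rfl h2
      _ = ∑ l ∈ Finset.range N, (piK (PP p η A r q) k x t univ)⁻¹ *
          ∫⁻ c : Sph 2, Avr n (fun s => XX S m j (ql l) c x s) t
          ∂(piK (PP p η A r q) k x t) +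
          (piK (PP p η A r q) k x t univ)⁻¹ * ∫⁻ c : Sph 2,
          Avr n (fun s => XX S m j q0 c x s) t ∂(piK (PP p η A r q) k x t) := by
          rw [mul_add, Finset.mul_sum]
      _ ≤ ∑ l ∈ Finset.range N, Zl l x + W x :=
          add_le_add (Finset.sum_le_sum fun l _ => hZl l x t ht) (hWx x t ht)
      _ ≤ ∑' l, Zl l x + W x := add_le_add (ENNReal.sum_le_tsum _) le_rfl
      _ = ∑' i, F i x := by
          rw [tsum_eq_zero_add' (f := fun i => F i x) ENNReal.summable, hF0, add_comm]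
          congr 1
          exact tsum_congr fun i => by rw [hFs]
  · have hmin := minkowski3 (μ := volume.restrict (closedBall (0 : E 2) (√2))) hFm
    refine hmin.trans ?_
    obtain ⟨Q, hQ⟩ : ∃ Q : ℝ≥0∞, Q = (5 / 3) ^ ((k - m) + (m - k)) := ⟨_, rfl⟩
    have hQ1 : 1 ≤ Q := by
      rw [hQ]
      refine one_le_pow₀ ?_
      rw [ENNReal.le_div_iff_mul_le (by norm_num) (by norm_num)]
      norm_num
    obtain ⟨X, hX⟩ : ∃ X : ℝ≥0∞, X = ENNReal.ofReal ((2 : ℝ) ^ (-(ε * m)) * A) := ⟨_, rfl⟩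
    have hW3 : (∫⁻ x in closedBall (0 : E 2) (√2), W x ^ 3) ^ (1 / 3 : ℝ) ≤
        ((Cs + 1 : ℝ≥0) : ℝ≥0∞) * X := by
      have h1 := KmC_cube (μ := volume.restrict (closedBall (0 : E 2) (√2))) hWm hb0.le
        (A := (2 : ℝ) ^ (-(e * m)) * A) (by positivity) hWb hW2 (by
          rw [hb, mul_pow, mul_pow, ← Real.rpow_natCast, ← Real.rpow_natCast,
            ← Real.rpow_natCast, ← Real.rpow_mul (by norm_num), ← Real.rpow_mul (by norm_num)]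
          have h2 : (2 : ℝ) ^ (e * m * (3 : ℕ)) * (2 : ℝ) ^ (-(es * m)) =
              (2 : ℝ) ^ (-(e * m) * (3 : ℕ)) := by
            rw [← Real.rpow_add (by norm_num)]
            congr 1
            rw [he]
            push_cast
            ring
          rw [← h2]
          ring)
      refine h1.trans (mul_le_mul' le_rfl ?_)
      rw [hX]
      refine ENNReal.ofReal_le_ofReal (mul_le_mul_of_nonneg_right ?_ hA.le)
      refine Real.rpow_le_rpow_of_exponent_le (by norm_num) ?_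
      have : ε * m ≤ e * m := mul_le_mul_of_nonneg_right hεe (Nat.cast_nonneg m)
      linarith
    have hl3 : ∀ l : ℕ, (∫⁻ x in closedBall (0 : E 2) (√2), Zl l x ^ 3) ^ (1 / 3 : ℝ) ≤
        Cl * Q * X * ρ ^ l := by
      intro l
      calc (∫⁻ x in closedBall (0 : E 2) (√2), Zl l x ^ 3) ^ (1 / 3 : ℝ)
          ≤ (∫⁻ x, Zl l x ^ 3) ^ (1 / 3 : ℝ) :=
            ENNReal.rpow_le_rpow (setLIntegral_le_lintegral _ _) (by norm_num)
        _ ≤ Cl * Q * ENNReal.ofReal ((2 : ℝ) ^ (-(εl * (m + l))) * A) := by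
            rw [hQ]
            exact hZl3 l
        _ ≤ Cl * Q * (X * ρ ^ l) := by
            refine mul_le_mul' le_rfl ?_
            rw [hX, hρ, ← ENNReal.ofReal_pow (by positivity),
              ← ENNReal.ofReal_mul (by positivity)]
            refine ENNReal.ofReal_le_ofReal ?_
            rw [← Real.rpow_natCast, ← Real.rpow_mul (by norm_num), mul_right_comm,
              ← Real.rpow_add (by norm_num)]
            refine mul_le_mul_of_nonneg_right ?_ hA.le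
            refine Real.rpow_le_rpow_of_exponent_le (by norm_num) ?_
            have : ε * (m + l) ≤ εl * (m + l) := mul_le_mul_of_nonneg_right hεl' (by positivity)
            linarith
        _ = Cl * Q * X * ρ ^ l := by ring
    calc ∑' i, (∫⁻ x in closedBall (0 : E 2) (√2), F i x ^ 3) ^ (1 / 3 : ℝ)
        = (∫⁻ x in closedBall (0 : E 2) (√2), W x ^ 3) ^ (1 / 3 : ℝ) +
          ∑' l, (∫⁻ x in closedBall (0 : E 2) (√2), Zl l x ^ 3) ^ (1 / 3 : ℝ) := by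
          rw [tsum_eq_zero_add' (f := fun i =>
            (∫⁻ x in closedBall (0 : E 2) (√2), F i x ^ 3) ^ (1 / 3 : ℝ)) ENNReal.summable]
          simp only [hF0, hFs]
      _ ≤ ((Cs + 1 : ℝ≥0) : ℝ≥0∞) * X + ∑' l : ℕ, Cl * Q * X * ρ ^ l :=
          add_le_add hW3 (ENNReal.tsum_le_tsum hl3)
      _ = ((Cs + 1 : ℝ≥0) : ℝ≥0∞) * X + Cl * Q * X * (1 - ρ)⁻¹ := by
          rw [ENNReal.tsum_mul_left, ENNReal.tsum_geometric]
      _ ≤ ((Cs + 1 : ℝ≥0) : ℝ≥0∞) * (Q * X) + Cl * Q * X * (1 - ρ)⁻¹ := by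
          refine add_le_add (mul_le_mul' le_rfl ?_) le_rfl
          calc X = 1 * X := (one_mul X).symm
            _ ≤ Q * X := mul_le_mul' hQ1 le_rfl
      _ = ((Cl * ((1 - ρ)⁻¹).toNNReal + (Cs + 1) : ℝ≥0) : ℝ≥0∞) * Q * X := by
          have h1 : ((Cl * ((1 - ρ)⁻¹).toNNReal + (Cs + 1) : ℝ≥0) : ℝ≥0∞) =
              Cl * (1 - ρ)⁻¹ + ((Cs + 1 : ℝ≥0) : ℝ≥0∞) := by
            rw [ENNReal.coe_add (Cl * ((1 - ρ)⁻¹).toNNReal), ENNReal.coe_mul,
              ENNReal.coe_toNNReal hG]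
          rw [h1]
          ring
      _ = _ := by rw [hQ, hX]

end Pool.Agent.Lib.MP_ff3fe0_an_SPH2
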