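import Pool.Agent.Lib.MP_ff3fe0_an_SPH2.Defs2
import Pool.Agent.Lib.MP_ff3fe0_an_SPH.SmA

set_option autoImplicit false

/-!
# The derivatives of the kernels under rotations
-/

namespace Pool.Agent.Lib.MP_ff3fe0_an_SPH2

open MeasureTheory Metric Set
open scoped ENNReal NNReal ContDiff FourierTransform Pointwise
open Pool.Agent.Lib.MP_ff3fe0_an
open Pool.Agent.Lib.MP_ff3fe0_an_SPH

/-- continuous functions on the circle are integrable -/
private theorem rotQ_int {F : Type*} [NormedAddCommGroup F] {f : Sph 2 → F}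
    (hf : Continuous f) : Integrable f (sigma 2) := by
  have := sigma_prob (d := 2) (by norm_num)
  exact hf.integrable_of_hasCompactSupport (HasCompactSupport.of_compactSpace f)

/-- differentiation under the integral over the circle -/
private theorem rotQ_deriv {F : Type*} [NormedAddCommGroup F] [NormedSpace ℝ F]
    {f f' : ℝ → Sph 2 → F} (hf : ∀ s, Continuous (f s))
    (hf' : Continuous (fun p : ℝ × Sph 2 => f' p.1 p.2))
    (hd' : ∀ w s, HasDerivAt (fun s => f s w) (f' s w) s) (s₀ : ℝ) :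
    HasDerivAt (fun s => ∫ w, f s w ∂(sigma 2)) (∫ w, f' s₀ w ∂(sigma 2)) s₀ := by
  have := sigma_prob (d := 2) (by norm_num)
  have hK : IsCompact (closedBall s₀ 1 ×ˢ (univ : Set (Sph 2))) :=
    (isCompact_closedBall s₀ 1).prod isCompact_univ
  obtain ⟨M, hM⟩ := hK.exists_bound_of_continuousOn hf'.continuousOn
  have hc0 : Continuous (f' s₀) := hf'.comp (Continuous.prodMk continuous_const continuous_id)
  refine (hasDerivAt_integral_of_dominated_loc_of_deriv_le (bound := fun _ => M)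
    (closedBall_mem_nhds s₀ one_pos) ?_ (rotQ_int (hf s₀)) ?_ ?_ (integrable_const M) ?_).2
  · exact Filter.Eventually.of_forall fun s => (rotQ_int (hf s)).aestronglyMeasurable
  · exact (rotQ_int hc0).aestronglyMeasurable
  · refine Filter.Eventually.of_forall fun w s hs => ?_
    exact hM (s, w) ⟨hs, mem_univ _⟩
  · exact Filter.Eventually.of_forall fun w s _ => hd' w s

/-! ### The rotation -/

private theorem rotQ_add (u v : E 2) : rot (u + v) = rot u + rot v := by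
  ext i
  fin_cases i
  · simp [rot]
    ring
  · simp [rot]

private theorem rotQ_smul (a : ℝ) (u : E 2) : rot (a • u) = a • rot u := by
  ext i
  fin_cases i <;> simp [rot]

private theorem rotQ_norm (u : E 2) : ‖rot u‖ = ‖u‖ := by
  rw [EuclideanSpace.norm_eq, EuclideanSpace.norm_eq]
  congr 1
  simp [rot, Fin.sum_univ_two]
  ring

private theorem rotQ_cont : Continuous rot := by
  unfold rot
  refine (PiLp.continuous_toLp 2 _).comp (continuous_pi fun i => ?_)
  fin_cases i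
  · exact ((EuclideanSpace.proj (𝕜 := ℝ) (1 : Fin 2)).continuous).neg
  · exact (EuclideanSpace.proj (𝕜 := ℝ) (0 : Fin 2)).continuous

/-! ### Reflections -/

private noncomputable def rotQ_u (θ : ℝ) : E 2 :=
  Real.cos θ • EuclideanSpace.single 0 (1 : ℝ) + Real.sin θ • EuclideanSpace.single 1 (1 : ℝ)

private theorem rotQ_u_norm (θ : ℝ) : ‖rotQ_u θ‖ = 1 := by
  rw [EuclideanSpace.norm_eq, Real.sqrt_eq_one]
  simp [rotQ_u, Fin.sum_univ_two]

private noncomputable def rotQ_v (θ : ℝ) : E 2 :=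
  -Real.sin θ • EuclideanSpace.single 0 (1 : ℝ) + Real.cos θ • EuclideanSpace.single 1 (1 : ℝ)

private theorem rotQ_u_deriv (θ : ℝ) : HasDerivAt rotQ_u (rotQ_v θ) θ :=
  ((Real.hasDerivAt_cos θ).smul_const _).add ((Real.hasDerivAt_sin θ).smul_const _)

private theorem rotQ_u_cont : Continuous rotQ_u :=
  continuous_iff_continuousAt.2 fun θ => (rotQ_u_deriv θ).continuousAt

private theorem rotQ_v_cont : Continuous rotQ_v := by
  unfold rotQ_v
  fun_prop

private noncomputable def rotQ_A (θ : ℝ) (w : E 2) : E 2 :=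
  (2 * inner ℝ (rotQ_u θ) w) • rotQ_u θ - w

private noncomputable def rotQ_B (θ : ℝ) (w : E 2) : E 2 :=
  (2 * inner ℝ (rotQ_u θ) w) • rotQ_v θ + (2 * inner ℝ (rotQ_v θ) w) • rotQ_u θ

private theorem rotQ_A_deriv (w : E 2) (θ : ℝ) :
    HasDerivAt (fun θ => rotQ_A θ w) (rotQ_B θ w) θ := by
  have h1 : HasDerivAt (fun θ => inner ℝ (rotQ_u θ) w) (inner ℝ (rotQ_v θ) w) θ := by
    have h0 := (rotQ_u_deriv θ).inner ℝ (hasDerivAt_const θ w)
    rw [inner_zero_right, zero_add] at h0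
    exact h0
  exact ((h1.const_mul 2).smul (rotQ_u_deriv θ)).sub_const w

private theorem rotQ_A_cont1 (s : ℝ) : Continuous (fun w : Sph 2 => rotQ_A s w) := by
  unfold rotQ_A
  fun_prop

private theorem rotQ_A_cont : Continuous (fun p : ℝ × Sph 2 => rotQ_A p.1 p.2) := by
  have huc := rotQ_u_cont
  unfold rotQ_A
  fun_prop

private theorem rotQ_B_cont : Continuous (fun p : ℝ × Sph 2 => rotQ_B p.1 p.2) := by
  have huc := rotQ_u_cont
  have hvc := rotQ_v_cont
  unfold rotQ_B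
  fun_prop

private theorem rotQ_refl (θ : ℝ) (w : E 2) :
    rotQ_A θ w = (ℝ ∙ rotQ_u θ).reflection w := by
  rw [Submodule.reflection_singleton_apply, rotQ_u_norm, rotQ_A]
  norm_num
  rw [two_smul, ← add_smul]
  congr 2
  ring

private theorem rotQ_const (G : E 2 → ℝ) (θ : ℝ) :
    ∫ w : Sph 2, G (rotQ_A θ w) ∂(sigma 2) = ∫ w : Sph 2, G w ∂(sigma 2) := by
  have h := integral_sigma_isometry (d := 2) (by norm_num) ((ℝ ∙ rotQ_u θ).reflection) G
  rw [← h]
  refine integral_congr_ae (Filter.Eventually.of_forall fun w => ?_)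
  simp only [rotQ_refl]

private theorem rotQ_BA (w : E 2) : rotQ_B 0 w = (2 : ℝ) • rot (rotQ_A 0 w) := by
  have hu0 : rotQ_u 0 = EuclideanSpace.single 0 (1 : ℝ) := by simp [rotQ_u]
  have hv0 : rotQ_v 0 = EuclideanSpace.single 1 (1 : ℝ) := by simp [rotQ_v]
  rw [rotQ_B, rotQ_A, hu0, hv0, EuclideanSpace.inner_single_left,
    EuclideanSpace.inner_single_left]
  ext i
  fin_cases i
  · simp [rot]
  · simp [rot]
    ring

/-- the integral of a derivative along the circle is zero -/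
private theorem rotQ_zero {G : E 2 → ℝ} (hG : ContDiff ℝ 1 G) :
    ∫ w : Sph 2, fderiv ℝ G w (rot w) ∂(sigma 2) = 0 := by
  have hpr := sigma_prob (d := 2) (by norm_num)
  have hGd : Differentiable ℝ G := hG.differentiable (by simp)
  have hGc : Continuous (fderiv ℝ G) := hG.continuous_fderiv (by simp)
  have c1 : ∀ s : ℝ, Continuous fun w : Sph 2 => G (rotQ_A s w) := fun s =>
    hGd.continuous.comp (rotQ_A_cont1 s)
  have c2 : Continuous fun p : ℝ × Sph 2 =>
      fderiv ℝ G (rotQ_A p.1 p.2) (rotQ_B p.1 p.2) :=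
    (hGc.comp rotQ_A_cont).clm_apply rotQ_B_cont
  have c3 : ∀ (w : Sph 2) (s : ℝ), HasDerivAt (fun s => G (rotQ_A s w))
      (fderiv ℝ G (rotQ_A s w) (rotQ_B s w)) s := fun w s =>
    (hGd _).hasFDerivAt.comp_hasDerivAt s (rotQ_A_deriv w s)
  have hder : HasDerivAt (fun θ => ∫ w : Sph 2, G (rotQ_A θ w) ∂(sigma 2))
      (∫ w : Sph 2, fderiv ℝ G (rotQ_A 0 w) (rotQ_B 0 w) ∂(sigma 2)) 0 :=
    rotQ_deriv c1 c2 c3 0
  have h1 : HasDerivAt (fun θ => ∫ w : Sph 2, G (rotQ_A θ w) ∂(sigma 2)) 0 0 := by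
    have h2 : (fun θ => ∫ w : Sph 2, G (rotQ_A θ w) ∂(sigma 2)) =
        fun _ => ∫ w : Sph 2, G w ∂(sigma 2) := funext (rotQ_const G)
    rw [h2]
    exact hasDerivAt_const _ _
  have h3 := hder.unique h1
  have h4 := rotQ_const (fun w => fderiv ℝ G w (rot w)) 0
  have h5 : ∫ w : Sph 2, fderiv ℝ G (rotQ_A 0 w) (rotQ_B 0 w) ∂(sigma 2) =
      2 * ∫ w : Sph 2, fderiv ℝ G (rotQ_A 0 w) (rot (rotQ_A 0 w)) ∂(sigma 2) := by
    rw [← integral_const_mul]
    refine integral_congr_ae (Filter.Eventually.of_forall fun w => ?_)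
    simp only [rotQ_BA, map_smul, smul_eq_mul]
  rw [← h4]
  linarith

/-! ### The measure of an arc -/

/-- the normalised measure of the directions near a line -/
private theorem rotQ_strip (s : ℝ) (hs : 0 ≤ s) :
    sigma 2 {w : Sph 2 | |(w : E 2) 1| ≤ s} ≤
      ENNReal.ofReal (4 * s) / volume (ball (0 : E 2) 1) := by
  have : Nontrivial (E 2) := inferInstance
  have hm : MeasurableSet {w : Sph 2 | |(w : E 2) 1| ≤ s} := by
    have h1 : Continuous (fun w : Sph 2 => |(w : E 2) 1|) :=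
      ((EuclideanSpace.proj (𝕜 := ℝ) (1 : Fin 2)).continuous.comp continuous_subtype_val).abs
    exact (isClosed_le h1 continuous_const).measurableSet
  have hd' : ((2 : ℕ) : ℝ≥0∞) ≠ 0 := by simp
  have hd'' : ((2 : ℕ) : ℝ≥0∞) ≠ ⊤ := by simp
  have e1 : sigma 2 {w : Sph 2 | |(w : E 2) 1| ≤ s} =
      volume (Ioo (0 : ℝ) 1 • ((↑) '' {w : Sph 2 | |(w : E 2) 1| ≤ s} : Set (E 2))) /
        volume (ball (0 : E 2) 1) := by
    rw [sigma, Measure.smul_apply, Measure.toSphere_apply' _ hm,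
      Measure.toSphere_apply_univ, smul_eq_mul, finrank_euclideanSpace_fin]
    rw [ENNReal.mul_inv (Or.inl hd') (Or.inl hd''), ENNReal.div_eq_inv_mul]
    rw [mul_assoc, ← mul_assoc (volume (ball (0 : E 2) 1))⁻¹,
      mul_comm (volume (ball (0 : E 2) 1))⁻¹,
      mul_assoc, ← mul_assoc, ENNReal.inv_mul_cancel hd' hd'', one_mul]
  rw [e1]
  refine ENNReal.div_le_div_right ?_ _
  have h2 : (Ioo (0 : ℝ) 1 • ((↑) '' {w : Sph 2 | |(w : E 2) 1| ≤ s} : Set (E 2))) ⊆
      (MeasurableEquiv.toLp 2 (Fin 2 → ℝ)).symm ⁻¹'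
        (Set.pi univ (fun i : Fin 2 => if i = 0 then Icc (-1 : ℝ) 1 else Icc (-s) s)) := by
    intro z hz
    rw [Set.mem_smul] at hz
    obtain ⟨r, hr, y, ⟨w, hw, rfl⟩, rfl⟩ := hz
    have hw1 : ‖(w : E 2)‖ = 1 := by simp
    rw [Set.mem_preimage, Set.mem_univ_pi]
    have hco : ∀ i : Fin 2, |(w : E 2) i| ≤ 1 := by
      intro i
      have := PiLp.norm_apply_le (w : E 2) i
      rwa [hw1, Real.norm_eq_abs] at this
    have hr0 : 0 < r := hr.1
    have hr1 : r < 1 := hr.2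
    intro i
    fin_cases i
    · have h3 := abs_le.1 (hco 0)
      show (r • (w : E 2)) 0 ∈ Icc (-1 : ℝ) 1
      rw [PiLp.smul_apply, smul_eq_mul, mem_Icc]
      constructor <;> nlinarith
    · have h3 : |(w : E 2) 1| ≤ s := hw
      have h4 := abs_le.1 h3
      show (r • (w : E 2)) 1 ∈ Icc (-s : ℝ) s
      rw [PiLp.smul_apply, smul_eq_mul, mem_Icc]
      constructor <;> nlinarith
  refine (measure_mono h2).trans ?_
  have hmp := EuclideanSpace.volume_preserving_symm_measurableEquiv_toLp (Fin 2)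
  rw [hmp.measure_preimage]
  · rw [volume_pi_pi, Fin.prod_univ_two]
    simp only [if_true, Fin.isValue, one_ne_zero, if_false, Real.volume_Icc]
    rw [← ENNReal.ofReal_mul (by norm_num)]
    refine ENNReal.ofReal_le_ofReal ?_
    nlinarith
  · refine (MeasurableSet.univ_pi fun i => ?_).nullMeasurableSet
    split_ifs <;> exact measurableSet_Icc

/-- the normalised measure of an arc -/
private theorem rotQ_arc : ∃ C : ℝ, 0 ≤ C ∧ ∀ (s : ℝ), 0 ≤ s → ∀ c : E 2, ‖c‖ = 1 →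
    (sigma 2).real {w : Sph 2 | ‖(w : E 2) - c‖ ≤ s} ≤ C * s := by
  have hpr := sigma_prob (d := 2) (by norm_num)
  have hb0 : volume (ball (0 : E 2) 1) ≠ 0 := (measure_ball_pos _ _ one_pos).ne'
  have hbt : volume (ball (0 : E 2) 1) ≠ ⊤ := measure_ball_lt_top.ne
  refine ⟨4 / (volume (ball (0 : E 2) 1)).toReal, by positivity, fun s hs c hc => ?_⟩
  set e : E 2 := EuclideanSpace.single 0 1 with he
  have hen : ‖e‖ = 1 := by simp [he]
  set T := (ℝ ∙ (c - e))ᗮ.reflection with hT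
  have hTc : T c = e := Submodule.reflection_sub (by rw [hc, hen])
  have h1 : sigma 2 {w : Sph 2 | ‖(w : E 2) - c‖ ≤ s} ≤
      sigma 2 {w : Sph 2 | |(w : E 2) 1| ≤ s} := by
    have hms : MeasurableSet {w : E 2 | |w 1| ≤ s} := by
      have h1 : Continuous (fun w : E 2 => |w 1|) :=
        ((EuclideanSpace.proj (𝕜 := ℝ) (1 : Fin 2)).continuous).abs
      exact (isClosed_le h1 continuous_const).measurableSet
    have hm : MeasurableSet {w : Sph 2 | |(w : E 2) 1| ≤ s} :=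
      measurable_subtype_coe hms
    have hm1 : MeasurableSet {w : Sph 2 | ‖(w : E 2) - c‖ ≤ s} := by
      have h1 : Continuous (fun w : Sph 2 => ‖(w : E 2) - c‖) := by fun_prop
      exact (isClosed_le h1 continuous_const).measurableSet
    have h2 := lintegral_sigma_isometry (d := 2) (by norm_num) T
      ({w : E 2 | |w 1| ≤ s}.indicator (fun _ => (1 : ℝ≥0∞)))
    have h3 : ∫⁻ w : Sph 2, ({w : E 2 | |w 1| ≤ s}.indicator (fun _ => (1 : ℝ≥0∞))) w
        ∂(sigma 2) = sigma 2 {w : Sph 2 | |(w : E 2) 1| ≤ s} := by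
      rw [← lintegral_indicator_one hm]
      rfl
    rw [← h3, ← h2, ← lintegral_indicator_one hm1]
    refine lintegral_mono fun w => ?_
    by_cases hw : ‖(w : E 2) - c‖ ≤ s
    · rw [indicator_of_mem (by exact hw), indicator_of_mem]
      · exact le_rfl
      · show |(T (w : E 2)) 1| ≤ s
        have h4 : (T (w : E 2)) 1 = (T (w : E 2) - T c) 1 := by
          rw [hTc, he]
          simp
        rw [h4, ← Real.norm_eq_abs]
        refine (PiLp.norm_apply_le _ _).trans ?_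
        rw [← map_sub, T.norm_map]
        exact hw
    · rw [indicator_of_notMem (by exact hw)]
      exact bot_le
  have h2 := h1.trans (rotQ_strip s hs)
  have h3 := ENNReal.toReal_mono (ENNReal.div_lt_top ENNReal.ofReal_ne_top hb0).ne h2
  rw [ENNReal.toReal_div, ENNReal.toReal_ofReal (by positivity)] at h3
  rw [Measure.real]
  refine h3.trans (le_of_eq ?_)
  ring

/-! ### Bounds for the profiles -/

private theorem rotQ_cs {U : E 2 → ℝ} (hU : K2 U) : HasCompactSupport U := by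
  refine HasCompactSupport.intro (isCompact_closedBall (0 : E 2) 2) fun y hy => hU.supp y ?_
  rwa [mem_closedBall_zero_iff, not_le] at hy

private theorem rotQ_bd {U : E 2 → ℝ} (hU : K2 U) : ∃ C : ℝ, 0 ≤ C ∧ ∀ y, |U y| ≤ C := by
  obtain ⟨C, hC⟩ := (rotQ_cs hU).exists_bound_of_continuous hU.smooth.continuous
  exact ⟨C, (norm_nonneg _).trans (hC 0), hC⟩

private theorem rotQ_fbd {U : E 2 → ℝ} (hU : K2 U) :
    ∃ C : ℝ, 0 ≤ C ∧ ∀ y, ‖fderiv ℝ U y‖ ≤ C := by
  obtain ⟨C, hC⟩ := ((rotQ_cs hU).fderiv (𝕜 := ℝ)).exists_bound_of_continuous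
    (hU.smooth.continuous_fderiv (by simp))
  exact ⟨C, (norm_nonneg _).trans (hC 0), hC⟩

private theorem rotQ_f0 {U : E 2 → ℝ} (hU : K2 U) {y : E 2} (hy : 2 < ‖y‖) :
    fderiv ℝ U y = 0 := by
  have h1 : U =ᶠ[nhds y] fun _ => 0 := by
    have h2 : {z : E 2 | 2 < ‖z‖} ∈ nhds y :=
      (isOpen_lt continuous_const continuous_norm).mem_nhds hy
    filter_upwards [h2] with z hz using hU.supp z hz
  rw [h1.fderiv_eq]
  simp

/-! ### The derivative of the kernel -/

private theorem rotQ_hasF {Θ : E 2 → ℝ} (hΘ : K2 Θ) {L : ℝ} {β : E 2 → ℝ} (hβ : Amp L β)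
    (δ : ℝ) (t : ℝ) (x y : E 2) : HasFDerivAt (kk Θ β δ t x)
      ((δ ^ 2)⁻¹ • ∫ w : Sph 2, (-δ⁻¹ * β w) • fderiv ℝ Θ (δ⁻¹ • (x - t • (w : E 2) - y))
        ∂(sigma 2)) y := by
  have hpr := sigma_prob (d := 2) (by norm_num)
  have hβc : Continuous β := hβ.smooth.continuous
  have hΘc : Continuous Θ := hΘ.smooth.continuous
  have hΘf : Continuous (fderiv ℝ Θ) := hΘ.smooth.continuous_fderiv (by simp)
  obtain ⟨C, hC0, hC⟩ := rotQ_fbd hΘ
  have h1 : HasFDerivAt (fun y : E 2 => ∫ w : Sph 2, Θ (δ⁻¹ • (x - t • (w : E 2) - y)) * β w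
      ∂(sigma 2)) (∫ w : Sph 2, (-δ⁻¹ * β w) • fderiv ℝ Θ (δ⁻¹ • (x - t • (w : E 2) - y))
        ∂(sigma 2)) y := by
    have a1 : ∀ z : E 2, Continuous fun w : Sph 2 =>
        Θ (δ⁻¹ • (x - t • (w : E 2) - z)) * β w := fun z =>
      (hΘc.comp (by fun_prop)).mul (hβc.comp continuous_subtype_val)
    have a2 : Continuous fun w : Sph 2 =>
        (-δ⁻¹ * β w) • fderiv ℝ Θ (δ⁻¹ • (x - t • (w : E 2) - y)) :=
      (continuous_const.mul (hβc.comp continuous_subtype_val)).smul (hΘf.comp (by fun_prop))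
    refine hasFDerivAt_integral_of_dominated_of_fderiv_le
      (F := fun z (w : Sph 2) => Θ (δ⁻¹ • (x - t • (w : E 2) - z)) * β w)
      (F' := fun z (w : Sph 2) =>
        (-δ⁻¹ * β w) • fderiv ℝ Θ (δ⁻¹ • (x - t • (w : E 2) - z)))
      (bound := fun _ => |δ⁻¹| * C) (s := univ) Filter.univ_mem ?_ (rotQ_int (a1 y)) ?_ ?_
      (integrable_const _) ?_
    · exact Filter.Eventually.of_forall fun z => (rotQ_int (a1 z)).aestronglyMeasurable
    · exact (rotQ_int a2).aestronglyMeasurable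
    · refine Filter.Eventually.of_forall fun w z _ => ?_
      rw [norm_smul, norm_mul, norm_neg, Real.norm_eq_abs, Real.norm_eq_abs]
      have h2 : |β w| ≤ 1 := hβ.le_one w (by simp)
      calc |δ⁻¹| * |β w| * ‖fderiv ℝ Θ (δ⁻¹ • (x - t • (w : E 2) - z))‖
          ≤ |δ⁻¹| * 1 * C := by
            gcongr
            exact hC _
        _ = |δ⁻¹| * C := by ring
    · refine Filter.Eventually.of_forall fun w z _ => ?_
      have b1 : HasFDerivAt (fun z : E 2 => δ⁻¹ • (x - t • (w : E 2) - z))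
          (δ⁻¹ • (-ContinuousLinearMap.id ℝ (E 2))) z := by
        have b0 : HasFDerivAt (fun z : E 2 => x - t • (w : E 2) - z)
            (-ContinuousLinearMap.id ℝ (E 2)) z := (hasFDerivAt_id z).const_sub _
        exact b0.const_smul δ⁻¹
      have b2 := (hΘ.smooth.differentiable (by simp)
        (δ⁻¹ • (x - t • (w : E 2) - z))).hasFDerivAt.comp z b1
      have b3 := b2.mul_const (β w)
      refine b3.congr_fderiv ?_
      ext v
      simp
      ring
  exact h1.const_smul ((δ ^ 2)⁻¹)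

private theorem rotQ_fderiv {Θ : E 2 → ℝ} (hΘ : K2 Θ) {L : ℝ} {β : E 2 → ℝ} (hβ : Amp L β)
    (δ : ℝ) (t : ℝ) (x y v : E 2) : fderiv ℝ (kk Θ β δ t x) y v =
      (δ ^ 2)⁻¹ * ∫ w : Sph 2, -δ⁻¹ * β w * fderiv ℝ Θ (δ⁻¹ • (x - t • (w : E 2) - y)) v
        ∂(sigma 2) := by
  have hβc : Continuous β := hβ.smooth.continuous
  have hΘf : Continuous (fderiv ℝ Θ) := hΘ.smooth.continuous_fderiv (by simp)
  have a2 : Continuous fun w : Sph 2 =>
      (-δ⁻¹ * β w) • fderiv ℝ Θ (δ⁻¹ • (x - t • (w : E 2) - y)) :=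
    (continuous_const.mul (hβc.comp continuous_subtype_val)).smul (hΘf.comp (by fun_prop))
  rw [(rotQ_hasF hΘ hβ δ t x y).fderiv, ContinuousLinearMap.smul_apply,
    ContinuousLinearMap.integral_apply (rotQ_int a2), smul_eq_mul]
  rfl

theorem kk_contDiff {Θ : E 2 → ℝ} (hΘ : K2 Θ) {L : ℝ} {β : E 2 → ℝ} (hβ : Amp L β) {δ : ℝ}
    (hδ : 0 < δ) (t : ℝ) (x : E 2) : ContDiff ℝ 1 (kk Θ β δ t x) := by
  have hpr := sigma_prob (d := 2) (by norm_num)
  have hβc : Continuous β := hβ.smooth.continuous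
  have hΘf : Continuous (fderiv ℝ Θ) := hΘ.smooth.continuous_fderiv (by simp)
  obtain ⟨C, hC0, hC⟩ := rotQ_fbd hΘ
  rw [contDiff_one_iff_hasFDerivAt]
  refine ⟨fun y => (δ ^ 2)⁻¹ • ∫ w : Sph 2, (-δ⁻¹ * β w) •
    fderiv ℝ Θ (δ⁻¹ • (x - t • (w : E 2) - y)) ∂(sigma 2), ?_,
    fun y => rotQ_hasF hΘ hβ δ t x y⟩
  refine Continuous.const_smul (?_ : Continuous fun y : E 2 => ∫ w : Sph 2, (-δ⁻¹ * β w) •
    fderiv ℝ Θ (δ⁻¹ • (x - t • (w : E 2) - y)) ∂(sigma 2)) ((δ ^ 2)⁻¹)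
  refine continuous_of_dominated (bound := fun _ => |δ⁻¹| * C) ?_ ?_ (integrable_const _) ?_
  · intro y
    have a2 : Continuous fun w : Sph 2 =>
        (-δ⁻¹ * β w) • fderiv ℝ Θ (δ⁻¹ • (x - t • (w : E 2) - y)) :=
      (continuous_const.mul (hβc.comp continuous_subtype_val)).smul (hΘf.comp (by fun_prop))
    exact (rotQ_int a2).aestronglyMeasurable
  · intro z
    refine Filter.Eventually.of_forall fun w => ?_
    rw [norm_smul, norm_mul, norm_neg, Real.norm_eq_abs, Real.norm_eq_abs]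
    have h2 : |β w| ≤ 1 := hβ.le_one w (by simp)
    calc |δ⁻¹| * |β w| * ‖fderiv ℝ Θ (δ⁻¹ • (x - t • (w : E 2) - z))‖
        ≤ |δ⁻¹| * 1 * C := by
          gcongr
          exact hC _
      _ = |δ⁻¹| * C := by ring
  · refine Filter.Eventually.of_forall fun w => ?_
    have a3 : Continuous fun y : E 2 => δ⁻¹ • (x - t • (w : E 2) - y) := by fun_prop
    have a4 : Continuous fun y : E 2 => fderiv ℝ Θ (δ⁻¹ • (x - t • (w : E 2) - y)) :=
      hΘf.comp a3
    exact a4.const_smul (-δ⁻¹ * β w)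

theorem kk_div {Θ : E 2 → ℝ} {U : Fin 2 → E 2 → ℝ} (hU : ∀ i, K2 (U i))
    (h : ∀ y, Θ y = ∑ i, pd i (U i) y) {L : ℝ} {β : E 2 → ℝ} (hβ : Amp L β) {δ : ℝ}
    (hδ : 0 < δ) (t : ℝ) (x y : E 2) :
    kk Θ β δ t x y = - δ * ∑ i, pd i (kk (U i) β δ t x) y := by
  have hβc : Continuous β := hβ.smooth.continuous
  have hc : ∀ i, Continuous fun w : Sph 2 =>
      -δ⁻¹ * β w * fderiv ℝ (U i) (δ⁻¹ • (x - t • (w : E 2) - y)) (EuclideanSpace.single i 1) :=
    fun i => by
      have a3 : Continuous fun w : Sph 2 => δ⁻¹ • (x - t • (w : E 2) - y) := by fun_prop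
      have a4 : Continuous (fderiv ℝ (U i)) := (hU i).smooth.continuous_fderiv (by simp)
      exact (continuous_const.mul (hβc.comp continuous_subtype_val)).mul
        ((a4.comp a3).clm_apply continuous_const)
  simp only [pd]
  have hs : ∑ i, fderiv ℝ (kk (U i) β δ t x) y (EuclideanSpace.single i 1) =
      ∑ i, (δ ^ 2)⁻¹ * ∫ w : Sph 2, -δ⁻¹ * β w *
        fderiv ℝ (U i) (δ⁻¹ • (x - t • (w : E 2) - y)) (EuclideanSpace.single i 1)
          ∂(sigma 2) :=
    Finset.sum_congr rfl fun i _ => rotQ_fderiv (hU i) hβ δ t x y _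
  rw [hs, ← Finset.mul_sum, ← integral_finsetSum _ fun i _ => rotQ_int (hc i)]
  have hk : ∫ w : Sph 2, Θ (δ⁻¹ • (x - t • (w : E 2) - y)) * β w ∂(sigma 2) =
      -δ * ∫ w : Sph 2, ∑ i, -δ⁻¹ * β w *
        fderiv ℝ (U i) (δ⁻¹ • (x - t • (w : E 2) - y)) (EuclideanSpace.single i 1)
          ∂(sigma 2) := by
    rw [← integral_const_mul]
    refine integral_congr_ae (Filter.Eventually.of_forall fun w => ?_)
    simp only [h, pd]
    rw [Finset.sum_mul, Finset.mul_sum]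
    refine Finset.sum_congr rfl fun i _ => ?_
    field_simp
  rw [kk, hk]
  ring

theorem kk_rot {Θ : E 2 → ℝ} (hΘ : K2 Θ) : ∃ C : ℝ, ∀ L : ℝ, 1 ≤ L → ∀ β : E 2 → ℝ, Amp L β →
    ∀ δ ∈ Ioc (0 : ℝ) (1 / 64), ∀ t ∈ Icc (1 / 2 : ℝ) (5 / 2), ∀ x y,
      |fderiv ℝ (kk Θ β δ t x) y (rot (y - x))| ≤ C * L / δ := by
  obtain ⟨C0, hC0, hC0b⟩ := rotQ_bd hΘ
  obtain ⟨C1, hC1, hC1b⟩ := rotQ_fbd hΘ
  obtain ⟨Ca, hCa, hCab⟩ := rotQ_arc
  refine ⟨(2 * C1 + C0) * (Ca * 8), fun L hL β hβ δ hδ t ht x y => ?_⟩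
  have hpr := sigma_prob (d := 2) (by norm_num)
  have hδ0 : 0 < δ := hδ.1
  have hβc : Continuous β := hβ.smooth.continuous
  have hβf : Continuous (fderiv ℝ β) := hβ.smooth.continuous_fderiv (by simp)
  have hΘc : Continuous Θ := hΘ.smooth.continuous
  have hΘf : Continuous (fderiv ℝ Θ) := hΘ.smooth.continuous_fderiv (by simp)
  have hrot := rotQ_cont
  -- the derivative along the circle
  have hG : ContDiff ℝ 1 fun w : E 2 => Θ (δ⁻¹ • (x - t • w - y)) * β w :=
    ((hΘ.smooth.of_le (by exact_mod_cast le_top)).comp (by fun_prop)).mul hβ.smooth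
  have hz := rotQ_zero hG
  have hGd : ∀ w : E 2, fderiv ℝ (fun w : E 2 => Θ (δ⁻¹ • (x - t • w - y)) * β w) w (rot w) =
      -δ⁻¹ * t * β w * fderiv ℝ Θ (δ⁻¹ • (x - t • w - y)) (rot w) +
        Θ (δ⁻¹ • (x - t • w - y)) * fderiv ℝ β w (rot w) := by
    intro w
    have b1 : HasFDerivAt (fun w : E 2 => δ⁻¹ • (x - t • w - y))
        (δ⁻¹ • (-(t • ContinuousLinearMap.id ℝ (E 2)))) w := by
      have b0 : HasFDerivAt (fun w : E 2 => x - t • w - y)
          (-(t • ContinuousLinearMap.id ℝ (E 2))) w :=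
        (((hasFDerivAt_id w).const_smul t).const_sub x).sub_const y
      exact b0.const_smul δ⁻¹
    have b2 := (hΘ.smooth.differentiable (by simp)
      (δ⁻¹ • (x - t • w - y))).hasFDerivAt.comp w b1
    have b3 := b2.mul (hβ.smooth.differentiable (by simp) w).hasFDerivAt
    have b4 : HasFDerivAt (fun w : E 2 => Θ (δ⁻¹ • (x - t • w - y)) * β w) _ w := b3
    rw [b4.fderiv]
    simp
    ring
  simp only [hGd] at hz
  rw [rotQ_fderiv hΘ hβ]
  have c1 : Continuous fun w : Sph 2 =>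
      -δ⁻¹ * β w * fderiv ℝ Θ (δ⁻¹ • (x - t • (w : E 2) - y)) (rot (y - x)) :=
    (continuous_const.mul (hβc.comp continuous_subtype_val)).mul
      ((hΘf.comp (by fun_prop)).clm_apply continuous_const)
  have c2 : Continuous fun w : Sph 2 =>
      -δ⁻¹ * t * β w * fderiv ℝ Θ (δ⁻¹ • (x - t • (w : E 2) - y)) (rot w) +
        Θ (δ⁻¹ • (x - t • (w : E 2) - y)) * fderiv ℝ β w (rot w) :=
    ((continuous_const.mul (hβc.comp continuous_subtype_val)).mul
      ((hΘf.comp (by fun_prop)).clm_apply (hrot.comp continuous_subtype_val))).add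
      ((hΘc.comp (by fun_prop)).mul ((hβf.comp continuous_subtype_val).clm_apply
        (hrot.comp continuous_subtype_val)))
  have e1 : ∫ w : Sph 2, -δ⁻¹ * β w * fderiv ℝ Θ (δ⁻¹ • (x - t • (w : E 2) - y))
      (rot (y - x)) ∂(sigma 2) =
      ∫ w : Sph 2, (β w * fderiv ℝ Θ (δ⁻¹ • (x - t • (w : E 2) - y))
        (rot (δ⁻¹ • (x - t • (w : E 2) - y))) +
        Θ (δ⁻¹ • (x - t • (w : E 2) - y)) * fderiv ℝ β w (rot w)) ∂(sigma 2) := by
    have e2 : ∫ w : Sph 2, -δ⁻¹ * β w * fderiv ℝ Θ (δ⁻¹ • (x - t • (w : E 2) - y))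
        (rot (y - x)) ∂(sigma 2) =
        ∫ w : Sph 2, (-δ⁻¹ * β w * fderiv ℝ Θ (δ⁻¹ • (x - t • (w : E 2) - y)) (rot (y - x)) +
          (-δ⁻¹ * t * β w * fderiv ℝ Θ (δ⁻¹ • (x - t • (w : E 2) - y)) (rot w) +
            Θ (δ⁻¹ • (x - t • (w : E 2) - y)) * fderiv ℝ β w (rot w))) ∂(sigma 2) := by
      rw [integral_add (rotQ_int c1) (rotQ_int c2), hz, add_zero]
    rw [e2]
    refine integral_congr_ae (Filter.Eventually.of_forall fun w => ?_)
    have e3 : rot (δ⁻¹ • (x - t • (w : E 2) - y)) =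
        (-δ⁻¹) • rot (y - x) + (-δ⁻¹ * t) • rot w := by
      rw [← rotQ_smul, ← rotQ_smul, ← rotQ_add]
      congr 1
      module
    simp only [e3, map_add, map_smul, smul_eq_mul]
    ring
  rw [e1]
  -- the bound
  set g : Sph 2 → ℝ := fun w => β w * fderiv ℝ Θ (δ⁻¹ • (x - t • (w : E 2) - y))
        (rot (δ⁻¹ • (x - t • (w : E 2) - y))) +
        Θ (δ⁻¹ • (x - t • (w : E 2) - y)) * fderiv ℝ β w (rot w) with hg
  have hg0 : ∀ w : Sph 2, 2 < ‖δ⁻¹ • (x - t • (w : E 2) - y)‖ → g w = 0 := by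
    intro w hw
    rw [hg]
    simp only
    rw [hΘ.supp _ hw, rotQ_f0 hΘ hw]
    simp
  have hgb : ∀ w : Sph 2, |g w| ≤ (2 * C1 + C0) * L := by
    intro w
    by_cases hw : 2 < ‖δ⁻¹ • (x - t • (w : E 2) - y)‖
    · rw [hg0 w hw, abs_zero]
      positivity
    · rw [not_lt] at hw
      have hw1 : ‖(w : E 2)‖ = 1 := by simp
      have d1 : |β w| ≤ 1 := hβ.le_one w hw1
      have d2 : |fderiv ℝ Θ (δ⁻¹ • (x - t • (w : E 2) - y))
          (rot (δ⁻¹ • (x - t • (w : E 2) - y)))| ≤ C1 * 2 := by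
        have d8 := (fderiv ℝ Θ (δ⁻¹ • (x - t • (w : E 2) - y))).le_opNorm
          (rot (δ⁻¹ • (x - t • (w : E 2) - y)))
        rw [rotQ_norm, Real.norm_eq_abs] at d8
        refine d8.trans ?_
        gcongr
        exact hC1b _
      have d3 : |Θ (δ⁻¹ • (x - t • (w : E 2) - y))| ≤ C0 := hC0b _
      have d4 : |fderiv ℝ β w (rot w)| ≤ L * 1 := by
        have d9 := (fderiv ℝ β (w : E 2)).le_opNorm (rot (w : E 2))
        rw [rotQ_norm, hw1, Real.norm_eq_abs] at d9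
        refine d9.trans ?_
        gcongr
        exact hβ.deriv_le w hw1
      have hL0 : 0 ≤ L := by linarith
      have d5 : |g w| ≤ |β w| * |fderiv ℝ Θ (δ⁻¹ • (x - t • (w : E 2) - y))
          (rot (δ⁻¹ • (x - t • (w : E 2) - y)))| +
          |Θ (δ⁻¹ • (x - t • (w : E 2) - y))| * |fderiv ℝ β w (rot w)| := by
        rw [← abs_mul, ← abs_mul]
        exact abs_add_le _ _
      have d6 : |β w| * |fderiv ℝ Θ (δ⁻¹ • (x - t • (w : E 2) - y))
          (rot (δ⁻¹ • (x - t • (w : E 2) - y)))| +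
          |Θ (δ⁻¹ • (x - t • (w : E 2) - y))| * |fderiv ℝ β w (rot w)| ≤
          1 * (C1 * 2) + C0 * (L * 1) := by gcongr
      have d7 : 1 * (C1 * 2) + C0 * (L * 1) ≤ (2 * C1 + C0) * L := by nlinarith
      exact d5.trans (d6.trans d7)
  have key : |∫ w, g w ∂(sigma 2)| ≤ (2 * C1 + C0) * L * (Ca * (8 * δ)) := by
    by_cases hex : ∃ c : Sph 2, ‖δ⁻¹ • (x - t • (c : E 2) - y)‖ ≤ 2
    · obtain ⟨c, hc⟩ := hex
      have hc1 : ‖(c : E 2)‖ = 1 := by simp
      have hn : ∀ w : Sph 2, ‖δ⁻¹ • (x - t • (w : E 2) - y)‖ ≤ 2 →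
          ‖x - t • (w : E 2) - y‖ ≤ 2 * δ := by
        intro w hw
        rw [norm_smul, norm_inv, Real.norm_eq_abs, abs_of_pos hδ0] at hw
        rw [inv_mul_le_iff₀ hδ0] at hw
        linarith
      have hsub : ∀ w : Sph 2, w ∉ {w : Sph 2 | ‖(w : E 2) - c‖ ≤ 8 * δ} → g w = 0 := by
        intro w hw
        refine hg0 w ?_
        by_contra hcon
        rw [not_lt] at hcon
        refine hw ?_
        have f1 := hn w hcon
        have f2 := hn c hc
        have f3 : t • ((w : E 2) - c) = (x - t • (c : E 2) - y) - (x - t • (w : E 2) - y) := by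
          module
        have f4 : t * ‖(w : E 2) - c‖ ≤ 4 * δ := by
          have f5 : t * ‖(w : E 2) - c‖ = ‖t • ((w : E 2) - c)‖ := by
            rw [norm_smul, Real.norm_eq_abs, abs_of_pos (by linarith [ht.1])]
          rw [f5, f3]
          refine (norm_sub_le _ _).trans ?_
          linarith
        show ‖(w : E 2) - c‖ ≤ 8 * δ
        nlinarith [norm_nonneg ((w : E 2) - c), ht.1]
      rw [← setIntegral_eq_integral_of_forall_compl_eq_zero hsub]
      have f6 := norm_setIntegral_le_of_norm_le_const (μ := sigma 2) (f := g)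
        (s := {w : Sph 2 | ‖(w : E 2) - c‖ ≤ 8 * δ}) (C := (2 * C1 + C0) * L)
        (measure_lt_top _ _) (fun w _ => hgb w)
      refine f6.trans ?_
      have f7 := hCab (8 * δ) (by positivity) c hc1
      have hL0 : 0 ≤ L := by linarith
      gcongr
    · push Not at hex
      have f8 : ∀ w, g w = 0 := fun w => hg0 w (hex w)
      simp only [f8, integral_zero, abs_zero]
      have hL0 : 0 ≤ L := by linarith
      positivity
  rw [abs_mul, abs_of_pos (by positivity)]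
  calc (δ ^ 2)⁻¹ * |∫ w, g w ∂(sigma 2)|
      ≤ (δ ^ 2)⁻¹ * ((2 * C1 + C0) * L * (Ca * (8 * δ))) := by gcongr
    _ = (2 * C1 + C0) * (Ca * 8) * L / δ := by
      field_simp

end Pool.Agent.Lib.MP_ff3fe0_an_SPH2
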