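import Pool.Agent.Lib.MP_ff3fe0_an_SPH2.KbA
import Pool.Agent.Lib.MP_ff3fe0_an_SPH2.RotQ
import Pool.Agent.Lib.MP_ff3fe0_an_SPH2.IbpA
import Pool.Agent.Lib.MP_ff3fe0_an_SPH2.AreaA

set_option autoImplicit false

/-!
# The kernel of the composition
-/

namespace Pool.Agent.Lib.MP_ff3fe0_an_SPH2

open MeasureTheory Metric Set
open scoped ENNReal NNReal ContDiff FourierTransform
open Pool.Agent.Lib.MP_ff3fe0_an
open Pool.Agent.Lib.MP_ff3fe0_an_SPH

private theorem kqA_base {f g : E 2 → ℝ} {x x' : E 2} {t t' δ M N : ℝ} (hM : 0 ≤ M)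
    (hfin : volume (ann x x' t t' δ) < ⊤)
    (hf : ∀ y, |f y| ≤ M) (hg : ∀ y, |g y| ≤ N)
    (hf0 : ∀ y, f y ≠ 0 → |‖x - y‖ - t| ≤ 2 * δ) (hg0 : ∀ y, g y ≠ 0 → |‖x' - y‖ - t'| ≤ 2 * δ) :
    |∫ y, f y * g y| ≤ M * N * (volume (ann x x' t t' δ)).toReal := by
  have h1 : ∫ y, f y * g y = ∫ y in ann x x' t t' δ, f y * g y := by
    rw [setIntegral_eq_integral_of_forall_compl_eq_zero]
    intro y hy
    by_contra h
    have ha : f y ≠ 0 := left_ne_zero_of_mul h
    have hb : g y ≠ 0 := right_ne_zero_of_mul h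
    exact hy ⟨hf0 y ha, hg0 y hb⟩
  rw [h1, ← Real.norm_eq_abs]
  have h2 := norm_setIntegral_le_of_norm_le_const (f := fun y => f y * g y)
    (C := M * N) hfin (fun y _ => by
      rw [Real.norm_eq_abs, abs_mul]
      exact mul_le_mul (hf y) (hg y) (abs_nonneg _) hM)
  exact h2

private theorem kqA_toReal {V : ℝ≥0∞} {C : ℝ≥0} {r : ℝ} (hr : 0 ≤ r)
    (h : V ≤ C * ENNReal.ofReal r) : V.toReal ≤ C * r := by
  have h1 : (C : ℝ≥0∞) * ENNReal.ofReal r ≠ ⊤ :=
    ENNReal.mul_ne_top ENNReal.coe_ne_top ENNReal.ofReal_ne_top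
  have h2 := ENNReal.toReal_mono h1 h
  rw [ENNReal.toReal_mul, ENNReal.toReal_ofReal hr] at h2
  simpa using h2

private theorem kqA_compact (x x' : E 2) (t t' δ : ℝ) : IsCompact (ann x x' t t' δ) := by
  apply IsCompact.of_isClosed_subset (isCompact_closedBall x (t + 2 * δ))
  · have h1 : IsClosed {y : E 2 | |‖x - y‖ - t| ≤ 2 * δ} :=
      isClosed_le (by fun_prop) continuous_const
    have h2 : IsClosed {y : E 2 | |‖x' - y‖ - t'| ≤ 2 * δ} :=
      isClosed_le (by fun_prop) continuous_const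
    exact h1.inter h2
  · intro y hy
    have h := (abs_le.mp hy.1).2
    rw [mem_closedBall, dist_comm, dist_eq_norm]
    linarith

private theorem kqA_near {Θ : E 2 → ℝ} (hΘ : K2 Θ) {L : ℝ} {β : E 2 → ℝ} (hβ : Amp L β) {δ : ℝ}
    (hδ : 0 < δ) {t : ℝ} (ht : 0 ≤ t) {x y : E 2} (h : 2 * δ < |‖x - y‖ - t|) :
    kk Θ β δ t x =ᶠ[nhds y] 0 := by
  have h1 : IsOpen {y : E 2 | 2 * δ < |‖x - y‖ - t|} :=
    isOpen_lt continuous_const (by fun_prop)
  filter_upwards [h1.mem_nhds h] with z hz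
  by_contra h2
  have h3 := (kk_supp hΘ hβ hδ ht h2).1
  exact absurd h3 (not_le.mpr hz)

private theorem kqA_cpt {Θ : E 2 → ℝ} (hΘ : K2 Θ) {L : ℝ} {β : E 2 → ℝ} (hβ : Amp L β) {δ : ℝ}
    (hδ : 0 < δ) {t : ℝ} (ht : 0 ≤ t) (x : E 2) : HasCompactSupport (kk Θ β δ t x) := by
  apply HasCompactSupport.intro (isCompact_closedBall x (t + 2 * δ))
  intro y hy
  by_contra h
  have h3 := (abs_le.mp (kk_supp hΘ hβ hδ ht h).1).2
  apply hy
  rw [mem_closedBall, dist_comm, dist_eq_norm]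
  linarith

/-- The bounds for the kernel of the composition. -/
theorem kq {Θ : E 2 → ℝ} (hΘ : DV Θ) : ∃ C : ℝ, 0 < C ∧ ∀ (L : ℝ) (β β' : E 2 → ℝ), 1 ≤ L →
    Amp L β → Amp L β' → ∀ δ ∈ Ioc (0 : ℝ) (1 / 64), ∀ t ∈ Icc (1 / 2 : ℝ) (5 / 2),
    ∀ t' ∈ Icc (1 / 2 : ℝ) (5 / 2), ∀ x x' : E 2, ‖x - x'‖ ≤ 1 / 8 →
      |∫ y, kk Θ β δ t x y * kk Θ β' δ t' x' y| ≤ C / δ ∧
      (δ ≤ ‖x - x'‖ → qq x' t' x t < 32 * (δ * ‖x - x'‖ + δ ^ 2) →
        |∫ y, kk Θ β δ t x y * kk Θ β' δ t' x' y| ≤ C / √(δ * ‖x - x'‖)) ∧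
      (32 * (δ * ‖x - x'‖ + δ ^ 2) ≤ qq x' t' x t →
        |∫ y, kk Θ β δ t x y * kk Θ β' δ t' x' y| ≤ C / √(qq x' t' x t) ∧
        |∫ y, kk Θ β δ t x y * kk Θ β' δ t' x' y| ≤
          C * L * δ / (qq x' t' x t * √(qq x' t' x t))) := by
  obtain ⟨hΘ1, U, hU, hΘU⟩ := hΘ
  obtain ⟨B0, hB0⟩ := kk_bound hΘ1
  choose B1 hB1 using fun i => kk_bound (hU i)
  obtain ⟨R0, hR0⟩ := kk_rot hΘ1
  choose R1 hR1 using fun i => kk_rot (hU i)
  obtain ⟨A1, hA1⟩ := area_one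
  obtain ⟨A2, hA2⟩ := area_R2
  obtain ⟨A3, hA3⟩ := area_R1
  obtain ⟨I1, hI1⟩ := ibp
  set B : ℝ := |B0| + |B1 0| + |B1 1| with hB
  set R : ℝ := |R0| + |R1 0| + |R1 1| with hR
  have hB00 : 0 ≤ B := by positivity
  have hR00 : 0 ≤ R := by positivity
  have hB0' : B0 ≤ B := by
    have := le_abs_self B0
    have := abs_nonneg (B1 0)
    have := abs_nonneg (B1 1)
    linarith
  have hR0' : R0 ≤ R := by
    have := le_abs_self R0
    have := abs_nonneg (R1 0)
    have := abs_nonneg (R1 1)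
    linarith
  have hB1' : ∀ i, B1 i ≤ B := by
    intro i
    have := le_abs_self (B1 i)
    have := abs_nonneg (B1 0)
    have := abs_nonneg (B1 1)
    have := abs_nonneg B0
    fin_cases i
    · simp only [Fin.zero_eta, Fin.isValue] at *
      linarith
    · simp only [Fin.mk_one, Fin.isValue] at *
      linarith
  have hR1' : ∀ i, R1 i ≤ R := by
    intro i
    have := le_abs_self (R1 i)
    have := abs_nonneg (R1 0)
    have := abs_nonneg (R1 1)
    have := abs_nonneg R0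
    fin_cases i
    · simp only [Fin.zero_eta, Fin.isValue] at *
      linarith
    · simp only [Fin.mk_one, Fin.isValue] at *
      linarith
  have hA1' : (0 : ℝ) ≤ A1 := A1.coe_nonneg
  have hA2' : (0 : ℝ) ≤ A2 := A2.coe_nonneg
  have hA3' : (0 : ℝ) ≤ A3 := A3.coe_nonneg
  refine ⟨1 + B * B * A1 + B * B * A3 + B * B * A2 + |I1| * A2 * (4 * B * R + 16 * B ^ 2),
    by positivity, ?_⟩
  set C : ℝ := 1 + B * B * A1 + B * B * A3 + B * B * A2 +
    |I1| * A2 * (4 * B * R + 16 * B ^ 2) with hC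
  intro L β β' hL hβ hβ' δ hδ t ht t' ht' x x' hx
  have hδ0 : 0 < δ := hδ.1
  have ht0 : 0 ≤ t := by linarith [ht.1]
  have ht0' : 0 ≤ t' := by linarith [ht'.1]
  have hq1 : qq x' t' x t ≤ 1 / 64 := by
    unfold qq
    nlinarith [norm_nonneg (x - x'), sq_nonneg (t - t')]
  have hfin : volume (ann x x' t t' δ) < ⊤ := (kqA_compact x x' t t' δ).measure_lt_top
  have hb : ∀ y, |kk Θ β δ t x y| ≤ B / δ := fun y =>
    (hB0 L β hβ δ hδ t ht x y).trans (by gcongr)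
  have hb' : ∀ y, |kk Θ β' δ t' x' y| ≤ B / δ := fun y =>
    (hB0 L β' hβ' δ hδ t' ht' x' y).trans (by gcongr)
  have hBδ : 0 ≤ B / δ := by positivity
  have hbase := kqA_base hBδ hfin hb hb'
    (fun y h => (kk_supp hΘ1 hβ hδ0 ht0 h).1) (fun y h => (kk_supp hΘ1 hβ' hδ0 ht0' h).1)
  have hBB : 0 ≤ B / δ * (B / δ) := mul_nonneg hBδ hBδ
  have hI0 : 0 ≤ |I1| * A2 * (4 * B * R + 16 * B ^ 2) := by positivity
  have hc1 : 0 ≤ B * B * A1 := by positivity
  have hc2 : 0 ≤ B * B * A2 := by positivity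
  have hc3 : 0 ≤ B * B * A3 := by positivity
  refine ⟨?_, ?_, ?_⟩
  · have h1 := kqA_toReal hδ0.le (hA1 x x' t ht t' δ hδ)
    refine (hbase.trans (mul_le_mul_of_nonneg_left h1 hBB)).trans ?_
    have h2 : B / δ * (B / δ) * (A1 * δ) = B * B * A1 / δ := by
      field_simp
    rw [h2]
    gcongr
    linarith
  · intro h1 h2
    have hρ : 0 < ‖x - x'‖ := lt_of_lt_of_le hδ0 h1
    have h3 := kqA_toReal (by positivity) (hA3 x x' hx t ht t' ht' δ hδ h1 h2)
    refine (hbase.trans (mul_le_mul_of_nonneg_left h3 hBB)).trans ?_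
    have h4 : B / δ * (B / δ) * (A3 * (δ * √(δ / ‖x - x'‖))) =
        B * B * A3 / √(δ * ‖x - x'‖) := by
      rw [Real.sqrt_div hδ0.le, Real.sqrt_mul hδ0.le]
      have h5 : √δ * √δ = δ := Real.mul_self_sqrt hδ0.le
      have h6 : 0 < √δ := Real.sqrt_pos.mpr hδ0
      have h7 : 0 < √‖x - x'‖ := Real.sqrt_pos.mpr hρ
      rw [div_mul_div_comm]
      rw [div_mul_eq_mul_div, div_eq_div_iff (by positivity) (by positivity)]
      have h8 : B * B * (↑A3 * (δ * (√δ / √‖x - x'‖))) * (√δ * √‖x - x'‖) =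
        B * B * A3 * (δ * (√δ * √δ)) := by
        field_simp
      rw [h8, h5]
    rw [h4]
    gcongr
    linarith
  · intro h1
    have hq0 : 0 < qq x' t' x t := by
      have : 0 < 32 * (δ * ‖x - x'‖ + δ ^ 2) := by positivity
      linarith
    have hs0 : 0 < √(qq x' t' x t) := Real.sqrt_pos.mpr hq0
    have hss : √(qq x' t' x t) * √(qq x' t' x t) = qq x' t' x t := Real.mul_self_sqrt hq0.le
    have hs1 : √(qq x' t' x t) ≤ 1 / 8 := by
      rw [show (1 / 8 : ℝ) = √(1 / 64) by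
        rw [show (1 / 64 : ℝ) = (1 / 8) ^ 2 by norm_num]
        rw [Real.sqrt_sq (by norm_num)]]
      exact Real.sqrt_le_sqrt hq1
    have h3 := kqA_toReal (by positivity) (hA2 x x' hx t ht t' ht' δ hδ h1)
    refine ⟨?_, ?_⟩
    · refine (hbase.trans (mul_le_mul_of_nonneg_left h3 hBB)).trans ?_
      have h4 : B / δ * (B / δ) * (A2 * (δ ^ 2 / √(qq x' t' x t))) =
          B * B * A2 / √(qq x' t' x t) := by
        field_simp
      rw [h4]
      gcongr
      linarith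
    · have h4 : ∫ y, kk Θ β δ t x y * kk Θ β' δ t' x' y =
          (- δ) * ∫ y, (∑ i, pd i (kk (U i) β δ t x) y) * kk Θ β' δ t' x' y := by
        rw [← integral_const_mul]
        congr 1
        ext y
        rw [kk_div hU hΘU hβ hδ0 t x y]
        ring
      rw [h4, abs_mul, abs_neg, abs_of_pos hδ0]
      have hD : 0 < √(qq x' t' x t) / 4 := by positivity
      have h5 := hI1 x x' (fun i => kk (U i) β δ t x) (kk Θ β' δ t' x') (B / δ) (R * L / δ)
        (√(qq x' t' x t) / 4) (ann x x' t t' δ) hD (by linarith) hBδ (by positivity)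
        (fun i => kk_contDiff (hU i) hβ hδ0 t x) (kk_contDiff hΘ1 hβ' hδ0 t' x')
        (fun i => kqA_cpt (hU i) hβ hδ0 ht0 x) (kqA_cpt hΘ1 hβ' hδ0 ht0' x')
        (kqA_compact x x' t t' δ)
        (fun i y hy => by
          by_cases h : |‖x - y‖ - t| ≤ 2 * δ
          · left
            have h' : ¬ |‖x' - y‖ - t'| ≤ 2 * δ := fun h' => hy ⟨h, h'⟩
            exact kqA_near hΘ1 hβ' hδ0 ht0' (not_le.mp h')
          · right
            exact kqA_near (hU i) hβ hδ0 ht0 (not_le.mp h))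
        (fun y hy => by
          refine ⟨?_, ?_, ?_⟩
          · have h6 := geo_R2 hδ0 hδ.2 hx ht ht' hy.1 hy.2 h1
            rw [← sq_abs] at h6
            have h7 : (√(qq x' t' x t) / 4) ^ 2 ≤ |dt (y - x) (y - x')| ^ 2 := by
              rw [div_pow, Real.sq_sqrt hq0.le]
              linarith
            exact (pow_le_pow_iff_left₀ (by positivity) (abs_nonneg _) two_ne_zero).mp h7
          · have h6 := (abs_le.mp hy.1).2
            rw [norm_sub_rev]
            linarith [ht.2, hδ.2]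
          · have h6 := (abs_le.mp hy.2).2
            rw [norm_sub_rev]
            linarith [ht'.2, hδ.2])
        (fun i y => (hB1 i L β hβ δ hδ t ht x y).trans (by gcongr; exact hB1' i))
        hb'
        (fun i y => (hR1 i L hL β hβ δ hδ t ht x y).trans (by gcongr; exact hR1' i))
        (fun y => (hR0 L hL β' hβ' δ hδ t' ht' x' y).trans (by gcongr))
      have h6 : 0 ≤ B / δ * (R * L / δ) / (√(qq x' t' x t) / 4) +
          (B / δ) ^ 2 / (√(qq x' t' x t) / 4) ^ 2 := by positivity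
      have h7 : I1 * (volume (ann x x' t t' δ)).toReal *
          (B / δ * (R * L / δ) / (√(qq x' t' x t) / 4) +
          (B / δ) ^ 2 / (√(qq x' t' x t) / 4) ^ 2) ≤
          |I1| * (A2 * (δ ^ 2 / √(qq x' t' x t))) *
          (B / δ * (R * L / δ) / (√(qq x' t' x t) / 4) +
          (B / δ) ^ 2 / (√(qq x' t' x t) / 4) ^ 2) := by
        apply mul_le_mul_of_nonneg_right _ h6
        exact mul_le_mul (le_abs_self _) h3 ENNReal.toReal_nonneg (abs_nonneg _)
      refine (mul_le_mul_of_nonneg_left (h5.trans h7) hδ0.le).trans ?_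
      set s : ℝ := √(qq x' t' x t) with hs
      rw [← hss]
      have h8 : δ * (|I1| * (A2 * (δ ^ 2 / s)) *
          (B / δ * (R * L / δ) / (s / 4) + (B / δ) ^ 2 / (s / 4) ^ 2)) =
          (|I1| * A2 * (4 * B * R * L * s + 16 * B ^ 2)) * δ / (s * s * s) := by
        field_simp
        ring
      rw [h8]
      have hL0 : 0 ≤ L := by linarith
      have hIA : 0 ≤ |I1| * A2 := by positivity
      have h9 : 4 * B * R * L * s + 16 * B ^ 2 ≤ (4 * B * R + 16 * B ^ 2) * L := by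
        have h10 : 4 * B * R * L * s ≤ 4 * B * R * L * 1 := by
          gcongr
          linarith
        have h11 : 16 * B ^ 2 * 1 ≤ 16 * B ^ 2 * L := by gcongr
        nlinarith
      have h12 : |I1| * A2 * (4 * B * R * L * s + 16 * B ^ 2) ≤ C * L := by
        calc |I1| * A2 * (4 * B * R * L * s + 16 * B ^ 2)
            ≤ |I1| * A2 * ((4 * B * R + 16 * B ^ 2) * L) := by gcongr
          _ = |I1| * A2 * (4 * B * R + 16 * B ^ 2) * L := by ring
          _ ≤ C * L := by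
            apply mul_le_mul_of_nonneg_right _ hL0
            linarith
      apply div_le_div_of_nonneg_right _ (by positivity)
      exact mul_le_mul_of_nonneg_right h12 hδ0.le

theorem kq_ne {Θ : E 2 → ℝ} (hΘ : K2 Θ) {L : ℝ} {β β' : E 2 → ℝ} (hβ : Amp L β)
    (hβ' : Amp L β') {δ : ℝ} (hδ : 0 < δ) {t t' : ℝ} (ht : 0 ≤ t) (ht' : 0 ≤ t') {x x' : E 2}
    (h : ∫ y, kk Θ β δ t x y * kk Θ β' δ t' x' y ≠ 0) :
    ∃ y w : E 2, |‖x - y‖ - t| ≤ 2 * δ ∧ |‖x' - y‖ - t'| ≤ 2 * δ ∧ ‖w‖ = 1 ∧ β w ≠ 0 ∧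
      ‖x - t • w - y‖ ≤ 2 * δ := by
  have h1 : ∃ y, kk Θ β δ t x y * kk Θ β' δ t' x' y ≠ 0 := by
    by_contra h2
    push Not at h2
    apply h
    simp only [h2, integral_zero]
  obtain ⟨y, hy⟩ := h1
  obtain ⟨h3, w, hw1, hw2, hw3⟩ := kk_supp hΘ hβ hδ ht (left_ne_zero_of_mul hy)
  have h4 := (kk_supp hΘ hβ' hδ ht' (right_ne_zero_of_mul hy)).1
  exact ⟨y, w, h3, h4, hw1, hw2, hw3⟩

end Pool.Agent.Lib.MP_ff3fe0_an_SPH2
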