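import Pool.Agent.Lib.MP_ff3fe0_an_SPH2.KmC
import Pool.Agent.Lib.MP_ff3fe0_an_SPH2.MinkB
import Pool.Agent.Lib.MP_ff3fe0_an_SPH.TeleA
import Pool.Agent.Lib.MP_ff3fe0_an_SPH.AvgA

set_option autoImplicit false

/-!
# The local estimate, for a bound of the averages
-/

namespace Pool.Agent.Lib.MP_ff3fe0_an_SPH2

open MeasureTheory Metric Set
open scoped ENNReal NNReal ContDiff FourierTransform
open Pool.Agent.Lib.MP_ff3fe0_an
open Pool.Agent.Lib.MP_ff3fe0_an_SPH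

private lemma LocC_mink_fin {α : Type*} [MeasurableSpace α] {μ : Measure α} {ι : Type*}
    (s : Finset ι) {f : ι → α → ℝ≥0∞} (hf : ∀ i, Measurable (f i)) :
    (∫⁻ x, (∑ i ∈ s, f i x) ^ 3 ∂μ) ^ (1 / 3 : ℝ) ≤
      ∑ i ∈ s, (∫⁻ x, f i x ^ 3 ∂μ) ^ (1 / 3 : ℝ) := by
  have h := minkowski3 (μ := μ) (ι := {x // x ∈ s}) (f := fun i x => f i x) (fun i => hf i)
  rw [Finset.tsum_subtype s (fun i => (∫⁻ x, f i x ^ 3 ∂μ) ^ (1 / 3 : ℝ))] at h
  have e : ∀ x, ∑' i : {x // x ∈ s}, f i x = ∑ i ∈ s, f i x :=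
    fun x => Finset.tsum_subtype s (fun i => f i x)
  simpa only [e] using h

private lemma LocC_sq_half (a : ℝ≥0∞) : (a ^ 3) ^ (1 / 3 : ℝ) = a := by
  rw [← ENNReal.rpow_natCast, ← ENNReal.rpow_mul]
  norm_num

private lemma LocC_half_sq (a : ℝ≥0∞) : (a ^ (1 / 3 : ℝ)) ^ 3 = a := by
  rw [← ENNReal.rpow_natCast, ← ENNReal.rpow_mul]
  norm_num

private lemma LocC_l2_mul {α : Type*} [MeasurableSpace α] {μ : Measure α} (c : ℝ≥0∞)
    {F : α → ℝ≥0∞} (hF : Measurable F) :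
    (∫⁻ x, (c * F x) ^ 3 ∂μ) ^ (1 / 3 : ℝ) = c * (∫⁻ x, F x ^ 3 ∂μ) ^ (1 / 3 : ℝ) := by
  simp only [mul_pow]
  rw [lintegral_const_mul _ (hF.pow_const 3), ENNReal.mul_rpow_of_nonneg _ _ (by norm_num),
    LocC_sq_half]

private lemma LocC_geo (m : ℕ) : ∑' k : ℕ, (5 / 6 : ℝ≥0∞) ^ ((k - m) + (m - k)) ≤
    (∑' k : ℕ, (5 / 6 : ℝ≥0∞) ^ k) + ∑' k : ℕ, (5 / 6 : ℝ≥0∞) ^ k := by
  rw [← Summable.sum_add_tsum_nat_add' (k := m) ENNReal.summable]
  gcongr ?_ + ?_
  · rw [← Finset.sum_range_reflect]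
    refine le_trans (Finset.sum_le_sum (g := fun k => (5 / 6 : ℝ≥0∞) ^ (k + 1)) ?_) ?_
    · intro k hk
      rw [Finset.mem_range] at hk
      apply le_of_eq
      congr 1
      omega
    · refine (Finset.sum_le_sum (g := fun k => (5 / 6 : ℝ≥0∞) ^ k) ?_).trans
        (ENNReal.sum_le_tsum _)
      intro k _
      refine pow_le_pow_of_le_one zero_le ?_ (Nat.le_succ k)
      rw [ENNReal.div_le_iff (by norm_num) (by norm_num)]
      norm_num
  · refine ENNReal.tsum_le_tsum fun k => le_of_eq ?_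
    congr 1
    omega

private lemma LocC_geo_top : ∑' k : ℕ, (5 / 6 : ℝ≥0∞) ^ k ≠ ⊤ := by
  rw [ENNReal.tsum_geometric]
  refine ENNReal.inv_ne_top.2 (tsub_pos_iff_lt.2 ?_).ne'
  rw [ENNReal.div_lt_iff (Or.inl (by norm_num)) (Or.inl (by norm_num))]
  norm_num

private lemma LocC_eps {ε : ℝ} (hε : 0 < ε) :
    ∑' m : ℕ, ENNReal.ofReal ((2 : ℝ) ^ (-(ε * m))) ≠ ⊤ := by
  have h : ∀ m : ℕ, ENNReal.ofReal ((2 : ℝ) ^ (-(ε * m))) =
      (ENNReal.ofReal ((2 : ℝ) ^ (-ε))) ^ m := by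
    intro m
    rw [← ENNReal.ofReal_pow (by positivity), ← Real.rpow_natCast, ← Real.rpow_mul (by norm_num)]
    congr 2
    ring
  simp only [h]
  rw [ENNReal.tsum_geometric]
  refine ENNReal.inv_ne_top.2 (tsub_pos_iff_lt.2 ?_).ne'
  rw [ENNReal.ofReal_lt_one]
  exact Real.rpow_lt_one_of_one_lt_of_neg (by norm_num) (by linarith)

private lemma LocC_half (a : ℕ) : (1 / 2 : ℝ≥0∞) ^ a * (5 / 3) ^ a = (5 / 6) ^ a := by
  rw [← mul_pow]
  congr 1
  rw [← ENNReal.toReal_eq_toReal_iff' (by finiteness) (by finiteness)]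
  simp only [ENNReal.toReal_mul, ENNReal.toReal_div, ENNReal.toReal_one, ENNReal.toReal_ofNat]
  norm_num

private lemma LocC_grad {g : E 2 → ℝ} (hg : ContDiff ℝ ∞ g) : Continuous (gradient g) :=
  (InnerProductSpace.toDual ℝ (E 2)).symm.continuous.comp (hg.continuous_fderiv (by simp))

theorem local_core2 (K : Ker 2) {p : ℝ} (hp : 3 / 2 < p) (hp2 : p < 2) {r : ℝ}
    (hr : √2 + 4 ≤ r) : ∃ (η : ℝ) (C : ℝ≥0), 0 < η ∧ ∀ (A : ℝ) (g : E 2 → ℝ), 0 < A →
      ContDiff ℝ ∞ g → HasCompactSupport g →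
      ∑' m : ℕ, ENNReal.ofReal ((2 : ℝ) ^ (-(η * m))) * ∫⁻ y in closedBall (0 : E 2) r,
        ‖cvv K.ka (sc m) (gradient g) y‖ₑ ^ p ≤ ENNReal.ofReal (A ^ p) →
      ∃ T : E 2 → ℝ≥0∞, Measurable T ∧
        (∀ x : E 2, ‖x‖ ≤ √2 → ∀ t ∈ Icc (1 : ℝ) 2, (∀ s, 0 < s → sm g s x ≤ sm g t x) →
          ‖gradient (sm g t) x‖ₑ ≤ C * hlm (gradient g) x + T x) ∧
        ∫⁻ x in closedBall (0 : E 2) (√2), T x ^ 3 ≤ C * ENNReal.ofReal (A ^ 3) := by
  have hd0 : 0 < 2 := by norm_num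
  have hp0 : 0 < p := by linarith
  have hr2 : √((2 : ℕ) : ℝ) + 4 ≤ r := by
    rw [Nat.cast_ofNat]
    exact hr
  obtain ⟨CT, hCT⟩ := tele_ineq hd0 K
  obtain ⟨η, CK, ε, h0, hε, hCK⟩ := km2_bound K.hS K.S_hat hp hp2 r
  obtain ⟨CP, hCP⟩ := PP_sum (d := 2) h0 p r
  set G : ℝ≥0∞ := ∑' k : ℕ, (5 / 6 : ℝ≥0∞) ^ k with hG
  set H : ℝ≥0∞ := ∑' m : ℕ, ENNReal.ofReal ((2 : ℝ) ^ (-(ε * m))) with hH
  have hGt : G ≠ ⊤ := LocC_geo_top
  have hHt : H ≠ ⊤ := LocC_eps hε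
  set D : ℝ≥0∞ := 9 * CK * (G + G) * H with hD
  have hDt : D ≠ ⊤ := by
    rw [hD]
    finiteness
  have hDt2 : (CT : ℝ≥0∞) ^ 3 * D ^ 3 ≠ ⊤ :=
    ENNReal.mul_ne_top (ENNReal.pow_ne_top ENNReal.coe_ne_top) (ENNReal.pow_ne_top hDt)
  refine ⟨η, CT + ((CT : ℝ≥0∞) ^ 3 * D ^ 3).toNNReal, h0, fun A g hA hg hgc hsum => ?_⟩
  -- the averages
  have hgrad : Continuous (gradient g) := LocC_grad hg
  set q : ℕ → E 2 → ℝ := fun m => if m = 0 then 0 else
    (closedBall (0 : E 2) r).indicator (cvv K.ka (sc m) (gradient g)) with hqdef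
  have hq0 : q 0 = 0 := if_pos rfl
  have hqm : ∀ m, 1 ≤ m → q m =
      (closedBall (0 : E 2) r).indicator (cvv K.ka (sc m) (gradient g)) := fun m hm =>
    if_neg (by omega)
  have hqB : ∀ m, Bdd r (q m) := by
    intro m
    rcases Nat.eq_zero_or_pos m with rfl | hm
    · rw [hq0]
      exact ⟨measurable_zero, ⟨0, fun y => by simp⟩, fun y _ => rfl⟩
    · rw [hqm m hm]
      have hc : Continuous (cvv K.ka (sc m) (gradient g)) := cvv_continuous K.hka hgrad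
      obtain ⟨C, hC⟩ := (isCompact_closedBall (0 : E 2) r).exists_bound_of_continuousOn
        hc.continuousOn
      refine ⟨hc.measurable.indicator isClosed_closedBall.measurableSet, ⟨|C|, fun y => ?_⟩,
        fun y hy => ?_⟩
      · by_cases hy : y ∈ closedBall (0 : E 2) r
        · rw [indicator_of_mem hy]
          exact (hC y hy).trans (le_abs_self C)
        · rw [indicator_of_notMem hy, abs_zero]
          exact abs_nonneg C
      · refine indicator_of_notMem ?_ _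
        rw [mem_closedBall_zero_iff]
        exact not_le.2 hy
  have hqe : ∀ m, 1 ≤ m → ∀ y ∈ closedBall (0 : E 2) r,
      q m y = cvv K.ka (sc m) (gradient g) y := fun m hm y hy => by
    rw [hqm m hm, indicator_of_mem hy]
  have hqsum : ∑' m : ℕ, ENNReal.ofReal ((2 : ℝ) ^ (-(η * m))) * ∫⁻ y, ‖q m y‖ₑ ^ p ≤
      ENNReal.ofReal (A ^ p) := by
    refine le_trans (ENNReal.tsum_le_tsum fun m => ?_) hsum
    refine mul_le_mul_right ?_ _
    rw [← lintegral_indicator isClosed_closedBall.measurableSet]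
    refine lintegral_mono fun y => ?_
    rcases Nat.eq_zero_or_pos m with rfl | hm
    · rw [hq0]
      simp [hp0]
    · by_cases hy : y ∈ closedBall (0 : E 2) r
      · rw [indicator_of_mem hy, hqe m hm y hy]
      · rw [hqm m hm, indicator_of_notMem hy]
        simp [hp0]
  set P : ℕ → E 2 → ℝ≥0∞ := PP p η A r q with hPdef
  have hPm : ∀ m, Measurable (P m) := fun m => measurable_PP (fun m => (hqB m).meas) m
  have hPs : ∑' m, ∫⁻ y, P m y ≠ ⊤ :=
    ((hCP A q hA (fun m => (hqB m).meas) hqsum).trans_lt (by finiteness)).ne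
  -- the functions `Z`
  have hZex : ∀ k m n j : ℕ, ∃ Z : E 2 → ℝ≥0∞, Measurable Z ∧ (n ∈ RR k m → j ≤ 2 →
      (∀ x, ∀ t ∈ Icc (1 : ℝ) 2, (piK P k x t univ)⁻¹ * ∫⁻ c : Sph 2,
          Avr n (fun s => XX K.S m j (q m) c x s) t ∂(piK P k x t) ≤ Z x) ∧
        (∫⁻ x in closedBall (0 : E 2) (√2), Z x ^ 3) ^ (1 / 3 : ℝ) ≤
          CK * (5 / 3) ^ ((k - m) + (m - k)) * ENNReal.ofReal ((2 : ℝ) ^ (-(ε * m)) * A)) := by
    intro k m n j
    rcases Nat.eq_zero_or_pos m with rfl | hm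
    · refine ⟨0, measurable_zero, fun _ _ => ⟨fun x t _ => ?_, ?_⟩⟩
      · rw [hq0]
        simp [Avr, XX_zero]
      · simp
    · by_cases hn : n ∈ RR k m
      · by_cases hj : j ≤ 2
        · obtain ⟨Z, hZ1, hZ2, hZ3⟩ := hCK A q hA hqB hqsum k m n j hm hn hj
          exact ⟨Z, hZ1, fun _ _ => ⟨hZ2, hZ3⟩⟩
        · exact ⟨0, measurable_zero, fun _ h => absurd h hj⟩
      · exact ⟨0, measurable_zero, fun h => absurd h hn⟩
  choose Z hZm hZ using hZex
  set W : ℕ → ℕ → E 2 → ℝ≥0∞ := fun k m x =>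
    ∑ i ∈ RR k m ×ˢ Finset.range 3, Z k m i.1 i.2 x with hW
  have hWm : ∀ k m, Measurable (W k m) := fun k m =>
    Finset.measurable_sum _ fun i _ => hZm k m i.1 i.2
  set f : ℕ × ℕ → E 2 → ℝ≥0∞ := fun i x =>
    (1 / 2) ^ ((i.1 - i.2) + (i.2 - i.1)) * W i.1 i.2 x with hf
  have hfm : ∀ i, Measurable (f i) := fun i => (hWm i.1 i.2).const_mul _
  set F : E 2 → ℝ≥0∞ := fun x => ∑' i, f i x with hF
  have hFm : Measurable F := Measurable.tsum hfm
  refine ⟨fun x => CT * F x, hFm.const_mul _, fun x hx t ht hmax => ?_, ?_⟩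
  · -- the pointwise bound
    have hck : ∀ k : ℕ, ∃ c : Sph 2, DD K.S q k x t c ≤
        ∑' m : ℕ, (1 / 2) ^ ((k - m) + (m - k)) * W k m x := by
      intro k
      obtain ⟨hn0, hnt⟩ := PP_pos hd0 hA hr2 (fun m => (hqB m).meas) hPs k (x := x)
        (by rw [Nat.cast_ofNat]; exact hx) ht
      obtain ⟨hm1, hm2⟩ := DD_avg hd0 K.hS hqB hPm k x t
      obtain ⟨c, hc⟩ := choice hn0 hnt hm1
      refine ⟨c, hc.trans ?_⟩
      rw [hm2, ← ENNReal.tsum_mul_left]
      refine ENNReal.tsum_le_tsum fun m => ?_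
      rw [mul_left_comm]
      gcongr
      rw [hW]
      simp only
      rw [Finset.sum_product, Finset.mul_sum]
      refine Finset.sum_le_sum fun n hn => ?_
      rw [Finset.mul_sum]
      refine Finset.sum_le_sum fun j hj => ?_
      exact (hZ k m n j hn (by rw [Finset.mem_range] at hj; omega)).1 x t ht
    choose c hc using hck
    have hxr : ‖x‖ + 4 ≤ r := by linarith
    have h2 := hCT r g q hg hgc hqB hq0 hqe x hxr t ht hmax (fun k => (c k : E 2))
      (fun k => by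
        have := (c k).2
        rw [mem_sphere_zero_iff_norm] at this
        exact this.le)
    refine h2.trans ?_
    rw [mul_add]
    refine add_le_add ?_ ?_
    · gcongr
      exact le_self_add
    · refine mul_le_mul_right ?_ _
      rw [hF]
      simp only
      rw [ENNReal.tsum_prod']
      exact ENNReal.tsum_le_tsum fun k => hc k
  · -- the bound in L3
    have hn1 : (∫⁻ x in closedBall (0 : E 2) (√2), F x ^ 3) ^ (1 / 3 : ℝ) ≤
        D * ENNReal.ofReal A := by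
      refine (minkowski3 hfm).trans ?_
      have hi : ∀ i : ℕ × ℕ, (∫⁻ x in closedBall (0 : E 2) (√2), f i x ^ 3) ^ (1 / 3 : ℝ) ≤
          9 * CK * ENNReal.ofReal A *
            ((5 / 6) ^ ((i.1 - i.2) + (i.2 - i.1)) *
              ENNReal.ofReal ((2 : ℝ) ^ (-(ε * i.2)))) := by
        intro i
        rw [hf]
        simp only
        rw [LocC_l2_mul _ (hWm i.1 i.2)]
        have h3 : (∫⁻ x in closedBall (0 : E 2) (√2), W i.1 i.2 x ^ 3) ^ (1 / 3 : ℝ) ≤
            9 * (CK * (5 / 3) ^ ((i.1 - i.2) + (i.2 - i.1)) *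
              ENNReal.ofReal ((2 : ℝ) ^ (-(ε * i.2)) * A)) := by
          refine (LocC_mink_fin (RR i.1 i.2 ×ˢ Finset.range 3)
            (f := fun l x => Z i.1 i.2 l.1 l.2 x) (fun l => hZm _ _ _ _)).trans ?_
          refine (Finset.sum_le_card_nsmul _ _ _ fun l hl => ?_).trans
            (b := (RR i.1 i.2 ×ˢ Finset.range 3).card • (CK * (5 / 3) ^
              ((i.1 - i.2) + (i.2 - i.1)) * ENNReal.ofReal ((2 : ℝ) ^ (-(ε * i.2)) * A))) ?_
          · rw [Finset.mem_product, Finset.mem_range] at hl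
            exact (hZ i.1 i.2 l.1 l.2 hl.1 (by omega)).2
          · rw [nsmul_eq_mul]
            gcongr
            have hcard : (RR i.1 i.2 ×ˢ Finset.range 3).card ≤ 9 := by
              rw [Finset.card_product, Finset.card_range]
              have : (RR i.1 i.2).card ≤ 3 := Finset.card_le_three
              omega
            exact_mod_cast hcard
        refine (mul_le_mul_right h3 _).trans (le_of_eq ?_)
        rw [ENNReal.ofReal_mul (by positivity), ← LocC_half]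
        ring
      refine (ENNReal.tsum_le_tsum hi).trans ?_
      rw [ENNReal.tsum_mul_left, ENNReal.tsum_prod', ENNReal.tsum_comm]
      have hj : ∀ m : ℕ, ∑' k : ℕ, ((5 / 6 : ℝ≥0∞) ^ ((k - m) + (m - k)) *
          ENNReal.ofReal ((2 : ℝ) ^ (-(ε * m)))) ≤
          (G + G) * ENNReal.ofReal ((2 : ℝ) ^ (-(ε * m))) := by
        intro m
        rw [ENNReal.tsum_mul_right]
        gcongr
        exact LocC_geo m
      refine (mul_le_mul_right (ENNReal.tsum_le_tsum hj) _).trans (le_of_eq ?_)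
      rw [ENNReal.tsum_mul_left, hD]
      ring
    have hn2 : ∫⁻ x in closedBall (0 : E 2) (√2), F x ^ 3 ≤ (D * ENNReal.ofReal A) ^ 3 := by
      rw [← LocC_half_sq (∫⁻ x in closedBall (0 : E 2) (√2), F x ^ 3)]
      gcongr
    calc ∫⁻ x in closedBall (0 : E 2) (√2), (CT * F x) ^ 3
        = (CT : ℝ≥0∞) ^ 3 * ∫⁻ x in closedBall (0 : E 2) (√2), F x ^ 3 := by
          simp only [mul_pow]
          rw [lintegral_const_mul _ (hFm.pow_const 3)]
      _ ≤ (CT : ℝ≥0∞) ^ 3 * (D * ENNReal.ofReal A) ^ 3 := by gcongr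
      _ = (CT : ℝ≥0∞) ^ 3 * D ^ 3 * ENNReal.ofReal (A ^ 3) := by
          rw [ENNReal.ofReal_pow hA.le]
          ring
      _ ≤ _ := by
          gcongr
          rw [ENNReal.coe_add, ENNReal.coe_toNNReal hDt2]
          exact le_add_self

end Pool.Agent.Lib.MP_ff3fe0_an_SPH2
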