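import Pool.Agent.Lib.MP_ff3fe0_an_SPH2.LocD

set_option autoImplicit false

/-!
# The local estimate at all scales
-/

namespace Pool.Agent.Lib.MP_ff3fe0_an_SPH2

open MeasureTheory Metric Set
open scoped ENNReal NNReal ContDiff FourierTransform
open Pool.Agent.Lib.MP_ff3fe0_an
open Pool.Agent.Lib.MP_ff3fe0_an_SPH

/-- The affine change of variables. -/
private noncomputable def scaPhi (R : ℝ) (hR : R ≠ 0) (z : E 2) : E 2 ≃ₜ E 2 :=
  (Homeomorph.smulOfNeZero R hR).trans (Homeomorph.addLeft z)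

private theorem scaPhi_apply (R : ℝ) (hR : R ≠ 0) (z u : E 2) : scaPhi R hR z u = z + R • u := rfl

private theorem sca_map {R : ℝ} (hR : 0 < R) (z : E 2) :
    Measure.map (fun u : E 2 => z + R • u) (volume : Measure (E 2)) =
      ENNReal.ofReal ((R ^ 2)⁻¹) • volume := by
  have h1 : (fun u : E 2 => z + R • u) = (fun u => z + u) ∘ (fun u => R • u) := rfl
  rw [h1, ← Measure.map_map (measurable_const_add z) (measurable_const_smul R),
    Measure.map_addHaar_smul volume hR.ne', Measure.map_smul, map_add_left_eq_self]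
  congr 1
  rw [abs_of_pos (by positivity)]
  congr 3
  simp [E]

private theorem sca_chv {R : ℝ} (hR : 0 < R) (z : E 2) (S : Set (E 2)) (f : E 2 → ℝ≥0∞) :
    ∫⁻ u in (fun u : E 2 => z + R • u) ⁻¹' S, f (z + R • u) =
      ENNReal.ofReal ((R ^ 2)⁻¹) * ∫⁻ v in S, f v := by
  have h1 : Measure.map (scaPhi R hR.ne' z).toMeasurableEquiv (volume : Measure (E 2)) =
      ENNReal.ofReal ((R ^ 2)⁻¹) • volume := sca_map hR z
  have h2 := MeasurableEquiv.restrict_map (scaPhi R hR.ne' z).toMeasurableEquiv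
    (volume : Measure (E 2)) S
  rw [h1] at h2
  have h3 : ∫⁻ v, f v ∂((ENNReal.ofReal ((R ^ 2)⁻¹) • (volume : Measure (E 2))).restrict S) =
      ∫⁻ u in (fun u : E 2 => z + R • u) ⁻¹' S, f (z + R • u) := by
    rw [h2, lintegral_map_equiv]
    rfl
  rw [← h3, Measure.restrict_smul, lintegral_smul_measure, smul_eq_mul]

private theorem sca_pre {R : ℝ} (hR : 0 < R) (z : E 2) (ρ : ℝ) :
    (fun u : E 2 => z + R • u) ⁻¹' closedBall z (ρ * R) = closedBall 0 ρ := by
  ext u
  simp only [mem_preimage, mem_closedBall, dist_zero_right, dist_self_add_left, norm_smul,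
    Real.norm_eq_abs, abs_of_pos hR]
  constructor
  · intro h
    nlinarith [mul_comm ρ R, le_of_mul_le_mul_left (by linarith [mul_comm ρ R] :
      R * ‖u‖ ≤ R * ρ) hR]
  · intro h
    nlinarith

private theorem sca_preb {R : ℝ} (hR : 0 < R) (z y : E 2) (ρ : ℝ) :
    (fun u : E 2 => z + R • u) ⁻¹' ball (z + R • y) (R * ρ) = ball y ρ := by
  ext u
  have h : dist (z + R • u) (z + R • y) = R * dist u y := by
    rw [dist_add_left, dist_smul₀, Real.norm_eq_abs, abs_of_pos hR]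
  simp only [mem_preimage, mem_ball, h]
  constructor
  · intro h
    exact lt_of_mul_lt_mul_left h hR.le
  · intro h
    exact mul_lt_mul_of_pos_left h hR

private theorem sca_grad {R : ℝ} (hR : 0 < R) (z : E 2) {h : E 2 → ℝ} (hh : Differentiable ℝ h)
    (y : E 2) : gradient (fun u => R⁻¹ * h (z + R • u)) y = gradient h (z + R • y) := by
  unfold gradient
  congr 1
  have h1 : HasFDerivAt (fun u : E 2 => z + R • u) (R • ContinuousLinearMap.id ℝ (E 2)) y :=
    ((hasFDerivAt_id y).const_smul R).const_add z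
  have h2 := ((hh (z + R • y)).hasFDerivAt.comp y h1).const_mul R⁻¹
  refine h2.fderiv.trans ?_
  ext v
  simp [hR.ne']

private theorem sca_sm {R : ℝ} (z : E 2) (g : E 2 → ℝ) (t : ℝ) (y : E 2) :
    sm (fun u => R⁻¹ * g (z + R • u)) t y = R⁻¹ * sm g (R * t) (z + R • y) := by
  unfold sm
  rw [← integral_const_mul]
  refine integral_congr_ae (Filter.Eventually.of_forall fun w => ?_)
  simp only
  congr 2
  rw [smul_sub, smul_smul]
  abel

private theorem sca_hlm {R : ℝ} (hR : 0 < R) (z : E 2) (H : E 2 → E 2) (y : E 2) :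
    hlm (fun u => H (z + R • u)) y ≤ hlm H (z + R • y) := by
  unfold hlm
  refine iSup_le fun r => iSup_le fun hr => ?_
  refine le_trans (le_of_eq ?_) (le_iSup_of_le (R * r) (le_iSup_of_le (by positivity) le_rfl))
  have h1 := sca_chv hR z (ball (z + R • y) (R * r)) (fun v => ‖H v‖ₑ)
  have h2 := sca_chv hR z (ball (z + R • y) (R * r)) (fun _ => 1)
  rw [sca_preb hR] at h1 h2
  simp only [lintegral_const, Measure.restrict_apply MeasurableSet.univ, univ_inter, one_mul]
    at h2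
  rw [h1, h2]
  have h3 : ENNReal.ofReal ((R ^ 2)⁻¹) ≠ 0 := by
    rw [Ne, ENNReal.ofReal_eq_zero, not_le]
    positivity
  have h4 : ENNReal.ofReal ((R ^ 2)⁻¹) ≠ ⊤ := ENNReal.ofReal_ne_top
  rw [ENNReal.mul_inv (Or.inl h3) (Or.inl h4)]
  calc (ENNReal.ofReal ((R ^ 2)⁻¹))⁻¹ * (volume (ball (z + R • y) (R * r)))⁻¹ *
        (ENNReal.ofReal ((R ^ 2)⁻¹) * ∫⁻ v in ball (z + R • y) (R * r), ‖H v‖ₑ)
      = ((ENNReal.ofReal ((R ^ 2)⁻¹))⁻¹ * ENNReal.ofReal ((R ^ 2)⁻¹)) *
        ((volume (ball (z + R • y) (R * r)))⁻¹ *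
          ∫⁻ v in ball (z + R • y) (R * r), ‖H v‖ₑ) := by ring
    _ = _ := by rw [ENNReal.inv_mul_cancel h3 h4, one_mul]

private theorem sca_cvv {R : ℝ} (z : E 2) (K : E 2 → E 2) (b : ℝ) (H : E 2 → E 2) (y : E 2) :
    cvv K b (fun u => H (z + R • u)) y = cvv K (R * b) H (z + R • y) := by
  unfold cvv
  refine integral_congr_ae (Filter.Eventually.of_forall fun w => ?_)
  simp only
  congr 2
  rw [smul_sub, smul_smul]
  abel

theorem scaled_est2 (K : Ker 2) {p : ℝ} (hp : 3 / 2 < p) (hp2 : p < 2) :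
    ∃ (r : ℝ) (C : ℝ≥0) (ε : ℝ), 0 < r ∧ 0 < ε ∧ ∀ g : E 2 → ℝ, ContDiff ℝ ∞ g →
      HasCompactSupport g → ∀ (R : ℝ) (z : E 2), 0 < R → ∃ T : E 2 → ℝ≥0∞, Measurable T ∧
        (∀ x ∈ closedBall z (√2 * R), ∀ t ∈ Icc R (2 * R),
          (∀ s, 0 < s → sm g s x ≤ sm g t x) →
            ‖gradient (sm g t) x‖ₑ ≤ C * hlm (gradient g) x + T x) ∧
        ∫⁻ x in closedBall z (√2 * R), T x ^ 3 ≤
          C * ∑' m : ℕ, ENNReal.ofReal ((2 : ℝ) ^ (-(ε * m))) * (ENNReal.ofReal (R ^ 2) *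
            (ENNReal.ofReal ((R ^ 2)⁻¹) * ∫⁻ y in closedBall z (r * R),
              ‖cvv K.ka (R * sc m) (gradient g) y‖ₑ ^ p) ^ (3 / p)) := by
  have hd0 : 0 < 2 := by omega
  obtain ⟨r, C, ε, hr, hε, H⟩ := local_est2 K hp hp2
  refine ⟨r, C, ε, hr, hε, fun g hg hgc R z hR => ?_⟩
  have hR' : R ≠ 0 := hR.ne'
  have hgt : ContDiff ℝ ∞ (fun u : E 2 => R⁻¹ * g (z + R • u)) :=
    contDiff_const.mul (hg.comp (contDiff_const.add (contDiff_const_smul R)))
  have hgtc : HasCompactSupport (fun u : E 2 => R⁻¹ * g (z + R • u)) := by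
    have h1 : HasCompactSupport (g ∘ (scaPhi R hR' z)) := hgc.comp_homeomorph _
    exact h1.mul_left
  obtain ⟨T, hT, hTa, hTb⟩ := H _ hgt hgtc
  have hgd : Differentiable ℝ g := hg.differentiable (by simp)
  have hgr : gradient (fun u : E 2 => R⁻¹ * g (z + R • u)) =
      fun y => gradient g (z + R • y) := funext fun y => sca_grad hR z hgd y
  rw [hgr] at hTa hTb
  have hinv : ∀ x : E 2, z + R • (R⁻¹ • (x - z)) = x := by
    intro x
    rw [smul_smul, mul_inv_cancel₀ hR', one_smul]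
    abel
  have hinv2 : ∀ u : E 2, R⁻¹ • ((z + R • u) - z) = u := by
    intro u
    rw [add_sub_cancel_left, smul_smul, inv_mul_cancel₀ hR', one_smul]
  refine ⟨fun x => T (R⁻¹ • (x - z)), ?_, ?_, ?_⟩
  · exact hT.comp ((measurable_id.sub_const z).const_smul R⁻¹)
  · intro x hx t ht hmax
    have hy : ‖R⁻¹ • (x - z)‖ ≤ √2 := by
      rw [norm_smul, norm_inv, Real.norm_eq_abs, abs_of_pos hR, ← dist_eq_norm]
      rw [mem_closedBall] at hx
      rw [inv_mul_le_iff₀ hR]
      linarith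
    have ht' : R⁻¹ * t ∈ Icc (1 : ℝ) 2 := by
      constructor
      · rw [le_inv_mul_iff₀ hR]
        linarith [ht.1]
      · rw [inv_mul_le_iff₀ hR]
        linarith [ht.2]
    have hRt : R * (R⁻¹ * t) = t := by
      rw [← mul_assoc, mul_inv_cancel₀ hR', one_mul]
    have h1 := hTa (R⁻¹ • (x - z)) hy (R⁻¹ * t) ht' (by
      intro s hs
      rw [sca_sm, sca_sm, hinv, hRt]
      exact mul_le_mul_of_nonneg_left (hmax (R * s) (by positivity)) (by positivity))
    have h2 : sm (fun u : E 2 => R⁻¹ * g (z + R • u)) (R⁻¹ * t) =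
        fun y => R⁻¹ * sm g t (z + R • y) := by
      funext y
      rw [sca_sm, hRt]
    rw [h2, sca_grad hR z ((sm_contDiff_x hd0 hg t).differentiable (by simp)), hinv] at h1
    refine h1.trans ?_
    gcongr
    refine (sca_hlm hR z (gradient g) _).trans (le_of_eq ?_)
    rw [hinv]
  · have hRd : ENNReal.ofReal (R ^ 2) * ENNReal.ofReal ((R ^ 2)⁻¹) = 1 := by
      rw [← ENNReal.ofReal_mul (by positivity), mul_inv_cancel₀ (by positivity),
        ENNReal.ofReal_one]
    have h1 := sca_chv hR z (closedBall z (√2 * R)) (fun x => T (R⁻¹ • (x - z)) ^ 3)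
    rw [sca_pre hR] at h1
    simp only [hinv2] at h1
    have h2 : ∫⁻ x in closedBall z (√2 * R), T (R⁻¹ • (x - z)) ^ 3 =
        ENNReal.ofReal (R ^ 2) * ∫⁻ u in closedBall (0 : E 2) (√2), T u ^ 3 := by
      rw [h1, ← mul_assoc, hRd, one_mul]
    rw [h2]
    refine (mul_le_mul_right hTb _).trans (le_of_eq ?_)
    rw [mul_left_comm, ← ENNReal.tsum_mul_left]
    congr 1
    refine tsum_congr fun m => ?_
    have h3 := sca_chv hR z (closedBall z (r * R))
      (fun x => ‖cvv K.ka (R * sc m) (gradient g) x‖ₑ ^ p)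
    rw [sca_pre hR] at h3
    simp only [sca_cvv]
    rw [h3]
    ring

end Pool.Agent.Lib.MP_ff3fe0_an_SPH2
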