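import Pool.Agent.Lib.MP_ff3fe0_an_SPH2.ScaleT
import Pool.Agent.Lib.MP_ff3fe0_an_SPH2.ScB
import Pool.Agent.Lib.MP_ff3fe0_an_SPH.KerC
import Pool.Agent.Lib.MP_ff3fe0_an_SPH.Rad

set_option autoImplicit false

/-!
# The weak type estimate
-/

namespace Pool.Agent.Lib.MP_ff3fe0_an_SPH2

open MeasureTheory Metric Set
open scoped ENNReal NNReal ContDiff FourierTransform
open Pool.Agent.Lib.MP_ff3fe0_an
open Pool.Agent.Lib.MP_ff3fe0_an_SPH

private theorem wtb_sum {ε : ℝ} (hε : 0 < ε) :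
    ∑' m : ℕ, ENNReal.ofReal ((2 : ℝ) ^ (-(ε * m))) * ((m : ℝ≥0∞) + 1) ≠ ⊤ := by
  have hq0 : (0 : ℝ) ≤ (2 : ℝ) ^ (-ε) := Real.rpow_nonneg (by norm_num) _
  have hq1 : (2 : ℝ) ^ (-ε) < 1 := Real.rpow_lt_one_of_one_lt_of_neg (by norm_num) (by linarith)
  have hterm : ∀ m : ℕ, ENNReal.ofReal ((2 : ℝ) ^ (-(ε * m))) * ((m : ℝ≥0∞) + 1) =
      ENNReal.ofReal (((m : ℝ) + 1) * ((2 : ℝ) ^ (-ε)) ^ m) := by
    intro m
    have h1 : (2 : ℝ) ^ (-(ε * m)) = ((2 : ℝ) ^ (-ε)) ^ m := by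
      rw [← Real.rpow_natCast, ← Real.rpow_mul (by norm_num)]
      congr 1
      ring
    have h2 : ((m : ℝ≥0∞) + 1) = ENNReal.ofReal ((m : ℝ) + 1) := by
      rw [ENNReal.ofReal_add (Nat.cast_nonneg m) zero_le_one, ENNReal.ofReal_natCast,
        ENNReal.ofReal_one]
    rw [h1, h2, mul_comm, ← ENNReal.ofReal_mul (by positivity)]
  have hsum : Summable (fun m : ℕ => ((m : ℝ) + 1) * ((2 : ℝ) ^ (-ε)) ^ m) := by
    have hn : ‖(2 : ℝ) ^ (-ε)‖ < 1 := by rwa [Real.norm_of_nonneg hq0]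
    have s1 : Summable (fun m : ℕ => (m : ℝ) ^ 1 * ((2 : ℝ) ^ (-ε)) ^ m) :=
      summable_pow_mul_geometric_of_norm_lt_one 1 hn
    have s2 : Summable (fun m : ℕ => ((2 : ℝ) ^ (-ε)) ^ m) :=
      summable_geometric_of_lt_one hq0 hq1
    refine (s1.add s2).congr fun m => ?_
    ring
  rw [tsum_congr hterm, ← ENNReal.ofReal_tsum_of_nonneg (fun m => by positivity) hsum]
  exact ENNReal.ofReal_ne_top

private theorem wtb_markov {T : E 2 → ℝ≥0∞} (hT : Measurable T) (B : Set (E 2)) (l : ℝ≥0∞) :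
    l ^ 3 * volume (B ∩ {x | l ≤ T x}) ≤ ∫⁻ x in B, T x ^ 3 := by
  have h1 := mul_meas_ge_le_lintegral₀ (μ := volume.restrict B) (hT.pow_const 3).aemeasurable
    (l ^ 3)
  refine le_trans ?_ h1
  refine mul_le_mul_right ?_ _
  have hm : MeasurableSet {x | l ≤ T x} := measurableSet_le measurable_const hT
  calc volume (B ∩ {x | l ≤ T x}) = (volume.restrict B) {x | l ≤ T x} := by
        rw [Measure.restrict_apply hm, inter_comm]
    _ ≤ (volume.restrict B) {x | l ^ 3 ≤ T x ^ 3} := by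
        refine measure_mono fun x hx => ?_
        have hx' : l ≤ T x := hx
        show l ^ 3 ≤ T x ^ 3
        gcongr

theorem weak_est2 {p : ℝ} (hp : 3 / 2 < p) (hp2 : p < 2) :
    ∃ C : ℝ≥0, 0 < C ∧ ∀ (g : E 2 → ℝ) (G : E 2 → E 2), ContDiff ℝ ∞ g → HasCompactSupport g →
      (∀ᵐ x, ‖G x‖ ≤ ‖gradient g x‖ ∨
        ∃ t, 0 < t ∧ (∀ s, 0 < s → sm g s x ≤ sm g t x) ∧ G x = gradient (sm g t) x) →
      ∀ l : ℝ≥0∞, l ≠ 0 → l ≠ ⊤ → l ^ 3 * volume {x | C * l < ‖G x‖ₑ} ≤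
        C * ((∫⁻ x in {x | ‖gradient g x‖ₑ ≤ l}, ‖gradient g x‖ₑ ^ 3) +
          l ^ 3 * volume (Lv (fp p (gradient g)) (l ^ p))) := by
  have hd0 : 0 < 2 := by norm_num
  have hp1 : 1 < p := by linarith
  have hp0 : 0 < p := by linarith
  obtain ⟨K⟩ := exists_ker hd0
  obtain ⟨r, C2, ε, hr, hε, hSc⟩ := scaled_est2 K hp hp2
  obtain ⟨C3, c, hc2, hS⟩ := sum_scales3 hd0 K hp1.le (by linarith : p < 3) hr
  obtain ⟨C4, hOv⟩ := om_vol hd0 c
  obtain ⟨C1, hOh⟩ := om_hlm (d := 2) hd0 hp1.le (F := E 2)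
  have hSt := wtb_sum hε
  set S : ℝ≥0∞ := ∑' m : ℕ, ENNReal.ofReal ((2 : ℝ) ^ (-(ε * m))) * ((m : ℝ≥0∞) + 1) with hSdef
  refine ⟨C4 + C2 * C3 * S.toNNReal + C1 * C2 + 1, by positivity, ?_⟩
  intro g G hg hgc hae l hl0 hlt
  set C : ℝ≥0 := C4 + C2 * C3 * S.toNNReal + C1 * C2 + 1 with hC
  have hHc : Continuous (gradient g) := by
    have : Continuous (fderiv ℝ g) := hg.continuous_fderiv (by simp)
    exact (InnerProductSpace.toDual ℝ (E 2)).symm.continuous.comp this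
  have hHs : HasCompactSupport (gradient g) := by
    have h1 : HasCompactSupport (fderiv ℝ g) := hgc.fderiv (𝕜 := ℝ)
    exact h1.comp_left (g := (InnerProductSpace.toDual ℝ (E 2)).symm) (map_zero _)
  have hfin : ∫⁻ x, fp p (gradient g) x ≠ ⊤ := by
    have hm : MemLp (gradient g) (ENNReal.ofReal p) volume :=
      hHc.memLp_of_hasCompactSupport hHs
    have h1 := lintegral_rpow_enorm_lt_top_of_eLpNorm_lt_top
      (by simpa using hp0) ENNReal.ofReal_ne_top hm.2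
    rw [ENNReal.toReal_ofReal hp0.le] at h1
    exact h1.ne
  have hfc : Continuous (fp p (gradient g)) :=
    (ENNReal.continuous_rpow_const).comp (continuous_enorm.comp hHc)
  have hlp : l ^ p ≠ 0 := by
    rw [Ne, ENNReal.rpow_eq_zero_iff]
    rintro (⟨h, _⟩ | ⟨h, _⟩)
    · exact hl0 h
    · exact hlt h
  set Ω : Set (E 2) := Om (fp p (gradient g)) (l ^ p) c with hΩ
  -- the choice of the functions
  choose T hTm hT1 hT2 using fun (j : ℤ) (z : Fin 2 → ℤ) =>
    hSc g hg hgc ((2 : ℝ) ^ j) (cen j z) (zpow_pos two_pos j)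
  set good : ℤ → Set (Fin 2 → ℤ) := fun j => {z | ¬ dc j (cen j z) ⊆ Ω} with hgood
  -- points outside of the exceptional set
  have hLv : ∀ x, x ∉ Ω → ‖gradient g x‖ₑ ≤ l := by
    intro x hx
    have hx' : x ∉ Lv (fp p (gradient g)) (l ^ p) := by
      intro hxl
      obtain ⟨i, hi⟩ := mem_iUnion.1 hxl
      refine hx ⟨i, x, hi, ?_⟩
      rw [sub_self, norm_zero]
      have : (0 : ℝ) < (2 : ℝ) ^ i := zpow_pos two_pos i
      nlinarith
    have h1 := not_Lv_cont hd0 hlp hfin hfc hx'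
    unfold fp at h1
    exact (ENNReal.rpow_le_rpow_iff hp0).1 h1
  have hHl : ∀ x, x ∉ Ω → hlm (gradient g) x ≤ C1 * l := by
    intro x hx
    refine hOh (gradient g) l hHc.enorm.measurable hl0 hlt hfin x ?_
    rintro ⟨i, y, hy, hxy⟩
    refine hx ⟨i, y, hy, hxy.trans ?_⟩
    have : (0 : ℝ) < (2 : ℝ) ^ i := zpow_pos two_pos i
    exact mul_le_mul_of_nonneg_right hc2 this.le
  have hcov : volume {x | (C : ℝ≥0∞) * l < ‖G x‖ₑ} ≤ volume Ω +
      ∑' j : ℤ, ∑' z : Fin 2 → ℤ, (good j).indicator (fun z =>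
        volume (closedBall (cen j z) (√2 * (2 : ℝ) ^ j) ∩ {x | l ≤ T j z x})) z := by
    have hsub : ∀ᵐ x, x ∈ {x | (C : ℝ≥0∞) * l < ‖G x‖ₑ} →
        x ∈ Ω ∪ ⋃ j : ℤ, ⋃ z : Fin 2 → ℤ, {x | z ∈ good j ∧
          x ∈ closedBall (cen j z) (√2 * (2 : ℝ) ^ j) ∩ {x | l ≤ T j z x}} := by
      filter_upwards [hae] with x hx hxG
      by_cases hxO : x ∈ Ω
      · exact Or.inl hxO
      refine Or.inr ?_
      have hxG' : (C : ℝ≥0∞) * l < ‖G x‖ₑ := hxG
      have hC1 : (1 : ℝ≥0∞) ≤ C := by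
        have : (1 : ℝ≥0) ≤ C := by
          rw [hC]
          exact le_add_of_nonneg_left zero_le
        exact_mod_cast this
      rcases hx with hx | ⟨t, ht, htm, hGt⟩
      · exfalso
        have h1 : ‖G x‖ₑ ≤ ‖gradient g x‖ₑ := by
          rw [← ofReal_norm, ← ofReal_norm]
          exact ENNReal.ofReal_le_ofReal hx
        have h2 := h1.trans (hLv x hxO)
        have h3 : l ≤ C * l := by
          calc l = 1 * l := (one_mul l).symm
            _ ≤ C * l := by gcongr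
        exact absurd (lt_of_lt_of_le hxG' (h2.trans h3)) (lt_irrefl _)
      · obtain ⟨j, hj⟩ := exists_mem_Ico_zpow ht (one_lt_two : (1 : ℝ) < 2)
        have hxm := mem_dc_cen j x
        set z : Fin 2 → ℤ := fun l => ⌊(2 : ℝ) ^ (-j) * x l⌋ with hz
        have hxb : x ∈ closedBall (cen j z : E 2) (√2 * (2 : ℝ) ^ j) := by
          have h := dc_cen_sub j z hxm
          rwa [Nat.cast_ofNat] at h
        have htI : t ∈ Icc ((2 : ℝ) ^ j) (2 * (2 : ℝ) ^ j) := by
          refine ⟨hj.1, hj.2.le.trans (le_of_eq ?_)⟩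
          rw [zpow_add_one₀ (by norm_num : (2 : ℝ) ≠ 0)]
          ring
        have h1 := hT1 j z x hxb t htI htm
        rw [← hGt] at h1
        have h2 : ‖G x‖ₑ ≤ C2 * (C1 * l) + T j z x :=
          h1.trans (by gcongr; exact hHl x hxO)
        have h3 : ((C2 : ℝ≥0∞) * (C1 * l)) + l ≤ C * l := by
          have : C1 * C2 + 1 ≤ C := by
            rw [hC, add_assoc]
            exact le_add_of_nonneg_left zero_le
          calc ((C2 : ℝ≥0∞) * (C1 * l)) + l = ((C1 * C2 + 1 : ℝ≥0) : ℝ≥0∞) * l := by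
                push_cast
                ring
            _ ≤ C * l := by gcongr
        have h4 : ((C2 : ℝ≥0∞) * (C1 * l)) + l < (C2 : ℝ≥0∞) * (C1 * l) + T j z x :=
          lt_of_le_of_lt h3 (lt_of_lt_of_le hxG' h2)
        have h5 : l < T j z x := by
          have hne : (C2 : ℝ≥0∞) * (C1 * l) ≠ ⊤ :=
            ENNReal.mul_ne_top ENNReal.coe_ne_top (ENNReal.mul_ne_top ENNReal.coe_ne_top hlt)
          exact (ENNReal.add_lt_add_iff_left hne).1 h4
        refine mem_iUnion.2 ⟨j, mem_iUnion.2 ⟨z, ?_, hxb, h5.le⟩⟩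
        exact fun hss => hxO (hss hxm)
    refine (measure_mono_ae hsub).trans ((measure_union_le _ _).trans ?_)
    gcongr
    refine (measure_iUnion_le _).trans (ENNReal.tsum_le_tsum fun j => ?_)
    refine (measure_iUnion_le _).trans (ENNReal.tsum_le_tsum fun z => ?_)
    by_cases hz : z ∈ good j
    · rw [indicator_of_mem hz]
      exact measure_mono fun x hx => hx.2
    · have : {x | z ∈ good j ∧
          x ∈ closedBall (cen j z) (√2 * (2 : ℝ) ^ j) ∩ {x | l ≤ T j z x}} = (∅ : Set (E 2)) := by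
        ext x
        simp [hz]
      rw [this, measure_empty]
      exact zero_le
  -- the sum over the cubes
  set X : ℝ≥0∞ := (∫⁻ x in {x | ‖gradient g x‖ₑ ≤ l}, ‖gradient g x‖ₑ ^ 3) +
      l ^ 3 * volume (Lv (fp p (gradient g)) (l ^ p)) with hX
  have hsum : l ^ 3 * (∑' j : ℤ, ∑' z : Fin 2 → ℤ, (good j).indicator (fun z =>
      volume (closedBall (cen j z) (√2 * (2 : ℝ) ^ j) ∩ {x | l ≤ T j z x})) z) ≤
      C2 * (C3 * (S * X)) := by
    have e1 : ∀ (j : ℤ) (z : Fin 2 → ℤ), l ^ 3 * (good j).indicator (fun z =>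
        volume (closedBall (cen j z) (√2 * (2 : ℝ) ^ j) ∩ {x | l ≤ T j z x})) z ≤
        ∑' m : ℕ, C2 * (ENNReal.ofReal ((2 : ℝ) ^ (-(ε * m))) *
          (good j).indicator (Aav3 K p r m (gradient g) j) z) := by
      intro j z
      by_cases hz : z ∈ good j
      · rw [indicator_of_mem hz]
        refine (wtb_markov (hTm j z) _ l).trans ((hT2 j z).trans ?_)
        rw [ENNReal.tsum_mul_left]
        gcongr with m
        rw [indicator_of_mem hz]
        exact le_of_eq rfl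
      · rw [indicator_of_notMem hz, mul_zero]
        exact zero_le
    calc l ^ 3 * (∑' j : ℤ, ∑' z : Fin 2 → ℤ, (good j).indicator (fun z =>
          volume (closedBall (cen j z) (√2 * (2 : ℝ) ^ j) ∩ {x | l ≤ T j z x})) z)
        = ∑' j : ℤ, ∑' z : Fin 2 → ℤ, l ^ 3 * (good j).indicator (fun z =>
          volume (closedBall (cen j z) (√2 * (2 : ℝ) ^ j) ∩ {x | l ≤ T j z x})) z := by
          rw [← ENNReal.tsum_mul_left]
          refine tsum_congr fun j => ?_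
          rw [ENNReal.tsum_mul_left]
      _ ≤ ∑' j : ℤ, ∑' z : Fin 2 → ℤ, ∑' m : ℕ, C2 * (ENNReal.ofReal ((2 : ℝ) ^ (-(ε * m))) *
          (good j).indicator (Aav3 K p r m (gradient g) j) z) :=
          ENNReal.tsum_le_tsum fun j => ENNReal.tsum_le_tsum fun z => e1 j z
      _ = ∑' m : ℕ, C2 * (ENNReal.ofReal ((2 : ℝ) ^ (-(ε * m))) *
          ∑' j : ℤ, ∑' z : Fin 2 → ℤ, (good j).indicator (Aav3 K p r m (gradient g) j) z) := by
          have f1 : ∀ j : ℤ, ∑' z : Fin 2 → ℤ, ∑' m : ℕ, (C2 : ℝ≥0∞) *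
              (ENNReal.ofReal ((2 : ℝ) ^ (-(ε * m))) *
              (good j).indicator (Aav3 K p r m (gradient g) j) z) =
              ∑' m : ℕ, (C2 : ℝ≥0∞) * (ENNReal.ofReal ((2 : ℝ) ^ (-(ε * m))) *
              ∑' z : Fin 2 → ℤ, (good j).indicator (Aav3 K p r m (gradient g) j) z) := by
            intro j
            rw [ENNReal.tsum_comm]
            refine tsum_congr fun m => ?_
            rw [ENNReal.tsum_mul_left, ENNReal.tsum_mul_left]
          rw [tsum_congr f1, ENNReal.tsum_comm]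
          refine tsum_congr fun m => ?_
          rw [ENNReal.tsum_mul_left, ENNReal.tsum_mul_left]
      _ ≤ ∑' m : ℕ, C2 * (ENNReal.ofReal ((2 : ℝ) ^ (-(ε * m))) *
          (C3 * (m + 1) * X)) := by
          gcongr with m
          exact hS m (gradient g) l hHc hHs hl0 hlt
      _ = C2 * (C3 * (S * X)) := by
          have f2 : ∀ m : ℕ, (C2 : ℝ≥0∞) * (ENNReal.ofReal ((2 : ℝ) ^ (-(ε * m))) *
              (C3 * ((m : ℝ≥0∞) + 1) * X)) = C2 * (C3 * X) *
              (ENNReal.ofReal ((2 : ℝ) ^ (-(ε * m))) * ((m : ℝ≥0∞) + 1)) := by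
            intro m
            ring
          rw [tsum_congr f2, ENNReal.tsum_mul_left, ← hSdef]
          ring
  have hΩv : l ^ 3 * volume Ω ≤ C4 * X := by
    calc l ^ 3 * volume Ω ≤ l ^ 3 * (C4 * volume (Lv (fp p (gradient g)) (l ^ p))) := by
          gcongr
          exact hOv _ _ hfc.measurable
      _ = C4 * (l ^ 3 * volume (Lv (fp p (gradient g)) (l ^ p))) := by ring
      _ ≤ C4 * X := by
          gcongr
          exact le_add_self
  calc l ^ 3 * volume {x | (C : ℝ≥0∞) * l < ‖G x‖ₑ}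
      ≤ l ^ 3 * (volume Ω + ∑' j : ℤ, ∑' z : Fin 2 → ℤ, (good j).indicator (fun z =>
        volume (closedBall (cen j z) (√2 * (2 : ℝ) ^ j) ∩ {x | l ≤ T j z x})) z) := by
        gcongr
    _ ≤ C4 * X + C2 * (C3 * (S * X)) := by
        rw [mul_add]
        exact add_le_add hΩv hsum
    _ = ((C4 + C2 * C3 * S.toNNReal : ℝ≥0) : ℝ≥0∞) * X := by
        push_cast
        rw [ENNReal.coe_toNNReal hSt]
        ring
    _ ≤ C * X := by
        gcongr
        rw [hC, add_assoc (C4 + C2 * C3 * S.toNNReal)]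
        exact le_add_of_nonneg_right zero_le

end Pool.Agent.Lib.MP_ff3fe0_an_SPH2
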