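import Pool.Agent.Lib.MP_ff3fe0_an_SPH2.IntB
import Pool.Agent.Lib.MP_ff3fe0_an_SPH2.WTB

set_option autoImplicit false

/-!
# The strong estimate for test functions
-/

namespace Pool.Agent.Lib.MP_ff3fe0_an_SPH2

open MeasureTheory Metric Set
open scoped ENNReal NNReal ContDiff FourierTransform
open Pool.Agent.Lib.MP_ff3fe0_an
open Pool.Agent.Lib.MP_ff3fe0_an_SPH

/-- The gradient bound for nonnegative test functions in the plane. -/
theorem smooth_bound2 {p : ℝ} (hp : 3 / 2 < p) (hp2 : p ≤ 2) : ∃ C : ℝ≥0, ∀ g : E 2 → ℝ,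
      ContDiff ℝ ∞ g → HasCompactSupport g → (∀ x, 0 ≤ g x) → ∃ G : E 2 → E 2,
        IsWeakGradient (fun x => (sphMax g x).toReal) G ∧
        ∫⁻ x, ‖G x‖ₑ ^ p ≤ C * ∫⁻ x, ‖gradient g x‖ₑ ^ p := by
  have hd0 : 0 < 2 := two_pos
  obtain ⟨p₁, hp₁, hp₁p⟩ := exists_between hp
  obtain ⟨C, hC, hw⟩ := weak_est2 hp₁ (hp₁p.trans_le hp2)
  obtain ⟨C', hC'⟩ := interpol3 hd0 (by linarith : 1 ≤ p₁) hp₁p (by linarith) C hC
  refine ⟨C', fun g hg hgc h0 => ?_⟩
  obtain ⟨G, hGm, hGw, hGa⟩ := rad hd0 hg hgc h0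
  have hHc : Continuous (gradient g) := by
    have : Continuous (fderiv ℝ g) := hg.continuous_fderiv (by simp)
    exact (InnerProductSpace.toDual ℝ (E 2)).symm.continuous.comp this
  have hHs : HasCompactSupport (gradient g) := by
    have h1 : HasCompactSupport (fderiv ℝ g) := hgc.fderiv (𝕜 := ℝ)
    exact h1.comp_left (g := (InnerProductSpace.toDual ℝ (E 2)).symm) (map_zero _)
  exact ⟨G, hGw, hC' G (gradient g) hGm hHc hHs (hw g G hg hgc hGa)⟩

end Pool.Agent.Lib.MP_ff3fe0_an_SPH2
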