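import Pool.Agent.Lib.MP_ff3fe0_an_SPH2.Defs2
import Pool.Agent.Lib.MP_ff3fe0_an_SPH.MaxS

set_option autoImplicit false

/-!
# A pointwise bound for the spherical maximal function
-/

namespace Pool.Agent.Lib.MP_ff3fe0_an_SPH2

open MeasureTheory Metric Set
open scoped ENNReal NNReal ContDiff FourierTransform
open Pool.Agent.Lib.MP_ff3fe0_an
open Pool.Agent.Lib.MP_ff3fe0_an_SPH

variable {d : ℕ}

/-- the spherical average of a nonnegative function -/
private noncomputable def maxT_A (F : E d → ℝ≥0∞) (t : ℝ) (x : E d) : ℝ≥0∞ :=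
  ∫⁻ y : Sph d, F (x - t • (y : E d)) ∂(sigma d)

private theorem maxT_norm_gradient (w : E d → ℝ) (z : E d) :
    ‖gradient w z‖ = ‖fderiv ℝ w z‖ := by
  rw [gradient, LinearIsometryEquiv.norm_map]

private theorem maxT_cont_gradient {w : E d → ℝ} (hw : ContDiff ℝ 1 w) :
    Continuous (gradient w) := by
  have h1 : Continuous (fderiv ℝ w) := hw.continuous_fderiv one_ne_zero
  exact (LinearIsometryEquiv.continuous _).comp h1

private theorem maxT_ftc {w : E d → ℝ} (hw : ContDiff ℝ 1 w) (x : E d) (y : Sph d) {a b : ℝ}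
    (hab : a ≤ b) : ‖w (x - b • (y : E d)) - w (x - a • (y : E d))‖ₑ ≤
      ∫⁻ u in Ioc a b, ‖gradient w (x - u • (y : E d))‖ₑ := by
  have hd1 : ∀ u : ℝ, HasDerivAt (fun u : ℝ => w (x - u • (y : E d)))
      (fderiv ℝ w (x - u • (y : E d)) (-(y : E d))) u := by
    intro u
    have h1 : HasDerivAt (fun u : ℝ => x - u • (y : E d)) (-(y : E d)) u := by
      have h2 := ((hasDerivAt_id u).smul_const (y : E d)).const_sub x
      simpa using h2
    have h3 : HasFDerivAt w (fderiv ℝ w (x - u • (y : E d))) (x - u • (y : E d)) :=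
      ((hw.differentiable one_ne_zero) _).hasFDerivAt
    exact h3.comp_hasDerivAt u h1
  have hc : Continuous fun u : ℝ => fderiv ℝ w (x - u • (y : E d)) (-(y : E d)) := by
    have h1 : Continuous fun u : ℝ => fderiv ℝ w (x - u • (y : E d)) :=
      (hw.continuous_fderiv one_ne_zero).comp (by fun_prop)
    exact h1.clm_apply continuous_const
  have hI := intervalIntegral.integral_eq_sub_of_hasDerivAt (a := a) (b := b)
    (fun u _ => hd1 u) (hc.intervalIntegrable _ _)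
  rw [← hI, intervalIntegral.integral_of_le hab]
  refine (enorm_integral_le_lintegral_enorm _).trans ?_
  refine lintegral_mono fun u => ?_
  rw [← ofReal_norm, ← ofReal_norm]
  apply ENNReal.ofReal_le_ofReal
  rw [maxT_norm_gradient]
  refine (ContinuousLinearMap.le_opNorm _ _).trans ?_
  rw [norm_neg, norm_eq_of_mem_sphere y, mul_one]

private theorem maxT_meas {F : E d → ℝ≥0∞} (hF : Measurable F) (x : E d) :
    Measurable fun p : ℝ × Sph d => F (x - p.1 • (p.2 : E d)) := by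
  apply hF.comp
  fun_prop

private theorem maxT_measA (hd : 0 < d) {F : E d → ℝ≥0∞} (hF : Measurable F) (x : E d) :
    Measurable fun u : ℝ => maxT_A F u x := by
  have := sigma_prob hd
  exact (maxT_meas hF x).lintegral_prod_right'

private theorem maxT_swap (hd : 0 < d) {F : E d → ℝ≥0∞} (hF : Measurable F) (x : E d)
    (s : Set ℝ) :
    ∫⁻ y : Sph d, (∫⁻ u in s, F (x - u • (y : E d))) ∂(sigma d) =
      ∫⁻ u in s, maxT_A F u x := by
  have := sigma_prob hd
  unfold maxT_A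
  rw [lintegral_lintegral_swap]
  exact ((maxT_meas hF x).comp measurable_swap).aemeasurable

/-- polar coordinates around `x` -/
private theorem maxT_polar (hd : 0 < d) {F ψ : E d → ℝ≥0∞} (hF : Measurable F)
    (hψ : Measurable ψ) (x : E d) :
    (d * volume (ball (0 : E d) 1)) * ∫⁻ r in Ioi (0 : ℝ),
      ENNReal.ofReal (r ^ (d - 1)) * ∫⁻ y : Sph d, F (x - r • (y : E d)) *
        ψ (r • (y : E d)) ∂(sigma d) = ∫⁻ z, F (x - z) * ψ z := by
  have hm : Measurable fun z : E d => F (x - z) * ψ z :=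
    (hF.comp (measurable_const.sub measurable_id)).mul hψ
  exact (lintegral_polar hd _ hm).symm

private theorem maxT_near_aux (hd : 0 < d) {F : E d → ℝ≥0∞} (hF : Measurable F) (x : E d)
    {t : ℝ} (ht : 0 < t) :
    (d * volume (ball (0 : E d) 1)) * (ENNReal.ofReal ((t / 2) ^ (d - 1)) *
      ∫⁻ u in Ioc (t / 2) t, maxT_A F u x) ≤ ∫⁻ z in closedBall x t, F z := by
  have h1 : ∫⁻ z in closedBall x t, F z =
      ∫⁻ z, F (x - z) * (closedBall (0 : E d) t).indicator 1 z := by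
    rw [← lintegral_indicator measurableSet_closedBall,
      ← lintegral_sub_left_eq_self (fun y => (closedBall x t).indicator F y) x]
    refine lintegral_congr fun z => ?_
    by_cases hz : z ∈ closedBall (0 : E d) t
    · rw [indicator_of_mem hz, indicator_of_mem]
      · simp
      · rw [mem_closedBall, dist_eq_norm, sub_sub_cancel_left, norm_neg]
        rwa [mem_closedBall, dist_zero_right] at hz
    · rw [indicator_of_notMem hz, indicator_of_notMem]
      · simp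
      · rw [mem_closedBall, dist_eq_norm, sub_sub_cancel_left, norm_neg]
        rwa [mem_closedBall, dist_zero_right] at hz
  have hind : Measurable ((closedBall (0 : E d) t).indicator (1 : E d → ℝ≥0∞)) :=
    measurable_one.indicator measurableSet_closedBall
  rw [h1, ← maxT_polar hd hF hind x]
  refine mul_le_mul' le_rfl ?_
  rw [← lintegral_const_mul _ (maxT_measA hd hF x)]
  have hsub : Ioc (t / 2) t ⊆ Ioi (0 : ℝ) := fun r hr => by
    rw [mem_Ioi]
    linarith [hr.1]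
  refine le_trans ?_ (lintegral_mono_set hsub)
  refine setLIntegral_mono' measurableSet_Ioc fun r hr => ?_
  have hr0 : 0 < r := by linarith [hr.1]
  refine mul_le_mul' (ENNReal.ofReal_le_ofReal (pow_le_pow_left₀ (by positivity) hr.1.le _)) ?_
  unfold maxT_A
  refine lintegral_mono fun y => ?_
  rw [indicator_of_mem]
  · simp
  · rw [mem_closedBall, dist_zero_right, norm_smul, Real.norm_of_nonneg hr0.le,
      norm_eq_of_mem_sphere y, mul_one]
    exact hr.2

private theorem maxT_near (hd : 0 < d) : ∃ C : ℝ≥0, ∀ w : E d → ℝ,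
    ContDiff ℝ 1 w → ∀ x, ∀ t : ℝ, 0 < t → t ≤ 1 → maxT_A (fun z => ‖w z‖ₑ) t x ≤
      C * (hlm w x + hlm (gradient w) x) := by
  obtain ⟨C, hC⟩ := hl_ball (d := d) hd
  have hd0 : (d : ℝ≥0∞) ≠ 0 := by
    simp only [ne_eq, Nat.cast_eq_zero]
    omega
  have hb0 : volume (ball (0 : E d) 1) ≠ 0 := (measure_ball_pos _ _ one_pos).ne'
  have hbt : volume (ball (0 : E d) 1) ≠ ⊤ := measure_ball_lt_top.ne
  set κ : ℝ≥0∞ := d * volume (ball (0 : E d) 1) with hκ
  have hκ0 : κ ≠ 0 := mul_ne_zero hd0 hb0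
  have hκt : κ ≠ ⊤ := ENNReal.mul_ne_top (by simp) hbt
  have hpr := sigma_prob hd
  refine ⟨κ⁻¹.toNNReal * C * 2 ^ d, fun w hw x t ht ht1 => ?_⟩
  have hFw : Measurable fun z => ‖w z‖ₑ := hw.continuous.measurable.enorm
  have hFg : Measurable fun z => ‖gradient w z‖ₑ := (maxT_cont_gradient hw).measurable.enorm
  -- averaging over the radius
  have h1 : ENNReal.ofReal (t / 2) * maxT_A (fun z => ‖w z‖ₑ) t x ≤
      (∫⁻ u in Ioc (t / 2) t, maxT_A (fun z => ‖w z‖ₑ) u x) +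
      ENNReal.ofReal (t / 2) * ∫⁻ u in Ioc (t / 2) t, maxT_A (fun z => ‖gradient w z‖ₑ) u x := by
    have h2 : ∀ s ∈ Ioc (t / 2) t, maxT_A (fun z => ‖w z‖ₑ) t x ≤
        maxT_A (fun z => ‖w z‖ₑ) s x +
          ∫⁻ u in Ioc (t / 2) t, maxT_A (fun z => ‖gradient w z‖ₑ) u x := by
      intro s hs
      rw [← maxT_swap hd hFg x (Ioc (t / 2) t)]
      unfold maxT_A
      rw [← lintegral_add_left]
      · refine lintegral_mono fun y => ?_
        have h3 := maxT_ftc hw x y hs.2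
        have h4 : ‖w (x - t • (y : E d))‖ₑ ≤ ‖w (x - s • (y : E d))‖ₑ +
            ‖w (x - t • (y : E d)) - w (x - s • (y : E d))‖ₑ := by
          have h5 := enorm_add_le (w (x - s • (y : E d)))
            (w (x - t • (y : E d)) - w (x - s • (y : E d)))
          rwa [add_sub_cancel] at h5
        refine h4.trans (add_le_add le_rfl (h3.trans ?_))
        exact lintegral_mono_set (Ioc_subset_Ioc_left hs.1.le)
      · exact hFw.comp (by fun_prop)
    have h3 : ∫⁻ s in Ioc (t / 2) t, maxT_A (fun z => ‖w z‖ₑ) t x ≤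
        ∫⁻ s in Ioc (t / 2) t, (maxT_A (fun z => ‖w z‖ₑ) s x +
          ∫⁻ u in Ioc (t / 2) t, maxT_A (fun z => ‖gradient w z‖ₑ) u x) :=
      setLIntegral_mono' measurableSet_Ioc h2
    rw [lintegral_add_left (maxT_measA hd hFw x), lintegral_const, lintegral_const,
      Measure.restrict_apply MeasurableSet.univ, univ_inter, Real.volume_Ioc,
      show t - t / 2 = t / 2 by ring, mul_comm, mul_comm _ (ENNReal.ofReal (t / 2))] at h3
    exact h3
  have hw1 := maxT_near_aux hd hFw x ht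
  have hg1 := maxT_near_aux hd hFg x ht
  have hw2 := hC w x t ht
  have hg2 := hC (gradient w) x t ht
  rw [← hκ] at hw1 hg1
  have hw3 := hw1.trans hw2
  have hg3 := hg1.trans hg2
  -- multiply
  set c : ℝ≥0∞ := κ * ENNReal.ofReal ((t / 2) ^ d) with hc
  have ht2 : 0 < (t / 2) ^ d := by positivity
  have hc0 : c ≠ 0 := mul_ne_zero hκ0 (by
    rw [ne_eq, ENNReal.ofReal_eq_zero, not_le]
    exact ht2)
  have hct : c ≠ ⊤ := ENNReal.mul_ne_top hκt ENNReal.ofReal_ne_top
  have hpow : ENNReal.ofReal ((t / 2) ^ d) =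
      ENNReal.ofReal ((t / 2) ^ (d - 1)) * ENNReal.ofReal (t / 2) := by
    rw [← ENNReal.ofReal_mul (by positivity), ← pow_succ, Nat.sub_add_cancel hd]
  have hpow2 : ENNReal.ofReal (t ^ d) = 2 ^ d * ENNReal.ofReal ((t / 2) ^ d) := by
    have h5 : (2 : ℝ≥0∞) ^ d = ENNReal.ofReal (2 ^ d) := by
      rw [ENNReal.ofReal_pow (by norm_num)]
      simp
    rw [h5, ← ENNReal.ofReal_mul (by positivity), ← mul_pow]
    congr 2
    ring
  have hle1 : ENNReal.ofReal (t / 2) ≤ 1 := by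
    rw [← ENNReal.ofReal_one]
    apply ENNReal.ofReal_le_ofReal
    linarith
  have key : c * maxT_A (fun z => ‖w z‖ₑ) t x ≤
      c * ((κ⁻¹.toNNReal * C * 2 ^ d : ℝ≥0) * (hlm w x + hlm (gradient w) x)) := by
    calc c * maxT_A (fun z => ‖w z‖ₑ) t x
        = κ * ENNReal.ofReal ((t / 2) ^ (d - 1)) *
          (ENNReal.ofReal (t / 2) * maxT_A (fun z => ‖w z‖ₑ) t x) := by
          rw [hc, hpow]
          ring
      _ ≤ κ * ENNReal.ofReal ((t / 2) ^ (d - 1)) *
          ((∫⁻ u in Ioc (t / 2) t, maxT_A (fun z => ‖w z‖ₑ) u x) +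
          ENNReal.ofReal (t / 2) *
            ∫⁻ u in Ioc (t / 2) t, maxT_A (fun z => ‖gradient w z‖ₑ) u x) :=
          mul_le_mul' le_rfl h1
      _ = κ * (ENNReal.ofReal ((t / 2) ^ (d - 1)) *
            ∫⁻ u in Ioc (t / 2) t, maxT_A (fun z => ‖w z‖ₑ) u x) +
          ENNReal.ofReal (t / 2) * (κ * (ENNReal.ofReal ((t / 2) ^ (d - 1)) *
            ∫⁻ u in Ioc (t / 2) t, maxT_A (fun z => ‖gradient w z‖ₑ) u x)) := by ring
      _ ≤ C * ENNReal.ofReal (t ^ d) * hlm w x +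
          1 * (C * ENNReal.ofReal (t ^ d) * hlm (gradient w) x) :=
          add_le_add hw3 (mul_le_mul' hle1 hg3)
      _ = (κ * κ⁻¹) * (C * (2 ^ d * ENNReal.ofReal ((t / 2) ^ d)) *
            (hlm w x + hlm (gradient w) x)) := by
          rw [ENNReal.mul_inv_cancel hκ0 hκt, hpow2]
          ring
      _ = c * ((κ⁻¹.toNNReal * C * 2 ^ d : ℝ≥0) * (hlm w x + hlm (gradient w) x)) := by
          rw [hc]
          push_cast
          rw [ENNReal.coe_toNNReal (ENNReal.inv_ne_top.mpr hκ0)]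
          ring
  exact (ENNReal.mul_le_mul_iff_right hc0 hct).1 key


/-- the Hölder inequality on a ball of radius at least one -/
private theorem maxT_holder (hd : 2 ≤ d) {p : ℝ} (hp : 1 ≤ p) (hpd : p ≤ d) :
    ∃ D : ℝ≥0, ∀ {F : Type} [NormedAddCommGroup F] (f : E d → F),
      AEStronglyMeasurable f volume → ∀ x : E d, ∀ t : ℝ, 1 ≤ t →
      ∫⁻ z in closedBall x (2 * t), ‖f z‖ₑ ≤
        D * ENNReal.ofReal (t ^ (d - 1)) * (∫⁻ z, ‖f z‖ₑ ^ p) ^ (1 / p) := by
  have hp0 : 0 < p := by linarith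
  have hbt : volume (ball (0 : E d) 1) ≠ ⊤ := measure_ball_lt_top.ne
  have he : 0 ≤ 1 - 1 / p := by
    rw [sub_nonneg, div_le_one hp0]
    exact hp
  set V : ℝ≥0∞ := volume (ball (0 : E d) 1) ^ (1 - 1 / p) with hV
  have hVt : V ≠ ⊤ := ENNReal.rpow_ne_top_of_nonneg he hbt
  refine ⟨V.toNNReal * 2 ^ (d - 1), fun f hf x t ht => ?_⟩
  have ht0 : 0 < t := by linarith
  set μ : Measure (E d) := volume.restrict (closedBall x (2 * t)) with hμ
  have h1p : (1 : ℝ≥0∞) ≤ ENNReal.ofReal p := by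
    rw [← ENNReal.ofReal_one]
    exact ENNReal.ofReal_le_ofReal hp
  have h1 := eLpNorm_le_eLpNorm_mul_rpow_measure_univ (μ := μ) h1p hf.restrict
  have h2 : eLpNorm f 1 μ = ∫⁻ z in closedBall x (2 * t), ‖f z‖ₑ := by
    rw [eLpNorm_one_eq_lintegral_enorm]
  have h3 : eLpNorm f (ENNReal.ofReal p) μ ≤ (∫⁻ z, ‖f z‖ₑ ^ p) ^ (1 / p) := by
    refine (eLpNorm_mono_measure f Measure.restrict_le_self).trans ?_
    rw [eLpNorm_eq_lintegral_rpow_enorm_toReal (by simpa using hp0) ENNReal.ofReal_ne_top,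
      ENNReal.toReal_ofReal hp0.le]
  have h4 : μ univ = ENNReal.ofReal ((2 * t) ^ d) * volume (ball (0 : E d) 1) := by
    rw [hμ, Measure.restrict_apply MeasurableSet.univ, univ_inter,
      Measure.addHaar_closedBall volume x (by positivity), finrank_euclideanSpace_fin]
  have h5 : μ univ ^ (1 / (1 : ℝ≥0∞).toReal - 1 / (ENNReal.ofReal p).toReal) ≤
      ENNReal.ofReal (2 ^ (d - 1) * t ^ (d - 1)) * V := by
    rw [ENNReal.toReal_one, ENNReal.toReal_ofReal hp0.le, div_one, h4,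
      ENNReal.mul_rpow_of_nonneg _ _ he]
    refine mul_le_mul' ?_ le_rfl
    rw [ENNReal.ofReal_rpow_of_nonneg (by positivity) he]
    apply ENNReal.ofReal_le_ofReal
    rw [← mul_pow, ← Real.rpow_natCast (2 * t) d, ← Real.rpow_mul (by positivity),
      ← Real.rpow_natCast (2 * t) (d - 1)]
    refine Real.rpow_le_rpow_of_exponent_le (by linarith) ?_
    rw [Nat.cast_sub (by omega), Nat.cast_one, mul_sub, mul_one]
    have h6 : 1 ≤ (d : ℝ) * (1 / p) := by
      rw [mul_one_div, le_div_iff₀ hp0, one_mul]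
      exact hpd
    linarith
  rw [h2] at h1
  refine h1.trans ((mul_le_mul' h3 h5).trans (le_of_eq ?_))
  push_cast
  rw [ENNReal.coe_toNNReal hVt, ENNReal.ofReal_mul (by positivity)]
  have h7 : ENNReal.ofReal ((2 : ℝ) ^ (d - 1)) = 2 ^ (d - 1) := by
    rw [ENNReal.ofReal_pow (by norm_num)]
    simp
  rw [h7]
  ring

private theorem maxT_far (hd : 2 ≤ d) {p : ℝ} (hp : 1 ≤ p) (hpd : p ≤ d) :
    ∃ C : ℝ≥0, ∀ w : E d → ℝ, ContDiff ℝ 1 w → ∀ x, ∀ t : ℝ, 1 ≤ t →
      maxT_A (fun z => ‖w z‖ₑ) t x ≤ C * ((∫⁻ y, ‖w y‖ₑ ^ p) ^ (1 / p) +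
        (∫⁻ y, ‖gradient w y‖ₑ ^ p) ^ (1 / p)) := by
  have hd' : 0 < d := by omega
  obtain ⟨D, hD⟩ := maxT_holder hd hp hpd
  have hd0 : (d : ℝ≥0∞) ≠ 0 := by
    simp only [ne_eq, Nat.cast_eq_zero]
    omega
  have hb0 : volume (ball (0 : E d) 1) ≠ 0 := (measure_ball_pos _ _ one_pos).ne'
  have hbt : volume (ball (0 : E d) 1) ≠ ⊤ := measure_ball_lt_top.ne
  set κ : ℝ≥0∞ := d * volume (ball (0 : E d) 1) with hκ
  have hκ0 : κ ≠ 0 := mul_ne_zero hd0 hb0
  have hκt : κ ≠ ⊤ := ENNReal.mul_ne_top (by simp) hbt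
  have hpr := sigma_prob hd'
  refine ⟨κ⁻¹.toNNReal * D, fun w hw x t ht => ?_⟩
  have ht0 : 0 < t := by linarith
  have hcg := maxT_cont_gradient hw
  have hFw : Measurable fun z => ‖w z‖ₑ := hw.continuous.measurable.enorm
  have hFg : Measurable fun z => ‖gradient w z‖ₑ := hcg.measurable.enorm
  have hint : ∀ G : E d → ℝ≥0∞, Measurable G → ∀ N : ℝ≥0∞,
      ∫⁻ z in closedBall x (2 * t), G z ≤ D * ENNReal.ofReal (t ^ (d - 1)) * N →
      ∫⁻ u in Ioc t (2 * t), maxT_A G u x ≤ κ⁻¹ * (D * N) := by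
    intro G hG N hN
    have h1 := maxT_near_aux hd' hG x (t := 2 * t) (by positivity)
    rw [show 2 * t / 2 = t by ring, ← hκ] at h1
    have h2 := h1.trans hN
    have hc0 : ENNReal.ofReal (t ^ (d - 1)) ≠ 0 := by
      rw [ne_eq, ENNReal.ofReal_eq_zero, not_le]
      positivity
    rw [← ENNReal.div_eq_inv_mul, ENNReal.le_div_iff_mul_le (Or.inl hκ0) (Or.inl hκt)]
    refine (ENNReal.mul_le_mul_iff_right hc0 ENNReal.ofReal_ne_top).1 ?_
    calc ENNReal.ofReal (t ^ (d - 1)) * ((∫⁻ u in Ioc t (2 * t), maxT_A G u x) * κ)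
        = κ * (ENNReal.ofReal (t ^ (d - 1)) * ∫⁻ u in Ioc t (2 * t), maxT_A G u x) := by ring
      _ ≤ D * ENNReal.ofReal (t ^ (d - 1)) * N := h2
      _ = ENNReal.ofReal (t ^ (d - 1)) * (D * N) := by ring
  have hw1 := hint _ hFw _ (hD w hw.continuous.aestronglyMeasurable x t ht)
  have hg1 := hint _ hFg _ (hD (gradient w) hcg.aestronglyMeasurable x t ht)
  have h1 : ENNReal.ofReal t * maxT_A (fun z => ‖w z‖ₑ) t x ≤
      (∫⁻ u in Ioc t (2 * t), maxT_A (fun z => ‖w z‖ₑ) u x) +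
      ENNReal.ofReal t * ∫⁻ u in Ioc t (2 * t), maxT_A (fun z => ‖gradient w z‖ₑ) u x := by
    have h2 : ∀ s ∈ Ioc t (2 * t), maxT_A (fun z => ‖w z‖ₑ) t x ≤
        maxT_A (fun z => ‖w z‖ₑ) s x +
          ∫⁻ u in Ioc t (2 * t), maxT_A (fun z => ‖gradient w z‖ₑ) u x := by
      intro s hs
      rw [← maxT_swap hd' hFg x (Ioc t (2 * t))]
      unfold maxT_A
      rw [← lintegral_add_left]
      · refine lintegral_mono fun y => ?_
        have h3 := maxT_ftc hw x y hs.1.le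
        have h4 : ‖w (x - t • (y : E d))‖ₑ ≤ ‖w (x - s • (y : E d))‖ₑ +
            ‖w (x - s • (y : E d)) - w (x - t • (y : E d))‖ₑ := by
          have h5 := enorm_add_le (w (x - s • (y : E d)))
            (w (x - t • (y : E d)) - w (x - s • (y : E d)))
          rwa [add_sub_cancel, ← enorm_neg (w (x - t • (y : E d)) - w (x - s • (y : E d))),
            neg_sub] at h5
        refine h4.trans (add_le_add le_rfl (h3.trans ?_))
        exact lintegral_mono_set (Ioc_subset_Ioc_right hs.2)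
      · exact hFw.comp (by fun_prop)
    have h3 : ∫⁻ s in Ioc t (2 * t), maxT_A (fun z => ‖w z‖ₑ) t x ≤
        ∫⁻ s in Ioc t (2 * t), (maxT_A (fun z => ‖w z‖ₑ) s x +
          ∫⁻ u in Ioc t (2 * t), maxT_A (fun z => ‖gradient w z‖ₑ) u x) :=
      setLIntegral_mono' measurableSet_Ioc h2
    rw [lintegral_add_left (maxT_measA hd' hFw x), lintegral_const, lintegral_const,
      Measure.restrict_apply MeasurableSet.univ, univ_inter, Real.volume_Ioc,
      show 2 * t - t = t by ring, mul_comm, mul_comm _ (ENNReal.ofReal t)] at h3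
    exact h3
  have ht1 : (1 : ℝ≥0∞) ≤ ENNReal.ofReal t := by
    rw [← ENNReal.ofReal_one]
    exact ENNReal.ofReal_le_ofReal ht
  have hc0 : ENNReal.ofReal t ≠ 0 := (lt_of_lt_of_le one_pos ht1).ne'
  have hκ1 : ((κ⁻¹.toNNReal : ℝ≥0) : ℝ≥0∞) = κ⁻¹ :=
    ENNReal.coe_toNNReal (ENNReal.inv_ne_top.mpr hκ0)
  refine (ENNReal.mul_le_mul_iff_right hc0 ENNReal.ofReal_ne_top).1 (h1.trans ?_)
  have hw2 : ∫⁻ u in Ioc t (2 * t), maxT_A (fun z => ‖w z‖ₑ) u x ≤
      ENNReal.ofReal t * (κ⁻¹ * (D * (∫⁻ y, ‖w y‖ₑ ^ p) ^ (1 / p))) :=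
    hw1.trans (le_mul_of_one_le_left zero_le ht1)
  refine (add_le_add hw2 (mul_le_mul' le_rfl hg1)).trans (le_of_eq ?_)
  push_cast
  rw [hκ1]
  ring

theorem local_max2 (hd : 2 ≤ d) {p : ℝ} (hp : 1 ≤ p) (hpd : p ≤ d) : ∃ C : ℝ≥0, ∀ w : E d → ℝ,
    ContDiff ℝ 1 w → HasCompactSupport w → ∀ x, sphMax w x ≤
      C * (hlm w x + hlm (gradient w) x + (∫⁻ y, ‖w y‖ₑ ^ p) ^ (1 / p) +
        (∫⁻ y, ‖gradient w y‖ₑ ^ p) ^ (1 / p)) := by
  have hd' : 0 < d := by omega
  obtain ⟨C1, hC1⟩ := maxT_near (d := d) hd'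
  obtain ⟨C2, hC2⟩ := maxT_far hd hp hpd
  refine ⟨C1 + C2, fun w hw _ x => ?_⟩
  unfold sphMax
  refine iSup_le fun t => iSup_le fun ht => ?_
  change maxT_A (fun z => ‖w z‖ₑ) t x ≤ _
  rcases le_or_gt t 1 with ht1 | ht1
  · refine (hC1 w hw x t ht ht1).trans ?_
    refine mul_le_mul' ?_ ?_
    · push_cast
      exact le_self_add
    · rw [add_assoc]
      exact le_self_add
  · refine (hC2 w hw x t ht1.le).trans ?_
    refine mul_le_mul' ?_ ?_
    · push_cast
      exact le_add_self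
    · rw [add_assoc (hlm w x + hlm (gradient w) x)]
      exact le_add_self

end Pool.Agent.Lib.MP_ff3fe0_an_SPH2
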