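import Pool.Agent.Lib.MP_ff3fe0_an_SPH2.GeoA
import Pool.Agent.Lib.MP_ff3fe0_an_SPH2.KqA
import Pool.Agent.Lib.MP_ff3fe0_an_SPH2.FluxE
import Pool.Agent.Lib.MP_ff3fe0_an_SPH2.BbA
import Pool.Agent.Lib.MP_ff3fe0_an_SPH2.XvA

set_option autoImplicit false

/-!
# Nearly tangent circles
-/

namespace Pool.Agent.Lib.MP_ff3fe0_an_SPH2

open MeasureTheory Metric Set
open scoped ENNReal NNReal ContDiff FourierTransform
open Pool.Agent.Lib.MP_ff3fe0_an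
open Pool.Agent.Lib.MP_ff3fe0_an_SPH

private theorem NearP_sc_pos (m : ℕ) : 0 < sc m := by
  unfold sc
  positivity

private theorem NearP_sc_le {m : ℕ} (hm : 6 ≤ m) : sc m ≤ 1 / 64 := by
  unfold sc
  calc ((1 : ℝ) / 2) ^ m ≤ (1 / 2) ^ 6 :=
        pow_le_pow_of_le_one (by norm_num) (by norm_num) hm
    _ = 1 / 64 := by norm_num

private theorem NearP_num {C κ ρ δ Q D : ℝ} (hC : 1000 ≤ C) (hκ : 0 < κ) (hκ1 : κ ≤ 1 / 4)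
    (hρ : 0 < ρ) (hδ : 0 < δ) (h1 : 64 * C * δ ≤ κ ^ 2 * ρ)
    (h2 : C * |Q| ≤ κ ^ 2 * ρ ^ 2) (h3 : D ^ 2 ≤ 9 * (|Q| + 16 * (δ * ρ + δ ^ 2))) :
    64 * δ ≤ ρ ∧ 6 * |D| ≤ κ * ρ ∧ 9 * δ ≤ κ * ρ := by
  have hC0 : 0 < C := by linarith
  have hk2 : κ ^ 2 ≤ κ * (1 / 4) := by
    rw [sq]
    exact mul_le_mul_of_nonneg_left hκ1 hκ.le
  have hk1 : κ ^ 2 ≤ 1 := by linarith
  have hκρ : κ ^ 2 * ρ ≤ ρ := by
    calc κ ^ 2 * ρ ≤ 1 * ρ := mul_le_mul_of_nonneg_right hk1 hρ.le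
      _ = ρ := one_mul ρ
  have hCδ : 1000 * δ ≤ C * δ := mul_le_mul_of_nonneg_right hC hδ.le
  have hδρ : 64 * δ ≤ ρ := by linarith
  have h9 : 9 * δ ≤ κ * ρ := by
    have h5 : κ ^ 2 * ρ ≤ κ * (1 / 4) * ρ := mul_le_mul_of_nonneg_right hk2 hρ.le
    have h6 : 0 < κ * ρ := mul_pos hκ hρ
    linarith
  refine ⟨hδρ, ?_, h9⟩
  have h4 : C * D ^ 2 ≤ C * (9 * (|Q| + 16 * (δ * ρ + δ ^ 2))) :=
    mul_le_mul_of_nonneg_left h3 hC0.le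
  have h5 : δ ^ 2 ≤ δ * ρ := by
    rw [sq]
    exact mul_le_mul_of_nonneg_left (by linarith) hδ.le
  have h6 : 64 * C * δ * ρ ≤ κ ^ 2 * ρ * ρ := mul_le_mul_of_nonneg_right h1 hρ.le
  have h7 : C * δ ^ 2 ≤ C * (δ * ρ) := mul_le_mul_of_nonneg_left h5 hC0.le
  have h8 : C * D ^ 2 ≤ 27 / 2 * (κ ^ 2 * ρ ^ 2) := by
    have e1 : C * (9 * (|Q| + 16 * (δ * ρ + δ ^ 2))) =
        9 * (C * |Q|) + 144 * (C * (δ * ρ)) + 144 * (C * δ ^ 2) := by ring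
    have e2 : 64 * C * δ * ρ = 64 * (C * (δ * ρ)) := by ring
    have e3 : κ ^ 2 * ρ * ρ = κ ^ 2 * ρ ^ 2 := by ring
    rw [e1] at h4
    rw [e2, e3] at h6
    linarith
  have h10 : 1000 * D ^ 2 ≤ C * D ^ 2 := mul_le_mul_of_nonneg_right hC (sq_nonneg D)
  have h11 : 0 ≤ κ ^ 2 * ρ ^ 2 := by positivity
  have h12 : (6 * |D|) ^ 2 ≤ (κ * ρ) ^ 2 := by
    have e4 : (6 * |D|) ^ 2 = 36 * D ^ 2 := by rw [mul_pow, sq_abs]; norm_num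
    have e5 : (κ * ρ) ^ 2 = κ ^ 2 * ρ ^ 2 := mul_pow _ _ _
    rw [e4, e5]
    linarith
  exact le_of_sq_le_sq h12 (by positivity)

private theorem NearP_dir {x y w : E 2} {t δ : ℝ} (hδ : 0 < δ) (hδ1 : δ ≤ 1 / 64)
    (ht : 1 / 2 ≤ t) (hw : ‖w‖ = 1) (h1 : |‖x - y‖ - t| ≤ 2 * δ) (h2 : ‖x - t • w - y‖ ≤ 2 * δ) :
    ‖‖x - y‖⁻¹ • (x - y) - w‖ ≤ 9 * δ := by
  have h1' := abs_le.1 h1
  have hs : (15 / 32 : ℝ) ≤ ‖x - y‖ := by linarith [h1'.1]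
  have hs0 : 0 < ‖x - y‖ := by linarith
  have e : ‖x - y‖⁻¹ • (x - y) - w =
      ‖x - y‖⁻¹ • ((t - ‖x - y‖) • w + (x - t • w - y)) := by
    have e1 : (t - ‖x - y‖) • w + (x - t • w - y) = (x - y) - ‖x - y‖ • w := by
      rw [sub_smul]; abel
    rw [e1, smul_sub _ (x - y), smul_smul, inv_mul_cancel₀ hs0.ne', one_smul]
  rw [e, norm_smul, norm_inv, norm_norm]
  have h3 : ‖(t - ‖x - y‖) • w + (x - t • w - y)‖ ≤ 4 * δ := by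
    refine (norm_add_le _ _).trans ?_
    rw [norm_smul, hw, mul_one, Real.norm_eq_abs, abs_sub_comm]
    linarith
  rw [inv_mul_le_iff₀ hs0]
  refine h3.trans ?_
  have h4 : 15 / 32 * (9 * δ) ≤ ‖x - y‖ * (9 * δ) :=
    mul_le_mul_of_nonneg_right hs (by positivity)
  linarith

private theorem NearP_far {u w c z : E 2} {κ : ℝ} (h1 : ‖u - w‖ ≤ κ) (h2 : ‖u - c‖ ≤ κ)
    (h3 : 8 * κ ≤ ‖w - z‖) (hκ : 0 < κ) : 3 * κ ≤ ‖c - z‖ := by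
  have h4 : w - z = (c - z) + (u - c) - (u - w) := by abel
  have h5 : ‖w - z‖ ≤ ‖c - z‖ + ‖u - c‖ + ‖u - w‖ := by
    rw [h4]
    exact (norm_sub_le _ _).trans (by gcongr; exact norm_add_le _ _)
  linarith

/-- The measure of the set of the nearly tangent circles. -/
theorem near_p {S : E 2 → ℝ} (hS : IsKer S) (hF : FB S) {Θ : E 2 → ℝ} (hΘ : K2 Θ) (r : ℝ) :
    ∃ C : ℝ, 1 ≤ C ∧ ∀ (m : ℕ) (q : E 2 → ℝ), 6 ≤ m → Bdd r q → (∀ y, |q y| ≤ 1) → ∀ j ≤ 2,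
    ∀ (l κ L : ℝ) (tt : E 2 → ℝ) (cs : E 2 → E 2) (β β' : E 2 → ℝ) (Ω : Set (E 2)), 0 < l →
      l ≤ 1 → 0 < κ → κ ≤ 1 / 4 → Measurable tt → (∀ x, tt x ∈ Icc (1 / 2 : ℝ) (5 / 2)) →
      (∀ x ∈ Ω, ∀ c : E 2, ‖c‖ = 1 → 3 * κ ≤ ‖c - cs x‖ →
        κ * l / 8 ≤ ‖vF S m j q x (tt x) - aF S m j q x (tt x) • c‖) →
      (∀ c, Amp L (fun w => β w * bb κ c w)) → Amp L β' →
      ∀ (b : E 2) (h : ℝ), sc m ≤ h →
        volume {x ∈ Ω ∩ closedBall b (1 / 8) |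
          (∫ y, kk Θ (fun w => β w * bb κ (cs x) w) (sc m) (tt x) x y *
            kk Θ β' (sc m) (tt b) b y) ≠ 0 ∧
          64 * C * sc m ≤ κ ^ 2 * ‖x - b‖ ∧
          C * |qq b (tt b) x (tt x)| ≤ κ ^ 2 * ‖x - b‖ ^ 2 ∧
          abs (‖x - b‖ - |tt x - tt b|) ≤ h} ≤ ENNReal.ofReal (C * h / (κ * l) ^ 3) := by
  obtain ⟨C0, hC0⟩ := flux_meas hS hF r
  refine ⟨1000 + 1024 * C0, by have := C0.coe_nonneg; linarith, ?_⟩
  set C : ℝ := 1000 + 1024 * C0 with hC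
  have hC1 : 1000 ≤ C := by have := C0.coe_nonneg; linarith
  intro m q hm hq hq1 j hj l κ L tt cs β β' Ω hl hl1 hκ hκ1 htm htt hΩ hβ hβ' b h hh
  have hδ := NearP_sc_pos m
  have hδ1 := NearP_sc_le hm
  have hh0 : 0 < h := hδ.trans_le hh
  have hkl : 0 < κ * l / 8 := by positivity
  have hkl1 : κ * l / 8 ≤ 1 := by
    have : κ * l ≤ 1 / 4 * 1 := mul_le_mul hκ1 hl1 hl.le (by norm_num)
    linarith
  obtain ⟨f1, f2⟩ := hC0 m q hq hq1 j hj tt htm htt b (tt b) (κ * l / 8) h hh hkl hkl1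
  have hsub : {x ∈ Ω ∩ closedBall b (1 / 8) |
          (∫ y, kk Θ (fun w => β w * bb κ (cs x) w) (sc m) (tt x) x y *
            kk Θ β' (sc m) (tt b) b y) ≠ 0 ∧
          64 * C * sc m ≤ κ ^ 2 * ‖x - b‖ ∧
          C * |qq b (tt b) x (tt x)| ≤ κ ^ 2 * ‖x - b‖ ^ 2 ∧
          abs (‖x - b‖ - |tt x - tt b|) ≤ h} ⊆
      {x | |(tt x - tt b) - ‖x - b‖| ≤ h ∧
        ENNReal.ofReal (κ * l / 8) ≤ XX S m j q (‖x - b‖⁻¹ • (x - b)) x (tt x)} ∪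
      {x | |(tt b - tt x) - ‖x - b‖| ≤ h ∧
        ENNReal.ofReal (κ * l / 8) ≤ XX S m j q (-(‖x - b‖⁻¹ • (x - b))) x (tt x)} := by
    rintro x ⟨⟨hxΩ, hxb⟩, hint, g1, g2, g3⟩
    rw [mem_closedBall, dist_eq_norm] at hxb
    have ht := htt x
    have ht' := htt b
    obtain ⟨y, w, k1, k2, k3, k4, k5⟩ := kq_ne hΘ (hβ (cs x)) hβ' hδ
      (by linarith [ht.1] : (0 : ℝ) ≤ tt x) (by linarith [ht'.1] : (0 : ℝ) ≤ tt b) hint
    have hρ : 0 < ‖x - b‖ := by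
      by_contra hcon
      have h0 : ‖x - b‖ = 0 := le_antisymm (not_lt.1 hcon) (norm_nonneg _)
      rw [h0, mul_zero] at g1
      have : 0 < 64 * C * sc m := by positivity
      linarith
    have hxb0 : x ≠ b := sub_ne_zero.1 (norm_pos_iff.1 hρ)
    have hR := geo_R1 hδ hδ1 hxb ht ht' k1 k2
    obtain ⟨n1, n2, n3⟩ := NearP_num hC1 hκ hκ1 hρ hδ g1 g2 hR
    obtain ⟨d1, d2⟩ := geo_dir hδ hδ1 hxb hxb0 ht ht' k1 k2 n1 (by linarith : κ ≤ 1 / 2) n2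
    have hbb := bb_zero hκ (right_ne_zero_of_mul k4)
    have hdir := NearP_dir hδ hδ1 ht.1 k3 k1 k5
    have hdir' : ‖‖x - y‖⁻¹ • (x - y) - w‖ ≤ κ := by
      refine hdir.trans (n3.trans ?_)
      calc κ * ‖x - b‖ ≤ κ * 1 := mul_le_mul_of_nonneg_left (by linarith) hκ.le
        _ = κ := mul_one κ
    have hc1 : ‖‖x - b‖⁻¹ • (x - b)‖ = 1 := by
      rw [norm_smul, norm_inv, norm_norm, inv_mul_cancel₀ hρ.ne']
    rcases le_or_gt (tt b) (tt x) with hle | hlt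
    · left
      refine ⟨?_, ?_⟩
      · rw [abs_of_nonneg (sub_nonneg.2 hle), abs_sub_comm] at g3
        exact g3
      · have h5 := NearP_far hdir' (d1 hle) hbb hκ
        have h6 := hΩ x hxΩ _ hc1 h5
        rw [XX_eq hS m j hq, ← ofReal_norm]
        exact ENNReal.ofReal_le_ofReal h6
    · right
      refine ⟨?_, ?_⟩
      · rw [abs_of_neg (sub_neg.2 hlt), neg_sub, abs_sub_comm] at g3
        exact g3
      · have h4 : ‖‖x - y‖⁻¹ • (x - y) - (-(‖x - b‖⁻¹ • (x - b)))‖ ≤ κ := by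
          rw [sub_neg_eq_add]
          exact d2 hlt
        have h5 := NearP_far hdir' h4 hbb hκ
        have h6 := hΩ x hxΩ _ (by rw [norm_neg, hc1]) h5
        rw [XX_eq hS m j hq, ← ofReal_norm]
        exact ENNReal.ofReal_le_ofReal h6
  refine (measure_mono hsub).trans ((measure_union_le _ _).trans ((add_le_add f1 f2).trans ?_))
  have e1 : h / (κ * l / 8) ^ 3 = 512 * (h / (κ * l) ^ 3) := by
    field_simp
    ring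
  have e2 : (C0 : ℝ≥0∞) = ENNReal.ofReal C0 := by simp
  rw [e2, ← ENNReal.ofReal_mul C0.coe_nonneg, ← ENNReal.ofReal_add (by positivity)
    (by positivity), e1]
  apply ENNReal.ofReal_le_ofReal
  have h7 : 0 ≤ h / (κ * l) ^ 3 := by positivity
  have h8 : C * h / (κ * l) ^ 3 = C * (h / (κ * l) ^ 3) := by ring
  rw [h8, hC]
  have h9 : 0 ≤ (C0 : ℝ) := C0.coe_nonneg
  nlinarith

end Pool.Agent.Lib.MP_ff3fe0_an_SPH2
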