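import Pool.Agent.Lib.MP_ff3fe0_an_SPH2.Defs2
import Pool.Agent.Lib.MP_ff3fe0_an_SPH.CvA

set_option autoImplicit false

/-!
# Kernels of divergence form
-/

namespace Pool.Agent.Lib.MP_ff3fe0_an_SPH2

open MeasureTheory Metric Set
open scoped ENNReal NNReal ContDiff FourierTransform
open Pool.Agent.Lib.MP_ff3fe0_an
open Pool.Agent.Lib.MP_ff3fe0_an_SPH

theorem PrimA_conv {f : ℝ → ℝ} (hf : LocallyIntegrable f) {g : ℝ → ℝ → ℝ}
    (hg : ContDiff ℝ ∞ (fun p : ℝ × ℝ => g p.1 p.2)) (hs : ∀ a r, 1 < |r| → g a r = 0) :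
    ContDiff ℝ ∞ (fun p : ℝ × ℝ => ∫ t, f t * g p.1 (p.2 - t)) := by
  rw [← contDiffOn_univ]
  have h := contDiffOn_convolution_right_with_param (𝕜 := ℝ) (μ := (volume : Measure ℝ))
    (n := ⊤) (f := f) (g := g) (ContinuousLinearMap.mul ℝ ℝ) (s := univ) (k := Icc (-1 : ℝ) 1)
    isOpen_univ isCompact_Icc (fun a r _ hr => hs a r (by
      rw [mem_Icc, ← abs_le] at hr
      exact not_le.1 hr)) hf hg.contDiffOn
  rw [univ_prod_univ] at h
  exact h

/-- the antiderivative in the second variable -/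
noncomputable def PrimA_W (g : ℝ → ℝ → ℝ) (a x : ℝ) : ℝ := ∫ r in (-2 : ℝ)..x, g a r

theorem PrimA_slice {g : ℝ → ℝ → ℝ} (hg : ContDiff ℝ ∞ (fun p : ℝ × ℝ => g p.1 p.2)) (a : ℝ) :
    Continuous (g a) :=
  hg.continuous.comp (Continuous.prodMk_right a)

theorem PrimA_int {g : ℝ → ℝ → ℝ} (hg : ContDiff ℝ ∞ (fun p : ℝ × ℝ => g p.1 p.2))
    (hs : ∀ a r, 1 < |r| → g a r = 0) (a : ℝ) : Integrable (g a) :=
  (PrimA_slice hg a).integrable_of_hasCompactSupport
    (HasCompactSupport.intro (isCompact_Icc (a := (-1 : ℝ)) (b := 1)) fun r hr => hs a r (by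
      rw [mem_Icc, ← abs_le] at hr
      exact not_le.1 hr))

theorem PrimA_W_eq {g : ℝ → ℝ → ℝ} (hg : ContDiff ℝ ∞ (fun p : ℝ × ℝ => g p.1 p.2))
    (hs : ∀ a r, 1 < |r| → g a r = 0) (a x : ℝ) : PrimA_W g a x = ∫ r in Iic x, g a r := by
  have h1 := intervalIntegral.integral_Iic_sub_Iic (μ := volume) (f := g a) (a := -2) (b := x)
    (PrimA_int hg hs a).integrableOn (PrimA_int hg hs a).integrableOn
  have h2 : ∫ r in Iic (-2 : ℝ), g a r = 0 := by
    refine setIntegral_eq_zero_of_forall_eq_zero fun r hr => hs a r ?_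
    have h3 : r ≤ -2 := hr
    rw [abs_of_neg (by linarith)]
    linarith
  rw [PrimA_W, ← h1, h2, sub_zero]

theorem PrimA_W_smooth {g : ℝ → ℝ → ℝ} (hg : ContDiff ℝ ∞ (fun p : ℝ × ℝ => g p.1 p.2))
    (hs : ∀ a r, 1 < |r| → g a r = 0) :
    ContDiff ℝ ∞ (fun p : ℝ × ℝ => PrimA_W g p.1 p.2) := by
  have h1 : LocallyIntegrable ((Ici (0 : ℝ)).indicator (fun _ : ℝ => (1 : ℝ))) :=
    (locallyIntegrable_const (1 : ℝ)).indicator measurableSet_Ici
  have h2 := PrimA_conv h1 hg hs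
  have h3 : (fun p : ℝ × ℝ => PrimA_W g p.1 p.2) = fun p : ℝ × ℝ =>
      ∫ t, (Ici (0 : ℝ)).indicator (fun _ : ℝ => (1 : ℝ)) t * g p.1 (p.2 - t) := by
    funext p
    rw [PrimA_W_eq hg hs, ← integral_indicator measurableSet_Iic]
    have h4 := integral_sub_left_eq_self
      (fun t => (Ici (0 : ℝ)).indicator (fun _ : ℝ => (1 : ℝ)) t * g p.1 (p.2 - t))
      volume p.2
    rw [← h4]
    refine integral_congr_ae (Filter.Eventually.of_forall fun r => ?_)
    show (Iic p.2).indicator (fun r => g p.1 r) r =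
      (Ici (0 : ℝ)).indicator (fun _ : ℝ => (1 : ℝ)) (p.2 - r) * g p.1 (p.2 - (p.2 - r))
    rw [sub_sub_cancel]
    by_cases hr : r ≤ p.2
    · rw [indicator_of_mem (show r ∈ Iic p.2 from hr),
        indicator_of_mem (show p.2 - r ∈ Ici (0 : ℝ) from sub_nonneg.2 hr), one_mul]
    · rw [indicator_of_notMem (show r ∉ Iic p.2 from hr),
        indicator_of_notMem (show p.2 - r ∉ Ici (0 : ℝ) from fun h => hr (sub_nonneg.1 h)),
        zero_mul]
  rw [h3]
  exact h2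

theorem PrimA_W_deriv {g : ℝ → ℝ → ℝ} (hg : ContDiff ℝ ∞ (fun p : ℝ × ℝ => g p.1 p.2))
    (a x : ℝ) : HasDerivAt (fun t : ℝ => PrimA_W g a (x + t)) (g a x) 0 := by
  have hc := PrimA_slice hg a
  have h1 : HasDerivAt (fun u : ℝ => ∫ r in (-2 : ℝ)..u, g a r) (g a x) x :=
    intervalIntegral.integral_hasDerivAt_right (hc.intervalIntegrable _ _)
      (hc.stronglyMeasurableAtFilter _ _) hc.continuousAt
  have h2 : HasDerivAt (fun t : ℝ => x + t) 1 0 := (hasDerivAt_id (0 : ℝ)).const_add x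
  have h3 : HasDerivAt (fun u : ℝ => ∫ r in (-2 : ℝ)..u, g a r) (g a x) (x + 0) := by
    rw [add_zero]
    exact h1
  have h4 := h3.comp (0 : ℝ) h2
  rw [mul_one] at h4
  exact h4

theorem PrimA_total {g : ℝ → ℝ → ℝ} (hg : ContDiff ℝ ∞ (fun p : ℝ × ℝ => g p.1 p.2))
    (hs : ∀ a r, 1 < |r| → g a r = 0) : ContDiff ℝ ∞ (fun a : ℝ => ∫ r, g a r) := by
  have h1 := PrimA_conv (locallyIntegrable_const (1 : ℝ)) hg hs
  have h2 : ContDiff ℝ ∞ (fun a : ℝ => ((a, (0 : ℝ)) : ℝ × ℝ)) := contDiff_id.prodMk contDiff_const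
  have h3 : (fun a : ℝ => ∫ r, g a r) = fun a : ℝ =>
      ∫ t, (1 : ℝ) * g ((a, (0 : ℝ)) : ℝ × ℝ).1 (((a, (0 : ℝ)) : ℝ × ℝ).2 - t) := by
    funext a
    have h4 := integral_sub_left_eq_self (fun t => g a t) volume (0 : ℝ)
    rw [← h4]
    refine integral_congr_ae (Filter.Eventually.of_forall fun r => ?_)
    show g a (0 - r) = 1 * g a (0 - r)
    rw [one_mul]
  rw [h3]
  exact h1.comp h2

theorem PrimA_pd {f : E 2 → ℝ} (hf : ContDiff ℝ ∞ f) {i : Fin 2} {y : E 2} {c : ℝ}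
    (h : HasDerivAt (fun t : ℝ => f (y + t • EuclideanSpace.single i (1 : ℝ))) c 0) :
    pd i f y = c := by
  have h1 : HasFDerivAt f (fderiv ℝ f y) y := ((hf.differentiable (by simp)) y).hasFDerivAt
  have h2 : HasDerivAt (fun t : ℝ => y + t • EuclideanSpace.single i (1 : ℝ))
      (EuclideanSpace.single i (1 : ℝ)) 0 := by
    have h5 := ((hasDerivAt_id (0 : ℝ)).smul_const (EuclideanSpace.single i (1 : ℝ))).const_add y
    rw [one_smul] at h5
    exact h5
  have h3 : HasDerivAt (fun t : ℝ => f (y + t • EuclideanSpace.single i (1 : ℝ)))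
      (fderiv ℝ f y (EuclideanSpace.single i (1 : ℝ))) 0 :=
    h1.comp_hasDerivAt_of_eq 0 h2 (by simp)
  exact h3.unique h

theorem PrimA_K2 {S : E 2 → ℝ} (hS : IsKer S) : K2 S :=
  ⟨hS.smooth, fun y hy => hS.supp y (by linarith)⟩

/-- a bump -/
noncomputable def PrimA_b : ContDiffBump (0 : ℝ) := ⟨1 / 4, 1 / 2, by norm_num, by norm_num⟩

/-- a bump with integral one -/
noncomputable def PrimA_th (r : ℝ) : ℝ := PrimA_b.normed volume r

theorem PrimA_th_smooth : ContDiff ℝ ∞ PrimA_th := PrimA_b.contDiff_normed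

theorem PrimA_th_int : ∫ r, PrimA_th r = 1 := PrimA_b.integral_normed

theorem PrimA_th_supp (r : ℝ) (hr : 1 < |r|) : PrimA_th r = 0 := by
  have h := PrimA_b.support_normed_eq (μ := (volume : Measure ℝ))
  by_contra h0
  have h1 : r ∈ Function.support (PrimA_b.normed volume) := h0
  rw [h, mem_ball, dist_zero_right, Real.norm_eq_abs] at h1
  have h2 : PrimA_b.rOut = 1 / 2 := rfl
  rw [h2] at h1
  linarith

theorem PrimA_norm {y : E 2} (hy : 2 < ‖y‖) : 1 < |y 0| ∨ 1 < |y 1| := by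
  by_contra h
  push Not at h
  have h1 : ‖y‖ ^ 2 = y 0 ^ 2 + y 1 ^ 2 := by
    rw [EuclideanSpace.real_norm_sq_eq, Fin.sum_univ_two]
  have h2 : y 0 ^ 2 ≤ 1 := by
    rw [← sq_abs]
    nlinarith [abs_nonneg (y 0), h.1]
  have h3 : y 1 ^ 2 ≤ 1 := by
    rw [← sq_abs]
    nlinarith [abs_nonneg (y 1), h.2]
  nlinarith

theorem PrimA_norm0 (y : E 2) : |y 0| ≤ ‖y‖ := by
  have h := PiLp.norm_apply_le y 0
  rwa [Real.norm_eq_abs] at h

theorem PrimA_norm1 (y : E 2) : |y 1| ≤ ‖y‖ := by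
  have h := PiLp.norm_apply_le y 1
  rwa [Real.norm_eq_abs] at h

/-- coordinates -/
noncomputable def PrimA_Phi : ℝ × ℝ ≃ᵐ E 2 :=
  (MeasurableEquiv.finTwoArrow (α := ℝ)).symm.trans (MeasurableEquiv.toLp 2 (Fin 2 → ℝ))

theorem PrimA_Phi_apply (p : ℝ × ℝ) : PrimA_Phi p = WithLp.toLp 2 ![p.1, p.2] := rfl

theorem PrimA_Phi_mp : MeasurePreserving PrimA_Phi :=
  (volume_preserving_finTwoArrow ℝ).symm.trans
    (EuclideanSpace.volume_preserving_symm_measurableEquiv_toLp (Fin 2)).symm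

theorem PrimA_Phi_self (y : E 2) : PrimA_Phi (y 0, y 1) = y := by
  rw [PrimA_Phi_apply]
  ext i
  fin_cases i <;> rfl

theorem PrimA_Phi_smooth : ContDiff ℝ ∞ (fun p : ℝ × ℝ => PrimA_Phi p) := by
  rw [contDiff_euclidean]
  intro i
  fin_cases i
  · exact contDiff_fst
  · exact contDiff_snd

theorem PrimA_coord (i : Fin 2) : ContDiff ℝ ∞ (fun y : E 2 => y i) :=
  (contDiff_euclidean.1 contDiff_id) i

theorem PrimA_Phi0 (a b : ℝ) : (PrimA_Phi (a, b)) 0 = a := rfl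

theorem PrimA_Phi1 (a b : ℝ) : (PrimA_Phi (a, b)) 1 = b := rfl

/-- A smooth function in the unit ball with integral `0` is a divergence. -/
theorem prim {S : E 2 → ℝ} (hS : IsKer S) (h0 : ∫ y, S y = 0) : DV S := by
  obtain ⟨G, hG⟩ : ∃ G : ℝ → ℝ → ℝ, G = fun a b => S (PrimA_Phi (a, b)) := ⟨_, rfl⟩
  have hGs : ContDiff ℝ ∞ (fun p : ℝ × ℝ => G p.1 p.2) := by
    rw [hG]
    exact hS.smooth.comp PrimA_Phi_smooth
  have hG1 : ∀ a r, 1 < |r| → G a r = 0 := by
    intro a r hr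
    rw [hG]
    refine hS.supp _ (lt_of_lt_of_le hr ?_)
    have h := PrimA_norm1 (PrimA_Phi (a, r))
    rwa [PrimA_Phi1] at h
  have hG0 : ∀ a r, 1 < |a| → G a r = 0 := by
    intro a r hr
    rw [hG]
    refine hS.supp _ (lt_of_lt_of_le hr ?_)
    have h := PrimA_norm0 (PrimA_Phi (a, r))
    rwa [PrimA_Phi0] at h
  obtain ⟨T, hT⟩ : ∃ T : ℝ → ℝ, T = fun a => ∫ r, G a r := ⟨_, rfl⟩
  have hTs : ContDiff ℝ ∞ T := by
    rw [hT]
    exact PrimA_total hGs hG1
  have hT0 : ∀ a, 1 < |a| → T a = 0 := by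
    intro a ha
    rw [hT]
    show ∫ r, G a r = 0
    simp only [hG0 a _ ha, integral_zero]
  have hTi : ∫ a, T a = 0 := by
    have h1 : ∫ y, S y = ∫ p, S (PrimA_Phi p) :=
      (PrimA_Phi_mp.integral_comp PrimA_Phi.measurableEmbedding _).symm
    have h2 : Integrable S := hS.smooth.continuous.integrable_of_hasCompactSupport (CvA_hcs hS)
    have h3 : Integrable (fun p : ℝ × ℝ => S (PrimA_Phi p)) :=
      (PrimA_Phi_mp.integrable_comp_emb PrimA_Phi.measurableEmbedding).2 h2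
    have h4 : ∫ p, S (PrimA_Phi p) = ∫ a, ∫ b, S (PrimA_Phi (a, b)) := by
      rw [Measure.volume_eq_prod] at h3 ⊢
      exact integral_prod _ h3
    rw [hT, hG, ← h0, h1, h4]
  obtain ⟨g, hg⟩ : ∃ g : ℝ → ℝ → ℝ, g = fun a r => G a r - T a * PrimA_th r := ⟨_, rfl⟩
  have hgs : ContDiff ℝ ∞ (fun p : ℝ × ℝ => g p.1 p.2) := by
    rw [hg]
    exact hGs.sub ((hTs.comp contDiff_fst).mul (PrimA_th_smooth.comp contDiff_snd))
  have hg1 : ∀ a r, 1 < |r| → g a r = 0 := by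
    intro a r hr
    rw [hg]
    show G a r - T a * PrimA_th r = 0
    rw [hG1 a r hr, PrimA_th_supp r hr, mul_zero, sub_zero]
  have hg0 : ∀ a r, 1 < |a| → g a r = 0 := by
    intro a r hr
    rw [hg]
    show G a r - T a * PrimA_th r = 0
    rw [hG0 a r hr, hT0 a hr, zero_mul, sub_zero]
  have hgi : ∀ a, ∫ r, g a r = 0 := by
    intro a
    rw [hg]
    show ∫ r, (G a r - T a * PrimA_th r) = 0
    have h1 : Integrable (fun r => T a * PrimA_th r) :=
      (PrimA_b.integrable_normed (μ := volume)).const_mul (T a)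
    rw [integral_sub (PrimA_int hGs hG1 a) h1, integral_const_mul, PrimA_th_int, mul_one, hT,
      sub_self]
  obtain ⟨k, hk⟩ : ∃ k : ℝ → ℝ → ℝ, k = fun _ s => T s := ⟨_, rfl⟩
  have hks : ContDiff ℝ ∞ (fun p : ℝ × ℝ => k p.1 p.2) := by
    rw [hk]
    exact hTs.comp contDiff_snd
  have hk1 : ∀ a r, 1 < |r| → k a r = 0 := by
    intro a r hr
    rw [hk]
    exact hT0 r hr
  have hout : ∀ h : ℝ → ℝ → ℝ, ContDiff ℝ ∞ (fun p : ℝ × ℝ => h p.1 p.2) →
      (∀ a r, 1 < |r| → h a r = 0) → (∀ a, ∫ r, h a r = 0) → ∀ a x, 1 < |x| →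
      PrimA_W h a x = 0 := by
    intro h h1 h2 h3 a x hx
    rw [PrimA_W_eq h1 h2]
    rcases lt_abs.1 hx with h4 | h4
    · have h5 := intervalIntegral.integral_Iic_add_Ioi (μ := volume) (f := h a) (b := x)
        (PrimA_int h1 h2 a).integrableOn (PrimA_int h1 h2 a).integrableOn
      have h6 : ∫ r in Ioi x, h a r = 0 := by
        refine setIntegral_eq_zero_of_forall_eq_zero fun r hr => h2 a r ?_
        have h7 : x < r := hr
        rw [abs_of_pos (by linarith)]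
        linarith
      rw [h3 a, h6, add_zero] at h5
      exact h5
    · refine setIntegral_eq_zero_of_forall_eq_zero fun r hr => h2 a r ?_
      have h7 : r ≤ x := hr
      rw [abs_of_neg (by linarith)]
      linarith
  have hU1s : ContDiff ℝ ∞ (fun y : E 2 => PrimA_W g (y 0) (y 1)) :=
    (PrimA_W_smooth hgs hg1).comp ((PrimA_coord 0).prodMk (PrimA_coord 1))
  have hU0s : ContDiff ℝ ∞ (fun y : E 2 => PrimA_th (y 1) * PrimA_W k 0 (y 0)) :=
    (PrimA_th_smooth.comp (PrimA_coord 1)).mul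
      ((PrimA_W_smooth hks hk1).comp (contDiff_const.prodMk (PrimA_coord 0)))
  refine ⟨PrimA_K2 hS, ![fun y : E 2 => PrimA_th (y 1) * PrimA_W k 0 (y 0),
    fun y : E 2 => PrimA_W g (y 0) (y 1)], fun i => ?_, fun y => ?_⟩
  · fin_cases i
    · refine ⟨hU0s, fun y hy => ?_⟩
      show PrimA_th (y 1) * PrimA_W k 0 (y 0) = 0
      rcases PrimA_norm hy with h1 | h1
      · rw [hout k hks hk1 (fun a => by rw [hk]; exact hTi) 0 (y 0) h1, mul_zero]
      · rw [PrimA_th_supp _ h1, zero_mul]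
    · refine ⟨hU1s, fun y hy => ?_⟩
      show PrimA_W g (y 0) (y 1) = 0
      rcases PrimA_norm hy with h1 | h1
      · rw [PrimA_W]
        simp only [hg0 (y 0) _ h1, intervalIntegral.integral_zero]
      · exact hout g hgs hg1 hgi (y 0) (y 1) h1
  · rw [Fin.sum_univ_two]
    show S y = pd 0 (fun y : E 2 => PrimA_th (y 1) * PrimA_W k 0 (y 0)) y +
      pd 1 (fun y : E 2 => PrimA_W g (y 0) (y 1)) y
    have h1 : pd 0 (fun y : E 2 => PrimA_th (y 1) * PrimA_W k 0 (y 0)) y =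
        PrimA_th (y 1) * T (y 0) := by
      refine PrimA_pd hU0s ?_
      have h2 := (PrimA_W_deriv hks 0 (y 0)).const_mul (PrimA_th (y 1))
      rw [hk] at h2 ⊢
      refine h2.congr_of_eventuallyEq (Filter.Eventually.of_forall fun t => ?_)
      simp
    have h3 : pd 1 (fun y : E 2 => PrimA_W g (y 0) (y 1)) y = g (y 0) (y 1) := by
      refine PrimA_pd hU1s ?_
      have h2 := PrimA_W_deriv hgs (y 0) (y 1)
      refine h2.congr_of_eventuallyEq (Filter.Eventually.of_forall fun t => ?_)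
      simp
    rw [h1, h3, hg, hG]
    show S y = PrimA_th (y 1) * T (y 0) +
      (S (PrimA_Phi (y 0, y 1)) - T (y 0) * PrimA_th (y 1))
    rw [PrimA_Phi_self]
    ring

theorem prim_pd {S : E 2 → ℝ} (hS : IsKer S) (i : Fin 2) : DV (pd i S) := by
  refine ⟨PrimA_K2 (hS.pd i), fun j => if j = i then S else fun _ => 0, fun j => ?_, fun y => ?_⟩
  · by_cases h : j = i
    · simp only [h, if_true]
      exact PrimA_K2 hS
    · simp only [h, if_false]
      exact ⟨contDiff_const, fun _ _ => rfl⟩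
  · rw [Finset.sum_eq_single i]
    · simp
    · intro j _ hj
      simp only [hj, if_false]
      rw [pd]
      simp
    · intro h
      exact absurd (Finset.mem_univ i) h

theorem PrimA_pdw_succ {j : ℕ} (α : Fin (j + 1) → Fin 2) (S : E 2 → ℝ) :
    pdw α S = pd (α 0) (pdw (fun i => α i.succ) S) := by
  rw [pdw, pdw, List.ofFn_succ, List.foldr_cons]

theorem PrimA_pdw_zero (α : Fin 0 → Fin 2) (S : E 2 → ℝ) : pdw α S = S := by
  rw [pdw, List.ofFn_zero, List.foldr_nil]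

theorem pdw_ker {S : E 2 → ℝ} (hS : IsKer S) {j : ℕ} (α : Fin j → Fin 2) : IsKer (pdw α S) := by
  induction j with
  | zero =>
    rw [PrimA_pdw_zero]
    exact hS
  | succ j ih =>
    rw [PrimA_pdw_succ]
    exact (ih _).pd _

theorem pdw_dv {S : E 2 → ℝ} (hS : IsKer S) (h0 : ∫ y, S y = 0) {j : ℕ} (α : Fin j → Fin 2) :
    DV (pdw α S) := by
  cases j with
  | zero =>
    rw [PrimA_pdw_zero]
    exact prim hS h0
  | succ j =>
    rw [PrimA_pdw_succ]
    exact prim_pd (pdw_ker hS _) _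

end Pool.Agent.Lib.MP_ff3fe0_an_SPH2
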