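import Pool.Agent.Lib.MP_ff3fe0_an_SPH2.Defs2
import Pool.Agent.Lib.MP_ff3fe0_an_SPH.GmA
import Pool.Agent.Lib.MP_ff3fe0_an_SPH.SmB

set_option autoImplicit false

/-!
# The averages in terms of the kernels
-/

namespace Pool.Agent.Lib.MP_ff3fe0_an_SPH2

open MeasureTheory Metric Set
open scoped ENNReal NNReal ContDiff FourierTransform
open Pool.Agent.Lib.MP_ff3fe0_an
open Pool.Agent.Lib.MP_ff3fe0_an_SPH

private theorem RepA_sc_pos (m : ℕ) : 0 < sc m := by unfold sc; positivity

private theorem RepA_cv_eq {K : E 2 → ℝ} {b : ℝ} (hb : 0 < b) (q : E 2 → ℝ) (z : E 2) :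
    cv K b q z = (b ^ 2)⁻¹ * ∫ y, K (b⁻¹ • (z - y)) * q y := by
  have h1 := congrFun (CvA_cv_eq (K := K) hb q) z
  have h2 : CvA_fac 2 b = (b ^ 2)⁻¹ := by
    unfold CvA_fac
    rw [finrank_euclideanSpace_fin, abs_of_nonneg (by positivity)]
  rw [h1, h2, convolution]
  congr 1
  have h3 := integral_sub_left_eq_self (fun y => K (b⁻¹ • y) * q (z - y))
    (volume : Measure (E 2)) z
  simp only [sub_sub_cancel] at h3
  exact h3.symm

private theorem RepA_int {f : Sph 2 → ℝ} (hf : Continuous f) : Integrable f (sigma 2) := by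
  have := sigma_prob (d := 2) (by norm_num)
  exact hf.integrable_of_hasCompactSupport (HasCompactSupport.of_compactSpace _)

private theorem RepA_bd {β : E 2 → ℝ} (hβ : Continuous β) :
    ∃ C : ℝ, ∀ w : Sph 2, |β w| ≤ C := by
  obtain ⟨C, hC⟩ := (isCompact_sphere (0 : E 2) 1).exists_bound_of_continuousOn hβ.continuousOn
  exact ⟨C, fun w => hC w w.2⟩

theorem rep_int {K : E 2 → ℝ} (hK : IsKer K) {β : E 2 → ℝ} (hβ : Continuous β) (m : ℕ) {r : ℝ}
    {q : E 2 → ℝ} (hq : Bdd r q) (x : E 2) (t : ℝ) :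
    ∫ w : Sph 2, cv K (sc m) q (x - t • (w : E 2)) * β w ∂(sigma 2) =
      ∫ y, q y * kk K β (sc m) t x y := by
  have := sigma_prob (d := 2) (by norm_num)
  have hb := RepA_sc_pos m
  obtain ⟨CK, hCK⟩ := CvA_bd hK
  obtain ⟨Cq, hCq⟩ := hq.bdd
  obtain ⟨Cb, hCb⟩ := RepA_bd hβ
  set F : Sph 2 → E 2 → ℝ := fun w y =>
    q y * (K ((sc m)⁻¹ • (x - t • (w : E 2) - y)) * β w) with hF
  have hint : Integrable (Function.uncurry F) ((sigma 2).prod volume) := by
    have h1 : Integrable (fun p : Sph 2 × E 2 => (1 : ℝ) *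
        (closedBall (0 : E 2) r).indicator (fun _ => Cq * (CK * Cb)) p.2)
        ((sigma 2).prod volume) := by
      refine Integrable.mul_prod (f := fun _ : Sph 2 => (1 : ℝ)) (integrable_const _) ?_
      rw [integrable_indicator_iff measurableSet_closedBall]
      exact integrableOn_const (measure_closedBall_lt_top).ne
    refine h1.mono' ?_ (Filter.Eventually.of_forall fun p => ?_)
    · have h2 : Measurable (Function.uncurry F) := by
        have h3 : Continuous fun p : Sph 2 × E 2 =>
            K ((sc m)⁻¹ • (x - t • (p.1 : E 2) - p.2)) * β p.1 := by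
          have hKc := hK.smooth.continuous
          fun_prop
        exact (hq.meas.comp measurable_snd).mul h3.measurable
      exact h2.aestronglyMeasurable
    · rw [one_mul]
      show ‖q p.2 * (K ((sc m)⁻¹ • (x - t • (p.1 : E 2) - p.2)) * β p.1)‖ ≤ _
      by_cases hp : p.2 ∈ closedBall (0 : E 2) r
      · rw [indicator_of_mem hp, norm_mul, norm_mul]
        have h0 : 0 ≤ Cq := (abs_nonneg _).trans (hCq p.2)
        exact mul_le_mul (hCq _) (mul_le_mul (hCK _) (hCb _) (norm_nonneg _)
          (NNReal.coe_nonneg _)) (by positivity) h0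
      · rw [indicator_of_notMem hp, hq.supp _ (by simpa using hp)]
        simp
  have h1 : ∀ w : Sph 2, cv K (sc m) q (x - t • (w : E 2)) * β w =
      ((sc m) ^ 2)⁻¹ * ∫ y, F w y := by
    intro w
    rw [RepA_cv_eq hb, mul_assoc, ← integral_mul_const]
    congr 1
    refine integral_congr_ae (Filter.Eventually.of_forall fun y => ?_)
    simp only [hF]
    ring
  simp only [h1]
  rw [integral_const_mul, integral_integral_swap hint, ← integral_const_mul]
  refine integral_congr_ae (Filter.Eventually.of_forall fun y => ?_)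
  simp only [hF, kk]
  rw [integral_const_mul]
  ring

private theorem RepA_der {K : E 2 → ℝ} (hK : IsKer K) {β : E 2 → ℝ} (hβ : Continuous β) {b : ℝ}
    (hb : 0 < b) {r : ℝ} {q : E 2 → ℝ} (hq : Bdd r q) (x : E 2) (t : ℝ) :
    HasDerivAt (fun s => ∫ w : Sph 2, cv K b q (x - s • (w : E 2)) * β w ∂(sigma 2))
      (-(b⁻¹ * ∑ i : Fin 2, ∫ w : Sph 2, cv (pd i K) b q (x - t • (w : E 2)) *
        ((w : E 2) i * β w) ∂(sigma 2))) t := by
  have := sigma_prob (d := 2) (by norm_num)
  have hql := hq.locallyIntegrable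
  have hg : ContDiff ℝ ∞ (cv K b q) := cv_contDiff hK hb hql
  have hgs : HasCompactSupport (cv K b q) :=
    HasCompactSupport.intro (isCompact_closedBall (0 : E 2) (r + b)) fun y hy =>
      cv_supp hK hb hq.supp y (by simpa using hy)
  have hgd : Continuous (fderiv ℝ (cv K b q)) := hg.continuous_fderiv (by simp)
  obtain ⟨C, hC⟩ := hgd.bounded_above_of_compact_support (hgs.fderiv ℝ)
  obtain ⟨Cb, hCb⟩ := RepA_bd hβ
  have hw : ∀ w : Sph 2, ‖(w : E 2)‖ = 1 := fun w => by
    have := w.2
    rwa [mem_sphere_zero_iff_norm] at this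
  have h1 : ∀ (w : E 2) (s : ℝ), HasDerivAt (fun s => cv K b q (x - s • w))
      (-(fderiv ℝ (cv K b q) (x - s • w) w)) s := by
    intro w s
    have h6 : HasFDerivAt (cv K b q) (fderiv ℝ (cv K b q) (x - s • w)) (x - s • w) :=
      (hg.differentiable (by simp) _).hasFDerivAt
    have h7 : HasDerivAt (fun s : ℝ => x - s • w) (-w) s := by
      have h8 := ((hasDerivAt_id s).smul_const w).const_sub x
      simpa using h8
    have h9 := h6.comp_hasDerivAt s h7
    rw [map_neg] at h9
    exact h9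
  have h2 := (hasDerivAt_integral_of_dominated_loc_of_deriv_le (μ := sigma 2) (x₀ := t)
    (s := univ) (F := fun s (w : Sph 2) => cv K b q (x - s • (w : E 2)) * β w)
    (F' := fun s (w : Sph 2) => -(fderiv ℝ (cv K b q) (x - s • (w : E 2)) w) * β w)
    (bound := fun _ => C * Cb) Filter.univ_mem
    (Filter.Eventually.of_forall fun s => (RepA_int (by
      have := hg.continuous
      fun_prop)).aestronglyMeasurable)
    (RepA_int (by
      have := hg.continuous
      fun_prop))
    (RepA_int (by fun_prop)).aestronglyMeasurable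
    (Filter.Eventually.of_forall fun w s _ => ?_) (integrable_const _)
    (Filter.Eventually.of_forall fun w s _ => (h1 w s).mul_const (β w))).2
  · refine h2.congr_deriv ?_
    have h3 : ∀ w : Sph 2, -(fderiv ℝ (cv K b q) (x - t • (w : E 2)) w) * β w =
        -(b⁻¹ * ∑ i : Fin 2, cv (pd i K) b q (x - t • (w : E 2)) * ((w : E 2) i * β w)) := by
      intro w
      have h4 : (w : E 2) = ∑ i : Fin 2, (w : E 2) i • EuclideanSpace.single i (1 : ℝ) := by
        ext k
        fin_cases k <;> simp [Fin.sum_univ_two]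
      have h5 : fderiv ℝ (cv K b q) (x - t • (w : E 2)) w =
          ∑ i : Fin 2, (w : E 2) i * pd i (cv K b q) (x - t • (w : E 2)) := by
        conv_lhs => arg 2; rw [h4]
        rw [map_sum]
        refine Finset.sum_congr rfl fun i _ => ?_
        rw [map_smul]
        rfl
      rw [h5]
      simp only [cv_pd hK hb hql]
      rw [neg_mul, Finset.sum_mul, Finset.mul_sum]
      congr 1
      refine Finset.sum_congr rfl fun i _ => ?_
      ring
    simp only [h3]
    rw [integral_neg, integral_const_mul, integral_finsetSum]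
    intro i _
    have h6 : Continuous (cv (pd i K) b q) := (cv_contDiff (hK.pd i) hb hql).continuous
    exact RepA_int (by fun_prop)
  · show ‖-(fderiv ℝ (cv K b q) (x - s • (w : E 2)) w) * β w‖ ≤ C * Cb
    rw [norm_mul, norm_neg]
    have h3 : ‖fderiv ℝ (cv K b q) (x - s • (w : E 2)) w‖ ≤ C := by
      refine (ContinuousLinearMap.le_opNorm _ _).trans ?_
      rw [hw w, mul_one]
      exact hC _
    exact mul_le_mul h3 (hCb w) (norm_nonneg _) ((norm_nonneg _).trans h3)

private theorem RepA_ker {S : E 2 → ℝ} (hS : IsKer S) (j : ℕ) :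
    ∀ α : Fin j → Fin 2, IsKer (pdw α S) := by
  induction j with
  | zero =>
    intro α
    simpa [pdw] using hS
  | succ j ih =>
    intro α
    have h1 : pdw α S = pd (α 0) (pdw (fun i => α i.succ) S) := by
      unfold pdw
      rw [List.ofFn_succ, List.foldr_cons]
    rw [h1]
    exact (ih _).pd _

private theorem RepA_mo {j : ℕ} (α : Fin j → Fin 2) : Continuous (mo α) := by
  unfold mo
  fun_prop

private theorem RepA_iter {K : E 2 → ℝ} (hK : IsKer K) {β : E 2 → ℝ} (hβ : Continuous β) {b : ℝ}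
    (hb : 0 < b) {r : ℝ} {q : E 2 → ℝ} (hq : Bdd r q) (x : E 2) (j : ℕ) : ∀ t : ℝ,
    iteratedDeriv j (fun s => ∫ w : Sph 2, cv K b q (x - s • (w : E 2)) * β w ∂(sigma 2)) t =
      (b⁻¹) ^ j * ((-1) ^ j * ∑ α : Fin j → Fin 2, ∫ w : Sph 2,
        cv (pdw α K) b q (x - t • (w : E 2)) * (mo α w * β w) ∂(sigma 2)) := by
  induction j with
  | zero =>
    intro t
    simp [pdw, mo]
  | succ j ih =>
    intro t
    rw [iteratedDeriv_succ, funext ih]
    have h1 : ∀ α : Fin j → Fin 2, HasDerivAt (fun s => ∫ w : Sph 2,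
        cv (pdw α K) b q (x - s • (w : E 2)) * (mo α w * β w) ∂(sigma 2))
        (-(b⁻¹ * ∑ i : Fin 2, ∫ w : Sph 2, cv (pd i (pdw α K)) b q (x - t • (w : E 2)) *
          ((w : E 2) i * (mo α w * β w)) ∂(sigma 2))) t := fun α =>
      RepA_der (β := fun w => mo α w * β w) (RepA_ker hK j α) ((RepA_mo α).mul hβ) hb hq x t
    have h2 := ((HasDerivAt.fun_sum (u := Finset.univ) fun α _ => h1 α).const_mul
      ((-1 : ℝ) ^ j)).const_mul ((b⁻¹) ^ j)
    rw [h2.deriv]
    have h3 : ∑ α : Fin (j + 1) → Fin 2, ∫ w : Sph 2,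
        cv (pdw α K) b q (x - t • (w : E 2)) * (mo α w * β w) ∂(sigma 2) =
        ∑ i : Fin 2, ∑ α : Fin j → Fin 2, ∫ w : Sph 2,
          cv (pd i (pdw α K)) b q (x - t • (w : E 2)) *
          ((w : E 2) i * (mo α w * β w)) ∂(sigma 2) := by
      rw [← Fintype.sum_prod_type', ← Equiv.sum_comp (Fin.consEquiv fun _ : Fin (j + 1) => Fin 2)]
      refine Finset.sum_congr rfl fun p _ => ?_
      have h4 : pdw ((Fin.consEquiv fun _ : Fin (j + 1) => Fin 2) p) K =
          pd p.1 (pdw p.2 K) := by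
        unfold pdw
        rw [List.ofFn_succ, List.foldr_cons]
        simp [Fin.consEquiv]
      have h5 : ∀ w : E 2, mo ((Fin.consEquiv fun _ : Fin (j + 1) => Fin 2) p) w =
          w p.1 * mo p.2 w := by
        intro w
        unfold mo
        rw [Fin.prod_univ_succ]
        simp [Fin.consEquiv]
      rw [h4]
      simp only [h5, mul_assoc]
    rw [h3, Finset.sum_neg_distrib, ← Finset.mul_sum, Finset.sum_comm]
    ring

theorem rep_deriv {K : E 2 → ℝ} (hK : IsKer K) {β : E 2 → ℝ} (hβ : Continuous β) (m j : ℕ)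
    {r : ℝ} {q : E 2 → ℝ} (hq : Bdd r q) (x : E 2) (t : ℝ) :
    sc m ^ j * iteratedDeriv j
      (fun s => ∫ w : Sph 2, cv K (sc m) q (x - s • (w : E 2)) * β w ∂(sigma 2)) t =
    (-1) ^ j * ∑ α : Fin j → Fin 2, ∫ y, q y * kk (pdw α K) (fun w => mo α w * β w) (sc m) t x y := by
  have hb := RepA_sc_pos m
  rw [RepA_iter hK hβ hb hq x j t, ← mul_assoc, ← mul_pow, mul_inv_cancel₀ hb.ne', one_pow,
    one_mul]
  congr 1
  refine Finset.sum_congr rfl fun α _ => ?_
  exact rep_int (β := fun w => mo α w * β w) (RepA_ker hK j α) ((RepA_mo α).mul hβ) m hq x t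

theorem aF_eq {S : E 2 → ℝ} (hS : IsKer S) (m j : ℕ) {r : ℝ} {q : E 2 → ℝ} (hq : Bdd r q)
    (x : E 2) (t : ℝ) : aF S m j q x t =
      (-1) ^ j * ∑ α : Fin j → Fin 2, ∫ y, q y * kk (pdw α S) (mo α) (sc m) t x y := by
  have h := rep_deriv hS (β := fun _ => 1) continuous_const m j hq x t
  simp only [mul_one] at h
  exact h

theorem vF_eq {S : E 2 → ℝ} (hS : IsKer S) (m j : ℕ) {r : ℝ} {q : E 2 → ℝ} (hq : Bdd r q)
    (x : E 2) (t : ℝ) (i : Fin 2) : vF S m j q x t i =
      (-1) ^ j * ∑ α : Fin j → Fin 2, ∫ y, q y *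
        kk (pdw α S) (fun w => mo α w * w i) (sc m) t x y := by
  have hb := RepA_sc_pos m
  have hg : ContDiff ℝ ∞ (cv S (sc m) q) := cv_contDiff hS hb hq.locallyIntegrable
  have h := rep_deriv hS (β := fun w => w i) (by fun_prop) m j hq x t
  rw [← h]
  have hV : ∀ k : ℕ, ContDiff ℝ ∞ (iteratedDeriv k (fun s : ℝ => ∫ w : Sph 2,
      cv S (sc m) q (x - s • (w : E 2)) • (w : E 2) ∂(sigma 2))) := by
    intro k
    have h1 := JJ_contDiff (d := 2) (by norm_num) hg k 0 x
    unfold JJ at h1
    simp only [sub_zero] at h1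
    exact h1
  have h2 : ∀ k : ℕ, ∀ s : ℝ, iteratedDeriv k (fun s : ℝ => ∫ w : Sph 2,
      cv S (sc m) q (x - s • (w : E 2)) * (w : E 2) i ∂(sigma 2)) s =
      iteratedDeriv k (fun s : ℝ => ∫ w : Sph 2,
        cv S (sc m) q (x - s • (w : E 2)) • (w : E 2) ∂(sigma 2)) s i := by
    intro k
    induction k with
    | zero =>
      intro s
      simp only [iteratedDeriv_zero]
      have := sigma_prob (d := 2) (by norm_num)
      have h3 : Integrable (fun w : Sph 2 => cv S (sc m) q (x - s • (w : E 2)) • (w : E 2))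
          (sigma 2) := by
        have h4 := hg.continuous
        refine Continuous.integrable_of_hasCompactSupport (by fun_prop)
          (HasCompactSupport.of_compactSpace _)
      have h5 := (EuclideanSpace.proj (𝕜 := ℝ) i).integral_comp_comm h3
      exact h5
    | succ k ih =>
      intro s
      rw [iteratedDeriv_succ, iteratedDeriv_succ, funext ih]
      have h3 : HasDerivAt (iteratedDeriv k (fun s : ℝ => ∫ w : Sph 2,
          cv S (sc m) q (x - s • (w : E 2)) • (w : E 2) ∂(sigma 2)))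
          (deriv (iteratedDeriv k (fun s : ℝ => ∫ w : Sph 2,
          cv S (sc m) q (x - s • (w : E 2)) • (w : E 2) ∂(sigma 2))) s) s :=
        ((hV k).differentiable (by simp) s).hasDerivAt
      have h4 := ((EuclideanSpace.proj (𝕜 := ℝ) i).hasFDerivAt).comp_hasDerivAt s h3
      exact h4.deriv
  rw [h2 j t]
  rfl

end Pool.Agent.Lib.MP_ff3fe0_an_SPH2
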