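import Pool.Agent.Lib.MP_ff3fe0_an_SPH2.Defs2

set_option autoImplicit false

/-!
# Selection of the radii and of the exceptional directions
-/

namespace Pool.Agent.Lib.MP_ff3fe0_an_SPH2

open MeasureTheory Metric Set
open scoped ENNReal NNReal ContDiff FourierTransform
open Pool.Agent.Lib.MP_ff3fe0_an
open Pool.Agent.Lib.MP_ff3fe0_an_SPH

/-- A measurable choice among finitely many values. -/
private lemma sela_pick {X Y : Type*} [MeasurableSpace X] [MeasurableSpace Y] [DecidableEq Y]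
    (y0 : Y) (T : Finset Y) (S : Y → Set X) (hS : ∀ i ∈ T, MeasurableSet (S i)) :
    ∃ f : X → Y, Measurable f ∧ (Set.range f).Finite ∧ (∀ x, f x = y0 ∨ f x ∈ T) ∧
      ∀ x, (∃ i ∈ T, x ∈ S i) → f x ∈ T ∧ x ∈ S (f x) := by
  classical
  induction T using Finset.induction_on with
  | empty => exact ⟨fun _ => y0, measurable_const, (Set.finite_singleton y0).subset (by
      rintro _ ⟨x, rfl⟩
      exact rfl), fun x => Or.inl rfl, fun x => by simp⟩
  | insert a T _ ih =>
    obtain ⟨f, h1, h2, h3, h4⟩ := ih fun i hi => hS i (Finset.mem_insert_of_mem hi)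
    refine ⟨fun x => if x ∈ S a then a else f x, Measurable.ite (hS a (Finset.mem_insert_self a T))
      measurable_const h1, (h2.insert a).subset ?_, ?_, ?_⟩
    · rintro _ ⟨x, rfl⟩
      by_cases hx : x ∈ S a
      · simp [hx]
      · simp [hx]
    · intro x
      by_cases hx : x ∈ S a
      · simp [hx]
      · rcases h3 x with h | h
        · left
          simpa [hx] using h
        · right
          simp only [hx, if_false]
          exact Finset.mem_insert_of_mem h
    · rintro x ⟨i, hi, hxi⟩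
      by_cases hx : x ∈ S a
      · simp [hx]
      · simp only [hx, if_false]
        rcases Finset.mem_insert.1 hi with rfl | hi
        · exact absurd hxi hx
        · obtain ⟨h5, h6⟩ := h4 x ⟨i, hi, hxi⟩
          exact ⟨Finset.mem_insert_of_mem h5, h6⟩

/-- At every point of the set where `max |a| ‖v‖` reaches `l` there is a radius, and a direction
outside of whose neighbourhood `‖v - a c‖` is bounded from below. -/
theorem sel {a : E 2 → ℝ → ℝ} {v : E 2 → ℝ → E 2} (ha : Continuous (fun z : E 2 × ℝ => a z.1 z.2))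
    (hv : Continuous (fun z : E 2 × ℝ => v z.1 z.2)) {L : ℝ}
    (hLa : ∀ x s t, |a x s - a x t| ≤ L * |s - t|) (hLv : ∀ x s t, ‖v x s - v x t‖ ≤ L * |s - t|)
    {l κ : ℝ} (hl : 0 < l) (hκ : 0 < κ) (hκ1 : κ ≤ 1) :
    ∃ (tt : E 2 → ℝ) (cs : E 2 → E 2), Measurable tt ∧ Measurable cs ∧ (Set.range tt).Finite ∧
      (Set.range cs).Finite ∧ (∀ x, ‖cs x‖ = 1) ∧ (∀ x, tt x ∈ Icc (1 / 2 : ℝ) (5 / 2)) ∧
      ∀ x, (∃ t ∈ Icc (1 / 2 : ℝ) (5 / 2), l ≤ |a x t| ∨ l ≤ ‖v x t‖) →
        (l / 2 ≤ |a x (tt x)| ∨ l / 2 ≤ ‖v x (tt x)‖) ∧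
        ∀ c : E 2, ‖c‖ = 1 → 3 * κ ≤ ‖c - cs x‖ → κ * l / 8 ≤ ‖v x (tt x) - a x (tt x) • c‖ := by
  classical
  have hL0 : 0 < |L| + 1 := by positivity
  have hh : 0 < l / (2 * (|L| + 1)) := by positivity
  obtain ⟨T0, hT0, hT0f, hT0c⟩ := (isCompact_Icc (a := (1 / 2 : ℝ)) (b := 5 / 2)).finite_cover_balls
    hh
  obtain ⟨tt, ht1, ht2, ht3, ht4⟩ := sela_pick (1 : ℝ) hT0f.toFinset
    (fun s => {x : E 2 | l / 2 ≤ |a x s| ∨ l / 2 ≤ ‖v x s‖}) (by
      intro s _
      have h1 : Continuous fun x : E 2 => a x s := ha.comp (by fun_prop : Continuous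
        fun x : E 2 => (x, s))
      have h2 : Continuous fun x : E 2 => v x s := hv.comp (by fun_prop : Continuous
        fun x : E 2 => (x, s))
      exact (isClosed_le continuous_const h1.abs).measurableSet.union
        (isClosed_le continuous_const h2.norm).measurableSet)
  have htI : ∀ x, tt x ∈ Icc (1 / 2 : ℝ) (5 / 2) := by
    intro x
    rcases ht3 x with h | h
    · rw [h]
      constructor <;> norm_num
    · exact hT0 (hT0f.mem_toFinset.1 h)
  obtain ⟨N0, hN0, hN0f, hN0c⟩ := (isCompact_sphere (0 : E 2) 1).finite_cover_balls hκ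
  have hA : Measurable fun x => a x (tt x) :=
    ha.measurable.comp (measurable_id.prodMk ht1)
  have hV : Measurable fun x => v x (tt x) :=
    hv.measurable.comp (measurable_id.prodMk ht1)
  obtain ⟨cs, hc1, hc2, hc3, hc4⟩ := sela_pick (EuclideanSpace.single (0 : Fin 2) (1 : ℝ))
    hN0f.toFinset (fun n => {x : E 2 | ∃ c : E 2, (‖c‖ = 1 ∧ ‖c - n‖ < κ) ∧
      ‖v x (tt x) - a x (tt x) • c‖ < κ * l / 8}) (by
      intro n _
      have h1 : IsOpen {z : E 2 × ℝ | ∃ c : E 2, (‖c‖ = 1 ∧ ‖c - n‖ < κ) ∧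
          ‖z.1 - z.2 • c‖ < κ * l / 8} := by
        have h2 : {z : E 2 × ℝ | ∃ c : E 2, (‖c‖ = 1 ∧ ‖c - n‖ < κ) ∧
            ‖z.1 - z.2 • c‖ < κ * l / 8} = ⋃ c : E 2, ⋃ _ : ‖c‖ = 1 ∧ ‖c - n‖ < κ,
              {z : E 2 × ℝ | ‖z.1 - z.2 • c‖ < κ * l / 8} := by
          ext z
          simp
        rw [h2]
        exact isOpen_iUnion fun c => isOpen_iUnion fun _ => isOpen_lt (by fun_prop)
          continuous_const
      exact (hV.prodMk hA) h1.measurableSet)
  refine ⟨tt, cs, ht1, hc1, ht2, hc2, ?_, htI, ?_⟩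
  · intro x
    rcases hc3 x with h | h
    · rw [h]
      simp
    · have := hN0 (hN0f.mem_toFinset.1 h)
      simpa using this
  · rintro x ⟨t, ht, hat⟩
    obtain ⟨s, hs, hst⟩ : ∃ s ∈ T0, |t - s| < l / (2 * (|L| + 1)) := by
      have := hT0c ht
      simp only [mem_iUnion, mem_ball, Real.dist_eq] at this
      obtain ⟨s, hs, h⟩ := this
      exact ⟨s, hs, h⟩
    have hLs : L * |t - s| ≤ l / 2 := by
      have h1 : L * |t - s| ≤ (|L| + 1) * |t - s| :=
        mul_le_mul_of_nonneg_right ((le_abs_self L).trans (by linarith)) (abs_nonneg _)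
      have h2 : (|L| + 1) * |t - s| ≤ (|L| + 1) * (l / (2 * (|L| + 1))) :=
        mul_le_mul_of_nonneg_left hst.le hL0.le
      have h3 : (|L| + 1) * (l / (2 * (|L| + 1))) = l / 2 := by
        field_simp
      linarith
    have hPs : l / 2 ≤ |a x s| ∨ l / 2 ≤ ‖v x s‖ := by
      rcases hat with h | h
      · left
        have h1 := hLa x t s
        have h2 : |a x t| ≤ |a x t - a x s| + |a x s| := by
          have := abs_add_le (a x t - a x s) (a x s)
          rwa [sub_add_cancel] at this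
        linarith
      · right
        have h1 := hLv x t s
        have h2 : ‖v x t‖ ≤ ‖v x t - v x s‖ + ‖v x s‖ := by
          have := norm_add_le (v x t - v x s) (v x s)
          rwa [sub_add_cancel] at this
        linarith
    have hP : l / 2 ≤ |a x (tt x)| ∨ l / 2 ≤ ‖v x (tt x)‖ :=
      (ht4 x ⟨s, hT0f.mem_toFinset.2 hs, hPs⟩).2
    refine ⟨hP, fun c hc hcc => ?_⟩
    by_contra hbad
    rw [not_le] at hbad
    obtain ⟨n, hn, hcn⟩ : ∃ n ∈ N0, ‖c - n‖ < κ := by
      have := hN0c (show c ∈ sphere (0 : E 2) 1 by simpa using hc)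
      simp only [mem_iUnion, mem_ball, dist_eq_norm] at this
      obtain ⟨s, hs, h⟩ := this
      exact ⟨s, hs, h⟩
    obtain ⟨-, c0, ⟨hc0, hc0n⟩, hc0b⟩ := hc4 x ⟨n, hN0f.mem_toFinset.2 hn, c, ⟨hc, hcn⟩, hbad⟩
    have h1 : ‖c - cs x‖ ≤ ‖c - c0‖ + ‖c0 - cs x‖ := by
      have := norm_add_le (c - c0) (c0 - cs x)
      rwa [sub_add_sub_cancel] at this
    have h2 : κ ≤ ‖c - c0‖ := by linarith
    have h3 : |a x (tt x)| * ‖c - c0‖ < κ * l / 4 := by
      rw [← Real.norm_eq_abs, ← norm_smul, smul_sub]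
      have h4 := norm_sub_le (v x (tt x) - a x (tt x) • c0) (v x (tt x) - a x (tt x) • c)
      rw [sub_sub_sub_cancel_left] at h4
      linarith
    have h4 : l / 4 ≤ |a x (tt x)| := by
      by_contra h5
      rw [not_le] at h5
      rcases hP with h6 | h6
      · linarith
      · have h7 := norm_sub_norm_le (v x (tt x)) (a x (tt x) • c)
        rw [norm_smul, hc, mul_one, Real.norm_eq_abs] at h7
        have h8 : κ * l ≤ l := by nlinarith
        linarith
    have h5 : l / 4 * κ ≤ |a x (tt x)| * ‖c - c0‖ := by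
      apply mul_le_mul h4 h2 hκ.le (abs_nonneg _)
    linarith

end Pool.Agent.Lib.MP_ff3fe0_an_SPH2
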