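import Pool.Agent.Lib.MP_ff3fe0_an_SPH2.Defs2

set_option autoImplicit false

/-!
# Summation of the kernel bounds
-/

namespace Pool.Agent.Lib.MP_ff3fe0_an_SPH2

open MeasureTheory Metric Set
open scoped ENNReal NNReal ContDiff FourierTransform
open Pool.Agent.Lib.MP_ff3fe0_an
open Pool.Agent.Lib.MP_ff3fe0_an_SPH

private theorem sumq_int_le {S : Set (E 2)} {K : E 2 → ℝ≥0∞} (hK : Measurable K) {c : ℝ≥0∞}
    (h : ∀ x ∈ S, K x ≤ c) : ∫⁻ x in S, K x ≤ c * volume S := by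
  calc ∫⁻ x in S, K x ≤ ∫⁻ _ in S, c :=
        lintegral_mono_ae ((ae_restrict_iff (measurableSet_le hK measurable_const)).2
          (Filter.Eventually.of_forall h))
    _ = c * volume S := by rw [setLIntegral_const]

private theorem sumq_piece {S : Set (E 2)} {K : E 2 → ℝ≥0∞} (hK : Measurable K)
    {c v X : ℝ} (hc : 0 ≤ c) (h : ∀ x ∈ S, K x ≤ ENNReal.ofReal c)
    (hv : volume S ≤ ENNReal.ofReal v) (hX : c * v ≤ X) :
    ∫⁻ x in S, K x ≤ ENNReal.ofReal X := by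
  refine (sumq_int_le hK h).trans ((mul_le_mul' le_rfl hv).trans ?_)
  rw [← ENNReal.ofReal_mul hc]
  exact ENNReal.ofReal_le_ofReal hX

private theorem sumq_cover {ι : Type*} (J : Finset ι) (S : ι → Set (E 2)) (T : Set (E 2))
    {K : E 2 → ℝ≥0∞} (hT : ∀ x ∈ T, ∃ j ∈ J, x ∈ S j) {X : ℝ}
    (hM : ∀ j ∈ J, ∫⁻ x in S j, K x ≤ ENNReal.ofReal X) :
    ∫⁻ x in T, K x ≤ ENNReal.ofReal ((J.card : ℝ) * X) := by
  have h1 : T ⊆ ⋃ j : J, S j := by
    intro x hx
    obtain ⟨j, hj, hxj⟩ := hT x hx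
    exact mem_iUnion.2 ⟨⟨j, hj⟩, hxj⟩
  calc ∫⁻ x in T, K x ≤ ∫⁻ x in ⋃ j : J, S j, K x := lintegral_mono_set h1
    _ ≤ ∑' j : J, ∫⁻ x in S j, K x := lintegral_iUnion_le _ _
    _ = ∑ j ∈ J, ∫⁻ x in S j, K x := Finset.tsum_subtype J (fun j => ∫⁻ x in S j, K x)
    _ ≤ ∑ _j ∈ J, ENNReal.ofReal X := Finset.sum_le_sum hM
    _ = ENNReal.ofReal ((J.card : ℝ) * X) := by
        rw [Finset.sum_const, nsmul_eq_mul, ENNReal.ofReal_mul (Nat.cast_nonneg _),
          ENNReal.ofReal_natCast]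

private theorem sumq_vol (b : E 2) {r : ℝ} (hr : 0 ≤ r) :
    volume (closedBall b r) ≤ ENNReal.ofReal (4 * r ^ 2) := by
  have h := EuclideanSpace.volume_closedBall_fin_two b r
  rw [h]
  rw [← ENNReal.ofReal_pow hr]
  rw [← ENNReal.ofReal_mul (by positivity)]
  apply ENNReal.ofReal_le_ofReal
  have := Real.pi_le_four
  nlinarith [sq_nonneg r]

private theorem sumq_dev {ρ u : ℝ} (hρ : 0 ≤ ρ) :
    abs (ρ - |u|) * ρ ≤ |ρ ^ 2 - u ^ 2| := by
  have h1 : ρ ^ 2 - u ^ 2 = (ρ - |u|) * (ρ + |u|) := by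
    have : u ^ 2 = |u| ^ 2 := (sq_abs u).symm
    rw [this]; ring
  rw [h1, abs_mul]
  apply mul_le_mul_of_nonneg_left _ (abs_nonneg _)
  rw [abs_of_nonneg (add_nonneg hρ (abs_nonneg u))]
  linarith [abs_nonneg u]

/-- Dyadic index. -/
private theorem sumq_dy {x : ℝ} {M : ℕ} (h0 : (1 / 2 : ℝ) ^ M ≤ x) (h1 : x ≤ 1) :
    ∃ i ∈ Finset.range (M + 1), (1 / 2 : ℝ) ^ (i + 1) < x ∧ x ≤ (1 / 2 : ℝ) ^ i := by
  have hx : 0 < x := lt_of_lt_of_le (by positivity) h0
  obtain ⟨i, hi1, hi2⟩ := exists_nat_pow_near_of_lt_one hx h1 (by norm_num : (0 : ℝ) < 1 / 2)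
    (by norm_num)
  refine ⟨i, ?_, hi1, hi2⟩
  rw [Finset.mem_range]
  by_contra hcon
  push Not at hcon
  have h2 : (1 / 2 : ℝ) ^ i ≤ (1 / 2 : ℝ) ^ (M + 1) :=
    pow_le_pow_of_le_one (by norm_num) (by norm_num) hcon
  have h3 : (1 / 2 : ℝ) ^ (M + 1) < (1 / 2 : ℝ) ^ M := by
    rw [pow_succ]
    have : (0 : ℝ) < (1 / 2 : ℝ) ^ M := by positivity
    linarith
  linarith

/-- The real inequality of the part (ii). -/
private theorem sumq_re2 {κ C1 g r c1 c2 : ℝ} (hκ : 0 < κ) (hκ1 : κ ≤ 1) (hC1 : 1 ≤ C1)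
    (hg : 0 < g) (hg1 : g ≤ 1) (hr : 0 < r)
    (h1 : c1 = 2 * C1 ^ 2 / (κ * r)) (h2 : c2 = 8 * C1 ^ 3 * g ^ 6 / (κ ^ 4 * r ^ 3)) :
    min c1 c2 * (4 * r ^ 2) ≤ 16 * (C1 ^ 3 * g / κ ^ 4) := by
  have hc1 : 0 < c1 := by rw [h1]; positivity
  have hc2 : 0 < c2 := by rw [h2]; positivity
  have hm : 0 < min c1 c2 := lt_min hc1 hc2
  apply le_of_pow_le_pow_left₀ (n := 2) (by norm_num) (by positivity)
  have h3 : min c1 c2 ^ 2 ≤ c1 * c2 := by
    rw [pow_two]
    exact mul_le_mul (min_le_left _ _) (min_le_right _ _) hm.le hc1.le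
  calc (min c1 c2 * (4 * r ^ 2)) ^ 2 = min c1 c2 ^ 2 * (16 * r ^ 4) := by ring
    _ ≤ c1 * c2 * (16 * r ^ 4) := mul_le_mul_of_nonneg_right h3 (by positivity)
    _ = 256 * (C1 ^ 5 * g ^ 6 / κ ^ 5) := by
        rw [h1, h2]; field_simp; ring
    _ ≤ 256 * (C1 ^ 6 * g ^ 2 / κ ^ 8) := by
        apply mul_le_mul_of_nonneg_left _ (by norm_num)
        apply div_le_div₀ (by positivity) _ (by positivity)
          (pow_le_pow_of_le_one hκ.le hκ1 (by norm_num))
        exact mul_le_mul (pow_le_pow_right₀ hC1 (by norm_num))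
          (pow_le_pow_of_le_one hg.le hg1 (by norm_num)) (by positivity) (by positivity)
    _ = (16 * (C1 ^ 3 * g / κ ^ 4)) ^ 2 := by
        field_simp; ring

/-- The real inequality of the part (iii). -/
private theorem sumq_re3 {A C1 g r u : ℝ} (hA : 1 ≤ A) (hC1 : 1 ≤ C1)
    (hg : 0 < g) (hg1 : g ≤ 1) (hr : 0 < r) (hu : 0 < u) (hu2 : u ^ 2 = g ^ 6 * (r / 2)) :
    C1 / u * min (4 * r ^ 2) (A * (33 * g ^ 6)) ≤ 28 * (C1 * A * g) := by
  have ha : 0 < 4 * r ^ 2 := by positivity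
  have hb : 0 < A * (33 * g ^ 6) := by positivity
  set a := 4 * r ^ 2 with had
  set b := A * (33 * g ^ 6) with hbd
  have hm : 0 < min a b := lt_min ha hb
  apply le_of_pow_le_pow_left₀ (n := 4) (by norm_num) (by positivity)
  have h3 : min a b ^ 4 ≤ a * b ^ 3 := by
    calc min a b ^ 4 = min a b * min a b ^ 3 := by ring
      _ ≤ a * b ^ 3 := mul_le_mul (min_le_left _ _)
          (pow_le_pow_left₀ hm.le (min_le_right _ _) 3) (by positivity) ha.le
  have hu4 : u ^ 4 = g ^ 12 * (r / 2) ^ 2 := by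
    rw [show u ^ 4 = (u ^ 2) ^ 2 from by ring, hu2]; ring
  calc (C1 / u * min a b) ^ 4 = C1 ^ 4 / u ^ 4 * min a b ^ 4 := by rw [mul_pow, div_pow]
    _ ≤ C1 ^ 4 / u ^ 4 * (a * b ^ 3) := mul_le_mul_of_nonneg_left h3 (by positivity)
    _ = 574992 * (C1 ^ 4 * A ^ 3 * g ^ 6) := by
        rw [hu4, had, hbd]; field_simp; ring
    _ ≤ 614656 * (C1 ^ 4 * A ^ 4 * g ^ 4) := by
        apply mul_le_mul (by norm_num) _ (by positivity) (by norm_num)
        exact mul_le_mul (mul_le_mul_of_nonneg_left (pow_le_pow_right₀ hA (by norm_num))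
          (by positivity)) (pow_le_pow_of_le_one hg.le hg1 (by norm_num)) (by positivity)
          (by positivity)
    _ = (28 * (C1 * A * g)) ^ 4 := by ring

/-- The real inequality of the part (iv). -/
private theorem sumq_re4 {κ A C1 g r s u c1 c2 : ℝ} (hκ : 0 < κ) (hκ1 : κ ≤ 1) (hA : 1 ≤ A)
    (hC1 : 1 ≤ C1) (hg : 0 < g) (hr : 0 < r) (hs : 0 < s) (hu : 0 < u)
    (hu2 : u ^ 2 = s / 2) (h1 : c1 = C1 / u) (h2 : c2 = C1 * g ^ 6 / (κ * (s / 2 * u))) :
    min c1 c2 * min (4 * r ^ 2) (A * (2 * s / r)) ≤ 4 * (C1 * A * g / κ) := by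
  have hc1 : 0 < c1 := by rw [h1]; positivity
  have hc2 : 0 < c2 := by rw [h2]; positivity
  have ha : 0 < 4 * r ^ 2 := by positivity
  have hb : 0 < A * (2 * s / r) := by positivity
  set a := 4 * r ^ 2 with had
  set b := A * (2 * s / r) with hbd
  have hm : 0 < min a b := lt_min ha hb
  have hmc : 0 < min c1 c2 := lt_min hc1 hc2
  apply le_of_pow_le_pow_left₀ (n := 6) (by norm_num) (by positivity)
  have h3 : min a b ^ 6 ≤ a ^ 2 * b ^ 4 := by
    calc min a b ^ 6 = min a b ^ 2 * min a b ^ 4 := by ring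
      _ ≤ a ^ 2 * b ^ 4 := mul_le_mul (pow_le_pow_left₀ hm.le (min_le_left _ _) 2)
          (pow_le_pow_left₀ hm.le (min_le_right _ _) 4) (by positivity) (by positivity)
  have h4 : min c1 c2 ^ 6 ≤ c1 ^ 5 * c2 := by
    calc min c1 c2 ^ 6 = min c1 c2 ^ 5 * min c1 c2 := by ring
      _ ≤ c1 ^ 5 * c2 := mul_le_mul (pow_le_pow_left₀ hmc.le (min_le_left _ _) 5)
          (min_le_right _ _) hmc.le (by positivity)
  have hu6 : u ^ 6 = (s / 2) ^ 3 := by
    rw [show u ^ 6 = (u ^ 2) ^ 3 from by ring, hu2]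
  have h5 : c1 ^ 5 * c2 = 16 * (C1 ^ 6 * g ^ 6 / (κ * s ^ 4)) := by
    rw [h1, h2]
    have : (C1 / u) ^ 5 * (C1 * g ^ 6 / (κ * (s / 2 * u))) =
        C1 ^ 6 * g ^ 6 / (κ * (s / 2) * u ^ 6) := by
      field_simp
    rw [this, hu6]; field_simp; ring
  calc (min c1 c2 * min a b) ^ 6 = min c1 c2 ^ 6 * min a b ^ 6 := by rw [mul_pow]
    _ ≤ (c1 ^ 5 * c2) * (a ^ 2 * b ^ 4) := mul_le_mul h4 h3 (by positivity) (by positivity)
    _ = 4096 * (C1 ^ 6 * A ^ 4 * g ^ 6 / κ) := by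
        rw [h5, had, hbd]; field_simp; ring
    _ ≤ 4096 * (C1 ^ 6 * A ^ 6 * g ^ 6 / κ ^ 6) := by
        apply mul_le_mul_of_nonneg_left _ (by norm_num)
        apply div_le_div₀ (by positivity) _ (by positivity)
        · exact (pow_le_pow_of_le_one hκ.le hκ1 (by norm_num : 1 ≤ 6)).trans_eq (pow_one κ)
        · exact mul_le_mul_of_nonneg_right (mul_le_mul_of_nonneg_left
            (pow_le_pow_right₀ hA (by norm_num)) (by positivity)) (by positivity)
    _ = (4 * (C1 * A * g / κ)) ^ 6 := by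
        field_simp; ring

/-- The integral of the kernel. -/
theorem sum_q : ∃ C : ℝ≥0, ∀ (m : ℕ) (κ A C1 : ℝ) (b : E 2) (τ : ℝ) (tt : E 2 → ℝ)
    (K : E 2 → ℝ≥0∞), 6 ≤ m → 0 < κ → κ ≤ 1 → 1 ≤ A → 1 ≤ C1 → Measurable tt → Measurable K →
    (∀ x ∈ closedBall b (1 / 8), K x ≤ ENNReal.ofReal (C1 * 2 ^ m)) →
    (∀ x ∈ closedBall b (1 / 8), K x ≠ 0 → |tt x - τ| ≤ ‖x - b‖ + 4 * sc m) →
    (∀ x ∈ closedBall b (1 / 8), sc m ≤ ‖x - b‖ →
      qq b τ x (tt x) < 32 * (sc m * ‖x - b‖ + sc m ^ 2) →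
        K x ≤ ENNReal.ofReal (C1 / √(sc m * ‖x - b‖))) →
    (∀ x ∈ closedBall b (1 / 8), 32 * (sc m * ‖x - b‖ + sc m ^ 2) ≤ qq b τ x (tt x) →
      K x ≤ ENNReal.ofReal (C1 / √(qq b τ x (tt x))) ∧
      K x ≤ ENNReal.ofReal (C1 * sc m / (κ * (qq b τ x (tt x) * √(qq b τ x (tt x)))))) →
    (∀ h : ℝ, sc m ≤ h → volume {x ∈ closedBall b (1 / 8) | K x ≠ 0 ∧
      64 * C1 * sc m ≤ κ ^ 2 * ‖x - b‖ ∧ C1 * |qq b τ x (tt x)| ≤ κ ^ 2 * ‖x - b‖ ^ 2 ∧
      abs (‖x - b‖ - |tt x - τ|) ≤ h} ≤ ENNReal.ofReal (A * h)) →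
    ∫⁻ x in closedBall b (1 / 8), K x ≤
      C * ENNReal.ofReal (C1 ^ 3 * A * (m + 1) ^ 2 * (2 : ℝ) ^ (-(m / 6 : ℝ)) / κ ^ 4) := by
  refine ⟨20000, ?_⟩
  intro m κ A C1 b τ tt K hm hκ hκ1 hA hC1 htt hK h1 h2 h3 h4 h5
  set g : ℝ := (2 : ℝ) ^ (-(m / 6 : ℝ)) with hg
  have hg0 : 0 < g := by positivity
  have hg1 : g ≤ 1 := by
    rw [hg]
    apply Real.rpow_le_one_of_one_le_of_nonpos (by norm_num)
    have : (0 : ℝ) ≤ (m : ℝ) / 6 := by positivity
    linarith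
  have hg6 : g ^ 6 = sc m := by
    rw [hg, ← Real.rpow_natCast, ← Real.rpow_mul (by norm_num)]
    have : (-(m / 6 : ℝ)) * ((6 : ℕ) : ℝ) = -(m : ℝ) := by push_cast; ring
    rw [this, Real.rpow_neg (by norm_num), Real.rpow_natCast]
    unfold sc
    rw [one_div, inv_pow]
  have hδ0 : 0 < sc m := by rw [← hg6]; positivity
  have h2m : (2 : ℝ) ^ m = 1 / g ^ 6 := by
    rw [hg6]; unfold sc; simp
  have hδ1 : sc m ≤ 1 / 64 := by
    unfold sc
    calc (1 / 2 : ℝ) ^ m ≤ (1 / 2 : ℝ) ^ 6 := pow_le_pow_of_le_one (by norm_num) (by norm_num) hm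
      _ = 1 / 64 := by norm_num
  have hκ2 : κ ^ 2 ≤ 1 := pow_le_one₀ hκ.le hκ1
  have hκ2p : 0 < κ ^ 2 := by positivity
  have hC0 : 0 < C1 := by linarith
  have hA0 : 0 < A := by linarith
  -- the parts
  set T0 : Set (E 2) := {x | K x = 0} with hT0
  set T1 : Set (E 2) := {x | x ∈ closedBall b (1 / 8) ∧ κ ^ 2 * ‖x - b‖ < 64 * C1 * sc m}
    with hT1
  set T2 : Set (E 2) := {x | x ∈ closedBall b (1 / 8) ∧ K x ≠ 0 ∧
    64 * C1 * sc m ≤ κ ^ 2 * ‖x - b‖ ∧ κ ^ 2 * ‖x - b‖ ^ 2 < C1 * |qq b τ x (tt x)|} with hT2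
  set T3 : Set (E 2) := {x | x ∈ closedBall b (1 / 8) ∧ K x ≠ 0 ∧
    64 * C1 * sc m ≤ κ ^ 2 * ‖x - b‖ ∧ C1 * |qq b τ x (tt x)| ≤ κ ^ 2 * ‖x - b‖ ^ 2 ∧
    qq b τ x (tt x) < 32 * (sc m * ‖x - b‖ + sc m ^ 2)} with hT3
  set T4 : Set (E 2) := {x | x ∈ closedBall b (1 / 8) ∧ K x ≠ 0 ∧
    64 * C1 * sc m ≤ κ ^ 2 * ‖x - b‖ ∧ C1 * |qq b τ x (tt x)| ≤ κ ^ 2 * ‖x - b‖ ^ 2 ∧
    32 * (sc m * ‖x - b‖ + sc m ^ 2) ≤ qq b τ x (tt x)} with hT4
  have hcov : closedBall b (1 / 8) ⊆ T0 ∪ (T1 ∪ (T2 ∪ (T3 ∪ T4))) := by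
    intro x hx
    by_cases hx0 : K x = 0
    · exact Or.inl hx0
    right
    rcases lt_or_ge (κ ^ 2 * ‖x - b‖) (64 * C1 * sc m) with hx1 | hx1
    · exact Or.inl ⟨hx, hx1⟩
    right
    rcases lt_or_ge (κ ^ 2 * ‖x - b‖ ^ 2) (C1 * |qq b τ x (tt x)|) with hx2 | hx2
    · exact Or.inl ⟨hx, hx0, hx1, hx2⟩
    right
    rcases lt_or_ge (qq b τ x (tt x)) (32 * (sc m * ‖x - b‖ + sc m ^ 2)) with hx3 | hx3
    · exact Or.inl ⟨hx, hx0, hx1, hx2, hx3⟩
    · exact Or.inr ⟨hx, hx0, hx1, hx2, hx3⟩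
  -- facts about the distance
  have hball : ∀ x ∈ closedBall b (1 / 8), ‖x - b‖ ≤ 1 / 8 := by
    intro x hx
    rw [← dist_eq_norm]; exact mem_closedBall.1 hx
  have hfar : ∀ x : E 2, 64 * C1 * sc m ≤ κ ^ 2 * ‖x - b‖ → 64 * sc m ≤ ‖x - b‖ := by
    intro x hx
    have e1 : κ ^ 2 * ‖x - b‖ ≤ 1 * ‖x - b‖ := mul_le_mul_of_nonneg_right hκ2 (norm_nonneg _)
    have e2 : 64 * 1 * sc m ≤ 64 * C1 * sc m := by
      apply mul_le_mul_of_nonneg_right _ hδ0.le
      linarith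
    linarith
  have hqlow : ∀ x ∈ closedBall b (1 / 8), K x ≠ 0 → 64 * sc m ≤ ‖x - b‖ →
      -(9 * (sc m * ‖x - b‖)) ≤ qq b τ x (tt x) := by
    intro x hx hx0 hx1
    have e1 := h2 x hx hx0
    have e2 : (tt x - τ) ^ 2 ≤ (‖x - b‖ + 4 * sc m) ^ 2 := by
      rw [← sq_abs (tt x - τ)]
      exact pow_le_pow_left₀ (abs_nonneg _) e1 2
    unfold qq
    nlinarith
  have hqup : ∀ x : E 2, qq b τ x (tt x) ≤ ‖x - b‖ ^ 2 := by
    intro x
    unfold qq
    nlinarith [sq_nonneg (tt x - τ)]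
  -- part 0
  have hI0 : ∫⁻ x in T0, K x ≤ 0 := by
    refine (sumq_int_le hK (c := 0) (fun x hx => ?_)).trans_eq (by simp)
    exact le_of_eq hx
  -- part 1
  have hI1 : ∫⁻ x in T1, K x ≤ ENNReal.ofReal (16384 * (C1 ^ 3 * g / κ ^ 4)) := by
    refine sumq_piece hK (c := C1 * 2 ^ m) (v := 4 * (64 * C1 * sc m / κ ^ 2) ^ 2)
      (by positivity) (fun x hx => h1 x hx.1) ?_ ?_
    · refine (measure_mono ?_).trans (sumq_vol b (r := 64 * C1 * sc m / κ ^ 2) (by positivity))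
      intro x hx
      rw [mem_closedBall, dist_eq_norm, le_div_iff₀ hκ2p]
      linarith [hx.2]
    · rw [h2m, ← hg6]
      have e1 : C1 * (1 / g ^ 6) * (4 * (64 * C1 * g ^ 6 / κ ^ 2) ^ 2) =
          16384 * (C1 ^ 3 * g ^ 6 / κ ^ 4) := by
        field_simp; ring
      rw [e1]
      apply mul_le_mul_of_nonneg_left _ (by norm_num)
      apply div_le_div_of_nonneg_right _ (by positivity)
      apply mul_le_mul_of_nonneg_left _ (by positivity)
      exact (pow_le_pow_of_le_one hg0.le hg1 (by norm_num : 1 ≤ 6)).trans_eq (pow_one g)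
  -- part 2
  have hI2 : ∫⁻ x in T2, K x ≤ ENNReal.ofReal (((Finset.range (m + 1)).card : ℝ) *
      (16 * (C1 ^ 3 * g / κ ^ 4))) := by
    apply sumq_cover (Finset.range (m + 1))
      (fun i => T2 ∩ {x | (1 / 2 : ℝ) ^ (i + 1) < ‖x - b‖ ∧ ‖x - b‖ ≤ (1 / 2 : ℝ) ^ i})
    · intro x hx
      have e1 := hfar x hx.2.2.1
      have e2 := hball x hx.1
      obtain ⟨i, hi, hi1, hi2⟩ := sumq_dy (x := ‖x - b‖) (M := m) (by
        change sc m ≤ _; linarith) (by linarith)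
      exact ⟨i, hi, hx, hi1, hi2⟩
    · intro i _
      set r : ℝ := (1 / 2 : ℝ) ^ i with hr
      have hr0 : 0 < r := by positivity
      refine sumq_piece hK (c := min (2 * C1 ^ 2 / (κ * r))
        (8 * C1 ^ 3 * g ^ 6 / (κ ^ 4 * r ^ 3))) (v := 4 * r ^ 2) (by positivity) ?_ ?_
        (sumq_re2 hκ hκ1 hC1 hg0 hg1 hr0 rfl rfl)
      · rintro x ⟨⟨hx, hx0, hx1, hx2⟩, hxr1, hxr2⟩
        have hxr1' : r / 2 < ‖x - b‖ := by
          rw [pow_succ] at hxr1; linarith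
        set ρ := ‖x - b‖ with hρ
        have hρ0 : 0 < ρ := by linarith [half_pos hr0]
        have e1 := hfar x hx1
        have e2 := hball x hx
        have e3 := hqlow x hx hx0 e1
        set Q := qq b τ x (tt x) with hQ
        have hQ1 : 32 * (sc m * ρ + sc m ^ 2) ≤ Q := by
          by_contra hcon
          push Not at hcon
          have e4 : |Q| ≤ 33 * (sc m * ρ) := by
            rw [abs_le]
            constructor
            · nlinarith [mul_pos hδ0 hρ0]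
            · nlinarith [mul_pos hδ0 hρ0]
          have e5 : C1 * |Q| ≤ C1 * (33 * (sc m * ρ)) := mul_le_mul_of_nonneg_left e4 hC0.le
          have e6 : 64 * C1 * sc m * ρ ≤ κ ^ 2 * ρ * ρ := mul_le_mul_of_nonneg_right hx1 hρ0.le
          have e7 : 0 < C1 * (sc m * ρ) := by positivity
          nlinarith
        have hQ0 : 0 < Q := by
          have : 0 < sc m * ρ := by positivity
          nlinarith
        obtain ⟨k1, k2⟩ := h4 x hx hQ1
        have hQ2 : (κ * ρ / C1) ^ 2 ≤ Q := by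
          rw [abs_of_pos hQ0] at hx2
          have e4 : κ ^ 2 * ρ ^ 2 / C1 ≤ Q := by
            rw [div_le_iff₀ hC0]; linarith
          refine le_trans ?_ e4
          rw [div_pow, mul_pow]
          apply div_le_div_of_nonneg_left (by positivity) hC0
          nlinarith
        have hsq : κ * ρ / C1 ≤ √Q := Real.le_sqrt_of_sq_le hQ2
        have hlow : 0 < κ * (r / 2) / C1 := by positivity
        have hsq2 : κ * (r / 2) / C1 ≤ √Q := by
          refine le_trans ?_ hsq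
          apply div_le_div_of_nonneg_right _ hC0.le
          exact mul_le_mul_of_nonneg_left hxr1'.le hκ.le
        have hQ3 : κ ^ 2 * (r / 2) ^ 2 / C1 ≤ Q := by
          rw [abs_of_pos hQ0] at hx2
          rw [div_le_iff₀ hC0]
          have e5 : (r / 2) ^ 2 ≤ ρ ^ 2 := pow_le_pow_left₀ (by positivity) hxr1'.le 2
          nlinarith [mul_le_mul_of_nonneg_left e5 hκ2p.le]
        rw [ENNReal.ofReal_min]
        refine le_min (k1.trans (ENNReal.ofReal_le_ofReal ?_))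
          (k2.trans (ENNReal.ofReal_le_ofReal ?_))
        · calc C1 / √Q ≤ C1 / (κ * (r / 2) / C1) :=
                div_le_div_of_nonneg_left hC0.le hlow hsq2
            _ = 2 * C1 ^ 2 / (κ * r) := by field_simp
        · rw [← hg6]
          calc C1 * g ^ 6 / (κ * (Q * √Q))
              ≤ C1 * g ^ 6 / (κ * ((κ ^ 2 * (r / 2) ^ 2 / C1) * (κ * (r / 2) / C1))) := by
                apply div_le_div_of_nonneg_left (by positivity) (by positivity)
                apply mul_le_mul_of_nonneg_left _ hκ.le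
                exact mul_le_mul hQ3 hsq2 hlow.le hQ0.le
            _ = 8 * C1 ^ 3 * g ^ 6 / (κ ^ 4 * r ^ 3) := by field_simp; ring
      · refine (measure_mono ?_).trans (sumq_vol b hr0.le)
        rintro x ⟨_, _, hxr2⟩
        rw [mem_closedBall, dist_eq_norm]; exact hxr2
  -- part 3
  have hI3 : ∫⁻ x in T3, K x ≤ ENNReal.ofReal (((Finset.range (m + 1)).card : ℝ) *
      (28 * (C1 * A * g))) := by
    apply sumq_cover (Finset.range (m + 1))
      (fun i => T3 ∩ {x | (1 / 2 : ℝ) ^ (i + 1) < ‖x - b‖ ∧ ‖x - b‖ ≤ (1 / 2 : ℝ) ^ i})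
    · intro x hx
      have e1 := hfar x hx.2.2.1
      have e2 := hball x hx.1
      obtain ⟨i, hi, hi1, hi2⟩ := sumq_dy (x := ‖x - b‖) (M := m) (by
        change sc m ≤ _; linarith) (by linarith)
      exact ⟨i, hi, hx, hi1, hi2⟩
    · intro i _
      set r : ℝ := (1 / 2 : ℝ) ^ i with hr
      have hr0 : 0 < r := by positivity
      have hu0 : 0 < √(g ^ 6 * (r / 2)) := Real.sqrt_pos.2 (by positivity)
      refine sumq_piece hK (c := C1 / √(g ^ 6 * (r / 2)))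
        (v := min (4 * r ^ 2) (A * (33 * g ^ 6))) (by positivity) ?_ ?_
        (sumq_re3 hA hC1 hg0 hg1 hr0 hu0 (Real.sq_sqrt (by positivity)))
      · rintro x ⟨⟨hx, hx0, hx1, hx2, hx3⟩, hxr1, hxr2⟩
        have hxr1' : r / 2 < ‖x - b‖ := by
          rw [pow_succ] at hxr1; linarith
        have e1 := hfar x hx1
        refine (h3 x hx (by linarith) hx3).trans (ENNReal.ofReal_le_ofReal ?_)
        rw [hg6]
        apply div_le_div_of_nonneg_left hC0.le
        · rw [← hg6]; exact hu0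
        · apply Real.sqrt_le_sqrt
          exact mul_le_mul_of_nonneg_left hxr1'.le hδ0.le
      · rw [ENNReal.ofReal_min]
        refine le_min ?_ ?_
        · refine (measure_mono ?_).trans (sumq_vol b hr0.le)
          rintro x ⟨_, _, hxr2⟩
          rw [mem_closedBall, dist_eq_norm]; exact hxr2
        · rw [hg6]
          refine (measure_mono ?_).trans (h5 (33 * sc m) (by linarith))
          rintro x ⟨⟨hx, hx0, hx1, hx2, hx3⟩, hxr1, hxr2⟩
          refine ⟨hx, hx0, hx1, hx2, ?_⟩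
          have e1 := hfar x hx1
          have e3 := hqlow x hx hx0 e1
          have hρ0 : 0 < ‖x - b‖ := by linarith
          have e4 : |qq b τ x (tt x)| ≤ 33 * (sc m * ‖x - b‖) := by
            rw [abs_le]
            constructor
            · nlinarith [mul_pos hδ0 hρ0]
            · nlinarith [mul_pos hδ0 hρ0]
          have e5 := sumq_dev (ρ := ‖x - b‖) (u := tt x - τ) hρ0.le
          have e6 : |‖x - b‖ ^ 2 - (tt x - τ) ^ 2| = |qq b τ x (tt x)| := rfl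
          rw [e6] at e5
          have e7 : abs (‖x - b‖ - |tt x - τ|) * ‖x - b‖ ≤ (33 * sc m) * ‖x - b‖ := by
            linarith
          exact le_of_mul_le_mul_right e7 hρ0
  -- part 4
  have hI4 : ∫⁻ x in T4, K x ≤ ENNReal.ofReal
      (((Finset.range (m + 1) ×ˢ Finset.range (2 * m + 1)).card : ℝ) *
        (4 * (C1 * A * g / κ))) := by
    apply sumq_cover (Finset.range (m + 1) ×ˢ Finset.range (2 * m + 1))
      (fun i => T4 ∩ {x | ((1 / 2 : ℝ) ^ (i.1 + 1) < ‖x - b‖ ∧ ‖x - b‖ ≤ (1 / 2 : ℝ) ^ i.1) ∧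
        ((1 / 2 : ℝ) ^ (i.2 + 1) < qq b τ x (tt x) ∧ qq b τ x (tt x) ≤ (1 / 2 : ℝ) ^ i.2)})
    · intro x hx
      have e1 := hfar x hx.2.2.1
      have e2 := hball x hx.1
      have hρ0 : 0 < ‖x - b‖ := by linarith
      obtain ⟨i, hi, hi1, hi2⟩ := sumq_dy (x := ‖x - b‖) (M := m) (by
        change sc m ≤ _; linarith) (by linarith)
      have e3 := hx.2.2.2.2
      have e4 := hqup x
      obtain ⟨l, hl, hl1, hl2⟩ := sumq_dy (x := qq b τ x (tt x)) (M := 2 * m) (by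
        rw [pow_mul']
        change sc m ^ 2 ≤ _
        have : 0 < sc m * ‖x - b‖ := by positivity
        nlinarith [sq_nonneg (sc m)]) (by nlinarith)
      exact ⟨(i, l), Finset.mem_product.2 ⟨hi, hl⟩, hx, ⟨hi1, hi2⟩, ⟨hl1, hl2⟩⟩
    · rintro ⟨i, l⟩ _
      dsimp only
      set r : ℝ := (1 / 2 : ℝ) ^ i with hr
      set s : ℝ := (1 / 2 : ℝ) ^ l with hs
      have hr0 : 0 < r := by positivity
      have hs0 : 0 < s := by positivity
      have hu0 : 0 < √(s / 2) := Real.sqrt_pos.2 (by positivity)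
      by_cases hemp : (T4 ∩ {x | ((1 / 2 : ℝ) ^ (i + 1) < ‖x - b‖ ∧ ‖x - b‖ ≤ r) ∧
        ((1 / 2 : ℝ) ^ (l + 1) < qq b τ x (tt x) ∧ qq b τ x (tt x) ≤ s)}).Nonempty
      swap
      · rw [not_nonempty_iff_eq_empty] at hemp
        rw [hemp]; simp
      refine sumq_piece hK (c := min (C1 / √(s / 2)) (C1 * g ^ 6 / (κ * (s / 2 * √(s / 2)))))
        (v := min (4 * r ^ 2) (A * (2 * s / r))) (by positivity) ?_ ?_
        (sumq_re4 hκ hκ1 hA hC1 hg0 hr0 hs0 hu0 (Real.sq_sqrt (by positivity)) rfl rfl)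
      · rintro x ⟨⟨hx, hx0, hx1, hx2, hx3⟩, ⟨hxr1, hxr2⟩, ⟨hxs1, hxs2⟩⟩
        have hxs1' : s / 2 < qq b τ x (tt x) := by
          rw [pow_succ] at hxs1; linarith
        obtain ⟨k1, k2⟩ := h4 x hx hx3
        have hsq : √(s / 2) ≤ √(qq b τ x (tt x)) := Real.sqrt_le_sqrt hxs1'.le
        rw [ENNReal.ofReal_min]
        refine le_min (k1.trans (ENNReal.ofReal_le_ofReal ?_))
          (k2.trans (ENNReal.ofReal_le_ofReal ?_))
        · exact div_le_div_of_nonneg_left hC0.le hu0 hsq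
        · rw [← hg6]
          apply div_le_div_of_nonneg_left (by positivity) (by positivity)
          apply mul_le_mul_of_nonneg_left _ hκ.le
          exact mul_le_mul hxs1'.le hsq hu0.le (by linarith)
      · rw [ENNReal.ofReal_min]
        refine le_min ?_ ?_
        · refine (measure_mono ?_).trans (sumq_vol b hr0.le)
          rintro x ⟨_, ⟨_, hxr2⟩, _⟩
          rw [mem_closedBall, dist_eq_norm]; exact hxr2
        · refine (measure_mono ?_).trans (h5 (2 * s / r) ?_)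
          · rintro x ⟨⟨hx, hx0, hx1, hx2, hx3⟩, ⟨hxr1, hxr2⟩, ⟨hxs1, hxs2⟩⟩
            refine ⟨hx, hx0, hx1, hx2, ?_⟩
            have hxr1' : r / 2 < ‖x - b‖ := by
              rw [pow_succ] at hxr1; linarith
            have hρ0 : 0 < ‖x - b‖ := by linarith [half_pos hr0]
            have hQ0 : 0 < qq b τ x (tt x) := lt_trans (by positivity) hxs1
            have e5 := sumq_dev (ρ := ‖x - b‖) (u := tt x - τ) hρ0.le
            have e6 : |‖x - b‖ ^ 2 - (tt x - τ) ^ 2| = |qq b τ x (tt x)| := rfl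
            rw [e6, abs_of_pos hQ0] at e5
            have e8 : s ≤ (2 * s / r) * ‖x - b‖ := by
              calc s = (2 * s / r) * (r / 2) := by field_simp
                _ ≤ (2 * s / r) * ‖x - b‖ :=
                  mul_le_mul_of_nonneg_left hxr1'.le (by positivity)
            have e7 : abs (‖x - b‖ - |tt x - τ|) * ‖x - b‖ ≤ (2 * s / r) * ‖x - b‖ := by
              linarith
            exact le_of_mul_le_mul_right e7 hρ0
          · obtain ⟨x, ⟨hx, hx0, hx1, hx2, hx3⟩, ⟨hxr1, hxr2⟩, ⟨hxs1, hxs2⟩⟩ := hemp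
            have hxr1' : r / 2 < ‖x - b‖ := by
              rw [pow_succ] at hxr1; linarith
            rw [le_div_iff₀ hr0]
            nlinarith [sq_nonneg (sc m), mul_lt_mul_of_pos_left hxr1' hδ0]
  -- the end
  have hkey : ENNReal.ofReal (16384 * (C1 ^ 3 * g / κ ^ 4)) +
      (ENNReal.ofReal (((Finset.range (m + 1)).card : ℝ) * (16 * (C1 ^ 3 * g / κ ^ 4))) +
      (ENNReal.ofReal (((Finset.range (m + 1)).card : ℝ) * (28 * (C1 * A * g))) +
      ENNReal.ofReal (((Finset.range (m + 1) ×ˢ Finset.range (2 * m + 1)).card : ℝ) *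
        (4 * (C1 * A * g / κ))))) ≤
      ENNReal.ofReal (20000 * (C1 ^ 3 * A * (m + 1) ^ 2 * g / κ ^ 4)) := by
    rw [← ENNReal.ofReal_add (by positivity) (by positivity),
      ← ENNReal.ofReal_add (by positivity) (by positivity),
      ← ENNReal.ofReal_add (by positivity) (by positivity)]
    apply ENNReal.ofReal_le_ofReal
    rw [Finset.card_product, Finset.card_range, Finset.card_range]
    push_cast
    set n : ℝ := (m : ℝ) with hn
    have hn0 : 0 ≤ n := by positivity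
    set Z : ℝ := C1 ^ 3 * A * g / κ ^ 4 with hZ
    have hZ0 : 0 < Z := by positivity
    have z1 : C1 ^ 3 * g / κ ^ 4 ≤ Z := by
      rw [hZ]
      apply div_le_div_of_nonneg_right _ (by positivity)
      apply mul_le_mul_of_nonneg_right _ hg0.le
      exact le_mul_of_one_le_right (by positivity) hA
    have hC3 : C1 ≤ C1 ^ 3 := le_self_pow₀ hC1 (by norm_num)
    have hκ4 : κ ^ 4 ≤ κ := (pow_le_pow_of_le_one hκ.le hκ1 (by norm_num : 1 ≤ 4)).trans_eq
      (pow_one κ)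
    have z2 : C1 * A * g / κ ≤ Z := by
      rw [hZ]
      apply div_le_div₀ (by positivity) _ (by positivity) hκ4
      exact mul_le_mul_of_nonneg_right (mul_le_mul_of_nonneg_right hC3 hA0.le) hg0.le
    have z3 : C1 * A * g ≤ Z := by
      refine le_trans ?_ z2
      rw [le_div_iff₀ hκ]
      exact mul_le_of_le_one_right (by positivity) hκ1
    have z4 : C1 ^ 3 * A * (n + 1) ^ 2 * g / κ ^ 4 = (n + 1) ^ 2 * Z := by
      rw [hZ]; ring
    rw [z4]
    have w1 : 1 ≤ (n + 1) ^ 2 := by nlinarith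
    have w2 : n + 1 ≤ (n + 1) ^ 2 := by nlinarith
    have w3 : (n + 1) * (2 * n + 1) ≤ 2 * (n + 1) ^ 2 := by nlinarith
    have y1 : 16384 * (C1 ^ 3 * g / κ ^ 4) ≤ 16384 * ((n + 1) ^ 2 * Z) := by
      apply mul_le_mul_of_nonneg_left _ (by norm_num)
      exact z1.trans (le_mul_of_one_le_left hZ0.le w1)
    have y2 : (n + 1) * (16 * (C1 ^ 3 * g / κ ^ 4)) ≤ (n + 1) ^ 2 * (16 * Z) :=
      mul_le_mul w2 (by linarith) (by positivity) (by positivity)
    have y3 : (n + 1) * (28 * (C1 * A * g)) ≤ (n + 1) ^ 2 * (28 * Z) :=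
      mul_le_mul w2 (by linarith) (by positivity) (by positivity)
    have y4 : (n + 1) * (2 * n + 1) * (4 * (C1 * A * g / κ)) ≤ 2 * (n + 1) ^ 2 * (4 * Z) :=
      mul_le_mul w3 (by linarith) (by positivity) (by positivity)
    nlinarith [mul_pos (lt_of_lt_of_le one_pos w1) hZ0]
  calc ∫⁻ x in closedBall b (1 / 8), K x
      ≤ ∫⁻ x in T0 ∪ (T1 ∪ (T2 ∪ (T3 ∪ T4))), K x := lintegral_mono_set hcov
    _ ≤ 0 + (ENNReal.ofReal (16384 * (C1 ^ 3 * g / κ ^ 4)) +
      (ENNReal.ofReal (((Finset.range (m + 1)).card : ℝ) * (16 * (C1 ^ 3 * g / κ ^ 4))) +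
      (ENNReal.ofReal (((Finset.range (m + 1)).card : ℝ) * (28 * (C1 * A * g))) +
      ENNReal.ofReal (((Finset.range (m + 1) ×ˢ Finset.range (2 * m + 1)).card : ℝ) *
        (4 * (C1 * A * g / κ)))))) := by
        refine (lintegral_union_le _ _ _).trans (add_le_add hI0 ?_)
        refine (lintegral_union_le _ _ _).trans (add_le_add hI1 ?_)
        refine (lintegral_union_le _ _ _).trans (add_le_add hI2 ?_)
        exact (lintegral_union_le _ _ _).trans (add_le_add hI3 hI4)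
    _ ≤ ENNReal.ofReal (20000 * (C1 ^ 3 * A * (m + 1) ^ 2 * g / κ ^ 4)) := by
        rw [zero_add]; exact hkey
    _ = ((20000 : ℝ≥0) : ℝ≥0∞) *
        ENNReal.ofReal (C1 ^ 3 * A * (m + 1) ^ 2 * g / κ ^ 4) := by
        rw [ENNReal.ofReal_mul (by norm_num)]
        congr 1
        norm_num

end Pool.Agent.Lib.MP_ff3fe0_an_SPH2
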