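import Pool.Agent.Lib.MP_ff3fe0_an_SPH2.NearP
import Pool.Agent.Lib.MP_ff3fe0_an_SPH2.KqA
import Pool.Agent.Lib.MP_ff3fe0_an_SPH2.SumQ
import Pool.Agent.Lib.MP_ff3fe0_an_SPH2.DualA
import Pool.Agent.Lib.MP_ff3fe0_an_SPH2.SelA
import Pool.Agent.Lib.MP_ff3fe0_an_SPH2.BbA
import Pool.Agent.Lib.MP_ff3fe0_an_SPH2.RepA
import Pool.Agent.Lib.MP_ff3fe0_an_SPH2.PrimA
import Pool.Agent.Lib.MP_ff3fe0_an_SPH2.XvA

set_option autoImplicit false

/-!
# The measure of the set where the averages are large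
-/

namespace Pool.Agent.Lib.MP_ff3fe0_an_SPH2

open MeasureTheory Metric Set
open scoped ENNReal NNReal ContDiff FourierTransform
open Pool.Agent.Lib.MP_ff3fe0_an
open Pool.Agent.Lib.MP_ff3fe0_an_SPH

private theorem OmQ_sc_pos (m : ℕ) : 0 < sc m := by unfold sc; positivity

private theorem OmQ_sc_le {m : ℕ} (hm : 6 ≤ m) : sc m ≤ 1 / 64 := by
  unfold sc
  calc ((1 : ℝ) / 2) ^ m ≤ (1 / 2) ^ 6 :=
        pow_le_pow_of_le_one (by norm_num) (by norm_num) hm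
    _ = 1 / 64 := by norm_num

private theorem OmQ_int0 {S : E 2 → ℝ} (hF : FB S) : ∫ y, S y = 0 := by
  obtain ⟨C, hC⟩ := hF
  have h := hC 0
  have h1 : 𝓕 (fun y : E 2 => (S y : ℂ)) 0 = ((∫ y, S y : ℝ) : ℂ) := by
    rw [Real.fourier_eq']
    simp only [inner_zero_right, mul_zero, Complex.ofReal_zero, zero_mul, Complex.exp_zero,
      one_smul]
    exact integral_ofReal
  rw [h1] at h
  simpa using h

private theorem OmQ_lint {r : ℝ} {q : E 2 → ℝ} (hq : Bdd r q) (hq1 : ∀ y, |q y| ≤ 1) :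
    ∫⁻ y, ‖q y‖ₑ ^ 2 ≤ volume (closedBall (0 : E 2) r) := by
  have h1 : ∀ y, ‖q y‖ₑ ^ 2 ≤ (closedBall (0 : E 2) r).indicator (fun _ => (1 : ℝ≥0∞)) y := by
    intro y
    by_cases hy : y ∈ closedBall (0 : E 2) r
    · rw [indicator_of_mem hy]
      have h2 : ‖q y‖ₑ ≤ 1 := by
        rw [← ofReal_norm, Real.norm_eq_abs]
        exact ENNReal.ofReal_le_one.2 (hq1 y)
      exact pow_le_one₀ (zero_le) h2
    · rw [indicator_of_notMem hy, hq.supp y (by simpa using hy)]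
      simp
  calc ∫⁻ y, ‖q y‖ₑ ^ 2 ≤ ∫⁻ y, (closedBall (0 : E 2) r).indicator (fun _ => (1 : ℝ≥0∞)) y :=
        lintegral_mono h1
    _ = volume (closedBall (0 : E 2) r) := by
        rw [lintegral_indicator measurableSet_closedBall]
        simp

private theorem OmQ_meas {k : E 2 → E 2 → ℝ} (hk : Measurable (fun z : E 2 × E 2 => k z.1 z.2))
    {g : E 2 → ℝ} (hg : Measurable g) : Measurable (fun x => ∫ y, k x y * g y) := by
  have h1 : Measurable (fun z : E 2 × E 2 => k z.1 z.2 * g z.2) :=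
    hk.mul (hg.comp measurable_snd)
  exact (h1.stronglyMeasurable.integral_prod_right' (ν := volume)).measurable

private theorem OmQ_meas' {k : E 2 → E 2 → ℝ} (hk : Measurable (fun z : E 2 × E 2 => k z.1 z.2))
    (b : E 2) : Measurable (k b) :=
  hk.comp (measurable_const.prodMk measurable_id)

/-- The bound for one kernel. -/
private theorem OmQ_core {S : E 2 → ℝ} (hS : IsKer S) (hF : FB S) (r : ℝ) {j : ℕ} (hj : j ≤ 2)
    (α : Fin j → Fin 2) (β : E 2 → ℝ) {Ca : ℝ} (hCa : 1 ≤ Ca)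
    (hβA : ∀ κ ∈ Ioc (0 : ℝ) 1, ∀ c : E 2, Amp (Ca / κ) (fun w => β w * bb κ c w)) :
    ∃ C : ℝ, 0 < C ∧ ∀ (m : ℕ) (q : E 2 → ℝ), 6 ≤ m → Bdd r q → (∀ y, |q y| ≤ 1) →
      ∀ (l κ : ℝ), 0 < l → l ≤ 1 → 0 < κ → κ ≤ 1 / 4 → ∀ (x0 : E 2) (tt : E 2 → ℝ)
      (cs : E 2 → E 2) (Ω : Set (E 2)), Measurable tt → Measurable cs → (Set.range tt).Finite →
      (Set.range cs).Finite → (∀ x, tt x ∈ Icc (1 / 2 : ℝ) (5 / 2)) → MeasurableSet Ω →
      Ω ⊆ closedBall x0 (1 / 16) →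
      (∀ x ∈ Ω, ∀ c : E 2, ‖c‖ = 1 → 3 * κ ≤ ‖c - cs x‖ →
        κ * l / 8 ≤ ‖vF S m j q x (tt x) - aF S m j q x (tt x) • c‖) →
      (∀ x ∈ Ω, l / 32 ≤ |∫ y, q y *
        kk (pdw α S) (fun w => β w * bb κ (cs x) w) (sc m) (tt x) x y|) →
      volume Ω ≤ ENNReal.ofReal (C * (m + 1) ^ 2 * (2 : ℝ) ^ (-(m / 6 : ℝ)) / (l ^ 5 * κ ^ 7)) := by
  have hDV : DV (pdw α S) := pdw_dv hS (OmQ_int0 hF) α
  set Θ := pdw α S with hΘdef
  have hK2 : K2 Θ := hDV.1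
  obtain ⟨Cn, hCn1, hCn⟩ := near_p hS hF hK2 r
  obtain ⟨Ck, hCk0, hCk⟩ := kq hDV
  obtain ⟨Cb, hCb⟩ := kk_bound hK2
  obtain ⟨Cs, hCs⟩ := sum_q
  set V : ℝ := (volume (closedBall (0 : E 2) r)).toReal with hV
  have hVt : volume (closedBall (0 : E 2) r) ≠ ⊤ := measure_closedBall_lt_top.ne
  have hV0 : 0 ≤ V := ENNReal.toReal_nonneg
  set C1 : ℝ := Cn + Ck * Ca + Ck with hC1
  have hCkCa : 0 < Ck * Ca := by positivity
  have hC11 : 1 ≤ C1 := by linarith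
  have hC10 : 0 < C1 := by linarith
  refine ⟨1024 * (V + 1) * (Cs + 1) * C1 ^ 4, by positivity, ?_⟩
  intro m q hm hq hq1 l κ hl hl1 hκ hκ1 x0 tt cs Ω htm hcm htf hcf htt hΩm hΩb hΩ1 hΩ2
  have hδ := OmQ_sc_pos m
  have hδ1 := OmQ_sc_le hm
  have hκI : κ ∈ Ioc (0 : ℝ) 1 := ⟨hκ, by linarith⟩
  have hAmp := hβA κ hκI
  have hL1 : 1 ≤ Ca / κ := by
    rw [le_div_iff₀ hκ]
    linarith
  set k : E 2 → E 2 → ℝ := fun x y =>
    kk Θ (fun w => β w * bb κ (cs x) w) (sc m) (tt x) x y with hk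
  have hkm : Measurable (fun z : E 2 × E 2 => k z.1 z.2) :=
    kk_measurable (β := fun c w => β w * bb κ c w) hK2 hAmp htm htf hcm hcf (sc m)
  have hΩf : volume Ω ≠ ⊤ :=
    ((measure_mono hΩb).trans_lt measure_closedBall_lt_top).ne
  have htt0 : ∀ x, (0 : ℝ) ≤ tt x := fun x => by linarith [(htt x).1]
  -- the kernel of the composition
  set F : E 2 → E 2 → ℝ := fun b x => ∫ y, k x y * k b y with hFd
  have hFm : ∀ b, Measurable (F b) := fun b => OmQ_meas hkm (OmQ_meas' hkm b)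
  have hsub : ∀ b ∈ Ω, Ω ⊆ closedBall b (1 / 8) := by
    intro b hb x hx
    have h1 := hΩb hb
    have h2 := hΩb hx
    rw [mem_closedBall] at h1 h2 ⊢
    have h3 := dist_triangle x x0 b
    rw [dist_comm x0 b] at h3
    linarith
  have hM : ∀ b ∈ Ω, ∫⁻ x in Ω, ‖∫ y, k x y * k b y‖ₑ ≤
      Cs * ENNReal.ofReal (C1 ^ 3 * (C1 / (κ * l) ^ 3) * (m + 1) ^ 2 *
        (2 : ℝ) ^ (-(m / 6 : ℝ)) / κ ^ 4) := by
    intro b hb
    set K : E 2 → ℝ≥0∞ := Ω.indicator (fun x => ‖F b x‖ₑ) with hKd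
    have hKm : Measurable K := (hFm b).enorm.indicator hΩm
    have e1 : ∫⁻ x in Ω, ‖∫ y, k x y * k b y‖ₑ = ∫⁻ x in closedBall b (1 / 8), K x := by
      rw [hKd, setLIntegral_indicator hΩm, inter_eq_left.2 (hsub b hb)]
    rw [e1]
    have hKmem : ∀ x, K x ≠ 0 → x ∈ Ω ∧ K x = ‖F b x‖ₑ ∧ F b x ≠ 0 := by
      intro x hx
      by_cases hxΩ : x ∈ Ω
      · have e2 : K x = ‖F b x‖ₑ := indicator_of_mem hxΩ _
        refine ⟨hxΩ, e2, fun h0 => ?_⟩
        rw [e2, h0] at hx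
        simp at hx
      · exact absurd (indicator_of_notMem hxΩ _) hx
    have hKle : ∀ x (c : ℝ), |F b x| ≤ c → K x ≤ ENNReal.ofReal c := by
      intro x c hc
      by_cases hxΩ : x ∈ Ω
      · have e2 : K x = ‖F b x‖ₑ := indicator_of_mem hxΩ _
        rw [e2, ← ofReal_norm, Real.norm_eq_abs]
        exact ENNReal.ofReal_le_ofReal hc
      · have e2 : K x = 0 := indicator_of_notMem hxΩ _
        rw [e2]
        exact zero_le
    have hkq : ∀ x ∈ closedBall b (1 / 8), _ := fun x hx =>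
      hCk (Ca / κ) (fun w => β w * bb κ (cs x) w) (fun w => β w * bb κ (cs b) w) hL1
        (hAmp (cs x)) (hAmp (cs b)) (sc m) ⟨hδ, hδ1⟩ (tt x) (htt x) (tt b) (htt b) x b
        (by rwa [mem_closedBall, dist_eq_norm] at hx)
    have hCkC1 : Ck ≤ C1 := by linarith
    have hCkCaC1 : Ck * Ca ≤ C1 := by linarith
    refine hCs m κ (C1 / (κ * l) ^ 3) C1 b (tt b) tt K hm hκ (by linarith) ?_ hC11 htm hKm
      ?_ ?_ ?_ ?_ ?_
    · rw [le_div_iff₀ (by positivity), one_mul]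
      have h1 : κ * l ≤ 1 := by
        calc κ * l ≤ 1 * 1 := mul_le_mul (by linarith) hl1 hl.le zero_le_one
          _ = 1 := one_mul 1
      exact (pow_le_one₀ (by positivity) h1).trans hC11
    · intro x hx
      refine hKle x _ ((hkq x hx).1.trans ?_)
      have h1 : Ck / sc m = Ck * 2 ^ m := by
        unfold sc
        rw [one_div, inv_pow, div_inv_eq_mul]
      rw [h1]
      exact mul_le_mul_of_nonneg_right hCkC1 (by positivity)
    · intro x hx hK0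
      obtain ⟨-, -, hF0⟩ := hKmem x hK0
      obtain ⟨y, w, g1, g2, -, -, -⟩ := kq_ne hK2 (hAmp (cs x)) (hAmp (cs b)) hδ (htt0 x)
        (htt0 b) hF0
      have h1 := abs_le.1 g1
      have h2 := abs_le.1 g2
      have h3 : |‖x - y‖ - ‖b - y‖| ≤ ‖x - b‖ := by
        have := abs_norm_sub_norm_le (x - y) (b - y)
        rwa [sub_sub_sub_cancel_right] at this
      have h4 := abs_le.1 h3
      rw [abs_le]
      constructor <;> linarith
    · intro x hx h1 h2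
      refine hKle x _ (((hkq x hx).2.1 h1 h2).trans ?_)
      exact div_le_div_of_nonneg_right hCkC1 (Real.sqrt_nonneg _)
    · intro x hx h1
      have hq0 : 0 < qq b (tt b) x (tt x) := by
        refine lt_of_lt_of_le ?_ h1
        positivity
      obtain ⟨h2, h3⟩ := (hkq x hx).2.2 h1
      refine ⟨hKle x _ (h2.trans (div_le_div_of_nonneg_right hCkC1 (Real.sqrt_nonneg _))),
        hKle x _ (h3.trans ?_)⟩
      have e3 : Ck * (Ca / κ) * sc m / (qq b (tt b) x (tt x) * √(qq b (tt b) x (tt x))) =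
          Ck * Ca * sc m / (κ * (qq b (tt b) x (tt x) * √(qq b (tt b) x (tt x)))) := by
        have hs : 0 < √(qq b (tt b) x (tt x)) := Real.sqrt_pos.2 hq0
        field_simp
      rw [e3]
      refine div_le_div_of_nonneg_right (mul_le_mul_of_nonneg_right hCkCaC1 hδ.le) ?_
      positivity
    · intro h hh
      have hh0 : 0 < h := hδ.trans_le hh
      have h1 := hCn m q hm hq hq1 j hj l κ (Ca / κ) tt cs β (fun w => β w * bb κ (cs b) w) Ω
        hl hl1 hκ hκ1 htm htt hΩ1 hAmp (hAmp (cs b)) b h hh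
      refine (measure_mono ?_).trans (h1.trans (ENNReal.ofReal_le_ofReal ?_))
      · rintro x ⟨hx, hK0, g1, g2, g3⟩
        obtain ⟨hxΩ, -, hF0⟩ := hKmem x hK0
        have hCn1' : Cn ≤ C1 := by linarith
        refine ⟨⟨hxΩ, hx⟩, hF0, le_trans ?_ g1, le_trans ?_ g2, g3⟩
        · exact mul_le_mul_of_nonneg_right (by linarith) hδ.le
        · exact mul_le_mul_of_nonneg_right hCn1' (abs_nonneg _)
      · rw [div_mul_eq_mul_div]
        refine div_le_div_of_nonneg_right (mul_le_mul_of_nonneg_right (by linarith) hh0.le) ?_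
        positivity
  have hd := dual hΩm hΩf hkm (C0 := Cb / sc m) (R := ‖x0‖ + 3)
    (fun x hx y => hCb (Ca / κ) _ (hAmp (cs x)) (sc m) ⟨hδ, hδ1⟩ (tt x) (htt x) x y)
    (fun x hx y hy => by
      by_contra h0
      have h1 := (kk_supp hK2 (hAmp (cs x)) hδ (htt0 x) h0).1
      have h2 := (abs_le.1 h1).2
      have h3 := hΩb hx
      rw [mem_closedBall, dist_eq_norm] at h3
      have h4 : ‖y‖ ≤ ‖x‖ + ‖x - y‖ := by
        have := norm_sub_le x (x - y)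
        rwa [sub_sub_cancel] at this
      have h5 : ‖x‖ ≤ ‖x0‖ + ‖x - x0‖ := by
        have := norm_add_le x0 (x - x0)
        rwa [add_sub_cancel] at this
      have h6 := (htt x).2
      linarith)
    hq (l := l / 32) (by positivity) hΩ2 hM
  have hq2 : ∫⁻ y, ‖q y‖ₑ ^ 2 ≤ ENNReal.ofReal V := by
    rw [hV, ENNReal.ofReal_toReal hVt]
    exact OmQ_lint hq hq1
  have hCsN : (Cs : ℝ≥0∞) = ENNReal.ofReal Cs := by
    rw [ENNReal.ofReal_coe_nnreal]
  set W : ℝ := C1 ^ 3 * (C1 / (κ * l) ^ 3) * (m + 1) ^ 2 * (2 : ℝ) ^ (-(m / 6 : ℝ)) / κ ^ 4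
    with hW
  have hW0 : 0 ≤ W := by positivity
  have hmain : ENNReal.ofReal ((l / 32) ^ 2) * volume Ω ≤
      ENNReal.ofReal (V * (Cs * W)) := by
    refine hd.trans ?_
    rw [ENNReal.ofReal_mul hV0, ENNReal.ofReal_mul Cs.coe_nonneg, ← hCsN]
    exact mul_le_mul' hq2 le_rfl
  have hl2 : 0 < (l / 32) ^ 2 := by positivity
  have h1 : volume Ω ≤ ENNReal.ofReal (V * (Cs * W) / (l / 32) ^ 2) := by
    rw [ENNReal.ofReal_div_of_pos hl2, ENNReal.le_div_iff_mul_le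
      (Or.inl (ENNReal.ofReal_pos.2 hl2).ne') (Or.inl ENNReal.ofReal_ne_top), mul_comm]
    exact hmain
  refine h1.trans (ENNReal.ofReal_le_ofReal ?_)
  have e5 : V * (Cs * W) / (l / 32) ^ 2 = 1024 * V * Cs * C1 ^ 4 * (m + 1) ^ 2 *
      (2 : ℝ) ^ (-(m / 6 : ℝ)) / (l ^ 5 * κ ^ 7) := by
    rw [hW]
    field_simp
    ring
  rw [e5]
  have hCs0 : (0 : ℝ) ≤ Cs := Cs.coe_nonneg
  have h8 : 1024 * V * Cs ≤ 1024 * (V + 1) * (Cs + 1) := by
    apply mul_le_mul <;> linarith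
  gcongr

private theorem OmQ_coord {w : E 2} (hw : ‖w‖ = 1) (i : Fin 2) : |w i| ≤ 1 := by
  have h := PiLp.norm_apply_le w i
  rw [Real.norm_eq_abs, hw] at h
  exact h

private theorem OmQ_mo {j : ℕ} (α : Fin j → Fin 2) {w : E 2} (hw : ‖w‖ = 1) : |mo α w| ≤ 1 := by
  unfold mo
  rw [Finset.abs_prod]
  exact Finset.prod_le_one (fun _ _ => abs_nonneg _) (fun i _ => OmQ_coord hw (α i))

private theorem OmQ_mo_cont {j : ℕ} (α : Fin j → Fin 2) : Continuous (mo α) := by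
  unfold mo
  fun_prop

/-- The amplitudes. -/
private def OmQ_be {j : ℕ} (α : Fin j → Fin 2) : Option (Fin 2) → E 2 → ℝ
  | none => mo α
  | some i => fun w => mo α w * w i

private theorem OmQ_be_cont {j : ℕ} (α : Fin j → Fin 2) (o : Option (Fin 2)) :
    Continuous (OmQ_be α o) := by
  have h := OmQ_mo_cont α
  cases o with
  | none => exact h
  | some i =>
    unfold OmQ_be
    fun_prop

private theorem OmQ_be_le {j : ℕ} (α : Fin j → Fin 2) (o : Option (Fin 2)) (w : E 2)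
    (hw : ‖w‖ = 1) : |OmQ_be α o w| ≤ 1 := by
  have h := OmQ_mo α hw
  cases o with
  | none => exact h
  | some i =>
    show |mo α w * w i| ≤ 1
    rw [abs_mul]
    exact mul_le_one₀ h (abs_nonneg _) (OmQ_coord hw i)

/-- A large sum has a large summand. -/
private theorem OmQ_pick {j : ℕ} (hj : j ≤ 2) {f : (Fin j → Fin 2) → ℝ} {l : ℝ} (hl : 0 < l)
    (h : l ≤ |(-1) ^ j * ∑ α : Fin j → Fin 2, f α|) : ∃ α, l / 4 ≤ |f α| := by
  by_contra hcon
  push Not at hcon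
  have h1 : |(-1) ^ j * ∑ α : Fin j → Fin 2, f α| = |∑ α : Fin j → Fin 2, f α| := by
    rw [abs_mul, abs_pow, abs_neg, abs_one, one_pow, one_mul]
  rw [h1] at h
  have h2 : |∑ α : Fin j → Fin 2, f α| ≤ ∑ α : Fin j → Fin 2, |f α| :=
    Finset.abs_sum_le_sum_abs _ _
  have h3 : ∑ α : Fin j → Fin 2, |f α| < ∑ _α : Fin j → Fin 2, l / 4 :=
    Finset.sum_lt_sum_of_nonempty Finset.univ_nonempty (fun α _ => hcon α)
  have h4 : ∑ _α : Fin j → Fin 2, l / 4 = (2 : ℝ) ^ j * (l / 4) := by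
    rw [Finset.sum_const, Finset.card_univ, Fintype.card_fun, Fintype.card_fin, Fintype.card_fin,
      nsmul_eq_mul]
    push_cast
    ring
  have h5 : (2 : ℝ) ^ j ≤ 4 := by
    calc (2 : ℝ) ^ j ≤ 2 ^ 2 := pow_le_pow_right₀ (by norm_num) hj
      _ = 4 := by norm_num
  have h6 : (2 : ℝ) ^ j * (l / 4) ≤ 4 * (l / 4) := mul_le_mul_of_nonneg_right h5 (by positivity)
  linarith

private theorem OmQ_norm {v : E 2} {l : ℝ} (hl : 0 < l) (h : l ≤ ‖v‖) : ∃ i, l / 2 ≤ |v i| := by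
  by_contra hcon
  push Not at hcon
  have h0 := hcon 0
  have h1 := hcon 1
  have h2 : ‖v‖ ^ 2 = |v 0| ^ 2 + |v 1| ^ 2 := by
    rw [EuclideanSpace.norm_sq_eq, Fin.sum_univ_two, Real.norm_eq_abs, Real.norm_eq_abs]
  have h3 : l ^ 2 ≤ ‖v‖ ^ 2 := pow_le_pow_left₀ hl.le h 2
  have h4 : |v 0| ^ 2 ≤ (l / 2) ^ 2 := pow_le_pow_left₀ (abs_nonneg _) h0.le 2
  have h5 : |v 1| ^ 2 ≤ (l / 2) ^ 2 := pow_le_pow_left₀ (abs_nonneg _) h1.le 2
  have h6 : 0 < l ^ 2 := by positivity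
  nlinarith

private theorem OmQ_lip {F : Type*} [NormedAddCommGroup F] [NormedSpace ℝ F] {f : ℝ → F}
    (hf : ContDiff ℝ 1 f) {C : ℝ} (h : ∀ t, ‖deriv f t‖ ≤ C) (s t : ℝ) :
    ‖f s - f t‖ ≤ C * |s - t| := by
  have h1 := Convex.norm_image_sub_le_of_norm_deriv_le (𝕜 := ℝ) (f := f) (C := C) (s := univ)
    (x := t) (y := s) (fun x _ => (hf.differentiable one_ne_zero).differentiableAt)
    (fun x _ => h x) convex_univ (mem_univ _) (mem_univ _)
  rwa [Real.norm_eq_abs] at h1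

private theorem OmQ_closed {a : E 2 → ℝ → ℝ} {v : E 2 → ℝ → E 2}
    (ha : Continuous (fun z : E 2 × ℝ => a z.1 z.2))
    (hv : Continuous (fun z : E 2 × ℝ => v z.1 z.2)) (l : ℝ) :
    IsClosed {x | ∃ t ∈ Icc (1 / 2 : ℝ) (5 / 2), l ≤ |a x t| ∨ l ≤ ‖v x t‖} := by
  have h1 : IsClosed {z : E 2 × (Icc (1 / 2 : ℝ) (5 / 2)) |
      l ≤ |a z.1 z.2| ∨ l ≤ ‖v z.1 z.2‖} := by
    have hi : Continuous (fun z : E 2 × (Icc (1 / 2 : ℝ) (5 / 2)) =>
        ((z.1, (z.2 : ℝ)) : E 2 × ℝ)) :=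
      continuous_fst.prodMk (continuous_subtype_val.comp continuous_snd)
    exact (isClosed_le continuous_const (ha.comp hi).abs).union
      (isClosed_le continuous_const (hv.comp hi).norm)
  have h2 := isClosedMap_fst_of_compactSpace (X := E 2) (Y := Icc (1 / 2 : ℝ) (5 / 2)) _ h1
  convert h2 using 1
  ext x
  constructor
  · rintro ⟨t, ht, h⟩
    exact ⟨(x, ⟨t, ht⟩), h, rfl⟩
  · rintro ⟨⟨x', t, ht⟩, h, rfl⟩
    exact ⟨t, ht, h⟩

private theorem OmQ_j {S : E 2 → ℝ} (hS : IsKer S) (hF : FB S) (r : ℝ) {j : ℕ} (hj : j ≤ 2) :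
    ∃ C : ℝ, 0 < C ∧
    ∀ (m : ℕ) (q : E 2 → ℝ), 6 ≤ m → Bdd r q → (∀ y, |q y| ≤ 1) → ∀ l : ℝ, 0 < l → l ≤ 1 →
      ∀ x0 : E 2, volume {x ∈ closedBall x0 (1 / 16) | ∃ t ∈ Icc (1 / 2 : ℝ) (5 / 2),
        l ≤ |aF S m j q x t| ∨ l ≤ ‖vF S m j q x t‖} ≤
          ENNReal.ofReal (C * (m + 1) ^ 2 * (2 : ℝ) ^ (-(m / 6 : ℝ)) / l ^ 12) := by
  obtain ⟨Ca, hCa1, hCa⟩ := bb_amp
  have hbA : ∀ (α : Fin j → Fin 2) (o : Option (Fin 2)), ∀ κ ∈ Ioc (0 : ℝ) 1, ∀ c : E 2,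
      Amp (Ca / κ) (fun w => OmQ_be α o w * bb κ c w) := by
    intro α o κ hκ c
    cases o with
    | none => exact (hCa κ hκ c j hj α).1
    | some i => exact (hCa κ hκ c j hj α).2 i
  have hK2 : ∀ α : Fin j → Fin 2, K2 (pdw α S) := fun α => (pdw_dv hS (OmQ_int0 hF) α).1
  choose Cc hCc0 hCc using fun (α : Fin j → Fin 2) (o : Option (Fin 2)) =>
    OmQ_core hS hF r hj α (OmQ_be α o) hCa1 (hbA α o)
  choose Cd hCd0 hCd using fun (α : Fin j → Fin 2) => bb_small (hK2 α)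
  obtain ⟨Cf, hCf⟩ := aF_bound hS
  set D : ℝ := 4 + 32 * ∑ α, Cd α with hD
  have hD0 : 0 ≤ ∑ α, Cd α := Finset.sum_nonneg fun α _ => (hCd0 α).le
  have hD4 : 4 ≤ D := by linarith
  have hDα : ∀ α, 32 * Cd α ≤ D := by
    intro α
    have := Finset.single_le_sum (f := Cd) (fun α _ => (hCd0 α).le) (Finset.mem_univ α)
    linarith
  set CC : ℝ := ∑ α, ∑ o, Cc α o with hCC
  have hCC0 : 0 ≤ CC := Finset.sum_nonneg fun α _ => Finset.sum_nonneg fun o _ => (hCc0 α o).le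
  refine ⟨(CC + 1) * D ^ 7, by positivity, ?_⟩
  intro m q hm hq hq1 l hl hl1 x0
  have hδ := OmQ_sc_pos m
  have hδ1 := OmQ_sc_le hm
  set κ : ℝ := l / D with hκd
  have hκ : 0 < κ := by positivity
  have hκ4 : κ ≤ 1 / 4 := by
    rw [hκd, div_le_iff₀ (by linarith)]
    linarith
  obtain ⟨hac, hvc, had, hvd⟩ := aF_cont hS m j hq
  obtain ⟨tt, cs, htm, hcm, htf, hcf, -, htt, hsel⟩ := sel (a := aF S m j q) (v := vF S m j q)
    hac hvc (L := Cf * 1 * 2 ^ m)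
    (fun x s t => by
      have := OmQ_lip (had x) (C := Cf * 1 * 2 ^ m)
        (fun t => (hCf m r 1 q hq hq1 j hj x t).2.2.1) s t
      rwa [Real.norm_eq_abs] at this)
    (fun x s t => OmQ_lip (hvd x) (fun t => (hCf m r 1 q hq hq1 j hj x t).2.2.2) s t)
    hl hκ (by linarith)
  set Om : Set (E 2) := {x ∈ closedBall x0 (1 / 16) | ∃ t ∈ Icc (1 / 2 : ℝ) (5 / 2),
        l ≤ |aF S m j q x t| ∨ l ≤ ‖vF S m j q x t‖} with hOm
  have hOmm : MeasurableSet Om :=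
    (isClosed_closedBall.inter (OmQ_closed hac hvc l)).measurableSet
  set G : (Fin j → Fin 2) → Option (Fin 2) → Set (E 2) := fun α o =>
    Om ∩ {x | l / 32 ≤ |∫ y, q y *
      kk (pdw α S) (fun w => OmQ_be α o w * bb κ (cs x) w) (sc m) (tt x) x y|} with hG
  have hkm : ∀ (α : Fin j → Fin 2) (o : Option (Fin 2)), Measurable (fun z : E 2 × E 2 =>
      kk (pdw α S) (fun w => OmQ_be α o w * bb κ (cs z.1) w) (sc m) (tt z.1) z.1 z.2) := by
    intro α o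
    exact kk_measurable (β := fun c w => OmQ_be α o w * bb κ c w) (hK2 α)
      (hbA α o κ ⟨hκ, by linarith⟩) htm htf hcm hcf (sc m)
  have hGm : ∀ α o, MeasurableSet (G α o) := by
    intro α o
    refine hOmm.inter ?_
    have h1 := OmQ_meas (k := fun x y =>
      kk (pdw α S) (fun w => OmQ_be α o w * bb κ (cs x) w) (sc m) (tt x) x y) (hkm α o) hq.meas
    simp only [mul_comm _ (q _)] at h1
    exact measurableSet_le measurable_const h1.abs
  have hcov : Om ⊆ ⋃ α, ⋃ o, G α o := by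
    intro x hx
    have hx' := hx
    obtain ⟨hxb, hxt⟩ := hx'
    obtain ⟨hbig, -⟩ := hsel x hxt
    obtain ⟨α, o, hao⟩ : ∃ (α : Fin j → Fin 2) (o : Option (Fin 2)), l / 16 ≤
        |∫ y, q y * kk (pdw α S) (OmQ_be α o) (sc m) (tt x) x y| := by
      rcases hbig with h | h
      · rw [aF_eq hS m j hq] at h
        obtain ⟨α, hα⟩ := OmQ_pick hj (by positivity) h
        refine ⟨α, none, le_trans ?_ hα⟩
        linarith
      · obtain ⟨i, hi⟩ := OmQ_norm (by positivity) h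
        rw [vF_eq hS m j hq] at hi
        obtain ⟨α, hα⟩ := OmQ_pick hj (by positivity) hi
        refine ⟨α, some i, le_trans ?_ hα⟩
        linarith
    refine mem_iUnion.2 ⟨α, mem_iUnion.2 ⟨o, hx, ?_⟩⟩
    have h1 := hCd α (OmQ_be α o) (OmQ_be_cont α o) (OmQ_be_le α o) (sc m) ⟨hδ, hδ1⟩ κ
      ⟨hκ, by linarith⟩ (cs x) x (tt x) r q hq hq1
    have h2 : Cd α * κ ≤ l / 32 := by
      have h3 := hDα α
      have h4 : κ * D = l := by
        rw [hκd]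
        field_simp
      have h5 : κ * (32 * Cd α) ≤ κ * D := mul_le_mul_of_nonneg_left h3 hκ.le
      linarith
    show l / 32 ≤ |_|
    have h6 := abs_sub_abs_le_abs_sub
      (∫ y, q y * kk (pdw α S) (OmQ_be α o) (sc m) (tt x) x y)
      (∫ y, q y * kk (pdw α S) (fun w => OmQ_be α o w * bb κ (cs x) w) (sc m) (tt x) x y)
    linarith
  have hGle : ∀ α o, volume (G α o) ≤ ENNReal.ofReal
      (Cc α o * (m + 1) ^ 2 * (2 : ℝ) ^ (-(m / 6 : ℝ)) / (l ^ 5 * κ ^ 7)) := by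
    intro α o
    refine hCc α o m q hm hq hq1 l κ hl hl1 hκ hκ4 x0 tt cs (G α o) htm hcm htf hcf htt
      (hGm α o) (fun x hx => hx.1.1) (fun x hx => (hsel x hx.1.2).2) (fun x hx => hx.2)
  set Y : ℝ := (m + 1) ^ 2 * (2 : ℝ) ^ (-(m / 6 : ℝ)) / (l ^ 5 * κ ^ 7) with hY
  have hY0 : 0 ≤ Y := by positivity
  calc volume Om ≤ volume (⋃ α, ⋃ o, G α o) := measure_mono hcov
    _ ≤ ∑ α, volume (⋃ o, G α o) := measure_iUnion_fintype_le _ _
    _ ≤ ∑ α, ∑ o, volume (G α o) := Finset.sum_le_sum fun α _ => measure_iUnion_fintype_le _ _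
    _ ≤ ∑ α, ∑ o, ENNReal.ofReal (Cc α o * Y) := by
        refine Finset.sum_le_sum fun α _ => Finset.sum_le_sum fun o _ => (hGle α o).trans ?_
        rw [hY]
        apply le_of_eq
        congr 1
        ring
    _ = ENNReal.ofReal (CC * Y) := by
        rw [hCC, Finset.sum_mul, ENNReal.ofReal_sum_of_nonneg]
        · refine Finset.sum_congr rfl fun α _ => ?_
          rw [Finset.sum_mul, ENNReal.ofReal_sum_of_nonneg]
          intro o _
          exact mul_nonneg (hCc0 α o).le hY0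
        · intro α _
          exact mul_nonneg (Finset.sum_nonneg fun o _ => (hCc0 α o).le) hY0
    _ ≤ ENNReal.ofReal ((CC + 1) * D ^ 7 * (m + 1) ^ 2 * (2 : ℝ) ^ (-(m / 6 : ℝ)) / l ^ 12) := by
        apply ENNReal.ofReal_le_ofReal
        have e1 : (CC + 1) * D ^ 7 * (m + 1) ^ 2 * (2 : ℝ) ^ (-(m / 6 : ℝ)) / l ^ 12 =
            (CC + 1) * Y := by
          rw [hY, hκd]
          field_simp
        rw [e1]
        exact mul_le_mul_of_nonneg_right (by linarith) hY0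

theorem om_q {S : E 2 → ℝ} (hS : IsKer S) (hF : FB S) (r : ℝ) : ∃ (C : ℝ) (N : ℕ), 0 < C ∧
    ∀ (m : ℕ) (q : E 2 → ℝ), 6 ≤ m → Bdd r q → (∀ y, |q y| ≤ 1) → ∀ j ≤ 2, ∀ l : ℝ, 0 < l → l ≤ 1 →
      ∀ x0 : E 2, volume {x ∈ closedBall x0 (1 / 16) | ∃ t ∈ Icc (1 / 2 : ℝ) (5 / 2),
        l ≤ |aF S m j q x t| ∨ l ≤ ‖vF S m j q x t‖} ≤
          ENNReal.ofReal (C * (m + 1) ^ 2 * (2 : ℝ) ^ (-(m / 6 : ℝ)) / l ^ N) := by
  obtain ⟨C0, h0, H0⟩ := OmQ_j hS hF r (j := 0) (by norm_num)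
  obtain ⟨C1, h1, H1⟩ := OmQ_j hS hF r (j := 1) (by norm_num)
  obtain ⟨C2, h2, H2⟩ := OmQ_j hS hF r (j := 2) (by norm_num)
  refine ⟨C0 + C1 + C2, 12, by positivity, ?_⟩
  intro m q hm hq hq1 j hj l hl hl1 x0
  interval_cases j
  · refine (H0 m q hm hq hq1 l hl hl1 x0).trans (ENNReal.ofReal_le_ofReal ?_)
    gcongr
    linarith
  · refine (H1 m q hm hq hq1 l hl hl1 x0).trans (ENNReal.ofReal_le_ofReal ?_)
    gcongr
    linarith
  · refine (H2 m q hm hq hq1 l hl hl1 x0).trans (ENNReal.ofReal_le_ofReal ?_)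
    gcongr
    linarith

end Pool.Agent.Lib.MP_ff3fe0_an_SPH2
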