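import Pool.Agent.Lib.MP_ff3fe0_an_SPH2.GoodC
import Pool.Agent.Lib.MP_ff3fe0_an_SPH2.BadM
import Pool.Agent.Lib.MP_ff3fe0_an_SPH2.BadU
import Pool.Agent.Lib.MP_ff3fe0_an_SPH.OmA

set_option autoImplicit false

/-!
# The sum over the scales, exponent three
-/

namespace Pool.Agent.Lib.MP_ff3fe0_an_SPH2

open MeasureTheory Metric Set
open scoped ENNReal NNReal ContDiff FourierTransform
open Pool.Agent.Lib.MP_ff3fe0_an
open Pool.Agent.Lib.MP_ff3fe0_an_SPH

variable {d : ℕ}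


private theorem ScaleT_three {p : ℝ} (hp : 0 ≤ p) (a b c : ℝ≥0∞) :
    (a + b + c) ^ p ≤ 3 ^ p * (a ^ p + b ^ p + c ^ p) := by
  obtain ⟨M, h1, h2, h3, h4⟩ : ∃ M : ℝ≥0∞, a ≤ M ∧ b ≤ M ∧ c ≤ M ∧
      M ^ p ≤ a ^ p + b ^ p + c ^ p := by
    refine ⟨max a (max b c), le_max_left _ _, (le_max_left _ _).trans (le_max_right _ _),
      (le_max_right _ _).trans (le_max_right _ _), ?_⟩
    rcases max_choice a (max b c) with h | h
    · rw [h]
      exact le_add_right (le_add_right le_rfl)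
    · rw [h]
      rcases max_choice b c with h' | h'
      · rw [h']
        exact le_add_right (le_add_left le_rfl)
      · rw [h']
        exact le_add_left le_rfl
  calc (a + b + c) ^ p ≤ (3 * M) ^ p := by
        refine ENNReal.rpow_le_rpow ?_ hp
        calc a + b + c ≤ M + M + M := add_le_add (add_le_add h1 h2) h3
          _ = 3 * M := by ring
    _ = 3 ^ p * M ^ p := ENNReal.mul_rpow_of_nonneg _ _ hp
    _ ≤ _ := mul_le_mul_right h4 _

private theorem ScaleT_meas (K : Ker d) {G : E d → E d} (hG : Measurable G) (b : ℝ) :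
    Measurable (cvv K.ka b G) := by
  have h : StronglyMeasurable (Function.uncurry fun (x y : E d) =>
      (inner ℝ (K.ka y) (G (x - b • y)) : ℝ)) := by
    apply Measurable.stronglyMeasurable
    exact (K.hka.smooth.continuous.measurable.comp measurable_snd).inner
      (hG.comp (measurable_fst.sub (measurable_snd.const_smul b)))
  exact h.integral_prod_right.measurable

private theorem ScaleT_int (K : Ker d) {G : E d → E d} (hG : Integrable G) {b : ℝ} (hb : 0 < b)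
    (x : E d) : Integrable fun y => (inner ℝ (K.ka y) (G (x - b • y)) : ℝ) := by
  have h1 : Integrable fun y => G (x - b • y) := (hG.comp_sub_left x).comp_smul hb.ne'
  have hc : HasCompactSupport K.ka := by
    refine HasCompactSupport.intro (isCompact_closedBall (0 : E d) 1) fun y hy => ?_
    refine K.hka.supp y ?_
    rwa [mem_closedBall, dist_zero_right, not_le] at hy
  obtain ⟨C, hC⟩ := K.hka.smooth.continuous.bounded_above_of_compact_support hc
  refine (h1.norm.const_mul C).mono'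
    (K.hka.smooth.continuous.aestronglyMeasurable.inner h1.aestronglyMeasurable)
    (Filter.Eventually.of_forall fun y => ?_)
  exact (norm_inner_le_norm _ _).trans (mul_le_mul_of_nonneg_right (hC y) (norm_nonneg _))

private theorem ScaleT_add (K : Ker d) {G₁ G₂ G₃ : E d → E d} (h1 : Integrable G₁)
    (h2 : Integrable G₂) (h3 : Integrable G₃) {b : ℝ} (hb : 0 < b) (x : E d) :
    cvv K.ka b (fun y => G₁ y + G₂ y + G₃ y) x =
      cvv K.ka b G₁ x + cvv K.ka b G₂ x + cvv K.ka b G₃ x := by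
  unfold cvv
  have i1 := ScaleT_int K h1 hb x
  have i2 := ScaleT_int K h2 hb x
  have i3 := ScaleT_int K h3 hb x
  have h : ∫ y, ((inner ℝ (K.ka y) (G₁ (x - b • y)) : ℝ) + inner ℝ (K.ka y) (G₂ (x - b • y)) +
      inner ℝ (K.ka y) (G₃ (x - b • y))) =
      (∫ y, ((inner ℝ (K.ka y) (G₁ (x - b • y)) : ℝ) + inner ℝ (K.ka y) (G₂ (x - b • y)))) +
        ∫ y, (inner ℝ (K.ka y) (G₃ (x - b • y)) : ℝ) := integral_add (i1.add i2) i3
  rw [← integral_add i1 i2, ← h]
  simp only [inner_add_right]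

private theorem ScaleT_congr (K : Ker d) {G G' : E d → E d} {b : ℝ} (hb : 0 ≤ b) {x : E d}
    (h : ∀ y ∈ closedBall x b, G y = G' y) : cvv K.ka b G x = cvv K.ka b G' x := by
  unfold cvv
  refine integral_congr_ae (Filter.Eventually.of_forall fun y => ?_)
  by_cases hy : ‖y‖ ≤ 1
  · have h1 : x - b • y ∈ closedBall x b := by
      rw [mem_closedBall, dist_eq_norm, sub_sub_cancel_left, norm_neg, norm_smul,
        Real.norm_of_nonneg hb]
      exact mul_le_of_le_one_right hb hy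
    simp only [h _ h1]
  · have h1 : K.ka y = 0 := K.hka.supp y (not_le.1 hy)
    simp only [h1, inner_zero_left]

section dec

variable {p : ℝ} {H : E d → E d} {l : ℝ≥0∞}

private theorem ScaleT_off {i i' : ℤ} {x : E d} (hx : x ∈ Lp' p H l i) (h : i' ≠ i) :
    bd p H l i' x = 0 := by
  refine bd_off fun hx' => ?_
  exact (Set.disjoint_left.1 (lev_disj h)) hx' hx

private theorem ScaleT_bS (m : ℕ) (j : ℤ) : bS p H l m j =
    (⋃ n : ℕ, Lp' p H l (j - m - n)).indicator (fun x => H x - gd p H l x) := by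
  funext x
  by_cases hx : x ∈ ⋃ n : ℕ, Lp' p H l (j - m - n)
  · rw [Set.indicator_of_mem hx]
    obtain ⟨n₀, hn₀⟩ := Set.mem_iUnion.1 hx
    have h1 : H x - gd p H l x = bd p H l (j - m - n₀) x := by
      have h := cz_sum (p := p) (H := H) (l := l) x
      rw [finsum_eq_single _ (j - m - n₀) fun i hi => ScaleT_off hn₀ hi] at h
      rw [sub_eq_iff_eq_add', ← h]
    rw [h1]
    unfold bS
    refine tsum_eq_single n₀ fun n hn => ScaleT_off hn₀ ?_
    omega
  · rw [Set.indicator_of_notMem hx]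
    unfold bS
    have h1 : ∀ n : ℕ, bd p H l (j - m - n) x = 0 := fun n =>
      bd_off fun h => hx (Set.mem_iUnion.2 ⟨n, h⟩)
    simp only [h1, tsum_zero]

private theorem ScaleT_dec {r : ℝ} {j : ℤ} {z : Fin d → ℤ} (m : ℕ) {c : ℝ}
    (hc : r + 1 + √d ≤ c) (h : ¬ dc j (cen j z) ⊆ Om (fp p H) (l ^ p) c) {x : E d}
    (hx : x ∈ closedBall (cen j z) ((r + 1) * (2 : ℝ) ^ j)) :
    H x = gd p H l x + bL p H l m j x + bS p H l m j x := by
  rw [add_assoc]
  refine (cz_sum (p := p) (H := H) (l := l) x).trans (congrArg _ ?_)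
  by_cases hex : ∃ i, x ∈ Lp' p H l i
  · obtain ⟨i₀, hi₀⟩ := hex
    have hij : i₀ ≤ j := by
      by_contra hcon
      exact om_good hc h (not_le.1 hcon) hi₀ hx
    rw [finsum_eq_single _ i₀ fun i hi => ScaleT_off hi₀ hi]
    by_cases hcase : j - m < i₀
    · have h1 : bL p H l m j x = bd p H l i₀ x :=
        Finset.sum_eq_single_of_mem i₀ (Finset.mem_Ioc.2 ⟨hcase, hij⟩)
          fun i _ hi => ScaleT_off hi₀ hi
      have h2 : bS p H l m j x = 0 := by
        unfold bS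
        have h3 : ∀ n : ℕ, bd p H l (j - m - n) x = 0 := fun n =>
          ScaleT_off hi₀ (by omega)
        simp only [h3, tsum_zero]
      rw [h1, h2, add_zero]
    · have h1 : bL p H l m j x = 0 := by
        refine Finset.sum_eq_zero fun i hi => ScaleT_off hi₀ ?_
        have := (Finset.mem_Ioc.1 hi).1
        omega
      have h2 : bS p H l m j x = bd p H l i₀ x := by
        have h3 : j - m - ((j - m - i₀).toNat : ℤ) = i₀ := by omega
        have h4 : bS p H l m j x = bd p H l (j - m - ((j - m - i₀).toNat : ℕ)) x := by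
          unfold bS
          refine tsum_eq_single (j - m - i₀).toNat fun n hn => ScaleT_off hi₀ ?_
          omega
        rw [h4, h3]
      rw [h1, h2, zero_add]
  · have h0 : ∀ i, bd p H l i x = 0 := fun i => bd_off fun h => hex ⟨i, h⟩
    unfold bL bS
    simp only [h0, tsum_zero, finsum_zero, Finset.sum_const_zero, add_zero]

end dec

private theorem ScaleT_Aav (hd : 0 < d) (K : Ker d) {p : ℝ} (hp : 1 ≤ p) {r : ℝ}
    {H : E d → E d} {l : ℝ≥0∞} (hH : Measurable H) (hi : Integrable H) (j : ℤ) (z : Fin d → ℤ)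
    (m : ℕ) {c : ℝ} (hc : r + 1 + √d ≤ c)
    (h : ¬ dc j (cen j z) ⊆ Om (fp p H) (l ^ p) c) :
    Aav3 K p r m H j z ≤ 729 * (Aav3 K p r m (gd p H l) j z + Aav3 K p r m (bL p H l m j) j z +
      Aav3 K p r m (bS p H l m j) j z) := by
  have hp0 : 0 < p := by linarith
  have h2p : 0 ≤ 3 / p := by positivity
  obtain ⟨b, hb⟩ : ∃ b : ℝ, b = (2 : ℝ) ^ j * sc m := ⟨_, rfl⟩
  have h2j : (0 : ℝ) < 2 ^ j := by positivity
  have hb0 : 0 < b := by
    rw [hb]
    unfold sc
    positivity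
  have hb1 : b ≤ 2 ^ j := by
    rw [hb]
    refine mul_le_of_le_one_right h2j.le ?_
    unfold sc
    exact pow_le_one₀ (by norm_num) (by norm_num)
  have mgd : Measurable (gd p H l) := measurable_gd hH
  have igd : Integrable (gd p H l) := gd_integrable hd hH hi
  have mLp : ∀ i, MeasurableSet (Lp' p H l i) := fun i =>
    measurableSet_lev (hH.enorm.pow_const p) i
  have mbL : Measurable (bL p H l m j) :=
    Finset.measurable_sum _ fun i _ => measurable_bd hH i
  have ibL : Integrable (bL p H l m j) :=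
    integrable_finsetSum _ fun i _ => bd_integrable hd hH hi i
  have mbS : Measurable (bS p H l m j) := by
    rw [ScaleT_bS]
    exact (hH.sub mgd).indicator (MeasurableSet.iUnion fun n => mLp _)
  have ibS : Integrable (bS p H l m j) := by
    rw [ScaleT_bS]
    exact (hi.sub igd).indicator (MeasurableSet.iUnion fun n => mLp _)
  have hcv : ∀ y ∈ closedBall (cen j z) (r * (2 : ℝ) ^ j), cvv K.ka b H y =
      cvv K.ka b (gd p H l) y + cvv K.ka b (bL p H l m j) y + cvv K.ka b (bS p H l m j) y := by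
    intro y hy
    rw [← ScaleT_add K igd ibL ibS hb0]
    refine ScaleT_congr K hb0.le fun x hx => ScaleT_dec m hc h ?_
    rw [mem_closedBall] at hx hy ⊢
    have := dist_triangle x y (cen j z)
    linarith
  have m1 := (ScaleT_meas K mgd b).enorm.pow_const p
  have m2 := (ScaleT_meas K mbL b).enorm.pow_const p
  have m3 := (ScaleT_meas K mbS b).enorm.pow_const p
  obtain ⟨B, hB⟩ : ∃ B : Set (E d), B = closedBall (cen j z) (r * (2 : ℝ) ^ j) := ⟨_, rfl⟩
  have hBm : MeasurableSet B := by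
    rw [hB]
    exact measurableSet_closedBall
  rw [← hB] at hcv
  have hI : ∫⁻ y in B, ‖cvv K.ka b H y‖ₑ ^ p ≤ 3 ^ p *
      ((∫⁻ y in B, ‖cvv K.ka b (gd p H l) y‖ₑ ^ p) +
        (∫⁻ y in B, ‖cvv K.ka b (bL p H l m j) y‖ₑ ^ p) +
        ∫⁻ y in B, ‖cvv K.ka b (bS p H l m j) y‖ₑ ^ p) := by
    rw [← lintegral_add_left m1, ← lintegral_add_right _ m3,
      ← lintegral_const_mul' _ _ (ENNReal.rpow_ne_top_of_nonneg hp0.le (by norm_num))]
    refine setLIntegral_mono' hBm fun y hy => ?_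
    rw [hcv y hy]
    refine le_trans (ENNReal.rpow_le_rpow ?_ hp0.le) (ScaleT_three hp0.le _ _ _)
    exact (enorm_add_le _ _).trans (add_le_add (enorm_add_le _ _) le_rfl)
  unfold Aav3
  rw [← hb, ← hB, ← mul_add, ← mul_add, mul_left_comm]
  refine mul_le_mul_right ?_ _
  obtain ⟨W, hW⟩ : ∃ W : ℝ≥0∞, W = ENNReal.ofReal ((((2 : ℝ) ^ j) ^ d)⁻¹) := ⟨_, rfl⟩
  rw [← hW]
  calc (W * ∫⁻ y in B, ‖cvv K.ka b H y‖ₑ ^ p) ^ (3 / p)
      ≤ (3 ^ p * (W * (∫⁻ y in B, ‖cvv K.ka b (gd p H l) y‖ₑ ^ p) +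
        W * (∫⁻ y in B, ‖cvv K.ka b (bL p H l m j) y‖ₑ ^ p) +
        W * ∫⁻ y in B, ‖cvv K.ka b (bS p H l m j) y‖ₑ ^ p)) ^ (3 / p) := by
        refine ENNReal.rpow_le_rpow ?_ h2p
        refine (mul_le_mul_right hI _).trans (le_of_eq ?_)
        ring
    _ = 27 * (W * (∫⁻ y in B, ‖cvv K.ka b (gd p H l) y‖ₑ ^ p) +
        W * (∫⁻ y in B, ‖cvv K.ka b (bL p H l m j) y‖ₑ ^ p) +
        W * ∫⁻ y in B, ‖cvv K.ka b (bS p H l m j) y‖ₑ ^ p) ^ (3 / p) := by
        rw [ENNReal.mul_rpow_of_nonneg _ _ h2p, ← ENNReal.rpow_mul,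
          show p * (3 / p) = 3 by field_simp]
        norm_num
    _ ≤ 27 * (27 * ((W * (∫⁻ y in B, ‖cvv K.ka b (gd p H l) y‖ₑ ^ p)) ^ (3 / p) +
        (W * (∫⁻ y in B, ‖cvv K.ka b (bL p H l m j) y‖ₑ ^ p)) ^ (3 / p) +
        (W * ∫⁻ y in B, ‖cvv K.ka b (bS p H l m j) y‖ₑ ^ p) ^ (3 / p))) := by
        refine mul_le_mul_right ((ScaleT_three h2p _ _ _).trans (mul_le_mul_left ?_ _)) _
        calc (3 : ℝ≥0∞) ^ (3 / p) ≤ 3 ^ (3 : ℝ) :=
              ENNReal.rpow_le_rpow_of_exponent_le (by norm_num) (by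
                rw [div_le_iff₀ hp0]
                linarith)
          _ = 27 := by norm_num
    _ = _ := by
        rw [← mul_assoc]
        norm_num

/-- The sum over all scales and all cubes which are not contained in the exceptional set. -/
theorem sum_scales3 (hd : 0 < d) (K : Ker d) {p : ℝ} (hp : 1 ≤ p) (hp2 : p < 3) {r : ℝ}
    (hr : 0 < r) : ∃ (C : ℝ≥0) (c : ℝ), 2 ≤ c ∧ ∀ (m : ℕ) (H : E d → E d) (l : ℝ≥0∞),
      Continuous H → HasCompactSupport H → l ≠ 0 → l ≠ ⊤ →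
        ∑' j : ℤ, ∑' z : Fin d → ℤ, {z | ¬ dc j (cen j z) ⊆ Om (fp p H) (l ^ p) c}.indicator
          (Aav3 K p r m H j) z ≤ C * (m + 1) * ((∫⁻ x in {x | ‖H x‖ₑ ≤ l}, ‖H x‖ₑ ^ 3) +
            l ^ 3 * volume (Lv (fp p H) (l ^ p))) := by
  obtain ⟨C1, hC1⟩ := good_Aav3 K hp hp2 r
  obtain ⟨C2, hC2⟩ := bad_large_sum3 hd K hp hp2 r
  obtain ⟨C3, hC3⟩ := bad_small_sum3 hd K hp hp2 r
  have hsq : 0 ≤ √(d : ℝ) := Real.sqrt_nonneg _
  have hp0 : 0 < p := by linarith
  refine ⟨729 * (C1 * 8 ^ d + C2 + C3), r + 3 + √d, by linarith, fun m H l hH hcs hl hl' => ?_⟩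
  have hi : Integrable H := hH.integrable_of_hasCompactSupport hcs
  have hfin : ∀ q : ℝ, 0 < q → ∫⁻ x, ‖H x‖ₑ ^ q ≠ ⊤ := by
    intro q hq
    have h1 : Continuous fun x => ‖H x‖ ^ q := hH.norm.rpow_const fun _ => Or.inr hq.le
    have h2 : HasCompactSupport fun x => ‖H x‖ ^ q :=
      hcs.comp_left (g := fun v : E d => ‖v‖ ^ q) (by
        simp [Real.zero_rpow hq.ne'])
    have h3 := (h1.integrable_of_hasCompactSupport h2 (μ := volume)).2.ne
    refine fun h4 => h3 (top_unique ?_)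
    rw [← h4]
    refine lintegral_mono fun x => ?_
    rw [Real.enorm_of_nonneg (by positivity), ← ENNReal.ofReal_rpow_of_nonneg (norm_nonneg _)
      hq.le, ofReal_norm]
  have hlp : l ^ p ≠ 0 := by
    rw [Ne, ENNReal.rpow_eq_zero_iff]
    rintro (h | h)
    · exact hl h.1
    · exact hl' h.1
  have hfp : Measurable (fp p H) := hH.measurable.enorm.pow_const p
  have hvol : volume (Lv (fp p H) (l ^ p)) ≠ ⊤ := by
    intro h
    have h1 := Lv_mass (a := l ^ p) hfp
    rw [h, ENNReal.mul_top hlp] at h1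
    exact hfin p hp0 (top_unique (h1.trans (setLIntegral_le_lintegral _ _)))
  obtain ⟨V, hV⟩ : ∃ V : ℝ≥0∞, V = volume (Lv (fp p H) (l ^ p)) := ⟨_, rfl⟩
  obtain ⟨X, hX⟩ : ∃ X : ℝ≥0∞, X = ∫⁻ x in {x | ‖H x‖ₑ ≤ l}, ‖H x‖ₑ ^ 3 := ⟨_, rfl⟩
  obtain ⟨Y, hY⟩ : ∃ Y : ℝ≥0∞, Y = ∫⁻ x in {x | ‖H x‖ₑ ≤ l}, ‖H x‖ₑ ^ 2 := ⟨_, rfl⟩
  have hYtop : Y ≠ ⊤ := by
    have h1 := hfin 2 (by norm_num)
    refine ne_top_of_le_ne_top h1 ?_
    rw [hY]
    refine (setLIntegral_le_lintegral _ _).trans (le_of_eq ?_)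
    refine lintegral_congr fun x => ?_
    norm_num
  have hgdt := gd_two hd hp hl hl' hH (hfin p hp0)
  rw [← hV, ← hY] at hgdt
  have hgd2 : ∫⁻ x, ‖gd p H l x‖ₑ ^ 2 ≠ ⊤ := by
    refine ne_top_of_le_ne_top ?_ hgdt
    rw [← hV] at hvol
    finiteness
  have hgd := gd_three hd hp hl hl' hH (hfin p hp0)
  rw [← hV, ← hX] at hgd
  have s1 := hC1 m (gd p H l) (measurable_gd hH.measurable)
    (gd_integrable hd hH.measurable hi) hgd2
  have s2 := hC2 m H l hH hi hl hl'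
  have s3 := hC3 m H l hH hi hl hl'
  rw [← hV] at s2 s3
  rw [← hV, ← hX]
  calc ∑' j : ℤ, ∑' z : Fin d → ℤ,
      {z | ¬ dc j (cen j z) ⊆ Om (fp p H) (l ^ p) (r + 3 + √d)}.indicator
          (Aav3 K p r m H j) z
      ≤ ∑' j : ℤ, ∑' z : Fin d → ℤ, 729 * (Aav3 K p r m (gd p H l) j z +
        Aav3 K p r m (bL p H l m j) j z + Aav3 K p r m (bS p H l m j) j z) := by
        refine ENNReal.tsum_le_tsum fun j => ENNReal.tsum_le_tsum fun z => ?_
        by_cases hz : z ∈ {z | ¬ dc j (cen j z) ⊆ Om (fp p H) (l ^ p) (r + 3 + √d)}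
        · rw [Set.indicator_of_mem hz]
          exact ScaleT_Aav hd K hp hH.measurable hi j z m (by linarith) hz
        · rw [Set.indicator_of_notMem hz]
          exact zero_le
    _ = 729 * ((∑' j : ℤ, ∑' z : Fin d → ℤ, Aav3 K p r m (gd p H l) j z) +
        (∑' j : ℤ, ∑' z : Fin d → ℤ, Aav3 K p r m (bL p H l m j) j z) +
        ∑' j : ℤ, ∑' z : Fin d → ℤ, Aav3 K p r m (bS p H l m j) j z) := by
        simp only [ENNReal.tsum_mul_left, ENNReal.tsum_add]
    _ ≤ 729 * (C1 * (X + 8 ^ d * l ^ 3 * V) + C2 * m * l ^ 3 * V + C3 * l ^ 3 * V) :=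
        mul_le_mul_right (add_le_add (add_le_add (s1.trans (mul_le_mul_right hgd _)) s2) s3) _
    _ ≤ 729 * ((C1 * 8 ^ d + C2 + C3) * (m + 1) * (X + l ^ 3 * V)) := by
        refine mul_le_mul_right ?_ _
        have h4 : (1 : ℝ≥0∞) ≤ 8 ^ d := one_le_pow₀ (by norm_num)
        calc C1 * (X + 8 ^ d * l ^ 3 * V) + C2 * m * l ^ 3 * V + C3 * l ^ 3 * V
            ≤ C1 * (8 ^ d * X + 8 ^ d * l ^ 3 * V) + C2 * m * l ^ 3 * V + C3 * l ^ 3 * V := by
              gcongr
              exact le_mul_of_one_le_left zero_le h4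
          _ ≤ (C1 * (8 ^ d * X + 8 ^ d * l ^ 3 * V) + C2 * m * l ^ 3 * V + C3 * l ^ 3 * V) +
              (C1 * 8 ^ d * m * (X + l ^ 3 * V) + C2 * m * X + C2 * (X + l ^ 3 * V) +
                C3 * (m * (X + l ^ 3 * V)) + C3 * X) := le_self_add
          _ = (C1 * 8 ^ d + C2 + C3) * (m + 1) * (X + l ^ 3 * V) := by ring
    _ = _ := by
        push_cast
        ring

end Pool.Agent.Lib.MP_ff3fe0_an_SPH2
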