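import Pool.Agent.Lib.MP_ff3fe0_an_SPH2.OmQ

set_option autoImplicit false

/-!
# The gain for bounded functions
-/

namespace Pool.Agent.Lib.MP_ff3fe0_an_SPH2

open MeasureTheory Metric Set
open scoped ENNReal NNReal ContDiff FourierTransform
open Pool.Agent.Lib.MP_ff3fe0_an
open Pool.Agent.Lib.MP_ff3fe0_an_SPH

private theorem SmoQ_cv (S : E 2 → ℝ) (δ c : ℝ) (q : E 2 → ℝ) :
    cv S δ (fun y => c * q y) = fun x => c * cv S δ q x := by
  funext x
  unfold cv
  rw [← integral_const_mul]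
  refine integral_congr_ae (Filter.Eventually.of_forall fun y => ?_)
  show S y * (c * q (x - δ • y)) = c * (S y * q (x - δ • y))
  ring

private theorem SmoQ_aF (S : E 2 → ℝ) (m j : ℕ) (c : ℝ) (q : E 2 → ℝ) (x : E 2) (t : ℝ) :
    aF S m j (fun y => c * q y) x t = c * aF S m j q x t := by
  unfold aF
  rw [SmoQ_cv]
  have h1 : (fun s => sm (fun x => c * cv S (sc m) q x) s x) =
      fun s => c • sm (cv S (sc m) q) s x := by
    funext s
    unfold sm
    rw [smul_eq_mul, ← integral_const_mul]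
  rw [h1, iteratedDeriv_fun_const_smul_field, smul_eq_mul]
  ring

private theorem SmoQ_vF (S : E 2 → ℝ) (m j : ℕ) (c : ℝ) (q : E 2 → ℝ) (x : E 2) (t : ℝ) :
    vF S m j (fun y => c * q y) x t = c • vF S m j q x t := by
  unfold vF
  rw [SmoQ_cv]
  have h1 : (fun s : ℝ => ∫ w : Sph 2, (c * cv S (sc m) q (x - s • (w : E 2))) •
      (w : E 2) ∂(sigma 2)) = fun s => c •
        ∫ w : Sph 2, cv S (sc m) q (x - s • (w : E 2)) • (w : E 2) ∂(sigma 2) := by
    funext s
    rw [← integral_smul]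
    refine integral_congr_ae (Filter.Eventually.of_forall fun w => ?_)
    show (c * cv S (sc m) q (x - s • (w : E 2))) • (w : E 2) = _
    rw [mul_smul]
  rw [h1, iteratedDeriv_fun_const_smul_field, smul_comm]

/-- The maximal function. -/
private noncomputable def SmoQ_W (S : E 2 → ℝ) (m j : ℕ) (q : E 2 → ℝ) (x : E 2) : ℝ≥0∞ :=
  ⨆ t : ℝ, ⨆ _ : t ∈ Icc (1 / 2 : ℝ) (5 / 2), (‖vF S m j q x t‖ₑ + ‖aF S m j q x t‖ₑ)

private theorem SmoQ_meas {S : E 2 → ℝ} (hS : IsKer S) (m j : ℕ) {r : ℝ} {q : E 2 → ℝ}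
    (hq : Bdd r q) : Measurable (SmoQ_W S m j q) := by
  obtain ⟨h1, h2, -, -⟩ := aF_cont hS m j hq
  have h3 : LowerSemicontinuous (SmoQ_W S m j q) := by
    unfold SmoQ_W
    refine lowerSemicontinuous_biSup fun t _ => ?_
    have hp : Continuous (fun x : E 2 => (x, t)) := by fun_prop
    exact ((h2.comp hp).enorm.add (h1.comp hp).enorm).lowerSemicontinuous
  exact h3.measurable

private theorem SmoQ_log (m : ℕ) : ((m : ℝ) + 1) ^ 2 ≤ 10000 * (2 : ℝ) ^ (m / 24 : ℝ) := by
  have h1 : ((m : ℝ) + 1) / 100 ≤ (2 : ℝ) ^ (m / 48 : ℝ) := by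
    rw [Real.rpow_def_of_pos (by norm_num)]
    have h2 := Real.add_one_le_exp (Real.log 2 * (m / 48 : ℝ))
    have h3 := Real.log_two_gt_d9
    have h4 : (0 : ℝ) ≤ m := Nat.cast_nonneg m
    nlinarith
  have h5 : (2 : ℝ) ^ (m / 24 : ℝ) = ((2 : ℝ) ^ (m / 48 : ℝ)) ^ 2 := by
    rw [← Real.rpow_natCast, ← Real.rpow_mul (by norm_num)]
    congr 1
    push_cast
    ring
  rw [h5]
  have h6 : (0 : ℝ) ≤ ((m : ℝ) + 1) / 100 := by positivity
  nlinarith [mul_self_le_mul_self h6 h1]

/-- The power gain for the circular maximal function of the frequency pieces of bounded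
functions. -/
theorem smoothing {S : E 2 → ℝ} (hS : IsKer S) (hF : FB S) (r : ℝ) : ∃ (C : ℝ≥0) (ε : ℝ),
    0 < ε ∧ ∀ (m : ℕ) (q : E 2 → ℝ) (b : ℝ), Bdd r q → (∀ y, |q y| ≤ b) → ∀ j ≤ 2,
      ∃ W : E 2 → ℝ≥0∞, Measurable W ∧ (∀ x, W x ≤ C * ENNReal.ofReal b) ∧
        (∀ x, ∀ t ∈ Icc (1 / 2 : ℝ) (5 / 2), ∀ c : E 2, ‖c‖ ≤ 1 → XX S m j q c x t ≤ W x) ∧
        ∫⁻ x in closedBall (0 : E 2) (√2), W x ^ 2 ≤
          C * ENNReal.ofReal ((2 : ℝ) ^ (-(ε * m)) * b ^ 2) := by
  obtain ⟨C0, hC0⟩ := aF_bound hS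
  obtain ⟨C2, N, hC2, hom⟩ := om_q hS hF r
  obtain ⟨T, hTs, hTf, hTc⟩ := (isCompact_closedBall (0 : E 2) (√2)).finite_cover_balls
    (show (0 : ℝ) < 1 / 16 by norm_num)
  set C1 : ℝ := max C0 0 with hC1
  have hC1n : 0 ≤ C1 := le_max_right _ _
  set V : ℝ≥0∞ := volume (closedBall (0 : E 2) (√2)) with hV
  have hVt : V ≠ ⊤ := measure_closedBall_lt_top.ne
  set v : ℝ := V.toReal with hv
  have hVv : V = ENNReal.ofReal v := (ENNReal.ofReal_toReal hVt).symm
  have hv0 : 0 ≤ v := ENNReal.toReal_nonneg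
  obtain ⟨F, hFF⟩ : ∃ F : Finset (E 2), F = hTf.toFinset := ⟨_, rfl⟩
  obtain ⟨nF, hnF⟩ : ∃ nF : ℝ, nF = (F.card : ℝ) := ⟨_, rfl⟩
  have hnF0 : 0 ≤ nF := by
    rw [hnF]
    exact Nat.cast_nonneg _
  obtain ⟨D, hD⟩ : ∃ D : ℝ, D = nF * (C2 * 10000) := ⟨_, rfl⟩
  have hD0 : 0 ≤ D := by
    rw [hD]
    exact mul_nonneg hnF0 (by positivity)
  set ε : ℝ := 1 / (12 * (N + 1)) with hε
  have hε0 : 0 < ε := by positivity
  have hε1 : ε ≤ 1 / 12 := by
    rw [hε]
    apply one_div_le_one_div_of_le (by norm_num)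
    have : (0 : ℝ) ≤ N := Nat.cast_nonneg N
    linarith
  set CC : ℝ := 2 * C1 + 8 * C1 ^ 2 * v + 4 * v + 4 * C1 ^ 2 * D with hCC
  have hCC0 : 0 ≤ CC := by positivity
  refine ⟨CC.toNNReal, ε, hε0, fun m q b hq hb j hj => ?_⟩
  have hb0 : 0 ≤ b := (abs_nonneg _).trans (hb 0)
  have hcast : ((CC.toNNReal : ℝ≥0) : ℝ≥0∞) = ENNReal.ofReal CC := rfl
  have hWb : ∀ x, SmoQ_W S m j q x ≤ ENNReal.ofReal (2 * C1 * b) := by
    intro x
    unfold SmoQ_W
    refine iSup₂_le fun t _ => ?_
    obtain ⟨ha, hvv, -, -⟩ := hC0 m r b q hq hb j hj x t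
    have h1 : C0 * b ≤ C1 * b := mul_le_mul_of_nonneg_right (le_max_left _ _) hb0
    have h2 : ‖vF S m j q x t‖ₑ ≤ ENNReal.ofReal (C1 * b) := by
      rw [← ofReal_norm]
      exact ENNReal.ofReal_le_ofReal (hvv.trans h1)
    have h3 : ‖aF S m j q x t‖ₑ ≤ ENNReal.ofReal (C1 * b) := by
      rw [← ofReal_norm, Real.norm_eq_abs]
      exact ENNReal.ofReal_le_ofReal (ha.trans h1)
    refine (add_le_add h2 h3).trans (le_of_eq ?_)
    rw [← ENNReal.ofReal_add (by positivity) (by positivity)]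
    congr 1
    ring
  have hmeas := SmoQ_meas hS m j hq
  refine ⟨SmoQ_W S m j q, hmeas, fun x => ?_, fun x t ht c hc => ?_, ?_⟩
  · rw [hcast, ← ENNReal.ofReal_mul hCC0]
    refine (hWb x).trans (ENNReal.ofReal_le_ofReal ?_)
    refine mul_le_mul_of_nonneg_right ?_ hb0
    have h1 : 0 ≤ 8 * C1 ^ 2 * v := by positivity
    have h2 : 0 ≤ 4 * C1 ^ 2 * D := by positivity
    rw [hCC]
    linarith
  · rw [XX_eq hS m j hq]
    have h1 : ‖vF S m j q x t - aF S m j q x t • c‖ₑ ≤
        ‖vF S m j q x t‖ₑ + ‖aF S m j q x t‖ₑ := by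
      rw [← ofReal_norm, ← ofReal_norm, ← ofReal_norm, ← ENNReal.ofReal_add (norm_nonneg _)
        (norm_nonneg _)]
      apply ENNReal.ofReal_le_ofReal
      refine (norm_sub_le _ _).trans ?_
      rw [norm_smul]
      have h2 : ‖aF S m j q x t‖ * ‖c‖ ≤ ‖aF S m j q x t‖ * 1 :=
        mul_le_mul_of_nonneg_left hc (norm_nonneg _)
      linarith
    refine h1.trans ?_
    unfold SmoQ_W
    exact le_iSup₂ (f := fun (t : ℝ) (_ : t ∈ Icc (1 / 2 : ℝ) (5 / 2)) =>
      (‖vF S m j q x t‖ₑ + ‖aF S m j q x t‖ₑ)) t ht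
  · -- the integral
    have hgen : ∀ a : ℝ, 0 ≤ a → ∫⁻ x in closedBall (0 : E 2) (√2), SmoQ_W S m j q x ^ 2 ≤
        ENNReal.ofReal (a ^ 2) * V + ENNReal.ofReal ((2 * C1 * b) ^ 2) *
          volume ({x | ENNReal.ofReal a < SmoQ_W S m j q x} ∩ closedBall (0 : E 2) (√2)) := by
      intro a ha
      have hAm : MeasurableSet {x | ENNReal.ofReal a < SmoQ_W S m j q x} :=
        measurableSet_lt measurable_const hmeas
      calc ∫⁻ x in closedBall (0 : E 2) (√2), SmoQ_W S m j q x ^ 2
          ≤ ∫⁻ x in closedBall (0 : E 2) (√2), (ENNReal.ofReal (a ^ 2) +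
              {x | ENNReal.ofReal a < SmoQ_W S m j q x}.indicator
                (fun _ => ENNReal.ofReal ((2 * C1 * b) ^ 2)) x) := by
            refine lintegral_mono fun x => ?_
            by_cases hx : ENNReal.ofReal a < SmoQ_W S m j q x
            · rw [indicator_of_mem (show x ∈ {x | ENNReal.ofReal a < SmoQ_W S m j q x} from hx)]
              refine le_add_left ?_
              rw [ENNReal.ofReal_pow (by positivity)]
              exact pow_le_pow_left' (hWb x) 2
            · refine le_add_right ?_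
              rw [ENNReal.ofReal_pow ha]
              exact pow_le_pow_left' (not_lt.1 hx) 2
        _ = _ := by
            rw [lintegral_add_left measurable_const, lintegral_indicator_const hAm,
              lintegral_const, Measure.restrict_apply_univ, Measure.restrict_apply hAm]
    rw [hcast, ← ENNReal.ofReal_mul hCC0]
    by_cases hm : m < 6
    · have h1 := hgen (2 * C1 * b) (by positivity)
      have h2 : {x | ENNReal.ofReal (2 * C1 * b) < SmoQ_W S m j q x} ∩
          closedBall (0 : E 2) (√2) = ∅ := by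
        rw [eq_empty_iff_forall_notMem]
        rintro x ⟨hx, -⟩
        exact absurd hx (not_lt.2 (hWb x))
      rw [h2, measure_empty, mul_zero, add_zero, hVv, ← ENNReal.ofReal_mul (by positivity)] at h1
      refine h1.trans (ENNReal.ofReal_le_ofReal ?_)
      have h3 : (1 / 2 : ℝ) ≤ (2 : ℝ) ^ (-(ε * m)) := by
        have h4 : (1 / 2 : ℝ) = (2 : ℝ) ^ (-1 : ℝ) := by
          rw [Real.rpow_neg_one]
          norm_num
        rw [h4]
        apply Real.rpow_le_rpow_of_exponent_le (by norm_num)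
        have h5 : (m : ℝ) ≤ 6 := by exact_mod_cast hm.le
        have h6 : ε * m ≤ 1 / 12 * 6 :=
          mul_le_mul hε1 h5 (Nat.cast_nonneg m) (by norm_num)
        linarith
      have h7 : 8 * C1 ^ 2 * v ≤ CC := by
        have h8 : 0 ≤ 4 * C1 ^ 2 * D := by positivity
        rw [hCC]
        linarith
      calc (2 * C1 * b) ^ 2 * v = (8 * C1 ^ 2 * v) * (1 / 2 * b ^ 2) := by ring
        _ ≤ CC * ((2 : ℝ) ^ (-(ε * m)) * b ^ 2) := by gcongr
    · push Not at hm
      rcases hb0.eq_or_lt with hb00 | hbp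
      · have h1 := hgen 0 le_rfl
        have h2 : {x | ENNReal.ofReal 0 < SmoQ_W S m j q x} ∩
            closedBall (0 : E 2) (√2) = ∅ := by
          rw [eq_empty_iff_forall_notMem]
          rintro x ⟨hx, -⟩
          have h3 := hWb x
          rw [← hb00, mul_zero] at h3
          exact absurd hx (not_lt.2 h3)
        rw [h2, measure_empty, mul_zero, add_zero] at h1
        refine h1.trans ?_
        simp
      · -- the main case
        set l : ℝ := (2 : ℝ) ^ (-(ε / 2 * m)) with hl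
        have hl0 : 0 < l := Real.rpow_pos_of_pos (by norm_num) _
        have hl1 : l ≤ 1 := by
          apply Real.rpow_le_one_of_one_le_of_nonpos (by norm_num)
          have : 0 ≤ ε / 2 * m := by positivity
          linarith
        have hl2 : l ^ 2 = (2 : ℝ) ^ (-(ε * m)) := by
          rw [hl, ← Real.rpow_natCast, ← Real.rpow_mul (by norm_num)]
          congr 1
          push_cast
          ring
        have hlN : (2 : ℝ) ^ (-(m / 24 : ℝ)) ≤ l ^ N := by
          rw [hl, ← Real.rpow_natCast, ← Real.rpow_mul (by norm_num)]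
          apply Real.rpow_le_rpow_of_exponent_le (by norm_num)
          have h1 : ε / 2 * m * N ≤ m / 24 := by
            have h2 : ε * N ≤ 1 / 12 := by
              rw [hε, div_mul_eq_mul_div, div_le_div_iff₀ (by positivity) (by norm_num)]
              nlinarith
            have h3 : (0 : ℝ) ≤ m := Nat.cast_nonneg m
            nlinarith
          linarith
        -- the scaled function
        set q' : E 2 → ℝ := fun y => b⁻¹ * q y with hq'
        have hq'b : Bdd r q' := by
          refine ⟨hq.meas.const_mul _, ⟨1, fun y => ?_⟩, fun y hy => ?_⟩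
          · show |b⁻¹ * q y| ≤ 1
            rw [abs_mul, abs_of_pos (inv_pos.2 hbp), inv_mul_le_iff₀ hbp, mul_one]
            exact hb y
          · show b⁻¹ * q y = 0
            rw [hq.supp y hy, mul_zero]
        have hq'1 : ∀ y, |q' y| ≤ 1 := by
          intro y
          show |b⁻¹ * q y| ≤ 1
          rw [abs_mul, abs_of_pos (inv_pos.2 hbp), inv_mul_le_iff₀ hbp, mul_one]
          exact hb y
        have hsub : {x | ENNReal.ofReal (2 * l * b) < SmoQ_W S m j q x} ∩
            closedBall (0 : E 2) (√2) ⊆ ⋃ x0 ∈ F, {x ∈ closedBall x0 (1 / 16) |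
              ∃ t ∈ Icc (1 / 2 : ℝ) (5 / 2), l ≤ |aF S m j q' x t| ∨ l ≤ ‖vF S m j q' x t‖} := by
          rintro x ⟨hx, hx2⟩
          obtain ⟨x0, hx0, hxx⟩ := mem_iUnion₂.1 (hTc hx2)
          refine mem_iUnion₂.2 ⟨x0, hFF ▸ hTf.mem_toFinset.2 hx0, ball_subset_closedBall hxx, ?_⟩
          by_contra hcon
          push Not at hcon
          apply absurd hx
          rw [mem_ofPred_eq, not_lt]
          unfold SmoQ_W
          refine iSup₂_le fun t ht => ?_
          obtain ⟨h1, h2⟩ := hcon t ht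
          rw [hq', SmoQ_aF, abs_mul, abs_of_pos (inv_pos.2 hbp), inv_mul_lt_iff₀ hbp] at h1
          rw [hq', SmoQ_vF, norm_smul, Real.norm_of_nonneg (inv_pos.2 hbp).le,
            inv_mul_lt_iff₀ hbp] at h2
          rw [← ofReal_norm, ← ofReal_norm, ← ENNReal.ofReal_add (norm_nonneg _)
            (norm_nonneg _)]
          apply ENNReal.ofReal_le_ofReal
          rw [Real.norm_eq_abs]
          linarith
        have hmu : volume ({x | ENNReal.ofReal (2 * l * b) < SmoQ_W S m j q x} ∩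
            closedBall (0 : E 2) (√2)) ≤ ENNReal.ofReal (D * (2 : ℝ) ^ (-(ε * m))) := by
          refine (measure_mono hsub).trans ((measure_biUnion_finset_le F _).trans ?_)
          refine (Finset.sum_le_sum fun x0 _ =>
            hom m q' hm hq'b hq'1 j hj l hl0 hl1 x0).trans ?_
          rw [Finset.sum_const, nsmul_eq_mul, ← ENNReal.ofReal_natCast,
            ← ENNReal.ofReal_mul (Nat.cast_nonneg _)]
          apply ENNReal.ofReal_le_ofReal
          have hp24 : (0 : ℝ) < (2 : ℝ) ^ (-(m / 24 : ℝ)) := Real.rpow_pos_of_pos (by norm_num) _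
          have h1 : C2 * ((m : ℝ) + 1) ^ 2 * (2 : ℝ) ^ (-(m / 6 : ℝ)) / l ^ N ≤
              C2 * 10000 * (2 : ℝ) ^ (-(ε * m)) := by
            have h2 : C2 * ((m : ℝ) + 1) ^ 2 * (2 : ℝ) ^ (-(m / 6 : ℝ)) / l ^ N ≤
                C2 * (10000 * (2 : ℝ) ^ (m / 24 : ℝ)) * (2 : ℝ) ^ (-(m / 6 : ℝ)) /
                  (2 : ℝ) ^ (-(m / 24 : ℝ)) := by
              have := SmoQ_log m
              gcongr
            refine h2.trans ?_
            have h3 : C2 * (10000 * (2 : ℝ) ^ (m / 24 : ℝ)) * (2 : ℝ) ^ (-(m / 6 : ℝ)) /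
                  (2 : ℝ) ^ (-(m / 24 : ℝ)) = C2 * 10000 * (2 : ℝ) ^ (-(1 / 12 * m : ℝ)) := by
              rw [Real.rpow_neg (by norm_num) (m / 24 : ℝ), div_inv_eq_mul]
              have h4 : (2 : ℝ) ^ (-(1 / 12 * m : ℝ)) = (2 : ℝ) ^ (m / 24 : ℝ) *
                  (2 : ℝ) ^ (-(m / 6 : ℝ)) * (2 : ℝ) ^ (m / 24 : ℝ) := by
                rw [← Real.rpow_add (by norm_num), ← Real.rpow_add (by norm_num)]
                congr 1
                ring
              rw [h4]
              ring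
            rw [h3]
            have h5 : (2 : ℝ) ^ (-(1 / 12 * m : ℝ)) ≤ (2 : ℝ) ^ (-(ε * m)) := by
              apply Real.rpow_le_rpow_of_exponent_le (by norm_num)
              have h6 : ε * m ≤ 1 / 12 * m := mul_le_mul_of_nonneg_right hε1 (Nat.cast_nonneg m)
              linarith
            gcongr
          rw [← hnF]
          calc nF * (C2 * ((m : ℝ) + 1) ^ 2 * (2 : ℝ) ^ (-(m / 6 : ℝ)) / l ^ N)
              ≤ nF * (C2 * 10000 * (2 : ℝ) ^ (-(ε * m))) := mul_le_mul_of_nonneg_left h1 hnF0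
            _ = D * (2 : ℝ) ^ (-(ε * m)) := by
                rw [hD]
                ring
        have h1 := hgen (2 * l * b) (by positivity)
        refine h1.trans ?_
        have hP : 0 < (2 : ℝ) ^ (-(ε * m)) := Real.rpow_pos_of_pos (by norm_num) _
        calc ENNReal.ofReal ((2 * l * b) ^ 2) * V + ENNReal.ofReal ((2 * C1 * b) ^ 2) *
              volume ({x | ENNReal.ofReal (2 * l * b) < SmoQ_W S m j q x} ∩
                closedBall (0 : E 2) (√2))
            ≤ ENNReal.ofReal ((2 * l * b) ^ 2) * ENNReal.ofReal v +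
                ENNReal.ofReal ((2 * C1 * b) ^ 2) *
                  ENNReal.ofReal (D * (2 : ℝ) ^ (-(ε * m))) := by
              rw [hVv]
              gcongr
          _ = ENNReal.ofReal ((2 * l * b) ^ 2 * v +
                (2 * C1 * b) ^ 2 * (D * (2 : ℝ) ^ (-(ε * m)))) := by
              rw [← ENNReal.ofReal_mul (by positivity), ← ENNReal.ofReal_mul (by positivity),
                ← ENNReal.ofReal_add (by positivity) (by positivity)]
          _ ≤ _ := by
              apply ENNReal.ofReal_le_ofReal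
              have h2 : (2 * l * b) ^ 2 * v + (2 * C1 * b) ^ 2 * (D * (2 : ℝ) ^ (-(ε * m))) =
                  (4 * v + 4 * C1 ^ 2 * D) * ((2 : ℝ) ^ (-(ε * m)) * b ^ 2) := by
                rw [mul_pow, mul_pow 2 l, hl2]
                ring
              rw [h2]
              refine mul_le_mul_of_nonneg_right ?_ (by positivity)
              have h3 : 0 ≤ 8 * C1 ^ 2 * v := by positivity
              rw [hCC]
              linarith

end Pool.Agent.Lib.MP_ff3fe0_an_SPH2
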