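import Pool.Agent.Lib.MP_ff3fe0_an_SPH2.SmoQ
import Pool.Agent.Lib.MP_ff3fe0_an_SPH.SphN
import Pool.Agent.Lib.MP_ff3fe0_an_SPH.MinkA

set_option autoImplicit false

/-!
# The circular maximal function of a small set
-/

namespace Pool.Agent.Lib.MP_ff3fe0_an_SPH2

open MeasureTheory Metric Set
open scoped ENNReal NNReal ContDiff FourierTransform
open Pool.Agent.Lib.MP_ff3fe0_an
open Pool.Agent.Lib.MP_ff3fe0_an_SPH

section Base

variable {d : ℕ}

private noncomputable def SphO_D (K : Ker d) : E d → ℝ :=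
  fun y => K.Psi y - (2 ^ d)⁻¹ * K.Psi ((2 : ℝ)⁻¹ • y)

private theorem SphO_half (K : Ker d) (y : E d) (hy : 1 < ‖y‖) : K.Psi ((2 : ℝ)⁻¹ • y) = 0 := by
  refine K.Psi_half _ ?_
  rw [norm_smul, Real.norm_of_nonneg (by norm_num)]
  linarith

private theorem SphO_D_ker (K : Ker d) : IsKer (SphO_D K) := by
  refine ⟨?_, fun y hy => ?_⟩
  · exact K.hPsi.smooth.sub
      (contDiff_const.mul (K.hPsi.smooth.comp (contDiff_const_smul (2 : ℝ)⁻¹)))
  · have h1 : K.Psi y = 0 := K.Psi_half y (by linarith)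
    have h2 := SphO_half K y hy
    simp [SphO_D, h1, h2]

private theorem SphO_int {k g : E d → ℝ} (hk : Continuous k) (hs : ∀ y, 1 < ‖y‖ → k y = 0)
    (hg : Continuous g) (b : ℝ) (x : E d) : Integrable (fun y => k y * g (x - b • y)) := by
  have h1 : HasCompactSupport k :=
    HasCompactSupport.intro (isCompact_closedBall 0 1) (fun y hy => hs y (by simpa using hy))
  refine Continuous.integrable_of_hasCompactSupport (hk.mul (hg.comp (by fun_prop))) ?_
  exact h1.mul_right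

private theorem SphO_cv (K : Ker d) {g : E d → ℝ} (hg : Continuous g) (b : ℝ) (x : E d) :
    cv (SphO_D K) b g x = cv K.Psi b g x - cv K.Psi (2 * b) g x := by
  rw [← cv_dil K.Psi b g x]
  unfold cv SphO_D
  rw [← integral_sub]
  · refine integral_congr_ae (Filter.Eventually.of_forall fun y => ?_)
    show (K.Psi y - (2 ^ d)⁻¹ * K.Psi ((2 : ℝ)⁻¹ • y)) * g (x - b • y) = _
    ring
  · exact SphO_int K.hPsi.smooth.continuous K.hPsi.supp hg b x
  · refine SphO_int (k := fun y => (2 ^ d)⁻¹ * K.Psi ((2 : ℝ)⁻¹ • y)) ?_ (fun y hy => ?_) hg b x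
    · exact continuous_const.mul (K.hPsi.smooth.continuous.comp (continuous_const_smul (2 : ℝ)⁻¹))
    · show (2 ^ d)⁻¹ * K.Psi ((2 : ℝ)⁻¹ • y) = 0
      rw [SphO_half K y hy, mul_zero]

private theorem SphO_sc (m : ℕ) : 2 * sc (m + 1) = sc m := by
  unfold sc
  rw [pow_succ]
  ring

private theorem SphO_sc_pos (m : ℕ) : 0 < sc m := by
  unfold sc
  positivity

private theorem SphO_tele (K : Ker d) {g : E d → ℝ} (hg : Continuous g) (M : ℕ) (x : E d) :
    cv K.Psi (sc M) g x =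
      cv K.Psi 1 g x + ∑ m ∈ Finset.range M, cv (SphO_D K) (sc (m + 1)) g x := by
  induction M with
  | zero => simp [sc]
  | succ M ih =>
    rw [Finset.sum_range_succ, ← add_assoc, ← ih, SphO_cv K hg, SphO_sc]
    ring

private theorem SphO_sm_tele (hd : 0 < d) (K : Ker d) {g : E d → ℝ} (hg : Continuous g) (M : ℕ)
    (t : ℝ) (x : E d) : sm (cv K.Psi (sc M) g) t x =
      sm (cv K.Psi 1 g) t x + ∑ m ∈ Finset.range M, sm (cv (SphO_D K) (sc (m + 1)) g) t x := by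
  have h0 : cv K.Psi (sc M) g = fun y => cv K.Psi 1 g y +
      (fun z => ∑ m ∈ Finset.range M, cv (SphO_D K) (sc (m + 1)) g z) y := by
    funext y
    exact SphO_tele K hg M y
  have hc : ∀ m : ℕ, Continuous (cv (SphO_D K) (sc (m + 1)) g) := fun m =>
    (cv_contDiff (SphO_D_ker K) (SphO_sc_pos _) hg.locallyIntegrable).continuous
  rw [h0, sm_add hd (cv_contDiff K.hPsi one_pos hg.locallyIntegrable).continuous
    (continuous_finsetSum _ fun m _ => hc m), sm_sum hd _ _ (fun m _ => hc m)]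

private theorem SphO_bd (K : Ker d) {g : E d → ℝ} {C : ℝ} (hC : ∀ y, ‖g y‖ ≤ C) (b : ℝ)
    (x : E d) : ‖cv K.Psi b g x‖ ≤ ∫ y, ‖K.Psi y‖ * C := by
  unfold cv
  refine norm_integral_le_of_norm_le ?_ (Filter.Eventually.of_forall fun y => ?_)
  · have h1 : HasCompactSupport K.Psi := HasCompactSupport.intro (isCompact_closedBall 0 1)
      (fun y hy => K.hPsi.supp y (by simpa using hy))
    exact ((K.hPsi.smooth.continuous.integrable_of_hasCompactSupport h1).norm).mul_const C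
  · rw [norm_mul]
    exact mul_le_mul_of_nonneg_left (hC _) (norm_nonneg _)

private theorem SphO_sc_lim : Filter.Tendsto sc Filter.atTop (nhds 0) := by
  unfold sc
  exact tendsto_pow_atTop_nhds_zero_of_lt_one (by norm_num) (by norm_num)

private theorem SphO_lim (K : Ker d) {g : E d → ℝ} (hg : Continuous g) {C : ℝ}
    (hC : ∀ y, ‖g y‖ ≤ C) (x : E d) :
    Filter.Tendsto (fun M => cv K.Psi (sc M) g x) Filter.atTop (nhds (g x)) := by
  have h1 : HasCompactSupport K.Psi := HasCompactSupport.intro (isCompact_closedBall 0 1)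
    (fun y hy => K.hPsi.supp y (by simpa using hy))
  have h2 : g x = ∫ y, K.Psi y * g x := by
    rw [integral_mul_const, K.Psi_int, one_mul]
  rw [h2]
  unfold cv
  refine tendsto_integral_of_dominated_convergence (fun y => ‖K.Psi y‖ * C) ?_ ?_ ?_ ?_
  · intro M
    exact (K.hPsi.smooth.continuous.mul (hg.comp (by fun_prop))).aestronglyMeasurable
  · exact ((K.hPsi.smooth.continuous.integrable_of_hasCompactSupport h1).norm).mul_const C
  · intro M
    refine Filter.Eventually.of_forall fun y => ?_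
    rw [norm_mul]
    exact mul_le_mul_of_nonneg_left (hC _) (norm_nonneg _)
  · refine Filter.Eventually.of_forall fun y => ?_
    refine Filter.Tendsto.const_mul _ ?_
    have h3 : Filter.Tendsto (fun M => x - sc M • y) Filter.atTop (nhds (x - (0 : ℝ) • y)) :=
      (SphO_sc_lim.smul_const y).const_sub x
    rw [zero_smul, sub_zero] at h3
    exact (hg.tendsto x).comp h3

private theorem SphO_sm_lim (hd : 0 < d) (K : Ker d) {g : E d → ℝ} (hg : Continuous g) {C : ℝ}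
    (hC : ∀ y, ‖g y‖ ≤ C) (t : ℝ) (x : E d) :
    Filter.Tendsto (fun M => sm (cv K.Psi (sc M) g) t x) Filter.atTop (nhds (sm g t x)) := by
  have := sigma_prob hd
  unfold sm
  refine tendsto_integral_of_dominated_convergence (fun _ => ∫ y, ‖K.Psi y‖ * C) ?_ ?_ ?_ ?_
  · intro M
    have h1 := (cv_contDiff K.hPsi (SphO_sc_pos M) hg.locallyIntegrable).continuous
    exact (h1.comp (by fun_prop)).aestronglyMeasurable
  · exact integrable_const _
  · intro M
    exact Filter.Eventually.of_forall fun w => SphO_bd K hC _ _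
  · exact Filter.Eventually.of_forall fun w => SphO_lim K hg hC _

private noncomputable def SphO_A (g : E d → ℝ) (x : E d) : ℝ≥0∞ :=
  ∫⁻ z in closedBall (0 : E d) 3, ‖g (x - z)‖ₑ

private theorem SphO_A_meas {g : E d → ℝ} (hg : Continuous g) : Measurable (SphO_A g) := by
  unfold SphO_A
  have h1 : Measurable (fun p : E d × E d => ‖g (p.1 - p.2)‖ₑ) :=
    (hg.comp (by fun_prop : Continuous fun p : E d × E d => p.1 - p.2)).measurable.enorm
  exact h1.lintegral_prod_right'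

private theorem SphO_shift (g : E d → ℝ) (x v : E d) (hv : ‖v‖ ≤ 2) :
    ∫⁻ y in closedBall (0 : E d) 1, ‖g (x - v - (1 : ℝ) • y)‖ₑ ≤ SphO_A g x := by
  unfold SphO_A
  rw [← lintegral_indicator measurableSet_closedBall, ← lintegral_indicator
    measurableSet_closedBall]
  rw [← lintegral_add_right_eq_self ((closedBall (0 : E d) 3).indicator
    (fun z => ‖g (x - z)‖ₑ)) v]
  refine lintegral_mono fun y => ?_
  by_cases hy : y ∈ closedBall (0 : E d) 1
  · have h1 : y + v ∈ closedBall (0 : E d) 3 := by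
      rw [mem_closedBall_zero_iff] at hy ⊢
      have := norm_add_le y v
      linarith
    rw [indicator_of_mem hy, indicator_of_mem h1, one_smul, sub_sub, add_comm v y]
  · rw [indicator_of_notMem hy]
    exact bot_le

private theorem SphO_low (hd : 0 < d) (K : Ker d) : ∃ C : ℝ≥0, ∀ (g : E d → ℝ), Continuous g →
    ∀ (t : ℝ) (x : E d), t ∈ Icc (1 : ℝ) 2 → ‖sm (cv K.Psi 1 g) t x‖ₑ ≤ C * SphO_A g x := by
  have := sigma_prob hd
  obtain ⟨C, hC⟩ := cv_le K.hPsi
  refine ⟨C, fun g _ t x ht => ?_⟩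
  unfold sm
  refine (enorm_integral_le_lintegral_enorm _).trans ?_
  calc ∫⁻ w : Sph d, ‖cv K.Psi 1 g (x - t • (w : E d))‖ₑ ∂(sigma d)
      ≤ ∫⁻ _ : Sph d, C * SphO_A g x ∂(sigma d) := by
        refine lintegral_mono fun w => (hC 1 g (x - t • (w : E d))).trans ?_
        refine mul_le_mul_right (SphO_shift g x (t • (w : E d)) ?_) _
        have hw : ‖(w : E d)‖ = 1 := by
          have := w.2
          rwa [mem_sphere_zero_iff_norm] at this
        rw [norm_smul, hw, mul_one, Real.norm_of_nonneg (by linarith [ht.1])]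
        exact ht.2
    _ = C * SphO_A g x := by rw [lintegral_const, measure_univ, mul_one]

private theorem SphO_cs {α : Type*} [MeasurableSpace α] (μ : Measure α) {f : α → ℝ≥0∞}
    (hf : Measurable f) : (∫⁻ x, f x ∂μ) ^ 2 ≤ μ univ * ∫⁻ x, f x ^ 2 ∂μ := by
  have h1 := ENNReal.lintegral_mul_le_Lp_mul_Lq μ Real.HolderConjugate.two_two
    (f := f) (g := fun _ => 1) hf.aemeasurable aemeasurable_const
  simp only [Pi.mul_apply, mul_one, ENNReal.one_rpow, lintegral_const, one_mul] at h1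
  calc (∫⁻ x, f x ∂μ) ^ 2 ≤ ((∫⁻ a, f a ^ (2 : ℝ) ∂μ) ^ (1 / 2 : ℝ) * μ univ ^ (1 / 2 : ℝ)) ^ 2 :=
        pow_le_pow_left' h1 2
    _ = μ univ * ∫⁻ x, f x ^ 2 ∂μ := by
        rw [mul_pow, ← ENNReal.rpow_natCast, ← ENNReal.rpow_mul, ← ENNReal.rpow_natCast,
          ← ENNReal.rpow_mul]
        norm_num
        rw [mul_comm]

private theorem SphO_A_sq {g : E d → ℝ} (hg : Continuous g) :
    ∫⁻ x, SphO_A g x ^ 2 ≤ volume (closedBall (0 : E d) 3) ^ 2 * ∫⁻ y, ‖g y‖ₑ ^ 2 := by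
  have hm : Measurable (fun p : E d × E d => ‖g (p.1 - p.2)‖ₑ ^ 2) :=
    (hg.comp (by fun_prop : Continuous fun p : E d × E d => p.1 - p.2)).measurable.enorm.pow_const 2
  have h1 : ∀ x, SphO_A g x ^ 2 ≤ volume (closedBall (0 : E d) 3) *
      ∫⁻ z in closedBall (0 : E d) 3, ‖g (x - z)‖ₑ ^ 2 := by
    intro x
    have h2 := SphO_cs (volume.restrict (closedBall (0 : E d) 3)) (f := fun z => ‖g (x - z)‖ₑ)
      ((hg.comp (by fun_prop : Continuous fun z : E d => x - z)).measurable.enorm)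
    rw [Measure.restrict_apply_univ] at h2
    exact h2
  calc ∫⁻ x, SphO_A g x ^ 2 ≤ ∫⁻ x, volume (closedBall (0 : E d) 3) *
        ∫⁻ z in closedBall (0 : E d) 3, ‖g (x - z)‖ₑ ^ 2 := lintegral_mono h1
    _ = volume (closedBall (0 : E d) 3) *
        ∫⁻ x, ∫⁻ z in closedBall (0 : E d) 3, ‖g (x - z)‖ₑ ^ 2 :=
        lintegral_const_mul _ hm.lintegral_prod_right'
    _ = volume (closedBall (0 : E d) 3) *
        ∫⁻ z in closedBall (0 : E d) 3, ∫⁻ x, ‖g (x - z)‖ₑ ^ 2 := by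
        rw [lintegral_lintegral_swap hm.aemeasurable]
    _ = volume (closedBall (0 : E d) 3) *
        ∫⁻ _ in closedBall (0 : E d) 3, ∫⁻ x, ‖g x‖ₑ ^ 2 := by
        congr 1
        refine lintegral_congr fun z => ?_
        exact lintegral_sub_right_eq_self (fun x => ‖g x‖ₑ ^ 2) z
    _ = volume (closedBall (0 : E d) 3) ^ 2 * ∫⁻ y, ‖g y‖ₑ ^ 2 := by
        rw [lintegral_const, Measure.restrict_apply_univ]
        ring

private theorem SphO_sq (a b : ℝ≥0∞) : (a + b) ^ 2 ≤ 4 * (a ^ 2 + b ^ 2) := by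
  have h1 : a + b ≤ 2 * max a b := by
    rw [two_mul]
    exact add_le_add (le_max_left _ _) (le_max_right _ _)
  calc (a + b) ^ 2 ≤ (2 * max a b) ^ 2 := pow_le_pow_left' h1 2
    _ = 4 * max a b ^ 2 := by rw [mul_pow]; norm_num
    _ ≤ 4 * (a ^ 2 + b ^ 2) := by
        refine mul_le_mul_right ?_ _
        rcases le_total a b with h | h
        · rw [max_eq_right h]
          exact le_add_self
        · rw [max_eq_left h]
          exact le_self_add

/-- continuous compactly supported functions increasing to the indicator of an open set -/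
private noncomputable def SphO_g (U : Set (E d)) (n : ℕ) (x : E d) : ℝ :=
  (min 1 ((n : ℝ≥0∞) * infEDist x Uᶜ)).toReal * max 0 (min 1 (n - ‖x‖))

private theorem SphO_g_nonneg (U : Set (E d)) (n : ℕ) (x : E d) : 0 ≤ SphO_g U n x :=
  mul_nonneg ENNReal.toReal_nonneg (le_max_left _ _)

private theorem SphO_min_ne (U : Set (E d)) (n : ℕ) (x : E d) :
    min 1 ((n : ℝ≥0∞) * infEDist x Uᶜ) ≠ ⊤ :=
  ne_top_of_le_ne_top ENNReal.one_ne_top (min_le_left _ _)

private theorem SphO_min_le (U : Set (E d)) (n : ℕ) (x : E d) :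
    (min 1 ((n : ℝ≥0∞) * infEDist x Uᶜ)).toReal ≤ 1 := by
  have h := ENNReal.toReal_mono ENNReal.one_ne_top (min_le_left 1 ((n : ℝ≥0∞) * infEDist x Uᶜ))
  rwa [ENNReal.toReal_one] at h

private theorem SphO_g_cont (U : Set (E d)) (n : ℕ) : Continuous (SphO_g U n) := by
  refine Continuous.mul ?_ (by fun_prop)
  have h1 : Continuous fun x : E d => min 1 ((n : ℝ≥0∞) * infEDist x Uᶜ) :=
    continuous_const.min ((ENNReal.continuous_const_mul (ENNReal.natCast_ne_top n)).comp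
      continuous_infEDist)
  exact ENNReal.continuousOn_toReal.comp_continuous h1 fun x => SphO_min_ne U n x

private theorem SphO_g_supp (U : Set (E d)) (n : ℕ) : HasCompactSupport (SphO_g U n) := by
  refine HasCompactSupport.intro (isCompact_closedBall (0 : E d) n) fun x hx => ?_
  rw [mem_closedBall_zero_iff, not_le] at hx
  unfold SphO_g
  rw [max_eq_left, mul_zero]
  exact (min_le_right _ _).trans (by linarith)

private theorem SphO_g_le (U : Set (E d)) (n : ℕ) (x : E d) : SphO_g U n x ≤ 1 := by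
  have h1 := SphO_min_le U n x
  have h2 : max 0 (min 1 ((n : ℝ) - ‖x‖)) ≤ 1 := max_le zero_le_one (min_le_left _ _)
  have h3 : (0 : ℝ) ≤ max 0 (min 1 ((n : ℝ) - ‖x‖)) := le_max_left _ _
  unfold SphO_g
  calc _ ≤ 1 * max 0 (min 1 ((n : ℝ) - ‖x‖)) := mul_le_mul_of_nonneg_right h1 h3
    _ ≤ 1 := by rw [one_mul]; exact h2

private theorem SphO_g_mono (U : Set (E d)) (x : E d) : Monotone fun n => SphO_g U n x := by
  intro n m hnm
  have hnm' : (n : ℝ≥0∞) ≤ m := by exact_mod_cast hnm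
  have hnm'' : (n : ℝ) ≤ m := by exact_mod_cast hnm
  refine mul_le_mul ?_ ?_ (le_max_left _ _) ENNReal.toReal_nonneg
  · exact ENNReal.toReal_mono (SphO_min_ne U m x) (min_le_min_left _ (by gcongr))
  · exact max_le_max_left _ (min_le_min_left _ (by linarith))

private theorem SphO_g_zero {U : Set (E d)} (n : ℕ) {x : E d} (hx : x ∉ U) :
    SphO_g U n x = 0 := by
  unfold SphO_g
  have h1 : infEDist x Uᶜ = 0 := infEDist_zero_of_mem hx
  rw [h1, mul_zero, min_eq_right zero_le_one, ENNReal.toReal_zero, zero_mul]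

private theorem SphO_g_one {U : Set (E d)} (hU : IsOpen U) {x : E d} (hx : x ∈ U) :
    ∃ n, SphO_g U n x = 1 := by
  have h1 : infEDist x Uᶜ ≠ 0 := by
    intro h
    have h2 : x ∈ closure Uᶜ := mem_closure_iff_infEDist_zero.2 h
    rw [hU.isClosed_compl.closure_eq] at h2
    exact h2 hx
  obtain ⟨n1, hn1⟩ : ∃ n : ℕ, 1 ≤ (n : ℝ≥0∞) * infEDist x Uᶜ := by
    by_cases htop : infEDist x Uᶜ = ⊤
    · exact ⟨1, by rw [htop]; simp⟩
    · obtain ⟨n, hn⟩ := ENNReal.exists_nat_gt (ENNReal.inv_ne_top.2 h1)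
      refine ⟨n, ?_⟩
      have h3 := mul_le_mul_left hn.le (infEDist x Uᶜ)
      rwa [ENNReal.inv_mul_cancel h1 htop] at h3
  obtain ⟨n2, hn2⟩ := exists_nat_ge (‖x‖ + 1)
  refine ⟨max n1 n2, ?_⟩
  have e1 : (n1 : ℝ≥0∞) ≤ ((max n1 n2 : ℕ) : ℝ≥0∞) := by exact_mod_cast le_max_left n1 n2
  have e2 : (n2 : ℝ) ≤ ((max n1 n2 : ℕ) : ℝ) := by exact_mod_cast le_max_right n1 n2
  unfold SphO_g
  rw [min_eq_left (hn1.trans (by gcongr)), min_eq_left (by linarith), max_eq_right zero_le_one,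
    ENNReal.toReal_one, mul_one]

private theorem SphO_iSup {U : Set (E d)} (hU : IsOpen U) (x : E d) :
    ⨆ n, ENNReal.ofReal (SphO_g U n x) = U.indicator (fun _ => 1) x := by
  by_cases hx : x ∈ U
  · rw [indicator_of_mem hx]
    obtain ⟨n, hn⟩ := SphO_g_one hU hx
    refine le_antisymm (iSup_le fun m => ?_) ?_
    · exact ENNReal.ofReal_le_one.2 (SphO_g_le U m x)
    · refine le_iSup_of_le n ?_
      rw [hn, ENNReal.ofReal_one]
  · rw [indicator_of_notMem hx]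
    refine le_antisymm (iSup_le fun m => ?_) bot_le
    rw [SphO_g_zero m hx, ENNReal.ofReal_zero]

/-- the maximal function of a continuous function of compact support is measurable -/
private theorem SphO_meas (hd : 0 < d) {g : E d → ℝ} (hg : Continuous g) :
    Measurable fun x => ⨆ t : ℝ, ⨆ _ : t ∈ Icc (1 : ℝ) 2, ENNReal.ofReal (sm g t x) := by
  have := sigma_prob hd
  refine LowerSemicontinuous.measurable ?_
  refine lowerSemicontinuous_biSup fun t _ => Continuous.lowerSemicontinuous ?_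
  refine ENNReal.continuous_ofReal.comp ?_
  unfold sm
  have h1 : Continuous (Function.uncurry fun (x : E d) (w : Sph d) => g (x - t • (w : E d))) := by
    unfold Function.uncurry
    fun_prop
  have h2 := continuous_parametric_integral_of_continuous (μ := sigma d) h1 isCompact_univ
  simpa using h2

private theorem SphO_sup (hd : 0 < d) {U : Set (E d)} (hU : IsOpen U) (x : E d) :
    (⨆ t : ℝ, ⨆ _ : t ∈ Icc (1 : ℝ) 2, sigma d {w : Sph d | x - t • (w : E d) ∈ U}) =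
      ⨆ n : ℕ, ⨆ t : ℝ, ⨆ _ : t ∈ Icc (1 : ℝ) 2, ENNReal.ofReal (sm (SphO_g U n) t x) := by
  have := sigma_prob hd
  have h1 : ∀ t : ℝ, sigma d {w : Sph d | x - t • (w : E d) ∈ U} =
      ⨆ n : ℕ, ENNReal.ofReal (sm (SphO_g U n) t x) := by
    intro t
    have hc : Continuous fun w : Sph d => x - t • (w : E d) := by fun_prop
    have h2 : ∀ n : ℕ, ENNReal.ofReal (sm (SphO_g U n) t x) =
        ∫⁻ w : Sph d, ENNReal.ofReal (SphO_g U n (x - t • (w : E d))) ∂(sigma d) := by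
      intro n
      refine ofReal_integral_eq_lintegral_ofReal ?_
        (Filter.Eventually.of_forall fun w => SphO_g_nonneg U n _)
      exact ((SphO_g_cont U n).comp hc).integrable_of_hasCompactSupport
        (HasCompactSupport.of_compactSpace _)
    simp_rw [h2]
    rw [← lintegral_iSup]
    · simp_rw [SphO_iSup hU]
      show sigma d ((fun w : Sph d => x - t • (w : E d)) ⁻¹' U) = _
      rw [← lintegral_indicator_one (hc.isOpen_preimage U hU).measurableSet]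
      rfl
    · exact fun n => (ENNReal.continuous_ofReal.comp ((SphO_g_cont U n).comp hc)).measurable
    · exact fun n m hnm w => ENNReal.ofReal_le_ofReal (SphO_g_mono U _ hnm)
  simp_rw [h1]
  refine le_antisymm ?_ ?_
  · exact iSup_le fun t => iSup_le fun ht => iSup_le fun n =>
      le_iSup_of_le n (le_iSup₂_of_le t ht le_rfl)
  · exact iSup_le fun n => iSup_le fun t => iSup_le fun ht =>
      le_iSup₂_of_le t ht (le_iSup_of_le n le_rfl)

private theorem SphO_pow (a : ℕ → ℝ≥0∞) : (⨆ n, a n) ^ 2 = ⨆ n, a n ^ 2 := by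
  have h1 : (⨆ n, a n) ^ (2 : ℝ) = ⨆ n, a n ^ (2 : ℝ) :=
    (ENNReal.orderIsoRpow 2 (by norm_num)).map_iSup a
  have h2 : ∀ b : ℝ≥0∞, b ^ (2 : ℝ) = b ^ 2 := fun b => by
    rw [← ENNReal.rpow_natCast]
    norm_num
  simp_rw [h2] at h1
  exact h1

private theorem SphO_mono (hd : 0 < d) (U : Set (E d)) (x : E d) : Monotone fun n : ℕ =>
    ⨆ t : ℝ, ⨆ _ : t ∈ Icc (1 : ℝ) 2, ENNReal.ofReal (sm (SphO_g U n) t x) := by
  have := sigma_prob hd
  intro n m hnm
  refine iSup₂_mono fun t _ => ENNReal.ofReal_le_ofReal ?_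
  have hc : Continuous fun w : Sph d => x - t • (w : E d) := by fun_prop
  have hi : ∀ n : ℕ, Integrable (fun w : Sph d => SphO_g U n (x - t • (w : E d))) (sigma d) :=
    fun n => ((SphO_g_cont U n).comp hc).integrable_of_hasCompactSupport
      (HasCompactSupport.of_compactSpace _)
  exact integral_mono (hi n) (hi m) fun w => SphO_g_mono U _ hnm

end Base

private theorem SphO_two {S : E 2 → ℝ} (hS : IsKer S) (m : ℕ) {r : ℝ} {q : E 2 → ℝ}
    (hq : Bdd r q) (x : E 2) {t : ℝ} {w : ℝ≥0∞}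
    (h : ∀ c : E 2, ‖c‖ ≤ 1 → XX S m 0 q c x t ≤ w) :
    ‖sm (cv S (sc m) q) t x‖ₑ ≤ w := by
  have h0 : aF S m 0 q x t = sm (cv S (sc m) q) t x := by
    unfold aF
    rw [pow_zero, one_mul, iteratedDeriv_zero]
  obtain ⟨c, hc1⟩ : ∃ c : E 2, ‖c‖ = 1 := ⟨EuclideanSpace.single 0 1, by simp⟩
  have h1 := h c hc1.le
  have h2 := h (-c) (by rw [norm_neg]; exact hc1.le)
  rw [XX_eq hS m 0 hq, h0] at h1 h2
  set a := sm (cv S (sc m) q) t x with ha
  set v := vF S m 0 q x t with hv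
  have h3 : ‖(2 : ℝ) • (a • c)‖ₑ ≤ w + w := by
    have h4 : (2 : ℝ) • (a • c) = (v - a • (-c)) - (v - a • c) := by
      rw [smul_neg, two_smul]
      abel
    rw [h4]
    exact (enorm_sub_le).trans (add_le_add h2 h1)
  have hc2 : ‖c‖ₑ = 1 := by rw [← ofReal_norm, hc1, ENNReal.ofReal_one]
  have h22 : ‖(2 : ℝ)‖ₑ = 2 := by
    rw [← ofReal_norm]
    simp
  rw [enorm_smul, enorm_smul, hc2, mul_one, h22, ← two_mul] at h3
  exact (ENNReal.mul_le_mul_iff_right (by norm_num) (by norm_num)).1 h3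

/-- The bound for continuous functions. -/
private theorem SphO_main (K : Ker 2) : ∃ C1 C2 C3 ρ : ℝ≥0∞, C1 ≠ ⊤ ∧ C2 ≠ ⊤ ∧ C3 ≠ ⊤ ∧ ρ < 1 ∧
    ∀ (M0 : ℕ) (g : E 2 → ℝ), Continuous g → (∀ x, 0 ≤ g x) → (∀ x, g x ≤ 1) →
      (∀ x, 10 < ‖x‖ → g x = 0) →
      ∫⁻ x in closedBall (0 : E 2) 1,
        (⨆ t : ℝ, ⨆ _ : t ∈ Icc (1 : ℝ) 2, ENNReal.ofReal (sm g t x)) ^ 2 ≤
        4 * (C1 * (∫⁻ y, ‖g y‖ₑ ^ 2) +
          (M0 * (C2 * ∫⁻ y, ‖g y‖ₑ ^ 2) ^ (1 / 2 : ℝ) + C3 * ρ ^ M0) ^ 2) := by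
  have hd0 : 0 < 2 := by norm_num
  have hD := SphO_D_ker K
  obtain ⟨C1, hC1⟩ := SphO_low hd0 K
  obtain ⟨C2, hC2⟩ := Lk_bound le_rfl hD K.Psi_hat
  obtain ⟨C3, ε, hε, hC3⟩ := smoothing hD K.Psi_hat 10
  set V : ℝ≥0∞ := volume (closedBall (0 : E 2) 3) with hV
  have hVf : V ≠ ⊤ := (isCompact_closedBall (0 : E 2) 3).measure_lt_top.ne
  obtain ⟨ρ, hρ⟩ : ∃ ρ : ℝ≥0∞, ρ = ENNReal.ofReal ((2 : ℝ) ^ (-(ε / 2))) := ⟨_, rfl⟩
  have hρ1 : ρ < 1 := by
    rw [hρ, ← ENNReal.ofReal_one]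
    refine (ENNReal.ofReal_lt_ofReal_iff one_pos).2 ?_
    exact Real.rpow_lt_one_of_one_lt_of_neg (by norm_num) (by linarith)
  refine ⟨C1 ^ 2 * V ^ 2, 4 * C2, (C3 : ℝ≥0∞) ^ (1 / 2 : ℝ) * (1 - ρ)⁻¹, ρ,
    ENNReal.mul_ne_top (ENNReal.pow_ne_top ENNReal.coe_ne_top) (ENNReal.pow_ne_top hVf),
    ENNReal.mul_ne_top (by norm_num) ENNReal.coe_ne_top,
    ENNReal.mul_ne_top (ENNReal.rpow_ne_top_of_nonneg (by norm_num) ENNReal.coe_ne_top)
      (ENNReal.inv_ne_top.2 (tsub_pos_of_lt hρ1).ne'), hρ1, fun M0 g hg hg0 hg1 hgs => ?_⟩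
  have habs : ∀ y, |g y| ≤ 1 := fun y => by
    rw [abs_of_nonneg (hg0 y)]
    exact hg1 y
  have hB : Bdd 10 g := ⟨hg.measurable, ⟨1, habs⟩, hgs⟩
  have hC : ∀ y, ‖g y‖ ≤ 1 := habs
  choose W hWm hWb hWx hWi using fun m : ℕ => hC3 m g 1 hB habs 0 (by norm_num)
  -- the pieces
  set f : ℕ → E 2 → ℝ≥0∞ := fun m x =>
    if m < M0 then 2 * Lk (SphO_D K) (m + 1) g x ^ (1 / 2 : ℝ) else W (m + 1) x with hf
  have hfm : ∀ m, Measurable (f m) := by
    intro m
    by_cases hm : m < M0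
    · simp only [hf, if_pos hm]
      exact ((measurable_Lk hd0 hD (m + 1) hB).pow_const _).const_mul _
    · simp only [hf, if_neg hm]
      exact hWm (m + 1)
  have hfp : ∀ (m : ℕ) (x : E 2), ∀ t ∈ Icc (1 : ℝ) 2,
      ‖sm (cv (SphO_D K) (sc (m + 1)) g) t x‖ₑ ≤ f m x := by
    intro m x t ht
    have ht' : t ∈ Icc (1 / 2 : ℝ) (5 / 2) := ⟨by linarith [ht.1], by linarith [ht.2]⟩
    by_cases hm : m < M0
    · simp only [hf, if_pos hm]
      exact Lk_sup hd0 hD (m + 1) hB x ht'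
    · simp only [hf, if_neg hm]
      exact SphO_two hD (m + 1) hB x fun c hc => hWx (m + 1) x t ht' c hc
  have hpt : ∀ x : E 2, (⨆ t : ℝ, ⨆ _ : t ∈ Icc (1 : ℝ) 2, ENNReal.ofReal (sm g t x)) ≤
      C1 * SphO_A g x + ∑' m, f m x := by
    intro x
    refine iSup₂_le fun t ht => ?_
    have h1 : Filter.Tendsto (fun M => ENNReal.ofReal (sm (cv K.Psi (sc M) g) t x)) Filter.atTop
        (nhds (ENNReal.ofReal (sm g t x))) :=
      (ENNReal.continuous_ofReal.tendsto _).comp (SphO_sm_lim hd0 K hg hC t x)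
    refine le_of_tendsto' h1 fun M => ?_
    rw [SphO_sm_tele hd0 K hg]
    calc ENNReal.ofReal (sm (cv K.Psi 1 g) t x +
          ∑ m ∈ Finset.range M, sm (cv (SphO_D K) (sc (m + 1)) g) t x)
        ≤ ‖sm (cv K.Psi 1 g) t x +
          ∑ m ∈ Finset.range M, sm (cv (SphO_D K) (sc (m + 1)) g) t x‖ₑ := by
          rw [← ofReal_norm]
          exact ENNReal.ofReal_le_ofReal (le_abs_self _)
      _ ≤ ‖sm (cv K.Psi 1 g) t x‖ₑ +
          ∑ m ∈ Finset.range M, ‖sm (cv (SphO_D K) (sc (m + 1)) g) t x‖ₑ :=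
          (enorm_add_le _ _).trans (add_le_add le_rfl (enorm_sum_le _ _))
      _ ≤ C1 * SphO_A g x + ∑' m, f m x := by
          refine add_le_add (hC1 g hg t x ht) ?_
          refine le_trans ?_ (ENNReal.sum_le_tsum (Finset.range M))
          exact Finset.sum_le_sum fun m _ => hfp m x t ht
  -- the norms of the pieces
  have hsub : closedBall (0 : E 2) 1 ⊆ closedBall (0 : E 2) (√2) := by
    refine closedBall_subset_closedBall ?_
    rw [Real.one_le_sqrt]
    norm_num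
  have hlo : ∀ m < M0, (∫⁻ x in closedBall (0 : E 2) 1, f m x ^ 2) ^ (1 / 2 : ℝ) ≤
      (4 * C2 * ∫⁻ y, ‖g y‖ₑ ^ 2) ^ (1 / 2 : ℝ) := by
    intro m hm
    refine ENNReal.rpow_le_rpow ?_ (by norm_num)
    refine (setLIntegral_le_lintegral _ _).trans ?_
    calc ∫⁻ x, f m x ^ 2 = ∫⁻ x, 4 * Lk (SphO_D K) (m + 1) g x := by
          refine lintegral_congr fun x => ?_
          simp only [hf, if_pos hm]
          rw [mul_pow, ← ENNReal.rpow_natCast (Lk (SphO_D K) (m + 1) g x ^ (1 / 2 : ℝ)),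
            ← ENNReal.rpow_mul]
          norm_num
      _ = 4 * ∫⁻ x, Lk (SphO_D K) (m + 1) g x :=
          lintegral_const_mul _ (measurable_Lk hd0 hD (m + 1) hB)
      _ ≤ 4 * (C2 * ∫⁻ y, ‖g y‖ₑ ^ 2) := by
          refine mul_le_mul_right ((hC2 (m + 1) 10 g hB).trans (le_of_eq ?_)) _
          norm_num
      _ = 4 * C2 * ∫⁻ y, ‖g y‖ₑ ^ 2 := by rw [mul_assoc]
  have hhi : ∀ m : ℕ, (∫⁻ x in closedBall (0 : E 2) 1, f (m + M0) x ^ 2) ^ (1 / 2 : ℝ) ≤
      (C3 : ℝ≥0∞) ^ (1 / 2 : ℝ) * ρ ^ M0 * ρ ^ m := by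
    intro m
    have h1 : ∫⁻ x in closedBall (0 : E 2) 1, f (m + M0) x ^ 2 ≤
        C3 * ENNReal.ofReal ((2 : ℝ) ^ (-(ε * ((m + M0 + 1 : ℕ) : ℝ)))) := by
      refine (lintegral_mono_set hsub).trans ?_
      have h2 := hWi (m + M0 + 1)
      rw [one_pow, mul_one] at h2
      refine le_trans (le_of_eq ?_) h2
      refine lintegral_congr fun x => ?_
      simp only [hf, if_neg (show ¬ m + M0 < M0 by omega)]
    refine (ENNReal.rpow_le_rpow h1 (by norm_num)).trans ?_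
    rw [ENNReal.mul_rpow_of_nonneg _ _ (by norm_num), mul_assoc, ← pow_add]
    refine mul_le_mul_right ?_ _
    have h3 : ENNReal.ofReal ((2 : ℝ) ^ (-(ε * ((m + M0 + 1 : ℕ) : ℝ)))) ^ (1 / 2 : ℝ) =
        ρ ^ (m + M0 + 1) := by
      rw [hρ, ENNReal.ofReal_rpow_of_pos (Real.rpow_pos_of_pos (by norm_num) _),
        ← ENNReal.ofReal_pow (Real.rpow_pos_of_pos (by norm_num) _).le]
      congr 1
      rw [← Real.rpow_natCast, ← Real.rpow_mul (by norm_num), ← Real.rpow_mul (by norm_num)]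
      congr 1
      ring
    rw [h3, show m + M0 + 1 = M0 + m + 1 by ring, pow_succ]
    calc ρ ^ (M0 + m) * ρ ≤ ρ ^ (M0 + m) * 1 := mul_le_mul_right hρ1.le _
      _ = ρ ^ (M0 + m) := mul_one _
  have hmink := minkowski (μ := volume.restrict (closedBall (0 : E 2) 1)) hfm
  have hsum : ∑' m, (∫⁻ x in closedBall (0 : E 2) 1, f m x ^ 2) ^ (1 / 2 : ℝ) ≤
      M0 * (4 * C2 * ∫⁻ y, ‖g y‖ₑ ^ 2) ^ (1 / 2 : ℝ) +
        (C3 : ℝ≥0∞) ^ (1 / 2 : ℝ) * (1 - ρ)⁻¹ * ρ ^ M0 := by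
    rw [← Summable.sum_add_tsum_nat_add' (k := M0) ENNReal.summable]
    refine add_le_add ?_ ?_
    · refine (Finset.sum_le_sum fun m hm => hlo m (Finset.mem_range.1 hm)).trans ?_
      rw [Finset.sum_const, nsmul_eq_mul, Finset.card_range]
    · refine (ENNReal.tsum_le_tsum hhi).trans (le_of_eq ?_)
      rw [ENNReal.tsum_mul_left, ENNReal.tsum_geometric]
      ring
  have h8 := hmink.trans hsum
  have h9 : ∀ a : ℝ≥0∞, (a ^ (1 / 2 : ℝ)) ^ 2 = a := by
    intro a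
    rw [← ENNReal.rpow_natCast, ← ENNReal.rpow_mul]
    norm_num
  calc ∫⁻ x in closedBall (0 : E 2) 1,
        (⨆ t : ℝ, ⨆ _ : t ∈ Icc (1 : ℝ) 2, ENNReal.ofReal (sm g t x)) ^ 2
      ≤ ∫⁻ x in closedBall (0 : E 2) 1, 4 * ((C1 * SphO_A g x) ^ 2 + (∑' m, f m x) ^ 2) :=
        lintegral_mono fun x => (pow_le_pow_left' (hpt x) 2).trans (SphO_sq _ _)
    _ = 4 * (∫⁻ x in closedBall (0 : E 2) 1, (C1 * SphO_A g x) ^ 2 + (∑' m, f m x) ^ 2) :=
        lintegral_const_mul' _ _ (by norm_num)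
    _ = 4 * ((∫⁻ x in closedBall (0 : E 2) 1, (C1 * SphO_A g x) ^ 2) +
          ∫⁻ x in closedBall (0 : E 2) 1, (∑' m, f m x) ^ 2) := by
        rw [lintegral_add_left (((SphO_A_meas hg).const_mul _).pow_const 2)]
    _ ≤ 4 * (C1 ^ 2 * V ^ 2 * (∫⁻ y, ‖g y‖ₑ ^ 2) +
          (M0 * (4 * C2 * ∫⁻ y, ‖g y‖ₑ ^ 2) ^ (1 / 2 : ℝ) +
            (C3 : ℝ≥0∞) ^ (1 / 2 : ℝ) * (1 - ρ)⁻¹ * ρ ^ M0) ^ 2) := by
        have h10 : ∫⁻ x in closedBall (0 : E 2) 1, (C1 * SphO_A g x) ^ 2 ≤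
            C1 ^ 2 * V ^ 2 * ∫⁻ y, ‖g y‖ₑ ^ 2 := by
          refine (setLIntegral_le_lintegral _ _).trans ?_
          simp only [mul_pow]
          rw [lintegral_const_mul' _ _ (ENNReal.pow_ne_top ENNReal.coe_ne_top), mul_assoc]
          exact mul_le_mul_right (SphO_A_sq hg) _
        have h11 : ∫⁻ x in closedBall (0 : E 2) 1, (∑' m, f m x) ^ 2 ≤
            (M0 * (4 * C2 * ∫⁻ y, ‖g y‖ₑ ^ 2) ^ (1 / 2 : ℝ) +
              (C3 : ℝ≥0∞) ^ (1 / 2 : ℝ) * (1 - ρ)⁻¹ * ρ ^ M0) ^ 2 := by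
          rw [← h9 (∫⁻ x in closedBall (0 : E 2) 1, (∑' m, f m x) ^ 2)]
          exact pow_le_pow_left' h8 2
        exact mul_le_mul_right (add_le_add h10 h11) _

/-- The circular maximal function of a small open set is small. -/
theorem max_open2 (K : Ker 2) {e : ℝ≥0∞} (he : e ≠ 0) : ∃ s : ℝ≥0∞, s ≠ 0 ∧ ∀ U : Set (E 2),
    IsOpen U → U ⊆ closedBall 0 10 → volume U ≤ s →
      ∫⁻ x in closedBall (0 : E 2) 1, (⨆ t : ℝ, ⨆ _ : t ∈ Icc (1 : ℝ) 2,
        sigma 2 {w : Sph 2 | x - t • (w : E 2) ∈ U}) ^ 2 ≤ e := by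
  have hd0 : 0 < 2 := by norm_num
  have hpos : 0 < e := pos_iff_ne_zero.2 he
  obtain ⟨C1, C2, C3, ρ, hC1, hC2, hC3, hρ, hmain⟩ := SphO_main K
  -- the number of the low frequencies
  have hM : Filter.Tendsto (fun M : ℕ => 4 * (C3 * ρ ^ M) ^ 2) Filter.atTop (nhds 0) := by
    have h1 := ENNReal.Tendsto.const_mul (a := C3)
      (ENNReal.tendsto_pow_atTop_nhds_zero_of_lt_one hρ) (Or.inr hC3)
    have h2 := ENNReal.Tendsto.pow (n := 2) h1
    have h3 := ENNReal.Tendsto.const_mul (a := 4) h2 (Or.inr (by norm_num))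
    rw [mul_zero, zero_pow two_ne_zero, mul_zero] at h3
    exact h3
  obtain ⟨M0, hM0⟩ := (hM.eventually_lt_const hpos).exists
  -- the size
  have hs : Filter.Tendsto (fun n : ℕ => 4 * (C1 * (1 / 2 : ℝ≥0∞) ^ n +
      (M0 * (C2 * (1 / 2 : ℝ≥0∞) ^ n) ^ (1 / 2 : ℝ) + C3 * ρ ^ M0) ^ 2)) Filter.atTop
      (nhds (4 * (C3 * ρ ^ M0) ^ 2)) := by
    have h0 : Filter.Tendsto (fun n : ℕ => (1 / 2 : ℝ≥0∞) ^ n) Filter.atTop (nhds 0) :=
      ENNReal.tendsto_pow_atTop_nhds_zero_of_lt_one (by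
        rw [one_div]
        exact ENNReal.inv_lt_one.2 (by norm_num))
    have h1 := ENNReal.Tendsto.const_mul (a := C1) h0 (Or.inr hC1)
    have h2 := ENNReal.Tendsto.const_mul (a := C2) h0 (Or.inr hC2)
    rw [mul_zero] at h1 h2
    have h3 := (ENNReal.continuous_rpow_const (y := 1 / 2)).tendsto 0 |>.comp h2
    rw [ENNReal.zero_rpow_of_pos (by norm_num)] at h3
    have h4 := ENNReal.Tendsto.const_mul (a := (M0 : ℝ≥0∞)) h3
      (Or.inr (ENNReal.natCast_ne_top M0))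
    rw [mul_zero] at h4
    have h5 := h4.add_const (C3 * ρ ^ M0)
    rw [zero_add] at h5
    have h6 := h1.add (ENNReal.Tendsto.pow (n := 2) h5)
    rw [zero_add] at h6
    exact ENNReal.Tendsto.const_mul (a := 4) h6 (Or.inr (by norm_num))
  obtain ⟨n, hn⟩ := (hs.eventually_lt_const hM0).exists
  refine ⟨(1 / 2 : ℝ≥0∞) ^ n, (ENNReal.pow_pos (by norm_num) n).ne', fun U hU hU10 hUv => ?_⟩
  have hpow : ∀ x : E 2, (⨆ t : ℝ, ⨆ _ : t ∈ Icc (1 : ℝ) 2,
      sigma 2 {w : Sph 2 | x - t • (w : E 2) ∈ U}) ^ 2 =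
      ⨆ n : ℕ, (⨆ t : ℝ, ⨆ _ : t ∈ Icc (1 : ℝ) 2, ENNReal.ofReal (sm (SphO_g U n) t x)) ^ 2 := by
    intro x
    rw [SphO_sup hd0 hU x, SphO_pow]
  simp_rw [hpow]
  rw [lintegral_iSup]
  · refine iSup_le fun k => ?_
    refine (hmain M0 _ (SphO_g_cont U k) (SphO_g_nonneg U k) (SphO_g_le U k)
      fun x hx => SphO_g_zero k fun hxU => ?_).trans (le_trans ?_ hn.le)
    · have h1 := hU10 hxU
      rw [mem_closedBall_zero_iff] at h1
      linarith
    · have h2 : ∫⁻ y, ‖SphO_g U k y‖ₑ ^ 2 ≤ (1 / 2 : ℝ≥0∞) ^ n := by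
        refine le_trans ?_ hUv
        rw [← lintegral_indicator_one hU.measurableSet]
        refine lintegral_mono fun x => ?_
        have h1 : U.indicator (1 : E 2 → ℝ≥0∞) x = ⨆ n, ENNReal.ofReal (SphO_g U n x) :=
          (SphO_iSup hU x).symm
        rw [h1]
        refine le_trans ?_ (le_iSup _ k)
        rw [Real.enorm_of_nonneg (SphO_g_nonneg U k x), sq]
        calc ENNReal.ofReal (SphO_g U k x) * ENNReal.ofReal (SphO_g U k x) ≤
              ENNReal.ofReal (SphO_g U k x) * 1 := by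
                gcongr
                exact ENNReal.ofReal_le_one.2 (SphO_g_le U k x)
          _ = ENNReal.ofReal (SphO_g U k x) := mul_one _
      refine mul_le_mul_right (add_le_add (mul_le_mul_right h2 _) (pow_le_pow_left' ?_ 2)) _
      refine add_le_add (mul_le_mul_right ?_ _) le_rfl
      exact ENNReal.rpow_le_rpow (mul_le_mul_right h2 _) (by norm_num)
  · exact fun k => (SphO_meas hd0 (SphO_g_cont U k)).pow_const 2
  · intro k m hkm x
    exact pow_le_pow_left' (SphO_mono hd0 U x hkm) 2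

end Pool.Agent.Lib.MP_ff3fe0_an_SPH2
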